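import Pool.Agent.H504.MC.Defs

/-!
# Rules for motivic measures
-/

set_option autoImplicit false

namespace Pool.Agent.H504.MC

open MvPolynomial

variable {ι κ : Type}

lemma cond_ext {X Y : Cond ι}
    (h : ∀ (K : Type) [Field K] (x : ι → K), X K x ↔ Y K x) : X = Y := by
  funext K i1 x
  exact propext (h K x)

namespace Measure

variable {V : Type} [AddCommGroup V] {L : V ≃+ V} (m : Measure V L)

lemma mu_congr [Finite ι] {φ ψ : Form ι}
    (h : ∀ (K : Type) [Field K] (x : ι → K), φ.holds x ↔ ψ.holds x) :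
    m.μ ι φ = m.μ ι ψ := by
  refine m.bij ι ι φ ψ (fun i => X i) fun K _ => ?_
  have h1 : (fun (x : ι → K) (k : ι) => aeval x (X k : MvPolynomial ι ℤ)) = id := by
    funext x k
    simp
  rw [h1]
  have h2 : {x : ι → K | φ.holds x} = {y | ψ.holds y} := Set.ext fun x => h K x
  rw [h2]
  exact Set.bijOn_id _

open Classical in
/-- the measure of a constructible condition -/
noncomputable def val [Finite ι] (X : Cond ι) : V :=
  if h : IsCon X then m.μ ι h.choose else 0

lemma val_rep [Finite ι] {X : Cond ι} {φ : Form ι} (h : Rep φ X) : m.val X = m.μ ι φ := by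
  have hX : IsCon X := ⟨φ, h⟩
  rw [val, dif_pos hX]
  exact m.mu_congr fun K _ x => (hX.choose_spec K x).symm.trans (h K x)

lemma val_congr [Finite ι] {X Y : Cond ι}
    (h : ∀ (K : Type) [Field K] (x : ι → K), X K x ↔ Y K x) : m.val X = m.val Y := by
  rw [cond_ext h]

lemma val_split [Finite ι] {X Z : Cond ι} (hX : IsCon X) (hZ : IsCon Z) :
    m.val X = m.val (fun K _ x => X K x ∧ Z K x) + m.val (fun K _ x => X K x ∧ ¬ Z K x) := by
  obtain ⟨φ, hφ⟩ := hX
  obtain ⟨ψ, hψ⟩ := hZ
  rw [m.val_rep hφ, m.add ι φ ψ]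
  congr 1
  · exact (m.val_rep fun K _ x => and_congr (hφ K x) (hψ K x)).symm
  · exact (m.val_rep fun K _ x => and_congr (hφ K x) (not_congr (hψ K x))).symm

lemma val_bij [Finite ι] [Finite κ] {X : Cond ι} {Y : Cond κ} (hX : IsCon X) (hY : IsCon Y)
    (g : κ → Fun ι) (hg : ∀ k, IsPoly (g k))
    (maps : ∀ (K : Type) [Field K] (x : ι → K), X K x → Y K fun k => g k K x)
    (inj : ∀ (K : Type) [Field K] (x x' : ι → K), X K x → X K x' →
      (∀ k, g k K x = g k K x') → x = x')
    (surj : ∀ (K : Type) [Field K] (y : κ → K), Y K y →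
      ∃ x, X K x ∧ ∀ k, g k K x = y k) : m.val X = m.val Y := by
  obtain ⟨φ, hφ⟩ := hX
  obtain ⟨ψ, hψ⟩ := hY
  choose p hp using hg
  rw [m.val_rep hφ, m.val_rep hψ]
  refine m.bij ι κ φ ψ p fun K _ => ?_
  have h1 : (fun (x : ι → K) (k : κ) => aeval x (p k)) = fun x k => g k K x := by
    funext x k
    exact (hp k K x).symm
  rw [h1]
  refine ⟨fun x hx => (hψ K _).1 (maps K x ((hφ K x).2 hx)), fun x hx x' hx' e => ?_,
    fun y hy => ?_⟩
  · exact inj K x x' ((hφ K x).2 hx) ((hφ K x').2 hx') fun k => congrFun e k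
  · obtain ⟨x, hx, e⟩ := surj K y ((hψ K y).2 hy)
    exact ⟨x, (hφ K x).1 hx, funext e⟩

lemma val_line [Finite ι] {X : Cond ι} (hX : IsCon X) :
    m.val (fun K _ (x : Option ι → K) => X K fun i => x (some i)) = L (m.val X) := by
  have h := con_res hX (some : ι → Option ι)
  obtain ⟨φ, hφ⟩ := hX
  obtain ⟨ψ, hψ⟩ := h
  rw [m.val_rep hφ, m.val_rep hψ]
  exact m.line ι φ ψ fun K _ x => (hψ K x).symm.trans (hφ K _)

lemma val_false [Finite ι] {X : Cond ι}
    (h : ∀ (K : Type) [Field K] (x : ι → K), ¬ X K x) : m.val X = 0 := by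
  have hX : IsCon X := con_congr (con_const False) fun K _ x => by simp [h K x]
  have h1 := m.val_split hX hX
  have h2 : m.val (fun K _ x => X K x ∧ X K x) = m.val X := m.val_congr fun K _ x => by tauto
  have h3 : m.val (fun K _ x => X K x ∧ ¬ X K x) = m.val X :=
    m.val_congr fun K _ x => by
      have := h K x
      tauto
  rw [h2, h3] at h1
  exact (add_eq_left.mp h1.symm)

/-- product with the punctured line -/
lemma val_gm [Finite ι] {X : Cond ι} (hX : IsCon X) :
    m.val (fun K _ (x : Option ι → K) => (X K fun i => x (some i)) ∧ x none ≠ 0) =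
      L (m.val X) - m.val X := by
  have h1 := m.val_split (con_res hX (some : ι → Option ι))
    (con_eq (isPoly_var (none : Option ι)) isPoly_zero)
  rw [m.val_line hX] at h1
  have h2 : m.val (fun K _ (x : Option ι → K) => (X K fun i => x (some i)) ∧ x none = 0) =
      m.val X := by
    refine m.val_bij (con_and (con_res hX _) (con_eq (isPoly_var _) isPoly_zero)) hX
      (fun i _ _ x => x (some i)) (fun i => isPoly_var _) (fun K _ x hx => hx.1) ?_ ?_
    · intro K _ x x' hx hx' h
      funext o
      cases o with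
      | none => rw [hx.2, hx'.2]
      | some i => exact h i
    · intro K _ y hy
      exact ⟨fun o => o.elim 0 y, ⟨hy, rfl⟩, fun k => rfl⟩
  rw [h2] at h1
  rw [h1]
  abel

/-- product with an affine space -/
lemma val_aff [Finite ι] (κ : Type) [Finite κ] {X : Cond ι} (hX : IsCon X) :
    m.val (fun K _ (x : ι ⊕ κ → K) => X K fun i => x (.inl i)) =
      (⇑L)^[Nat.card κ] (m.val X) := by
  revert ι X
  refine Finite.induction_empty_option (P := fun κ => ∀ [Finite κ] {ι : Type} [Finite ι]
    {X : Cond ι}, IsCon X → m.val (fun K _ (x : ι ⊕ κ → K) => X K fun i => x (.inl i)) =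
      (⇑L)^[Nat.card κ] (m.val X)) ?_ ?_ ?_ κ
  · intro κ κ' e ih _ ι _ X hX
    have : Finite κ := Finite.of_equiv _ e.symm
    rw [← Nat.card_congr e, ← ih hX]
    refine m.val_bij (con_res hX _) (con_res hX _)
      (fun k _ _ x => x (k.map id e)) (fun k => isPoly_var _) (fun K _ x hx => hx) ?_ ?_
    · intro K _ x x' hx hx' h
      funext o
      rcases o with i | k
      · exact h (.inl i)
      · have := h (.inr (e.symm k))
        simpa using this
    · intro K _ y hy
      refine ⟨fun o => y (o.map id e.symm), hy, fun k => ?_⟩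
      rcases k with i | k <;> simp
  · intro _ ι _ X hX
    rw [Nat.card_of_isEmpty, Function.iterate_zero, id]
    refine m.val_bij (con_res hX _) hX (fun i _ _ x => x (.inl i)) (fun i => isPoly_var _)
      (fun K _ x hx => hx) ?_ ?_
    · intro K _ x x' hx hx' h
      funext o
      rcases o with i | k
      · exact h i
      · exact k.elim
    · intro K _ y hy
      exact ⟨fun o => o.elim y fun k => k.elim, hy, fun k => rfl⟩
  · intro κ _ ih _ ι _ X hX
    have hc : Nat.card (Option κ) = Nat.card κ + 1 := Finite.card_option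
    rw [hc, Function.iterate_succ_apply', ← ih hX, ← m.val_line (con_res hX _)]
    refine m.val_bij (con_res hX _) (con_res (con_res hX _) _)
      (fun k _ _ x => x (k.elim (.inr none) (Sum.map id some))) (fun k => isPoly_var _)
      (fun K _ x hx => hx) ?_ ?_
    · intro K _ x x' hx hx' h
      funext o
      rcases o with i | (_ | k)
      · exact h (some (.inl i))
      · exact h none
      · exact h (some (.inr k))
    · intro K _ y hy
      refine ⟨fun o => y (o.elim (fun i => some (.inl i)) fun k => k.elim none fun k =>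
        some (.inr k)), hy, fun k => ?_⟩
      rcases k with _ | (i | k) <;> rfl

end Measure

/-- A subgroup of the value group that is saturated: it is stable under `L` and its inverse, and
the maps `L ^ k - 1`, `k ≥ 1`, of the quotient are injective. -/
structure Saturated {V : Type} [AddCommGroup V] (L : V ≃+ V) (S : AddSubgroup V) : Prop where
  line : ∀ v, L v ∈ S ↔ v ∈ S
  pow : ∀ (k : ℕ) (v : V), (⇑L)^[k + 1] v - v ∈ S → v ∈ S

section good

variable {V : Type} [AddCommGroup V] {L : V ≃+ V} (m : Measure V L) (S : AddSubgroup V)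

/-- the condition is constructible and its measure is in `S` -/
def Good [Finite ι] (X : Cond ι) : Prop := IsCon X ∧ m.val X ∈ S

variable {m S}

lemma Good.congr [Finite ι] {X Y : Cond ι} (hX : Good m S X)
    (h : ∀ (K : Type) [Field K] (x : ι → K), X K x ↔ Y K x) : Good m S Y := by
  rwa [← cond_ext h]

lemma good_congr [Finite ι] {X Y : Cond ι}
    (h : ∀ (K : Type) [Field K] (x : ι → K), X K x ↔ Y K x) :
    Good m S X ↔ Good m S Y := by
  rw [← cond_ext h]

lemma good_false [Finite ι] {X : Cond ι}
    (h : ∀ (K : Type) [Field K] (x : ι → K), ¬ X K x) : Good m S X := by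
  refine ⟨con_congr (con_const False) fun K _ x => by simp [h K x], ?_⟩
  rw [m.val_false h]
  exact S.zero_mem

/-- from `X ∧ Z` and `X ∧ ¬ Z` to `X` -/
lemma Good.glue [Finite ι] {X Z : Cond ι} (hX : IsCon X) (hZ : IsCon Z)
    (h1 : Good m S fun K _ x => X K x ∧ Z K x) (h2 : Good m S fun K _ x => X K x ∧ ¬ Z K x) :
    Good m S X := by
  refine ⟨hX, ?_⟩
  rw [m.val_split hX hZ]
  exact S.add_mem h1.2 h2.2

/-- from `X` and `X ∧ Z` to `X ∧ ¬ Z` -/
lemma Good.diff [Finite ι] {X Z : Cond ι} (hZ : IsCon Z) (hX : Good m S X)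
    (h1 : Good m S fun K _ x => X K x ∧ Z K x) :
    Good m S fun K _ x => X K x ∧ ¬ Z K x := by
  refine ⟨con_and hX.1 (con_not hZ), ?_⟩
  have h := m.val_split hX.1 hZ
  have : m.val (fun K _ x => X K x ∧ ¬ Z K x) =
      m.val X - m.val (fun K _ x => X K x ∧ Z K x) := by
    rw [h]
    abel
  rw [this]
  exact S.sub_mem hX.2 h1.2

/-- from `X` and `X ∧ ¬ Z` to `X ∧ Z` -/
lemma Good.inter [Finite ι] {X Z : Cond ι} (hZ : IsCon Z) (hX : Good m S X)
    (h1 : Good m S fun K _ x => X K x ∧ ¬ Z K x) :
    Good m S fun K _ x => X K x ∧ Z K x :=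
  (Good.diff (con_not hZ) hX h1).congr fun K _ x => by rw [not_not]

lemma good_bij [Finite ι] [Finite κ] {X : Cond ι} {Y : Cond κ} (hX : IsCon X) (hY : IsCon Y)
    (g : κ → Fun ι) (hg : ∀ k, IsPoly (g k))
    (maps : ∀ (K : Type) [Field K] (x : ι → K), X K x → Y K fun k => g k K x)
    (inj : ∀ (K : Type) [Field K] (x x' : ι → K), X K x → X K x' →
      (∀ k, g k K x = g k K x') → x = x')
    (surj : ∀ (K : Type) [Field K] (y : κ → K), Y K y →
      ∃ x, X K x ∧ ∀ k, g k K x = y k) : Good m S X ↔ Good m S Y := by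
  rw [Good, Good, m.val_bij hX hY g hg maps inj surj]
  simp only [hX, hY, true_and]

lemma good_line [Finite ι] (hS : Saturated L S) {X : Cond ι} (hX : IsCon X) :
    Good m S (fun K _ (x : Option ι → K) => X K fun i => x (some i)) ↔ Good m S X := by
  have h := con_res hX (some : ι → Option ι)
  rw [Good, Good, m.val_line hX, hS.line]
  simp only [hX, h, true_and]

lemma sat_gm (hS : Saturated L S) (v : V) : L v - v ∈ S ↔ v ∈ S :=
  ⟨fun h => hS.pow 0 v (by simpa using h), fun h => S.sub_mem ((hS.line v).2 h) h⟩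

lemma good_gm [Finite ι] (hS : Saturated L S) {X : Cond ι} (hX : IsCon X) :
    Good m S (fun K _ (x : Option ι → K) => (X K fun i => x (some i)) ∧ x none ≠ 0) ↔
      Good m S X := by
  have h := con_and (con_res hX (some : ι → Option ι))
    (con_ne (isPoly_var (none : Option ι)) isPoly_zero)
  rw [Good, Good, m.val_gm hX, sat_gm hS]
  simp only [hX, h, true_and]

/-- product with a power of the punctured line -/
lemma good_gms [Finite ι] (hS : Saturated L S) (κ : Type) [Finite κ] {X : Cond ι} (hX : IsCon X) :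
    Good m S (fun K _ (x : ι ⊕ κ → K) => (X K fun i => x (.inl i)) ∧ ∀ k, x (.inr k) ≠ 0) ↔
      Good m S X := by
  revert ι X
  refine Finite.induction_empty_option (P := fun κ => ∀ [Finite κ] {ι : Type} [Finite ι]
    {X : Cond ι}, IsCon X → (Good m S (fun K _ (x : ι ⊕ κ → K) =>
      (X K fun i => x (.inl i)) ∧ ∀ k, x (.inr k) ≠ 0) ↔ Good m S X)) ?_ ?_ ?_ κ
  · intro κ κ' e ih _ ι _ X hX
    have : Finite κ := Finite.of_equiv _ e.symm
    rw [← ih hX]
    refine good_bij (con_and (con_res hX _) (con_forall fun k => con_ne (isPoly_var _) isPoly_zero))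
      (con_and (con_res hX _) (con_forall fun k => con_ne (isPoly_var _) isPoly_zero))
      (fun k _ _ x => x (k.map id e)) (fun k => isPoly_var _)
      (fun K _ x hx => ⟨hx.1, fun k => hx.2 _⟩) ?_ ?_
    · intro K _ x x' hx hx' h
      funext o
      rcases o with i | k
      · exact h (.inl i)
      · have := h (.inr (e.symm k))
        simpa using this
    · intro K _ y hy
      refine ⟨fun o => y (o.map id e.symm), ⟨hy.1, fun k => hy.2 _⟩, fun k => ?_⟩
      rcases k with i | k <;> simp
  · intro _ ι _ X hX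
    refine good_bij (con_and (con_res hX _) (con_forall fun k => con_ne (isPoly_var _) isPoly_zero))
      hX (fun i _ _ x => x (.inl i)) (fun i => isPoly_var _)
      (fun K _ x hx => hx.1) ?_ ?_
    · intro K _ x x' hx hx' h
      funext o
      rcases o with i | k
      · exact h i
      · exact k.elim
    · intro K _ y hy
      exact ⟨fun o => o.elim y fun k => k.elim, ⟨hy, fun k => k.elim⟩, fun k => rfl⟩
  · intro κ _ ih _ ι _ X hX
    refine Iff.trans (Iff.trans ?_ (good_gm hS (con_and (con_res hX (Sum.inl : ι → ι ⊕ κ))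
      (con_forall fun k => con_ne (isPoly_var (.inr k)) isPoly_zero)))) (ih hX)
    refine good_bij (con_and (con_res hX _) (con_forall fun k => con_ne (isPoly_var _) isPoly_zero))
      (con_and (con_and (con_res hX _)
        (con_forall fun k => con_ne (isPoly_var _) isPoly_zero)) (con_ne (isPoly_var _) isPoly_zero))
      (fun k _ _ x => x (k.elim (.inr none) (Sum.map id some))) (fun k => isPoly_var _)
      (fun K _ x hx => ⟨⟨hx.1, fun k => hx.2 _⟩, hx.2 _⟩) ?_ ?_
    · intro K _ x x' hx hx' h
      funext o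
      rcases o with i | (_ | k)
      · exact h (some (.inl i))
      · exact h none
      · exact h (some (.inr k))
    · intro K _ y hy
      refine ⟨fun o => y (o.elim (fun i => some (.inl i)) fun k => k.elim none fun k =>
        some (.inr k)), ⟨hy.1.1, fun k => ?_⟩, fun k => ?_⟩
      · rcases k with _ | k
        · exact hy.2
        · exact hy.1.2 k
      · rcases k with _ | (i | k) <;> rfl

/-- product with an affine space -/
lemma good_aff [Finite ι] (hS : Saturated L S) (κ : Type) [Finite κ] {X : Cond ι} (hX : IsCon X) :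
    Good m S (fun K _ (x : ι ⊕ κ → K) => X K fun i => x (.inl i)) ↔ Good m S X := by
  have h := con_res hX (Sum.inl : ι → ι ⊕ κ)
  have key : ∀ (n : ℕ) (v : V), (⇑L)^[n] v ∈ S ↔ v ∈ S := by
    intro n
    induction n with
    | zero => intro v; exact Iff.rfl
    | succ n ih => intro v; rw [Function.iterate_succ_apply', hS.line, ih]
  rw [Good, Good, m.val_aff κ hX, key]
  simp only [hX, h, true_and]

end good

end Pool.Agent.H504.MC
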