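import Pool.Agent.H504.MC.Objects

/-!
# Points and lines in the projective plane
-/

set_option autoImplicit false

namespace Pool.Agent.H504.MC

/-- the points of the configuration -/
inductive Pt (α G : Type) : Type
  | u : Pt α G
  | D : Pt α G
  | E : α → Pt α G
  | p : G → Pt α G
  | q : G → Pt α G

/-- the lines of the configuration -/
inductive Ln (α G : Type) : Type
  | d : Ln α G
  | J : Ln α G
  | V : α → Ln α G
  | H : α → Ln α G
  | k : G → Ln α G

section finite

variable {α G : Type}

instance [Finite α] [Finite G] : Finite (Pt α G) := by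
  refine Finite.of_injective (β := Option (Option (α ⊕ (G ⊕ G))))
    (fun o => match o with
      | .u => none
      | .D => some none
      | .E i => some (some (.inl i))
      | .p k => some (some (.inr (.inl k)))
      | .q k => some (some (.inr (.inr k)))) ?_
  intro a b h
  cases a <;> cases b <;> simp_all

instance [Finite α] [Finite G] : Finite (Ln α G) := by
  refine Finite.of_injective (β := Option (Option (α ⊕ (α ⊕ G))))
    (fun o => match o with
      | .d => none
      | .J => some none
      | .V i => some (some (.inl i))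
      | .H k => some (some (.inr (.inl k)))
      | .k k => some (some (.inr (.inr k)))) ?_
  intro a b h
  cases a <;> cases b <;> simp_all

end finite

section defs

variable {α G K : Type} [Field K] (g : G → Gate α)

/-- coordinates of the point of an equation, first kind -/
def gp (t : α → K) (x y : K) : Gate α → Fin 3 → K
  | .one _ => ![0, 0, 1]
  | .sub a b _ => ![t a * x, t b * y, 1]
  | .mul _ b _ => ![x, t b * y, 1]

/-- coordinates of the point of an equation, second kind -/
def gq (t : α → K) (x y : K) : Gate α → Fin 3 → K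
  | .one _ => ![0, 0, 1]
  | .sub a b _ => ![(t a - t b) * x, 0, 1]
  | .mul a b _ => ![t a * x, t a * t b * y, 1]

/-- coordinates of the line of an equation -/
def gk (t : α → K) (x y : K) : Gate α → Fin 3 → K
  | .one _ => ![1, 0, 0]
  | .sub a b _ => ![y, -x, -(x * y * (t a - t b))]
  | .mul _ b _ => ![t b * y, -x, 0]

/-- coordinates of points -/
def wP (t : α → K) (x y : K) : Pt α G → Fin 3 → K
  | .u => ![x, y, 1]
  | .D => ![x, y, 0]
  | .E i => ![t i * x, t i * y, 1]
  | .p k => gp t x y (g k)
  | .q k => gq t x y (g k)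

/-- coordinates of lines -/
def wL (t : α → K) (x y : K) : Ln α G → Fin 3 → K
  | .d => ![y, -x, 0]
  | .J => ![1, 0, -x]
  | .V i => ![1, 0, -(t i * x)]
  | .H i => ![0, 1, -(t i * y)]
  | .k k => gk t x y (g k)

/-- a coordinate that is not zero -/
def cP : Pt α G → Fin 3
  | .D => 0
  | _ => 2

/-- a coordinate that is not zero -/
def cL : Ln α G → Fin 3
  | .H _ => 1
  | .k k => match g k with
    | .mul _ _ _ => 1
    | _ => 0
  | _ => 0

/-- the allowed coordinates of points -/
def tP : Pt α G → Fin 3 → Prop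
  | .D, j => j ≠ 2
  | .p k, j => match g k with
    | .one _ => j = 2
    | _ => True
  | .q k, j => match g k with
    | .one _ => j = 2
    | .sub _ _ _ => j ≠ 1
    | _ => True
  | _, _ => True

/-- the allowed coordinates of lines -/
def tL : Ln α G → Fin 3 → Prop
  | .d, j => j ≠ 2
  | .J, j => j ≠ 1
  | .V _, j => j ≠ 1
  | .H _, j => j ≠ 0
  | .k k, j => match g k with
    | .one _ => j = 0
    | .sub _ _ _ => True
    | .mul _ _ _ => j ≠ 2

/-- the incidence relations -/
inductive Rel : Pt α G → Ln α G → Prop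
  | ud : Rel .u .d
  | uJ : Rel .u .J
  | Dd : Rel .D .d
  | Ed (i : α) : Rel (.E i) .d
  | EV (i : α) : Rel (.E i) (.V i)
  | EH (i : α) : Rel (.E i) (.H i)
  | one {k i} : g k = .one i → Rel .u (.V i)
  | sPV {k a b c} : g k = .sub a b c → Rel (.p k) (.V a)
  | sPH {k a b c} : g k = .sub a b c → Rel (.p k) (.H b)
  | sPK {k a b c} : g k = .sub a b c → Rel (.p k) (.k k)
  | sDK {k a b c} : g k = .sub a b c → Rel .D (.k k)
  | sCK {k a b c} : g k = .sub a b c → Rel (.q k) (.k k)
  | sCV {k a b c} : g k = .sub a b c → Rel (.q k) (.V c)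
  | mBJ {k a b c} : g k = .mul a b c → Rel (.p k) .J
  | mBH {k a b c} : g k = .mul a b c → Rel (.p k) (.H b)
  | mBG {k a b c} : g k = .mul a b c → Rel (.p k) (.k k)
  | mQG {k a b c} : g k = .mul a b c → Rel (.q k) (.k k)
  | mQV {k a b c} : g k = .mul a b c → Rel (.q k) (.V a)
  | mQH {k a b c} : g k = .mul a b c → Rel (.q k) (.H c)

end defs

section facts

variable {α G K : Type} [Field K] {g : G → Gate α}

@[simp] lemma dot_vec (a b c a' b' c' : K) :
    dot ![a, b, c] ![a', b', c'] = a * a' + b * b' + c * c' := rfl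

@[simp] lemma dot_vec_right (v : Fin 3 → K) (a' b' c' : K) :
    dot v ![a', b', c'] = v 0 * a' + v 1 * b' + v 2 * c' := rfl

@[simp] lemma dot_vec_left (v : Fin 3 → K) (a' b' c' : K) :
    dot ![a', b', c'] v = a' * v 0 + b' * v 1 + c' * v 2 := rfl

/-- the incidence relations are true for the standard coordinates -/
lemma dot_w {t : α → K} (x y : K) (ht : ∀ k, (g k).holds t) {o : Pt α G} {l : Ln α G}
    (h : Rel g o l) : dot (wP g t x y o) (wL g t x y l) = 0 := by
  cases h with
  | ud => simp only [wP, wL, dot_vec]; ring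
  | uJ => simp only [wP, wL, dot_vec]; ring
  | Dd => simp only [wP, wL, dot_vec]; ring
  | Ed i => simp only [wP, wL, dot_vec]; ring
  | EV i => simp only [wP, wL, dot_vec]; ring
  | EH i => simp only [wP, wL, dot_vec]; ring
  | one h =>
    rename_i k i
    have h1 := ht k
    rw [h] at h1
    change t i = 1 at h1
    simp only [wP, wL, dot_vec, h1]
    ring
  | sPV h => simp only [wP, wL, h, gp, dot_vec]; ring
  | sPH h => simp only [wP, wL, h, gp, dot_vec]; ring
  | sPK h => simp only [wP, wL, h, gp, gk, dot_vec]; ring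
  | sDK h => simp only [wP, wL, h, gp, gk, dot_vec]; ring
  | sCK h => simp only [wP, wL, h, gq, gk, dot_vec]; ring
  | sCV h =>
    rename_i k a b c
    have h1 := ht k
    rw [h] at h1
    change t c = t a - t b at h1
    simp only [wP, wL, h, gq, dot_vec, h1]
    ring
  | mBJ h => simp only [wP, wL, h, gp, dot_vec]; ring
  | mBH h => simp only [wP, wL, h, gp, dot_vec]; ring
  | mBG h => simp only [wP, wL, h, gp, gk, dot_vec]; ring
  | mQG h => simp only [wP, wL, h, gq, gk, dot_vec]; ring
  | mQV h => simp only [wP, wL, h, gq, dot_vec]; ring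
  | mQH h =>
    rename_i k a b c
    have h1 := ht k
    rw [h] at h1
    change t c = t a * t b at h1
    simp only [wP, wL, h, gq, dot_vec, h1]
    ring

lemma wP_c (t : α → K) (x y : K) (hx : x ≠ 0) (o : Pt α G) : wP g t x y o (cP o) ≠ 0 := by
  cases o with
  | u => exact one_ne_zero
  | D => exact hx
  | E i => exact one_ne_zero
  | p k =>
    change gp t x y (g k) 2 ≠ 0
    cases g k <;> exact one_ne_zero
  | q k =>
    change gq t x y (g k) 2 ≠ 0
    cases g k <;> exact one_ne_zero

lemma wL_c (t : α → K) (x y : K) (hx : x ≠ 0) (hy : y ≠ 0) (o : Ln α G) :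
    wL g t x y o (cL g o) ≠ 0 := by
  cases o with
  | d => exact hy
  | J => exact one_ne_zero
  | V i => exact one_ne_zero
  | H i => exact one_ne_zero
  | k k =>
    simp only [wL, cL]
    cases g k with
    | one i => exact one_ne_zero
    | sub a b c => exact hy
    | mul a b c => exact neg_ne_zero.2 hx

lemma wP_t (t : α → K) (x y : K) (o : Pt α G) (j : Fin 3) (h : ¬ tP g o j) :
    wP g t x y o j = 0 := by
  cases o with
  | u => exact (h trivial).elim
  | D =>
    have : j = 2 := by simpa [tP] using h
    subst this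
    rfl
  | E i => exact (h trivial).elim
  | p k =>
    simp only [wP, tP] at h ⊢
    cases hg : g k with
    | one i =>
      rw [hg] at h
      fin_cases j
      · rfl
      · rfl
      · exact (h rfl).elim
    | sub a b c => rw [hg] at h; exact (h trivial).elim
    | mul a b c => rw [hg] at h; exact (h trivial).elim
  | q k =>
    simp only [wP, tP] at h ⊢
    cases hg : g k with
    | one i =>
      rw [hg] at h
      fin_cases j
      · rfl
      · rfl
      · exact (h rfl).elim
    | sub a b c =>
      rw [hg] at h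
      have : j = 1 := by simpa using h
      subst this
      rfl
    | mul a b c => rw [hg] at h; exact (h trivial).elim

lemma wL_t (t : α → K) (x y : K) (o : Ln α G) (j : Fin 3) (h : ¬ tL g o j) :
    wL g t x y o j = 0 := by
  cases o with
  | d =>
    have : j = 2 := by simpa [tL] using h
    subst this
    rfl
  | J =>
    have : j = 1 := by simpa [tL] using h
    subst this
    rfl
  | V i =>
    have : j = 1 := by simpa [tL] using h
    subst this
    rfl
  | H i =>
    have : j = 0 := by simpa [tL] using h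
    subst this
    rfl
  | k k =>
    simp only [wL, tL] at h ⊢
    cases hg : g k with
    | one i =>
      rw [hg] at h
      fin_cases j
      · exact (h rfl).elim
      · rfl
      · rfl
    | sub a b c => rw [hg] at h; exact (h trivial).elim
    | mul a b c =>
      rw [hg] at h
      have : j = 2 := by simpa using h
      subst this
      rfl

/-- The coordinates of a configuration are determined by the relations. -/
theorem exists_of_config (vP : Pt α G → Fin 3 → K) (vL : Ln α G → Fin 3 → K)
    (hu : ∀ j, vP .u j ≠ 0) (hcP : ∀ o, vP o (cP o) ≠ 0) (hcL : ∀ o, vL o (cL g o) ≠ 0)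
    (htP : ∀ o j, ¬ tP g o j → vP o j = 0) (htL : ∀ o j, ¬ tL g o j → vL o j = 0)
    (hr : ∀ o l, Rel g o l → dot (vP o) (vL l) = 0) :
    ∃ (t : α → K) (x y : K), x ≠ 0 ∧ y ≠ 0 ∧ (∀ k, (g k).holds t) ∧
      (∀ o, Prp (vP o) (wP g t x y o)) ∧ ∀ l, Prp (vL l) (wL g t x y l) := by
  obtain ⟨x, hxd⟩ : ∃ x : K, x = vP .u 0 / vP .u 2 := ⟨_, rfl⟩
  obtain ⟨y, hyd⟩ : ∃ y : K, y = vP .u 1 / vP .u 2 := ⟨_, rfl⟩
  have hx : x ≠ 0 := by rw [hxd]; exact div_ne_zero (hu 0) (hu 2)
  have hy : y ≠ 0 := by rw [hyd]; exact div_ne_zero (hu 1) (hu 2)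
  obtain ⟨t, ht⟩ : ∃ t : α → K, ∀ i, t i = - vL (.V i) 2 / (vL (.V i) 0 * x) := ⟨_, fun i => rfl⟩
  have hu2 := hu 2
  have pu : Prp (vP .u) ![x, y, 1] := by
    refine prp_mk (vP .u 2) (hu 2) ?_ ?_ (mul_one _).symm
    · rw [hxd]; field_simp
    · rw [hyd]; field_simp
  have pd : Prp (vL .d) ![y, -x, 0] := by
    have h1 := hr _ _ Rel.ud
    rw [dot_left pu, dot_vec_left] at h1
    have h0 : vL .d 0 ≠ 0 := hcL .d
    have h2 : vL .d 2 = 0 := htL .d 2 (fun h => h rfl)
    rw [h2] at h1
    refine prp_mk (vL .d 0 / y) (div_ne_zero h0 hy) (by field_simp) ?_ (by rw [h2, mul_zero])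
    field_simp
    linear_combination h1
  have pD : Prp (vP .D) ![x, y, 0] := by
    have h1 := hr _ _ Rel.Dd
    rw [dot_right pd, dot_vec_right] at h1
    have h0 : vP .D 0 ≠ 0 := hcP .D
    have h2 : vP .D 2 = 0 := htP .D 2 (fun h => h rfl)
    rw [h2] at h1
    refine prp_mk (vP .D 0 / x) (div_ne_zero h0 hx) (by field_simp) ?_ (by rw [h2, mul_zero])
    field_simp
    linear_combination -h1
  have pJ : Prp (vL .J) ![1, 0, -x] := by
    have h1 := hr _ _ Rel.uJ
    rw [dot_left pu, dot_vec_left] at h1
    have h0 : vL .J 0 ≠ 0 := hcL .J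
    have h2 : vL .J 1 = 0 := htL .J 1 (fun h => h rfl)
    rw [h2] at h1
    refine prp_mk (vL .J 0) h0 (mul_one _).symm (by rw [h2, mul_zero]) ?_
    linear_combination h1
  have pV : ∀ i, Prp (vL (.V i)) ![1, 0, -(t i * x)] := by
    intro i
    have h0 : vL (.V i) 0 ≠ 0 := hcL (.V i)
    have h2 : vL (.V i) 1 = 0 := htL (.V i) 1 (fun h => h rfl)
    refine prp_mk (vL (.V i) 0) h0 (mul_one _).symm (by rw [h2, mul_zero]) ?_
    rw [ht]
    field_simp
  have pE : ∀ i, Prp (vP (.E i)) ![t i * x, t i * y, 1] := by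
    intro i
    have h1 := hr _ _ (Rel.Ed i)
    have h3 := hr _ _ (Rel.EV i)
    rw [dot_right pd, dot_vec_right] at h1
    rw [dot_right (pV i), dot_vec_right] at h3
    have h0 : vP (.E i) 2 ≠ 0 := hcP (.E i)
    have h4 : vP (.E i) 0 = vP (.E i) 2 * (t i * x) := by linear_combination h3
    rw [h4] at h1
    refine prp_mk (vP (.E i) 2) h0 h4 ?_ (mul_one _).symm
    have : x * (vP (.E i) 1 - vP (.E i) 2 * (t i * y)) = 0 := by linear_combination -h1
    exact sub_eq_zero.1 ((mul_eq_zero.1 this).resolve_left hx)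
  have pH : ∀ i, Prp (vL (.H i)) ![0, 1, -(t i * y)] := by
    intro i
    have h1 := hr _ _ (Rel.EH i)
    rw [dot_left (pE i), dot_vec_left] at h1
    have h0 : vL (.H i) 1 ≠ 0 := hcL (.H i)
    have h2 : vL (.H i) 0 = 0 := htL (.H i) 0 (fun h => h rfl)
    rw [h2] at h1
    refine prp_mk (vL (.H i) 1) h0 (by rw [h2, mul_zero]) (mul_one _).symm ?_
    linear_combination h1
  have pg : ∀ k, (g k).holds t ∧ Prp (vP (.p k)) (gp t x y (g k)) ∧
      Prp (vP (.q k)) (gq t x y (g k)) ∧ Prp (vL (.k k)) (gk t x y (g k)) := by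
    intro k
    have hp2 : vP (.p k) 2 ≠ 0 := hcP (.p k)
    have hq2 : vP (.q k) 2 ≠ 0 := hcP (.q k)
    have hk := hcL (.k k)
    have tp := htP (.p k)
    have tq := htP (.q k)
    have tk := htL (.k k)
    simp only [cL, tP, tL] at hk tp tq tk
    cases hg : g k with
    | one i =>
      rw [hg] at hk tp tq tk
      refine ⟨?_, ?_, ?_, ?_⟩
      · have h1 := hr _ _ (Rel.one hg)
        rw [dot_left pu, dot_right (pV i), dot_vec] at h1
        change t i = 1
        have : x * (t i - 1) = 0 := by linear_combination -h1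
        exact sub_eq_zero.1 ((mul_eq_zero.1 this).resolve_left hx)
      · exact prp_mk _ hp2 (by rw [tp 0 (show ¬ (0 : Fin 3) = 2 by decide), mul_zero]) (by rw [tp 1 (show ¬ (1 : Fin 3) = 2 by decide), mul_zero])
          (mul_one _).symm
      · exact prp_mk _ hq2 (by rw [tq 0 (show ¬ (0 : Fin 3) = 2 by decide), mul_zero]) (by rw [tq 1 (show ¬ (1 : Fin 3) = 2 by decide), mul_zero])
          (mul_one _).symm
      · exact prp_mk _ hk (mul_one _).symm (by rw [tk 1 (show ¬ (1 : Fin 3) = 0 by decide), mul_zero])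
          (by rw [tk 2 (show ¬ (2 : Fin 3) = 0 by decide), mul_zero])
    | sub a b c =>
      rw [hg] at hk tp tq tk
      have pP : Prp (vP (.p k)) ![t a * x, t b * y, 1] := by
        have h1 := hr _ _ (Rel.sPV hg)
        have h2 := hr _ _ (Rel.sPH hg)
        rw [dot_right (pV a), dot_vec_right] at h1
        rw [dot_right (pH b), dot_vec_right] at h2
        refine prp_mk _ hp2 ?_ ?_ (mul_one _).symm
        · linear_combination h1
        · linear_combination h2
      have pK : Prp (vL (.k k)) ![y, -x, -(x * y * (t a - t b))] := by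
        have h1 := hr _ _ (Rel.sPK hg)
        have h2 := hr _ _ (Rel.sDK hg)
        rw [dot_left pP, dot_vec_left] at h1
        rw [dot_left pD, dot_vec_left] at h2
        have h3 : vL (.k k) 1 = vL (.k k) 0 / y * -x := by
          field_simp
          linear_combination h2
        refine prp_mk (vL (.k k) 0 / y) (div_ne_zero hk hy) (by field_simp) h3 ?_
        have h4 : vL (.k k) 0 / y * y = vL (.k k) 0 := by field_simp
        rw [h3] at h1
        linear_combination h1 + t a * x * h4
      have pC : Prp (vP (.q k)) ![(t a - t b) * x, 0, 1] := by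
        have h1 := hr _ _ (Rel.sCK hg)
        rw [dot_right pK, dot_vec_right] at h1
        have h2 : vP (.q k) 1 = 0 := tq 1 (fun h => h rfl)
        rw [h2] at h1
        refine prp_mk _ hq2 ?_ (by rw [h2, mul_zero]) (mul_one _).symm
        have : y * (vP (.q k) 0 - vP (.q k) 2 * ((t a - t b) * x)) = 0 := by
          linear_combination h1
        exact sub_eq_zero.1 ((mul_eq_zero.1 this).resolve_left hy)
      refine ⟨?_, pP, pC, pK⟩
      have h1 := hr _ _ (Rel.sCV hg)
      rw [dot_left pC, dot_right (pV c), dot_vec] at h1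
      change t c = t a - t b
      have : x * (t c - (t a - t b)) = 0 := by linear_combination -h1
      exact sub_eq_zero.1 ((mul_eq_zero.1 this).resolve_left hx)
    | mul a b c =>
      rw [hg] at hk tp tq tk
      have pB : Prp (vP (.p k)) ![x, t b * y, 1] := by
        have h1 := hr _ _ (Rel.mBJ hg)
        have h2 := hr _ _ (Rel.mBH hg)
        rw [dot_right pJ, dot_vec_right] at h1
        rw [dot_right (pH b), dot_vec_right] at h2
        refine prp_mk _ hp2 ?_ ?_ (mul_one _).symm
        · linear_combination h1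
        · linear_combination h2
      have pG : Prp (vL (.k k)) ![t b * y, -x, 0] := by
        have h1 := hr _ _ (Rel.mBG hg)
        rw [dot_left pB, dot_vec_left] at h1
        have h2 : vL (.k k) 2 = 0 := tk 2 (fun h => h rfl)
        rw [h2] at h1
        refine prp_mk (-(vL (.k k) 1) / x) (div_ne_zero (neg_ne_zero.2 hk) hx) ?_ (by field_simp)
          (by rw [h2, mul_zero])
        field_simp
        linear_combination h1
      have pQ : Prp (vP (.q k)) ![t a * x, t a * t b * y, 1] := by
        have h1 := hr _ _ (Rel.mQG hg)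
        have h2 := hr _ _ (Rel.mQV hg)
        rw [dot_right pG, dot_vec_right] at h1
        rw [dot_right (pV a), dot_vec_right] at h2
        have h3 : vP (.q k) 0 = vP (.q k) 2 * (t a * x) := by linear_combination h2
        refine prp_mk _ hq2 h3 ?_ (mul_one _).symm
        rw [h3] at h1
        have : x * (vP (.q k) 1 - vP (.q k) 2 * (t a * t b * y)) = 0 := by linear_combination -h1
        exact sub_eq_zero.1 ((mul_eq_zero.1 this).resolve_left hx)
      refine ⟨?_, pB, pQ, pG⟩
      have h1 := hr _ _ (Rel.mQH hg)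
      rw [dot_left pQ, dot_right (pH c), dot_vec] at h1
      change t c = t a * t b
      have : y * (t c - t a * t b) = 0 := by linear_combination -h1
      exact sub_eq_zero.1 ((mul_eq_zero.1 this).resolve_left hy)
  refine ⟨t, x, y, hx, hy, fun k => (pg k).1, fun o => ?_, fun l => ?_⟩
  · cases o with
    | u => exact pu
    | D => exact pD
    | E i => exact pE i
    | p k => exact (pg k).2.1
    | q k => exact (pg k).2.2.1
  · cases l with
    | d => exact pd
    | J => exact pJ
    | V i => exact pV i
    | H i => exact pH i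
    | k k => exact (pg k).2.2.2

/-- the standard coordinates determine the parameters -/
lemma params_unique {t t' : α → K} {x y x' y' : K} (hx : x ≠ 0)
    (vP : Pt α G → Fin 3 → K) (vL : Ln α G → Fin 3 → K)
    (h1 : ∀ o, Prp (vP o) (wP g t x y o)) (h2 : ∀ o, Prp (vL o) (wL g t x y o))
    (h1' : ∀ o, Prp (vP o) (wP g t' x' y' o)) (h2' : ∀ o, Prp (vL o) (wL g t' x' y' o)) :
    t = t' ∧ x = x' ∧ y = y' := by
  have e : x = x' ∧ y = y' := by
    obtain ⟨l, hl, h⟩ := h1 .u
    obtain ⟨l', hl', h'⟩ := h1' .u
    have a0 : l * x = l' * x' := (h 0).symm.trans (h' 0)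
    have a1 : l * y = l' * y' := (h 1).symm.trans (h' 1)
    have a2 : l * 1 = l' * 1 := (h 2).symm.trans (h' 2)
    rw [mul_one, mul_one] at a2
    rw [← a2] at a0 a1
    exact ⟨mul_left_cancel₀ hl a0, mul_left_cancel₀ hl a1⟩
  obtain ⟨rfl, rfl⟩ := e
  refine ⟨?_, rfl, rfl⟩
  funext i
  obtain ⟨l, hl, h⟩ := h2 (.V i)
  obtain ⟨l', hl', h'⟩ := h2' (.V i)
  have a0 : l * 1 = l' * 1 := (h 0).symm.trans (h' 0)
  have a2 : l * -(t i * x) = l' * -(t' i * x) := (h 2).symm.trans (h' 2)
  rw [mul_one, mul_one] at a0
  rw [← a0] at a2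
  have a3 := neg_injective (mul_left_cancel₀ hl a2)
  exact mul_right_cancel₀ hx a3

end facts

end Pool.Agent.H504.MC
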