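import Mathlib

/-!
# Motivic measures on constructible sets

Constructible sets are given by formulas without quantifiers, evaluated in all fields.
-/

set_option autoImplicit false

namespace Pool.Agent.H504.MC

open MvPolynomial

/-- Formulas without quantifiers in the language of rings, with variables in `ι`: polynomial equations
`p = 0` with integral coefficients, negations and conjunctions. -/
inductive Form (ι : Type) : Type
  | eq : MvPolynomial ι ℤ → Form ι
  | neg : Form ι → Form ι
  | and : Form ι → Form ι → Form ι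

/-- the formula holds at the point `x` -/
def Form.holds {ι K : Type} [Field K] (x : ι → K) : Form ι → Prop
  | .eq p => aeval x p = 0
  | .neg φ => ¬ φ.holds x
  | .and φ ψ => φ.holds x ∧ ψ.holds x

/-- A motivic measure with values in `V`, where `L` is the class of the affine line: it is
additive, it is invariant under polynomial maps that induce bijections on the points over all fields,
and the product with the line multiplies it by `L`. -/
structure Measure (V : Type) [AddCommGroup V] (L : V ≃+ V) where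
  /-- the measure of the constructible set given by a formula -/
  μ : ∀ (ι : Type) [Finite ι], Form ι → V
  add : ∀ (ι : Type) [Finite ι] (φ ψ : Form ι), μ ι φ = μ ι (φ.and ψ) + μ ι (φ.and ψ.neg)
  bij : ∀ (ι κ : Type) [Finite ι] [Finite κ] (φ : Form ι) (ψ : Form κ)
    (p : κ → MvPolynomial ι ℤ),
    (∀ (K : Type) [Field K], Set.BijOn (fun (x : ι → K) k => aeval x (p k))
      {x | φ.holds x} {y | ψ.holds y}) → μ ι φ = μ κ ψ
  line : ∀ (ι : Type) [Finite ι] (φ : Form ι) (ψ : Form (Option ι)),
    (∀ (K : Type) [Field K] (x : Option ι → K),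
      ψ.holds x ↔ φ.holds fun i => x (some i)) → μ (Option ι) ψ = L (μ ι φ)

/-- a condition on points with values in fields -/
abbrev Cond (ι : Type) : Type 1 := ∀ (K : Type) [Field K], (ι → K) → Prop

/-- a function on points with values in fields -/
abbrev Fun (ι : Type) : Type 1 := ∀ (K : Type) [Field K], (ι → K) → K

section con

variable {ι κ : Type}

/-- `f` is a polynomial with integral coefficients -/
def IsPoly (f : Fun ι) : Prop :=
  ∃ p : MvPolynomial ι ℤ, ∀ (K : Type) [Field K] (x : ι → K), f K x = aeval x p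

/-- the formula `φ` represents the condition `X` -/
def Rep (φ : Form ι) (X : Cond ι) : Prop :=
  ∀ (K : Type) [Field K] (x : ι → K), X K x ↔ φ.holds x

/-- the condition is constructible -/
def IsCon (X : Cond ι) : Prop := ∃ φ : Form ι, Rep φ X

lemma isPoly_var (i : ι) : IsPoly fun _ _ (x : ι → _) => x i :=
  ⟨X i, fun K _ x => by simp⟩

lemma isPoly_int (n : ℤ) : IsPoly fun (K : Type) _ (_ : ι → K) => (n : K) :=
  ⟨C n, fun K _ x => by simp⟩

lemma isPoly_zero : IsPoly fun (K : Type) _ (_ : ι → K) => (0 : K) :=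
  ⟨0, fun K _ x => by simp⟩

lemma isPoly_one : IsPoly fun (K : Type) _ (_ : ι → K) => (1 : K) :=
  ⟨1, fun K _ x => by simp⟩

lemma IsPoly.add {f g : Fun ι} (hf : IsPoly f) (hg : IsPoly g) :
    IsPoly fun K _ x => f K x + g K x := by
  obtain ⟨p, hp⟩ := hf
  obtain ⟨q, hq⟩ := hg
  exact ⟨p + q, fun K _ x => by beta_reduce; rw [hp, hq, map_add]⟩

lemma IsPoly.sub {f g : Fun ι} (hf : IsPoly f) (hg : IsPoly g) :
    IsPoly fun K _ x => f K x - g K x := by
  obtain ⟨p, hp⟩ := hf
  obtain ⟨q, hq⟩ := hg
  exact ⟨p - q, fun K _ x => by beta_reduce; rw [hp, hq, map_sub]⟩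

lemma IsPoly.neg {f : Fun ι} (hf : IsPoly f) : IsPoly fun K _ x => - f K x := by
  obtain ⟨p, hp⟩ := hf
  exact ⟨-p, fun K _ x => by beta_reduce; rw [hp, map_neg]⟩

lemma IsPoly.mul {f g : Fun ι} (hf : IsPoly f) (hg : IsPoly g) :
    IsPoly fun K _ x => f K x * g K x := by
  obtain ⟨p, hp⟩ := hf
  obtain ⟨q, hq⟩ := hg
  exact ⟨p * q, fun K _ x => by beta_reduce; rw [hp, hq, map_mul]⟩

lemma isPoly_sum {J : Type} (s : Finset J) {f : J → Fun ι} (hf : ∀ j, IsPoly (f j)) :
    IsPoly fun K _ x => ∑ j ∈ s, f j K x := by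
  choose p hp using hf
  exact ⟨∑ j ∈ s, p j, fun K _ x => by
    rw [map_sum]; exact Finset.sum_congr rfl fun j _ => hp j K x⟩

lemma isPoly_prod {J : Type} (s : Finset J) {f : J → Fun ι} (hf : ∀ j, IsPoly (f j)) :
    IsPoly fun K _ x => ∏ j ∈ s, f j K x := by
  choose p hp using hf
  exact ⟨∏ j ∈ s, p j, fun K _ x => by
    rw [map_prod]; exact Finset.prod_congr rfl fun j _ => hp j K x⟩

lemma isPoly_det {n : Type} [Fintype n] [DecidableEq n] {f : n → n → Fun ι}
    (hf : ∀ i j, IsPoly (f i j)) :
    IsPoly fun K _ x => (Matrix.of fun i j => f i j K x).det := by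
  choose p hp using hf
  refine ⟨(Matrix.of p).det, fun K _ x => ?_⟩
  have h := RingHom.map_det (aeval x : MvPolynomial ι ℤ →ₐ[ℤ] K).toRingHom (Matrix.of p)
  refine Eq.trans ?_ h.symm
  exact congrArg Matrix.det (Matrix.ext fun i j => hp i j K x)

/-- composition with a polynomial map -/
lemma IsPoly.comp {f : Fun κ} (hf : IsPoly f) {g : κ → Fun ι} (hg : ∀ k, IsPoly (g k)) :
    IsPoly fun K _ x => f K fun k => g k K x := by
  obtain ⟨p, hp⟩ := hf
  choose q hq using hg
  refine ⟨bind₁ q p, fun K _ x => ?_⟩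
  have : (fun k => g k K x) = fun k => aeval x (q k) := funext fun k => hq k K x
  beta_reduce
  rw [aeval_bind₁, hp, this]

lemma con_eq {f g : Fun ι} (hf : IsPoly f) (hg : IsPoly g) :
    IsCon fun K _ x => f K x = g K x := by
  obtain ⟨p, hp⟩ := hf
  obtain ⟨q, hq⟩ := hg
  refine ⟨.eq (p - q), fun K _ x => ?_⟩
  change f K x = g K x ↔ aeval x (p - q) = 0
  rw [hp, hq, map_sub, sub_eq_zero]

lemma con_not {X : Cond ι} (hX : IsCon X) : IsCon fun K _ x => ¬ X K x := by
  obtain ⟨φ, hφ⟩ := hX
  exact ⟨φ.neg, fun K _ x => not_congr (hφ K x)⟩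

lemma con_ne {f g : Fun ι} (hf : IsPoly f) (hg : IsPoly g) :
    IsCon fun K _ x => f K x ≠ g K x := con_not (con_eq hf hg)

lemma con_and {X Y : Cond ι} (hX : IsCon X) (hY : IsCon Y) :
    IsCon fun K _ x => X K x ∧ Y K x := by
  obtain ⟨φ, hφ⟩ := hX
  obtain ⟨ψ, hψ⟩ := hY
  exact ⟨φ.and ψ, fun K _ x => and_congr (hφ K x) (hψ K x)⟩

lemma con_congr {X Y : Cond ι} (hX : IsCon X)
    (h : ∀ (K : Type) [Field K] (x : ι → K), X K x ↔ Y K x) : IsCon Y := by
  obtain ⟨φ, hφ⟩ := hX
  exact ⟨φ, fun K _ x => (h K x).symm.trans (hφ K x)⟩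

lemma con_or {X Y : Cond ι} (hX : IsCon X) (hY : IsCon Y) :
    IsCon fun K _ x => X K x ∨ Y K x :=
  con_congr (con_not (con_and (con_not hX) (con_not hY))) fun K _ x => by tauto

lemma con_imp {X Y : Cond ι} (hX : IsCon X) (hY : IsCon Y) :
    IsCon fun K _ x => (X K x → Y K x) :=
  con_congr (con_not (con_and hX (con_not hY))) fun K _ x => by tauto

lemma con_true : IsCon fun (K : Type) _ (_ : ι → K) => True :=
  con_congr (con_eq isPoly_zero isPoly_zero) fun K _ x => by simp

lemma con_const (P : Prop) : IsCon fun (K : Type) _ (_ : ι → K) => P := by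
  by_cases h : P
  · exact con_congr con_true fun K _ x => by simp [h]
  · exact con_congr (con_not con_true) fun K _ x => by simp [h]

lemma con_forall {J : Type} [Finite J] {X : J → Cond ι} (hX : ∀ j, IsCon (X j)) :
    IsCon fun K _ x => ∀ j, X j K x := by
  classical
  have := Fintype.ofFinite J
  have h : ∀ s : Finset J, IsCon fun K _ x => ∀ j ∈ s, X j K x := by
    intro s
    induction s using Finset.induction_on with
    | empty => exact con_congr con_true fun K _ x => by simp
    | insert a s ha ih =>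
      exact con_congr (con_and (hX a) ih) fun K _ x => by simp
  exact con_congr (h Finset.univ) fun K _ x => by simp

lemma con_exists {J : Type} [Finite J] {X : J → Cond ι} (hX : ∀ j, IsCon (X j)) :
    IsCon fun K _ x => ∃ j, X j K x :=
  con_congr (con_not (con_forall fun j => con_not (hX j))) fun K _ x => by simp

/-- the preimage of a constructible set under a polynomial map is constructible -/
lemma con_comp {X : Cond κ} (hX : IsCon X) {g : κ → Fun ι} (hg : ∀ k, IsPoly (g k)) :
    IsCon fun K _ x => X K fun k => g k K x := by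
  obtain ⟨φ, hφ⟩ := hX
  choose q hq using hg
  have key : ∀ φ : Form κ, IsCon fun (K : Type) _ (x : ι → K) => φ.holds fun k => g k K x := by
    intro φ
    induction φ with
    | eq p =>
      refine ⟨.eq (bind₁ q p), fun K _ x => ?_⟩
      have : (fun k => g k K x) = fun k => aeval x (q k) := funext fun k => hq k K x
      change aeval (fun k => g k K x) p = 0 ↔ aeval x (bind₁ q p) = 0
      rw [aeval_bind₁, this]
    | neg φ ih => exact con_not ih
    | and φ ψ ih1 ih2 => exact con_and ih1 ih2
  exact con_congr (key φ) fun K _ x => (hφ K _).symm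

/-- restriction of variables -/
lemma con_res {X : Cond κ} (hX : IsCon X) (e : κ → ι) :
    IsCon fun K _ (x : ι → K) => X K fun k => x (e k) :=
  con_comp hX fun k => isPoly_var (e k)

end con

end Pool.Agent.H504.MC
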