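import Pool.Agent.H504.MC.Calc

/-!
# Families of constructible sets, motives and Deligne's conjecture
-/

set_option autoImplicit false

namespace Pool.Agent.H504.MC

/-- The family `F` of constructible sets generates: if a subgroup `S` of the value group of a motivic
measure satisfies `L S = S` and is closed under division by `L ^ k - 1`, `k ≥ 1`, and if `S` contains the
measures of all members of `F`, then `S` contains the measures of all constructible sets. -/
def Generates (F : ∀ ι : Type, Cond ι → Prop) : Prop :=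
  ∀ (V : Type) [AddCommGroup V] (L : V ≃+ V) (m : Measure V L) (S : AddSubgroup V),
    Saturated L S →
    (∀ (ι : Type) [Finite ι] (φ : Form ι) (X : Cond ι), F ι X → Rep φ X → m.μ ι φ ∈ S) →
    ∀ (ι : Type) [Finite ι] (φ : Form ι), m.μ ι φ ∈ S

/-- the automorphism `M ↦ M(-1)` of the free abelian group on the isomorphism classes of simple
motives, where `tw n` is `M ↦ M(n)` -/
noncomputable def lef {Sim : Type} (tw : ℤ → Equiv.Perm Sim) : (Sim →₀ ℤ) ≃+ (Sim →₀ ℤ) :=
  Finsupp.domCongr (tw (-1))

/-- A semisimple category of pure motives over `ℚ` with coefficients in a number field (motives for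
absolute Hodge cycles, for example), given by the set `Sim` of the isomorphism classes of
simple motives, the Tate twists and the virtual motives with compact supports of constructible sets,
as elements of the Grothendieck group `Sim →₀ ℤ`. Every simple motive occurs, up to a Tate twist, in a
virtual motive (by the purity of the cohomology of smooth projective varieties, of which every motive is
a direct factor up to a twist). -/
structure Motives (Sim : Type) where
  /-- the Tate twists `M ↦ M(n)` -/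
  tw : ℤ → Equiv.Perm Sim
  tw_add : ∀ a b, tw (a + b) = tw a * tw b
  tw_free : ∀ n M, tw n M = M → n = 0
  /-- the virtual motive -/
  h : Measure (Sim →₀ ℤ) (lef tw)
  gen : ∀ M : Sim, ∃ (ι : Type) (_ : Finite ι) (φ : Form ι) (n : ℤ), h.μ ι φ (tw n M) ≠ 0

/-- `P` is true for all Tate twists of all simple motives that occur in the virtual motives of the
members of the family `F` -/
def Motives.HoldsFor {Sim : Type} (𝓜 : Motives Sim) (F : ∀ ι : Type, Cond ι → Prop)
    (P : (Sim →₀ ℕ) → Prop) : Prop :=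
  ∀ (ι : Type) [Finite ι] (φ : Form ι) (X : Cond ι), F ι X → Rep φ X →
    ∀ M : Sim, 𝓜.h.μ ι φ M ≠ 0 → ∀ n : ℤ, P (Finsupp.single (𝓜.tw n M) 1)

/-- The data of Deligne's conjecture for the motives `M : Sim →₀ ℕ` (sums of simple motives) with
coefficients in `E`. -/
structure Values (E : Type) [Field E] (Sim : Type) where
  /-- `M` is pure of some weight `w` and has no classes of type `(w / 2, w / 2)` -/
  adm : (Sim →₀ ℕ) → Prop
  /-- the integer `m` is critical for `M` -/
  crit : (Sim →₀ ℕ) → ℤ → Prop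
  /-- the value `L(m, M)` in `E ⊗ ℂ`, the product of the `ℂ` for the embeddings of `E` -/
  L : (Sim →₀ ℕ) → ℤ → (E →+* ℂ) → ℂ
  /-- `(2 π i) ^ (m n^ε) c^ε(M)` in `E ⊗ ℂ`, computed in some bases over `E` -/
  c : (Sim →₀ ℕ) → ℤ → (E →+* ℂ) → ℂ

namespace Values

variable {E Sim : Type} [Field E] (D : Values E Sim)

/-- the known properties of the data for direct sums of motives -/
structure Additive : Prop where
  adm : ∀ M N, D.adm (M + N) → D.adm M ∧ D.adm N
  crit : ∀ M N m, D.crit (M + N) m → D.crit M m ∧ D.crit N m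
  L_zero : ∀ m σ, D.L 0 m σ = 1
  L_add : ∀ M N m, D.adm (M + N) → D.crit (M + N) m → ∀ σ, D.L (M + N) m σ = D.L M m σ * D.L N m σ
  c_zero : ∀ m, ∃ e : E, e ≠ 0 ∧ ∀ σ : E →+* ℂ, D.c 0 m σ = σ e
  c_add : ∀ M N m, D.adm (M + N) → D.crit (M + N) m →
    ∃ e : E, e ≠ 0 ∧ ∀ σ : E →+* ℂ, D.c (M + N) m σ = σ e * (D.c M m σ * D.c N m σ)

/-- Deligne's conjecture for `M` at all critical integers -/
def Deligne (M : Sim →₀ ℕ) : Prop :=
  D.adm M → ∀ m, D.crit M m → ∃ e : E, ∀ σ : E →+* ℂ, D.L M m σ = σ e * D.c M m σ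

end Values

/-- The data of Deligne's conjecture for the values at `0` for motives `M : Sim →₀ ℕ` with rational
coefficients. -/
structure CriticalValues (Sim : Type) where
  /-- `M` is pure and critical -/
  crit : (Sim →₀ ℕ) → Prop
  /-- the value `L(M, 0)` -/
  L : (Sim →₀ ℕ) → ℂ
  /-- Deligne's period `c⁺(M)`, computed in some rational bases -/
  c : (Sim →₀ ℕ) → ℂ

namespace CriticalValues

variable {Sim : Type} (D : CriticalValues Sim)

/-- the known properties of the data for direct sums of motives -/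
structure Additive : Prop where
  crit : ∀ M N, D.crit (M + N) → D.crit M ∧ D.crit N
  L_zero : D.L 0 = 1
  L_add : ∀ M N, D.crit (M + N) → D.L (M + N) = D.L M * D.L N
  c_zero : ∃ e : ℚ, e ≠ 0 ∧ D.c 0 = e
  c_add : ∀ M N, D.crit (M + N) → ∃ e : ℚ, e ≠ 0 ∧ D.c (M + N) = e * (D.c M * D.c N)

/-- Deligne's conjecture for `M` -/
def Deligne (M : Sim →₀ ℕ) : Prop := D.crit M → ∃ e : ℚ, D.L M = e * D.c M

end CriticalValues

section proofs

variable {Sim : Type} (tw : ℤ → Equiv.Perm Sim)

lemma lef_apply (v : Sim →₀ ℤ) (M : Sim) : lef tw v M = v ((tw (-1)).symm M) := rfl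

/-- the elements whose constituents satisfy `P` together with all their twists -/
def supp (P : Sim → Prop) : AddSubgroup (Sim →₀ ℤ) where
  carrier := {v | ∀ M, v M ≠ 0 → ∀ n, P (tw n M)}
  zero_mem' := fun M h => (h rfl).elim
  add_mem' := fun {a b} ha hb M h n => by
    by_cases h1 : a M = 0
    · refine hb M (fun h2 => h ?_) n
      rw [Finsupp.add_apply, h1, h2, add_zero]
    · exact ha M h1 n
  neg_mem' := fun {a} ha M h n => by
    refine ha M (fun h2 => h ?_) n
    rw [Finsupp.neg_apply, h2, neg_zero]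

lemma mem_supp {P : Sim → Prop} {v : Sim →₀ ℤ} :
    v ∈ supp tw P ↔ ∀ M, v M ≠ 0 → ∀ n, P (tw n M) := Iff.rfl

variable {tw}

lemma iter_lef (h1 : ∀ a b, tw (a + b) = tw a * tw b) (k : ℕ) (v : Sim →₀ ℤ) (M : Sim) :
    (⇑(lef tw))^[k] v (tw (-k) M) = v M := by
  have h0 : tw 0 = 1 := by
    have := h1 0 0
    rw [add_zero] at this
    exact mul_eq_right.mp this.symm
  induction k generalizing v with
  | zero => simp [h0]
  | succ k ih =>
    rw [Function.iterate_succ_apply', lef_apply]
    have : (tw (-1)).symm (tw (-((k + 1 : ℕ) : ℤ)) M) = tw (-k) M := by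
      rw [Equiv.symm_apply_eq]
      have h2 := h1 (-1) (-k)
      have h3 : (-1 : ℤ) + -k = -((k + 1 : ℕ) : ℤ) := by push_cast; ring
      rw [h3] at h2
      rw [h2]
      rfl
    rw [this]
    exact ih v

lemma saturated_supp (h1 : ∀ a b, tw (a + b) = tw a * tw b) (h2 : ∀ n M, tw n M = M → n = 0)
    (P : Sim → Prop) : Saturated (lef tw) (supp tw P) := by
  have hmul : ∀ a b M, tw (a + b) M = tw a (tw b M) := fun a b M => by rw [h1]; rfl
  have h0 : ∀ M, tw 0 M = M := fun M => by
    have := h1 0 0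
    rw [add_zero] at this
    rw [mul_eq_right.mp this.symm]
    rfl
  have hinv : ∀ M, (tw (-1)).symm M = tw 1 M := by
    intro M
    rw [Equiv.symm_apply_eq, ← hmul]
    simp [h0]
  constructor
  · intro v
    constructor
    · intro h M hM n
      have h3 : lef tw v (tw (-1) M) ≠ 0 := by
        rw [lef_apply, Equiv.symm_apply_apply]
        exact hM
      have := h _ h3 (n + 1)
      rw [← hmul] at this
      simpa using this
    · intro h M hM n
      rw [lef_apply, hinv] at hM
      have := h _ hM (n - 1)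
      rw [← hmul] at this
      simpa using this
  · intro k v hv M hM n
    by_contra hP
    -- all twists of `M` by multiples of `k + 1` occur in `v`
    have key : ∀ j : ℕ, v (tw (-((k + 1 : ℕ) : ℤ) * j) M) ≠ 0 := by
      intro j
      induction j with
      | zero => simpa [h0] using hM
      | succ j ih =>
        intro h3
        have h4 : tw (-((k + 1 : ℕ) : ℤ) * ((j + 1 : ℕ) : ℤ)) M =
            tw (-((k + 1 : ℕ) : ℤ)) (tw (-((k + 1 : ℕ) : ℤ) * j) M) := by
          rw [← hmul]
          congr 2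
          push_cast
          ring
        have h5 := hv (tw (-((k + 1 : ℕ) : ℤ) * ((j + 1 : ℕ) : ℤ)) M) (by
          rw [Finsupp.sub_apply, h3, sub_zero, h4, iter_lef h1]
          exact ih) (n + ((k + 1 : ℕ) : ℤ) * ((j + 1 : ℕ) : ℤ))
        rw [← hmul] at h5
        refine hP ?_
        have h6 : n + ((k + 1 : ℕ) : ℤ) * ((j + 1 : ℕ) : ℤ) +
            -((k + 1 : ℕ) : ℤ) * ((j + 1 : ℕ) : ℤ) = n := by ring
        rwa [h6] at h5
    have hinj : Function.Injective fun j : ℕ => tw (-((k + 1 : ℕ) : ℤ) * j) M := by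
      intro i j hij
      have hij' : tw (-((k + 1 : ℕ) : ℤ) * i) M = tw (-((k + 1 : ℕ) : ℤ) * j) M := hij
      have h3 : tw (-((k + 1 : ℕ) : ℤ) * i - -((k + 1 : ℕ) : ℤ) * j) (tw (-((k + 1 : ℕ) : ℤ) * j) M) =
          tw (-((k + 1 : ℕ) : ℤ) * j) M := by
        rw [← hmul, sub_add_cancel, hij']
      have h4 := h2 _ _ h3
      have h5 : ((k + 1 : ℕ) : ℤ) * (j - i) = 0 := by linear_combination h4
      rcases mul_eq_zero.1 h5 with h6 | h6
      · have : (k : ℤ) + 1 = 0 := by exact_mod_cast h6
        omega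
      · omega
    have hfin : (Set.range fun j : ℕ => tw (-((k + 1 : ℕ) : ℤ) * j) M).Finite := by
      refine v.hasFiniteSupport.subset ?_
      rintro _ ⟨j, rfl⟩
      exact key j
    exact Set.infinite_range_of_injective hinj hfin

/-- a statement on motives that is compatible with direct sums follows from the case of a generating
family -/
theorem forall_iff {F : ∀ ι : Type, Cond ι → Prop} (hF : Generates F)
    (𝓜 : Motives Sim) (P : (Sim →₀ ℕ) → Prop) (hP0 : P 0) (hP : ∀ M N, P M → P N → P (M + N)) :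
    (∀ M, P M) ↔ 𝓜.HoldsFor F P := by
  constructor
  · intro h ι _ φ X _ _ M _ n
    exact h _
  · intro h
    have h1 : ∀ N : Sim, P (Finsupp.single N 1) := by
      intro N
      have h2 := hF _ (lef 𝓜.tw) 𝓜.h (supp 𝓜.tw fun N => P (Finsupp.single N 1))
        (saturated_supp 𝓜.tw_add 𝓜.tw_free _) (fun ι _ φ X hX hφ M hM n => h ι φ X hX hφ M hM n)
      obtain ⟨ι, _, φ, n, hn⟩ := 𝓜.gen N
      have h3 := h2 ι φ _ hn (-n)
      rw [← Equiv.Perm.mul_apply, ← 𝓜.tw_add, neg_add_cancel] at h3
      have h0 : 𝓜.tw 0 = 1 := by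
        have := 𝓜.tw_add 0 0
        rw [add_zero] at this
        exact mul_eq_right.mp this.symm
      rw [h0] at h3
      exact h3
    intro M
    induction M using Finsupp.induction_linear with
    | zero => exact hP0
    | add M N hM hN => exact hP M N hM hN
    | single N k =>
      induction k with
      | zero => rw [Finsupp.single_zero]; exact hP0
      | succ k ih =>
        rw [Finsupp.single_add]
        exact hP _ _ ih (h1 N)

/-- Deligne's conjecture for a generating family -/
theorem deligne_iff {E : Type} [Field E] {F : ∀ ι : Type, Cond ι → Prop} (hF : Generates F)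
    (𝓜 : Motives Sim) (D : Values E Sim) (hD : D.Additive) :
    (∀ M, D.Deligne M) ↔ 𝓜.HoldsFor F D.Deligne := by
  refine forall_iff hF 𝓜 _ (fun _ m _ => ?_) fun M N hM hN hadm m hcrit => ?_
  · obtain ⟨e, he, hc⟩ := hD.c_zero m
    refine ⟨e⁻¹, fun σ => ?_⟩
    rw [hD.L_zero, hc, ← map_mul, inv_mul_cancel₀ he, map_one]
  · obtain ⟨a1, a2⟩ := hD.adm M N hadm
    obtain ⟨b1, b2⟩ := hD.crit M N m hcrit
    obtain ⟨e1, he1⟩ := hM a1 m b1
    obtain ⟨e2, he2⟩ := hN a2 m b2
    obtain ⟨e, he, hc⟩ := hD.c_add M N m hadm hcrit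
    refine ⟨e1 * e2 * e⁻¹, fun σ => ?_⟩
    rw [hD.L_add M N m hadm hcrit, he1, he2, hc, map_mul, map_mul]
    have : σ e⁻¹ * σ e = 1 := by rw [← map_mul, inv_mul_cancel₀ he, map_one]
    linear_combination (-(σ e1 * σ e2 * D.c M m σ * D.c N m σ)) * this

/-- Deligne's conjecture for the values at `0` for a generating family -/
theorem deligne_zero_iff {F : ∀ ι : Type, Cond ι → Prop} (hF : Generates F)
    (𝓜 : Motives Sim) (D : CriticalValues Sim) (hD : D.Additive) :
    (∀ M, D.Deligne M) ↔ 𝓜.HoldsFor F D.Deligne := by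
  refine forall_iff hF 𝓜 _ (fun _ => ?_) fun M N hM hN hcrit => ?_
  · obtain ⟨e, he, hc⟩ := hD.c_zero
    refine ⟨e⁻¹, ?_⟩
    have he' : (e : ℂ) ≠ 0 := by exact_mod_cast he
    rw [hD.L_zero, hc]
    push_cast
    field_simp
  · obtain ⟨b1, b2⟩ := hD.crit M N hcrit
    obtain ⟨e1, he1⟩ := hM b1
    obtain ⟨e2, he2⟩ := hN b2
    obtain ⟨e, he, hc⟩ := hD.c_add M N hcrit
    have he' : (e : ℂ) ≠ 0 := by exact_mod_cast he
    refine ⟨e1 * e2 * e⁻¹, ?_⟩
    rw [hD.L_add M N hcrit, he1, he2, hc]
    push_cast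
    field_simp

end proofs

end Pool.Agent.H504.MC
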