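import Pool.Agent.H504.MC.Plane

/-!
# Matrices of square zero with prescribed zeros
-/

set_option autoImplicit false

namespace Pool.Agent.H504.MC

variable {V : Type} [AddCommGroup V] {L : V ≃+ V} {m : Measure V L} {S : AddSubgroup V}

section slack

variable {R J C : Type}

/-- the allowed positions with one more coordinate, which is used by `r₀` and `c₀` only -/
def tS (T : (R × J) ⊕ (C × J) → Prop) (r₀ : R) (c₀ : C) :
    (R × Option J) ⊕ (C × Option J) → Prop
  | .inl (r, some j) => T (.inl (r, j))
  | .inl (r, none) => r = r₀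
  | .inr (c, some j) => T (.inr (c, j))
  | .inr (c, none) => c = c₀

/-- embedding of indices -/
def eS : (R × J) ⊕ (C × J) → (R × Option J) ⊕ (C × Option J)
  | .inl (r, j) => .inl (r, some j)
  | .inr (c, j) => .inr (c, some j)

lemma good_slack (hS : Saturated L S) [Fintype J] [Finite R] [Finite C]
    {T : (R × J) ⊕ (C × J) → Prop} {N N' : R → C → Prop} {r₀ : R} {c₀ : C}
    (h0 : ¬ N r₀ c₀) (hN : ∀ r c, N' r c ↔ N r c ∨ (r = r₀ ∧ c = c₀))
    (h1 : Good m S (ortho T N')) (h2 : Good m S (ortho (tS T r₀ c₀) N')) :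
    Good m S (ortho T N) := by
  classical
  -- the part where the new coordinate of `r₀` is zero
  have h3 : Good m S fun K _ z => ortho (tS T r₀ c₀) N' K z ∧ z (.inl (r₀, none)) = 0 := by
    rw [← good_line hS h1.1] at h1
    refine (good_bij (con_and h2.1 (con_eq (isPoly_var _) isPoly_zero)) h1.1
      (fun v _ _ z => z (v.elim (.inr (c₀, none)) eS)) (fun v => isPoly_var _) ?_ ?_ ?_).2 h1
    · rintro K _ z ⟨⟨hz, hr⟩, hs⟩
      refine ⟨fun v hv => ?_, fun r c hrc => ?_⟩
      · rcases v with ⟨r, j⟩ | ⟨c, j⟩
        · exact hz (.inl (r, some j)) hv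
        · exact hz (.inr (c, some j)) hv
      · have := hr r c hrc
        rw [Fintype.sum_option] at this
        have hp : z (.inl (r, none)) = 0 := by
          by_cases h : r = r₀
          · rw [h]; exact hs
          · exact hz (.inl (r, none)) h
        rw [hp, zero_mul, zero_add] at this
        exact this
    · rintro K _ z z' ⟨⟨hz, hr⟩, hs⟩ ⟨⟨hz', hr'⟩, hs'⟩ heq
      funext v
      rcases v with ⟨r, _ | j⟩ | ⟨c, _ | j⟩
      · by_cases h : r = r₀
        · rw [h, hs, hs']
        · rw [hz (.inl (r, none)) h, hz' (.inl (r, none)) h]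
      · exact heq (some (.inl (r, j)))
      · by_cases h : c = c₀
        · rw [h]; exact heq none
        · rw [hz (.inr (c, none)) h, hz' (.inr (c, none)) h]
      · exact heq (some (.inr (c, j)))
    · rintro K _ y ⟨hy, hr⟩
      refine ⟨fun v => match v with
        | .inl (r, some j) => y (some (.inl (r, j)))
        | .inl (r, none) => 0
        | .inr (c, some j) => y (some (.inr (c, j)))
        | .inr (c, none) => if c = c₀ then y none else 0, ⟨⟨?_, ?_⟩, rfl⟩, ?_⟩
      · intro v hv
        rcases v with ⟨r, _ | j⟩ | ⟨c, _ | j⟩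
        · rfl
        · exact hy (.inl (r, j)) hv
        · exact if_neg hv
        · exact hy (.inr (c, j)) hv
      · intro r c hrc
        rw [Fintype.sum_option, zero_mul, zero_add]
        exact hr r c hrc
      · rintro (_ | (⟨r, j⟩ | ⟨c, j⟩))
        · exact if_pos rfl
        · rfl
        · rfl
  have h4 := Good.diff (con_eq (isPoly_var _) isPoly_zero) h2 h3
  rw [← good_gm hS (con_ortho T N)]
  refine (good_bij h4.1 (con_and (con_res (con_ortho T N) _) (con_ne (isPoly_var _) isPoly_zero))
    (fun v _ _ z => z (v.elim (.inl (r₀, none)) eS)) (fun v => isPoly_var _) ?_ ?_ ?_).1 h4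
  · rintro K _ z ⟨⟨hz, hr⟩, hs⟩
    refine ⟨⟨fun v hv => ?_, fun r c hrc => ?_⟩, hs⟩
    · rcases v with ⟨r, j⟩ | ⟨c, j⟩
      · exact hz (.inl (r, some j)) hv
      · exact hz (.inr (c, some j)) hv
    · have := hr r c ((hN r c).2 (.inl hrc))
      rw [Fintype.sum_option] at this
      have hp : z (.inl (r, none)) * z (.inr (c, none)) = 0 := by
        by_cases h : r = r₀
        · have h' : c ≠ c₀ := by
            rintro rfl
            exact h0 (h ▸ hrc)
          rw [hz (.inr (c, none)) h', mul_zero]
        · rw [hz (.inl (r, none)) h, zero_mul]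
      rw [hp, zero_add] at this
      exact this
  · rintro K _ z z' ⟨⟨hz, hr⟩, hs⟩ ⟨⟨hz', hr'⟩, hs'⟩ heq
    have e1 : ∀ r j, z (.inl (r, some j)) = z' (.inl (r, some j)) :=
      fun r j => heq (some (.inl (r, j)))
    have e2 : ∀ c j, z (.inr (c, some j)) = z' (.inr (c, some j)) :=
      fun c j => heq (some (.inr (c, j)))
    have e0 : z (.inl (r₀, none)) = z' (.inl (r₀, none)) := heq none
    have h5 := hr r₀ c₀ ((hN r₀ c₀).2 (.inr ⟨rfl, rfl⟩))
    have h6 := hr' r₀ c₀ ((hN r₀ c₀).2 (.inr ⟨rfl, rfl⟩))
    rw [Fintype.sum_option] at h5 h6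
    simp only [e1, e2, e0] at h5
    have h7 := h5.trans h6.symm
    have h8 : z (.inr (c₀, none)) = z' (.inr (c₀, none)) :=
      mul_left_cancel₀ hs' (add_right_cancel h7)
    funext v
    rcases v with ⟨r, _ | j⟩ | ⟨c, _ | j⟩
    · by_cases h : r = r₀
      · rw [h]; exact e0
      · rw [hz (.inl (r, none)) h, hz' (.inl (r, none)) h]
    · exact e1 r j
    · by_cases h : c = c₀
      · rw [h]; exact h8
      · rw [hz (.inr (c, none)) h, hz' (.inr (c, none)) h]
    · exact e2 c j
  · rintro K _ y ⟨⟨hy, hr⟩, hs⟩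
    let t : K := - (∑ j, y (some (.inl (r₀, j))) * y (some (.inr (c₀, j)))) / y none
    refine ⟨fun v => match v with
      | .inl (r, some j) => y (some (.inl (r, j)))
      | .inl (r, none) => if r = r₀ then y none else 0
      | .inr (c, some j) => y (some (.inr (c, j)))
      | .inr (c, none) => if c = c₀ then t else 0, ⟨⟨?_, ?_⟩, ?_⟩, ?_⟩
    · intro v hv
      rcases v with ⟨r, _ | j⟩ | ⟨c, _ | j⟩
      · exact if_neg hv
      · exact hy (.inl (r, j)) hv
      · exact if_neg hv
      · exact hy (.inr (c, j)) hv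
    · intro r c hrc
      rw [Fintype.sum_option]
      change (if r = r₀ then y none else 0) * (if c = c₀ then t else 0) +
        ∑ j, y (some (.inl (r, j))) * y (some (.inr (c, j))) = 0
      by_cases h : r = r₀ ∧ c = c₀
      · obtain ⟨rfl, rfl⟩ := h
        rw [if_pos rfl, if_pos rfl]
        simp only [t]
        field_simp
        ring
      · have h' : N r c := ((hN r c).1 hrc).resolve_right h
        rw [hr r c h', add_zero]
        by_cases h1 : r = r₀
        · rw [if_neg fun h2 => h ⟨h1, h2⟩, mul_zero]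
        · rw [if_neg h1, zero_mul]
    · change ¬ (if r₀ = r₀ then y none else 0) = 0
      rw [if_pos rfl]
      exact hs
    · rintro (_ | (⟨r, j⟩ | ⟨c, j⟩))
      · exact if_pos rfl
      · rfl
      · rfl

/-- removal of orthogonality relations -/
theorem good_ortho_all (hS : Saturated L S) [Finite R] [Finite C]
    (h : ∀ (J : Type) [Fintype J] (T : (R × J) ⊕ (C × J) → Prop),
      Good m S (ortho T fun _ _ => True))
    (N : R → C → Prop) [Fintype J] (T : (R × J) ⊕ (C × J) → Prop) : Good m S (ortho T N) := by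
  classical
  have key : ∀ s : Finset (R × C), ∀ (J : Type) [Fintype J] (T : (R × J) ⊕ (C × J) → Prop),
      Good m S (ortho T fun r c => (r, c) ∉ s) := by
    intro s
    induction s using Finset.induction_on with
    | empty =>
      intro J _ T
      have : (fun (r : R) (c : C) => (r, c) ∉ (∅ : Finset (R × C))) = fun _ _ => True := by
        funext r c
        simp
      rw [this]
      exact h J T
    | insert a s ha ih =>
      intro J _ T
      obtain ⟨r₀, c₀⟩ := a
      refine good_slack hS (r₀ := r₀) (c₀ := c₀) (N' := fun r c => (r, c) ∉ s) ?_ ?_ (ih J T)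
        (ih (Option J) _)
      · simp
      · intro r c
        rw [Finset.mem_insert, not_or, Prod.mk.injEq]
        constructor
        · intro h1
          by_cases h2 : r = r₀ ∧ c = c₀
          · exact .inr h2
          · exact .inl ⟨h2, h1⟩
        · rintro (⟨_, h1⟩ | ⟨rfl, rfl⟩)
          · exact h1
          · exact ha
  have _ : Fintype (R × C) := Fintype.ofFinite _
  have := key (Finset.univ.filter fun a => ¬ N a.1 a.2) J T
  have e : (fun (r : R) (c : C) => (r, c) ∉ Finset.univ.filter fun a => ¬ N a.1 a.2) = N := by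
    funext r c
    simp
  rwa [e] at this

end slack

/-- square matrices with square zero whose entries are zero outside the set `T` -/
def sqz {ν : Type} [Fintype ν] (T : ν × ν → Prop) : Cond (ν × ν) := fun _ _ z =>
  (∀ v, ¬ T v → z v = 0) ∧ ∀ i j, ∑ k, z (i, k) * z (k, j) = 0

/-- the positions of two sparse matrices in a matrix with three blocks -/
def tB {R J C : Type} (T : (R × J) ⊕ (C × J) → Prop) :
    (R ⊕ (J ⊕ C)) × (R ⊕ (J ⊕ C)) → Prop
  | (.inl r, .inr (.inl j)) => T (.inl (r, j))
  | (.inr (.inl j), .inr (.inr c)) => T (.inr (c, j))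
  | _ => False

lemma good_of_sqz {R J C : Type} [Fintype R] [Fintype J] [Fintype C]
    (T : (R × J) ⊕ (C × J) → Prop) (h : Good m S (sqz (tB T))) :
    Good m S (ortho T fun _ _ => True) := by
  refine (good_bij h.1 (con_ortho _ _) (fun v _ _ z => z (match v with
    | .inl (r, j) => (.inl r, .inr (.inl j))
    | .inr (c, j) => (.inr (.inl j), .inr (.inr c)))) (fun v => isPoly_var _) ?_ ?_ ?_).1 h
  · rintro K _ z ⟨hz, hr⟩
    refine ⟨fun v hv => ?_, fun r c _ => ?_⟩
    · rcases v with ⟨r, j⟩ | ⟨c, j⟩
      · exact hz (.inl r, .inr (.inl j)) hv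
      · exact hz (.inr (.inl j), .inr (.inr c)) hv
    · have h1 := hr (.inl r) (.inr (.inr c))
      rw [Fintype.sum_sum_type, Fintype.sum_sum_type] at h1
      have h2 : ∀ r', z (.inl r, .inl r') = 0 := fun r' => hz (.inl r, .inl r') fun h => h
      have h3 : ∀ c', z (.inl r, .inr (.inr c')) = 0 :=
        fun c' => hz (.inl r, .inr (.inr c')) fun h => h
      simp only [h2, h3, zero_mul, Finset.sum_const_zero, zero_add, add_zero] at h1
      exact h1
  · rintro K _ z z' ⟨hz, hr⟩ ⟨hz', hr'⟩ heq
    funext v
    rcases v with ⟨i | i | i, j | j | j⟩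
    · rw [hz (.inl i, .inl j) fun h => h, hz' (.inl i, .inl j) fun h => h]
    · exact heq (.inl (i, j))
    · rw [hz (.inl i, .inr (.inr j)) fun h => h, hz' (.inl i, .inr (.inr j)) fun h => h]
    · rw [hz (.inr (.inl i), .inl j) fun h => h, hz' (.inr (.inl i), .inl j) fun h => h]
    · rw [hz (.inr (.inl i), .inr (.inl j)) fun h => h,
        hz' (.inr (.inl i), .inr (.inl j)) fun h => h]
    · exact heq (.inr (j, i))
    · rw [hz (.inr (.inr i), .inl j) fun h => h, hz' (.inr (.inr i), .inl j) fun h => h]
    · rw [hz (.inr (.inr i), .inr (.inl j)) fun h => h,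
        hz' (.inr (.inr i), .inr (.inl j)) fun h => h]
    · rw [hz (.inr (.inr i), .inr (.inr j)) fun h => h,
        hz' (.inr (.inr i), .inr (.inr j)) fun h => h]
  · rintro K _ y ⟨hy, hr⟩
    refine ⟨fun v => match v with
      | (.inl r, .inr (.inl j)) => y (.inl (r, j))
      | (.inr (.inl j), .inr (.inr c)) => y (.inr (c, j))
      | _ => 0, ⟨?_, ?_⟩, ?_⟩
    · intro v hv
      rcases v with ⟨i | i | i, j | j | j⟩
      · rfl
      · exact hy (.inl (i, j)) hv
      · rfl
      · rfl
      · rfl
      · exact hy (.inr (j, i)) hv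
      · rfl
      · rfl
      · rfl
    · intro i j
      rw [Fintype.sum_sum_type, Fintype.sum_sum_type]
      rcases i with i | i | i <;> rcases j with j | j | j <;>
        simp only [zero_mul, mul_zero, Finset.sum_const_zero, zero_add, add_zero]
      exact hr i j trivial
    · rintro (⟨r, j⟩ | ⟨c, j⟩) <;> rfl

/-- **Universality of matrices with square zero.** -/
theorem good_of_sqz_all (hS : Saturated L S)
    (h : ∀ (ν : Type) [Fintype ν] (T : ν × ν → Prop), Good m S (sqz T))
    (ι : Type) [Finite ι] (φ : Form ι) : Good m S fun K _ x => φ.holds x := by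
  refine good_of_ortho hS (fun R C _ _ T N => ?_) ι φ
  have _ : Fintype R := Fintype.ofFinite R
  have _ : Fintype C := Fintype.ofFinite C
  exact good_ortho_all hS (fun J _ T => good_of_sqz T (h _ _)) N T

end Pool.Agent.H504.MC
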