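import Pool.Agent.H504.MC.Strata
import Pool.Agent.H504.MC.SqZero
import Pool.Agent.H504.MC.Motives

/-!
# The families of matrices
-/

set_option autoImplicit false

namespace Pool.Agent.H504.MC

open Matrix

/-- the `n × k` matrices of rank at most `r` whose entries outside `T` are zero -/
def detLocus {n k : ℕ} (T : Set (Fin n × Fin k)) (r : ℕ) : Cond (Fin n × Fin k) := fun _ _ z =>
  (∀ v ∉ T, z v = 0) ∧ (Matrix.of fun i j => z (i, j)).rank ≤ r

/-- the `n × k` matrices of rank `r` whose entries outside `T` are zero -/
def rankLocus {n k : ℕ} (T : Set (Fin n × Fin k)) (r : ℕ) : Cond (Fin n × Fin k) := fun _ _ z =>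
  (∀ v ∉ T, z v = 0) ∧ (Matrix.of fun i j => z (i, j)).rank = r

/-- the `n × n` matrices `A` with `A ^ 2 = 0` whose entries outside `T` are zero -/
def squareZeroLocus {n : ℕ} (T : Set (Fin n × Fin n)) : Cond (Fin n × Fin n) := fun _ _ z =>
  (∀ v ∉ T, z v = 0) ∧ (Matrix.of fun i j => z (i, j)) ^ 2 = 0

/-- the invertible `n × n` matrices whose entries outside `T` are zero -/
def invertibleLocus {n : ℕ} (T : Set (Fin n × Fin n)) : Cond (Fin n × Fin n) := fun _ _ z =>
  (∀ v ∉ T, z v = 0) ∧ (Matrix.of fun i j => z (i, j)).det ≠ 0

/-- the `n × n` matrices with determinant `1` whose entries outside `T` are zero -/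
def unimodularLocus {n : ℕ} (T : Set (Fin n × Fin n)) : Cond (Fin n × Fin n) := fun _ _ z =>
  (∀ v ∉ T, z v = 0) ∧ (Matrix.of fun i j => z (i, j)).det = 1

/-- the `n × n` matrices with determinant `0` whose entries outside `T` are zero -/
def singularLocus {n : ℕ} (T : Set (Fin n × Fin n)) : Cond (Fin n × Fin n) := fun _ _ z =>
  (∀ v ∉ T, z v = 0) ∧ (Matrix.of fun i j => z (i, j)).det = 0

/-- sparse matrices of rank at most `r` -/
inductive DetFamily (r : ℕ) : ∀ ι : Type, Cond ι → Prop
  | mk (n k : ℕ) (T : Set (Fin n × Fin k)) : DetFamily r (Fin n × Fin k) (detLocus T r)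

/-- sparse matrices of rank `r` -/
inductive RankFamily (r : ℕ) : ∀ ι : Type, Cond ι → Prop
  | mk (n k : ℕ) (T : Set (Fin n × Fin k)) : RankFamily r (Fin n × Fin k) (rankLocus T r)

/-- sparse strictly upper triangular matrices with square zero -/
inductive SquareZeroFamily : ∀ ι : Type, Cond ι → Prop
  | mk (n : ℕ) (T : Set (Fin n × Fin n)) (h : ∀ v ∈ T, v.1 < v.2) :
      SquareZeroFamily (Fin n × Fin n) (squareZeroLocus T)

/-- sparse invertible matrices -/
inductive InvertibleFamily : ∀ ι : Type, Cond ι → Prop
  | mk (n : ℕ) (T : Set (Fin n × Fin n)) : InvertibleFamily (Fin n × Fin n) (invertibleLocus T)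

section reindex

variable {V : Type} [AddCommGroup V] {L : V ≃+ V} {m : Measure V L} {S : AddSubgroup V}

lemma good_reindex {ι κ : Type} [Finite ι] [Finite κ] (e : ι ≃ κ) {X : Cond ι} {Y : Cond κ}
    (hY : Good m S Y)
    (h : ∀ (K : Type) [Field K] (z : κ → K), Y K z ↔ X K fun i => z (e i)) : Good m S X := by
  have hX : IsCon X := by
    refine con_congr (con_res hY.1 e.symm) fun K _ x => ?_
    rw [h]
    simp
  refine (good_bij hX hY.1 (fun k _ _ x => x (e.symm k)) (fun k => isPoly_var _) ?_ ?_ ?_).2 hY
  · intro K _ x hx
    rw [h]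
    simpa using hx
  · intro K _ x x' _ _ heq
    funext i
    have := heq (e i)
    simpa using this
  · intro K _ y hy
    exact ⟨fun i => y (e i), (h K y).1 hy, fun k => by simp⟩

/-- a set that satisfies the condition for the formula is good -/
lemma good_of_family {F : ∀ ι : Type, Cond ι → Prop}
    (h : ∀ (ι : Type) [Finite ι] (φ : Form ι) (X : Cond ι), F ι X → Rep φ X → m.μ ι φ ∈ S)
    {ι : Type} [Finite ι] {X : Cond ι} (hX : F ι X) (hc : IsCon X) : Good m S X := by
  refine ⟨hc, ?_⟩
  obtain ⟨φ, hφ⟩ := hc
  rw [m.val_rep hφ]
  exact h ι φ X hX hφ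

lemma mem_of_good {ι : Type} [Finite ι] {φ : Form ι} (h : Good m S fun K _ x => φ.holds x) :
    m.μ ι φ ∈ S := by
  have h1 := h.2
  rwa [m.val_rep (φ := φ) (X := fun K _ x => φ.holds x) fun _ _ _ => Iff.rfl] at h1

end reindex

theorem generates_det {r : ℕ} (hr : 3 ≤ r) : Generates (DetFamily r) := by
  intro V _ L m S hS h ι _ φ
  refine mem_of_good (good_of_spLe hS hr (fun R C _ _ T => ?_) ι φ)
  let eR := Fintype.equivFin R
  let eC := Fintype.equivFin C
  refine good_reindex (eR.prodCongr eC) (good_of_family h (.mk (Fintype.card R) (Fintype.card C)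
    {v | T (eR.symm v.1, eC.symm v.2)}) (con_spLe _ r)) fun K _ z => ?_
  have h1 : (Matrix.of fun i j => z (i, j)).rank = (Matrix.of fun i j => z (eR i, eC j)).rank :=
    (rank_submatrix (Matrix.of fun i j => z (i, j)) eR eC).symm
  unfold detLocus spLe
  rw [h1]
  refine and_congr_left fun _ => ⟨fun h v hv => h (eR v.1, eC v.2) ?_, fun h v hv => ?_⟩
  · simpa using hv
  · have := h (eR.symm v.1, eC.symm v.2) hv
    simpa using this

theorem generates_rank {r : ℕ} (hr : 3 ≤ r) : Generates (RankFamily r) := by
  intro V _ L m S hS h ι _ φ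
  refine mem_of_good (good_of_sp hS hr (fun R C _ _ T => ?_) ι φ)
  let eR := Fintype.equivFin R
  let eC := Fintype.equivFin C
  refine good_reindex (eR.prodCongr eC) (good_of_family h (.mk (Fintype.card R) (Fintype.card C)
    {v | T (eR.symm v.1, eC.symm v.2)}) (con_sp _ r)) fun K _ z => ?_
  have h1 : (Matrix.of fun i j => z (i, j)).rank = (Matrix.of fun i j => z (eR i, eC j)).rank :=
    (rank_submatrix (Matrix.of fun i j => z (i, j)) eR eC).symm
  unfold rankLocus sp
  rw [h1]
  refine and_congr_left fun _ => ⟨fun h v hv => h (eR v.1, eC v.2) ?_, fun h v hv => ?_⟩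
  · simpa using hv
  · have := h (eR.symm v.1, eC.symm v.2) hv
    simpa using this

theorem generates_invertible : Generates InvertibleFamily := by
  classical
  intro V _ L m S hS h ι _ φ
  refine mem_of_good (good_of_inv hS (fun R _ _ T => ?_) ι φ)
  let eR := Fintype.equivFin R
  refine good_reindex (eR.prodCongr eR) (good_of_family h (.mk (Fintype.card R)
    {v | T (eR.symm v.1, eR.symm v.2)}) (con_inv _)) fun K _ z => ?_
  have h1 : (Matrix.of fun i j => z (i, j)).det = (Matrix.of fun i j => z (eR i, eR j)).det :=
    (det_submatrix_equiv_self eR (Matrix.of fun i j => z (i, j))).symm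
  unfold invertibleLocus inv
  rw [h1]
  refine and_congr_left fun _ => ⟨fun h v hv => h (eR v.1, eR v.2) ?_, fun h v hv => ?_⟩
  · simpa using hv
  · have := h (eR.symm v.1, eR.symm v.2) hv
    simpa using this

lemma con_det {n : ℕ} (T : Set (Fin n × Fin n)) (a : ℤ) :
    IsCon fun K _ (z : Fin n × Fin n → K) =>
      (∀ v, v ∉ T → z v = 0) ∧ (Matrix.of fun i j => z (i, j)).det = (a : K) :=
  con_and (con_zeros _) (con_eq (isPoly_det fun i j => isPoly_var (i, j)) (isPoly_int a))

/-- the pattern with one more row and one more column, without places in them -/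
def padSet {n : ℕ} (T : Set (Fin n × Fin n)) : Set (Fin (n + 1) × Fin (n + 1)) :=
  {v | ∃ i j : Fin n, v = (i.succ, j.succ) ∧ (i, j) ∈ T}

section basic

variable {V : Type} [AddCommGroup V] {L : V ≃+ V} {m : Measure V L} {S : AddSubgroup V}

lemma con_singular {n : ℕ} (T : Set (Fin n × Fin n)) : IsCon (singularLocus T) :=
  con_congr (con_det T 0) fun K _ z => by simp [singularLocus]

lemma con_unimodular {n : ℕ} (T : Set (Fin n × Fin n)) : IsCon (unimodularLocus T) :=
  con_congr (con_det T 1) fun K _ z => by simp [unimodularLocus]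

lemma good_invertible_of_singular {n : ℕ} {T : Set (Fin n × Fin n)}
    (hc : Good m S (singularLocus T)) (hc' : Good m S (singularLocus (padSet T))) :
    Good m S (invertibleLocus T) := by
  classical
  -- all matrices with zeros outside `T`
  have h1 : Good m S fun K _ (z : Fin n × Fin n → K) => ∀ v, v ∉ T → z v = 0 := by
    refine (good_bij hc'.1 (con_zeros _) (fun v _ _ z => z (v.1.succ, v.2.succ))
      (fun v => isPoly_var _) ?_ ?_ ?_).1 hc'
    · rintro K _ z ⟨hz, _⟩ v hv
      refine hz _ ?_
      rintro ⟨i, j, hij, hT⟩
      rw [Prod.mk.injEq, Fin.succ_inj, Fin.succ_inj] at hij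
      exact hv (by rw [← hij.1, ← hij.2] at hT; exact hT)
    · rintro K _ z z' ⟨hz, _⟩ ⟨hz', _⟩ heq
      funext ⟨i, j⟩
      by_cases hT : (i, j) ∈ padSet T
      · obtain ⟨i', j', hij, _⟩ := hT
        rw [hij]
        exact heq (i', j')
      · rw [hz _ hT, hz' _ hT]
    · intro K _ y hy
      refine ⟨fun v => Fin.cases 0 (fun i => Fin.cases 0 (fun j => y (i, j)) v.2) v.1, ⟨?_, ?_⟩,
        fun v => rfl⟩
      · rintro ⟨i, j⟩ hv
        induction i using Fin.cases with
        | zero => rfl
        | succ i =>
          induction j using Fin.cases with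
          | zero => rfl
          | succ j => exact hy (i, j) fun hT => hv ⟨i, j, rfl, hT⟩
      · exact det_eq_zero_of_row_eq_zero 0 fun j => rfl
  exact Good.diff (con_eq (isPoly_det fun i j => isPoly_var (i, j)) isPoly_zero) h1
    (hc.congr fun K _ z => Iff.rfl)

lemma good_unimodular_iff (hS : Saturated L S) {n : ℕ} {T : Set (Fin n × Fin n)} :
    Good m S (unimodularLocus T) ↔ Good m S (invertibleLocus T) := by
  classical
  have hcon : IsCon (invertibleLocus T) := con_inv fun v => v ∈ T
  cases n with
  | zero =>
    refine good_congr fun K _ z => ?_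
    unfold unimodularLocus invertibleLocus
    rw [det_isEmpty]
    simp
  | succ n =>
    have h1 := good_gm (m := m) hS (con_unimodular T)
    refine h1.symm.trans ?_
    refine good_bij (con_and (con_res (con_unimodular T) (some : _ → Option _))
      (con_ne (isPoly_var none) isPoly_zero)) hcon
      (fun v _ _ z => if v.1 = 0 then z none * z (some v) else
      z (some v)) (fun v => ?_) ?_ ?_ ?_
    · by_cases hv : v.1 = 0
      · simp only [if_pos hv]
        exact (isPoly_var _).mul (isPoly_var _)
      · simp only [if_neg hv]
        exact isPoly_var _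
    · rintro K _ z ⟨⟨hz, hd⟩, hn⟩
      refine ⟨fun v hv => ?_, ?_⟩
      · have : z (some v) = 0 := hz v hv
        change (if v.1 = 0 then z none * z (some v) else z (some v)) = 0
        rw [this, mul_zero, ite_self]
      · have h2 : (Matrix.of fun i j => if i = 0 then z none * z (some (i, j)) else
            z (some (i, j))) = updateRow (Matrix.of fun i j => z (some (i, j))) 0
              (z none • (Matrix.of fun i j => z (some (i, j))) 0) := by
          ext i j
          by_cases hi : i = 0
          · subst hi
            simp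
          · simp [hi]
        change (Matrix.of fun i j => if i = 0 then z none * z (some (i, j)) else
            z (some (i, j))).det ≠ 0
        rw [h2, det_updateRow_smul, updateRow_eq_self, hd, mul_one]
        exact hn
    · rintro K _ z z' ⟨⟨hz, hd⟩, hn⟩ ⟨⟨hz', hd'⟩, hn'⟩ heq
      have h2 : ∀ x : Option (Fin (n + 1) × Fin (n + 1)) → K, (Matrix.of fun i j => if i = 0 then
          x none * x (some (i, j)) else x (some (i, j))).det =
            x none * (Matrix.of fun i j => x (some (i, j))).det := by
        intro x
        have h3 : (Matrix.of fun i j => if i = 0 then x none * x (some (i, j)) else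
            x (some (i, j))) = updateRow (Matrix.of fun i j => x (some (i, j))) 0
              (x none • (Matrix.of fun i j => x (some (i, j))) 0) := by
          ext i j
          by_cases hi : i = 0
          · subst hi
            simp
          · simp [hi]
        rw [h3, det_updateRow_smul, updateRow_eq_self]
      have h3 : (Matrix.of fun i j => if i = 0 then z none * z (some (i, j)) else
          z (some (i, j))) = Matrix.of fun i j => if i = 0 then z' none * z' (some (i, j)) else
          z' (some (i, j)) := by
        ext i j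
        exact heq (i, j)
      have h4 := h2 z
      rw [h3, h2 z', hd, hd', mul_one, mul_one] at h4
      funext o
      cases o with
      | none => exact h4.symm
      | some v =>
        have h5 := heq v
        by_cases hv : v.1 = 0
        · simp only [if_pos hv] at h5
          rw [← h4] at h5
          exact mul_left_cancel₀ hn' (by rw [← h5, h4])
        · simp only [if_neg hv] at h5
          exact h5
    · rintro K _ y ⟨hy, hd⟩
      let d : K := (Matrix.of fun i j => y (i, j)).det
      have hd0 : d ≠ 0 := hd
      refine ⟨fun o => o.elim d fun v => if v.1 = 0 then d⁻¹ * y v else y v, ⟨⟨?_, ?_⟩, hd⟩, ?_⟩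
      · intro v hv
        have := hy v hv
        by_cases hv0 : v.1 = 0
        · change (if v.1 = 0 then d⁻¹ * y v else y v) = 0
          rw [if_pos hv0, this, mul_zero]
        · change (if v.1 = 0 then d⁻¹ * y v else y v) = 0
          rw [if_neg hv0, this]
      · have h3 : (Matrix.of fun i j => if i = 0 then d⁻¹ * y (i, j) else y (i, j)) =
            updateRow (Matrix.of fun i j => y (i, j)) 0
              (d⁻¹ • (Matrix.of fun i j => y (i, j)) 0) := by
          ext i j
          by_cases hi : i = 0
          · subst hi
            simp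
          · simp [hi]
        change (Matrix.of fun i j => if i = 0 then d⁻¹ * y (i, j) else y (i, j)).det = 1
        rw [h3, det_updateRow_smul, updateRow_eq_self]
        exact inv_mul_cancel₀ hd0
      · intro v
        by_cases hv : v.1 = 0
        · simp only [Option.elim, if_pos hv]
          rw [← mul_assoc, mul_inv_cancel₀ hd0, one_mul]
        · simp only [Option.elim, if_neg hv]

end basic

theorem generates_squareZero : Generates SquareZeroFamily := by
  classical
  intro V _ L m S hS h ι _ φ
  refine mem_of_good (good_of_ortho hS (fun R C _ _ T N => ?_) ι φ)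
  have _ : Fintype R := Fintype.ofFinite R
  have _ : Fintype C := Fintype.ofFinite C
  refine good_ortho_all hS (fun J _ T => good_of_sqz T ?_) N T
  let eR := Fintype.equivFin R
  let eJ := Fintype.equivFin J
  let eC := Fintype.equivFin C
  let e : R ⊕ (J ⊕ C) ≃ Fin (Fintype.card R + (Fintype.card J + Fintype.card C)) :=
    (eR.sumCongr ((eJ.sumCongr eC).trans finSumFinEquiv)).trans finSumFinEquiv
  have hT : ∀ v ∈ {v : Fin (Fintype.card R + (Fintype.card J + Fintype.card C)) × _ |
      tB T (e.symm v.1, e.symm v.2)}, v.1 < v.2 := by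
    rintro ⟨a, b⟩ hab
    obtain ⟨a, rfl⟩ := e.surjective a
    obtain ⟨b, rfl⟩ := e.surjective b
    change tB T (e.symm (e a), e.symm (e b)) at hab
    rw [Equiv.symm_apply_apply, Equiv.symm_apply_apply] at hab
    rcases a with a | a | a <;> rcases b with b | b | b
    · exact hab.elim
    · change e (.inl a) < e (.inr (.inl b))
      simp only [e, Equiv.trans_apply, Equiv.sumCongr_apply, Sum.map_inl, Sum.map_inr,
        finSumFinEquiv_apply_left, finSumFinEquiv_apply_right]
      rw [Fin.lt_def]
      simp only [Fin.val_castAdd, Fin.val_natAdd]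
      have := (eR a).2
      omega
    · exact hab.elim
    · exact hab.elim
    · exact hab.elim
    · change e (.inr (.inl a)) < e (.inr (.inr b))
      simp only [e, Equiv.trans_apply, Equiv.sumCongr_apply, Sum.map_inl, Sum.map_inr,
        finSumFinEquiv_apply_left, finSumFinEquiv_apply_right]
      rw [Fin.lt_def]
      simp only [Fin.val_castAdd, Fin.val_natAdd]
      have := (eJ a).2
      omega
    · exact hab.elim
    · exact hab.elim
    · exact hab.elim
  have hcon : IsCon (squareZeroLocus {v : Fin (Fintype.card R + (Fintype.card J +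
      Fintype.card C)) × _ | tB T (e.symm v.1, e.symm v.2)}) := by
    refine con_congr (con_and (con_zeros fun v => tB T (e.symm v.1, e.symm v.2))
      (con_forall fun i => con_forall fun j => con_eq (isPoly_sum Finset.univ fun k =>
        (isPoly_var (i, k)).mul (isPoly_var (k, j))) isPoly_zero)) fun K _ z => ?_
    refine and_congr_right fun _ => ?_
    rw [← Matrix.ext_iff]
    refine forall_congr' fun i => forall_congr' fun j => ?_
    rw [pow_two, Matrix.mul_apply]
    rfl
  refine good_reindex (e.prodCongr e) (good_of_family h (.mk _ _ hT) hcon) fun K _ z => ?_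
  unfold squareZeroLocus sqz
  refine and_congr ⟨fun h v hv => h (e v.1, e v.2) ?_, fun h v hv => ?_⟩ ?_
  · simpa using hv
  · have := h (e.symm v.1, e.symm v.2) hv
    simpa using this
  · rw [← Matrix.ext_iff]
    constructor
    · intro h i j
      have := h (e i) (e j)
      rw [pow_two, Matrix.mul_apply] at this
      rw [← e.sum_comp] at this
      exact this
    · intro h i j
      have := h (e.symm i) (e.symm j)
      rw [pow_two, Matrix.mul_apply, ← e.sum_comp]
      simpa using this

end Pool.Agent.H504.MC
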