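import Pool.Agent.H504.MC.Calc

/-!
# From systems of elementary equations to all constructible sets
-/

set_option autoImplicit false

namespace Pool.Agent.H504.MC

open MvPolynomial

section boolean

variable {V : Type} [AddCommGroup V] {L : V ≃+ V} {m : Measure V L} {S : AddSubgroup V}

lemma con_aeval {ι : Type} (p : MvPolynomial ι ℤ) :
    IsCon fun (K : Type) _ (x : ι → K) => aeval x p = 0 :=
  ⟨.eq p, fun _ _ _ => Iff.rfl⟩

lemma con_holds {ι : Type} (φ : Form ι) :
    IsCon fun (K : Type) _ (x : ι → K) => φ.holds x :=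
  ⟨φ, fun _ _ _ => Iff.rfl⟩

/-- closed conditions -/
def IsClosedCond {ι : Type} (c : Cond ι) : Prop :=
  ∃ (G : Type) (_ : Finite G) (p : G → MvPolynomial ι ℤ),
    ∀ (K : Type) [Field K] (x : ι → K), c K x ↔ ∀ k, aeval x (p k) = 0

lemma IsClosedCond.con {ι : Type} {c : Cond ι} (h : IsClosedCond c) : IsCon c := by
  obtain ⟨G, _, p, hp⟩ := h
  exact con_congr (con_forall fun k => con_aeval (p k)) fun K _ x => (hp K x).symm

lemma IsClosedCond.and_eq {ι : Type} {c : Cond ι} (h : IsClosedCond c) (q : MvPolynomial ι ℤ) :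
    IsClosedCond fun K _ x => aeval x q = 0 ∧ c K x := by
  obtain ⟨G, _, p, hp⟩ := h
  refine ⟨Option G, inferInstance, fun k => k.elim q p, fun K _ x => ?_⟩
  beta_reduce
  rw [hp, Option.forall]
  rfl

theorem good_of_closed
    (h : ∀ (ι : Type) [Finite ι] (c : Cond ι), IsClosedCond c → Good m S c)
    (ι : Type) [Finite ι] (φ : Form ι) : Good m S fun K _ x => φ.holds x := by
  have key : ∀ (φ : Form ι) (Z : Cond ι), IsCon Z →
      (∀ c, IsClosedCond c → Good m S fun K _ x => Z K x ∧ c K x) →
      ∀ c, IsClosedCond c → Good m S fun K _ x => (Z K x ∧ φ.holds x) ∧ c K x := by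
    intro φ
    induction φ with
    | eq p =>
      intro Z hZ hc c h1
      exact (hc _ (h1.and_eq p)).congr fun K _ x => by
        rw [and_assoc]
        exact Iff.rfl
    | neg φ ih =>
      intro Z hZ hc c h1
      refine (Good.diff (con_holds φ) (hc c h1) ((ih Z hZ hc c h1).congr fun K _ x => ?_)).congr
        fun K _ x => ?_
      · tauto
      · change _ ↔ (Z K x ∧ ¬ φ.holds x) ∧ c K x
        tauto
    | and φ ψ ih1 ih2 =>
      intro Z hZ hc c h1
      refine (ih2 (fun K _ x => Z K x ∧ φ.holds x) (con_and hZ (con_holds φ)) (ih1 Z hZ hc)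
        c h1).congr fun K _ x => ?_
      change _ ↔ (Z K x ∧ (φ.holds x ∧ ψ.holds x)) ∧ c K x
      tauto
  have h0 : IsClosedCond fun (K : Type) _ (_ : ι → K) => True :=
    ⟨Empty, inferInstance, fun k => k.elim, fun K _ x => by simp⟩
  exact (key φ (fun _ _ _ => True) con_true (fun c hc => (h ι c hc).congr fun K _ x => by simp)
    _ h0).congr fun K _ x => by simp

end boolean

/-- elementary equations -/
inductive Gate (α : Type) : Type
  | one : α → Gate α
  | sub : α → α → α → Gate α
  | mul : α → α → α → Gate α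

namespace Gate

variable {α β : Type}

/-- the equations `s i = 1`, `s c = s a - s b` and `s c = s a * s b` -/
def holds {K : Type} [Field K] (s : α → K) : Gate α → Prop
  | .one i => s i = 1
  | .sub a b c => s c = s a - s b
  | .mul a b c => s c = s a * s b

/-- renaming of variables -/
def map (f : α → β) : Gate α → Gate β
  | .one i => .one (f i)
  | .sub a b c => .sub (f a) (f b) (f c)
  | .mul a b c => .mul (f a) (f b) (f c)

lemma holds_map {K : Type} [Field K] (f : α → β) (s : β → K) (g : Gate α) :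
    (g.map f).holds s ↔ g.holds fun i => s (f i) := by
  cases g <;> exact Iff.rfl

lemma con (g : Gate α) : IsCon fun (K : Type) _ (s : α → K) => g.holds s := by
  cases g with
  | one i => exact con_eq (isPoly_var i) isPoly_one
  | sub a b c => exact con_eq (isPoly_var c) ((isPoly_var a).sub (isPoly_var b))
  | mul a b c => exact con_eq (isPoly_var c) ((isPoly_var a).mul (isPoly_var b))

end Gate

/-- the values of the polynomial `p` are computed by elementary equations with additional variables,
which have exactly one solution -/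
def Comp {ι : Type} (p : MvPolynomial ι ℤ) : Prop :=
  ∃ (Γ : Type) (_ : Finite Γ) (G : Type) (_ : Finite G) (g : G → Gate (ι ⊕ Γ)) (o : ι ⊕ Γ),
    ∀ (K : Type) [Field K] (x : ι → K), ∃ y : Γ → K,
      (∀ y' : Γ → K, (∀ k, (g k).holds (Sum.elim x y')) ↔ y' = y) ∧ Sum.elim x y o = aeval x p

section comp

variable {ι : Type}

lemma comp_X (i : ι) : Comp (X i : MvPolynomial ι ℤ) := by
  refine ⟨Empty, inferInstance, Empty, inferInstance, fun k => k.elim, .inl i, fun K _ x => ?_⟩
  refine ⟨fun k => k.elim, fun y' => ?_, by simp⟩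
  simp only [IsEmpty.forall_iff, true_iff]
  funext k
  exact k.elim

lemma comp_one : Comp (1 : MvPolynomial ι ℤ) := by
  refine ⟨Unit, inferInstance, Unit, inferInstance, fun _ => .one (.inr ()), .inr (),
    fun K _ x => ?_⟩
  refine ⟨fun _ => 1, fun y' => ?_, by simp⟩
  constructor
  · intro h
    funext k
    exact h ()
  · rintro rfl _
    rfl

lemma comp_op (op : ∀ {α : Type}, α → α → α → Gate α)
    (f : ∀ {K : Type} [Field K], K → K → K)
    (hop : ∀ {α K : Type} [Field K] (s : α → K) (a b c : α),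
      (op a b c).holds s ↔ s c = f (s a) (s b))
    {p q r : MvPolynomial ι ℤ} (hp : Comp p) (hq : Comp q)
    (hr : ∀ (K : Type) [Field K] (x : ι → K), aeval x r = f (aeval x p) (aeval x q)) :
    Comp r := by
  obtain ⟨Γ1, _, G1, _, g1, o1, h1⟩ := hp
  obtain ⟨Γ2, _, G2, _, g2, o2, h2⟩ := hq
  let e1 : ι ⊕ Γ1 → ι ⊕ Option (Γ1 ⊕ Γ2) := Sum.map id fun k => some (.inl k)
  let e2 : ι ⊕ Γ2 → ι ⊕ Option (Γ1 ⊕ Γ2) := Sum.map id fun k => some (.inr k)
  refine ⟨Option (Γ1 ⊕ Γ2), inferInstance, Option (G1 ⊕ G2), inferInstance,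
    fun k => k.elim (op (e1 o1) (e2 o2) (.inr none))
      (Sum.elim (fun k => (g1 k).map e1) fun k => (g2 k).map e2), .inr none, fun K _ x => ?_⟩
  obtain ⟨y1, hy1, hv1⟩ := h1 K x
  obtain ⟨y2, hy2, hv2⟩ := h2 K x
  have r1 : ∀ y' : Option (Γ1 ⊕ Γ2) → K, (fun i => (Sum.elim x y' : ι ⊕ _ → K) (e1 i)) =
      Sum.elim x fun k => y' (some (.inl k)) := by
    intro y'
    funext i
    rcases i with i | i <;> rfl
  have r2 : ∀ y' : Option (Γ1 ⊕ Γ2) → K, (fun i => (Sum.elim x y' : ι ⊕ _ → K) (e2 i)) =
      Sum.elim x fun k => y' (some (.inr k)) := by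
    intro y'
    funext i
    rcases i with i | i <;> rfl
  refine ⟨fun k => k.elim (f (aeval x p) (aeval x q)) (Sum.elim y1 y2), fun y' => ?_, ?_⟩
  · rw [Option.forall, Sum.forall]
    simp only [Option.elim, Sum.elim_inl, Sum.elim_inr, Gate.holds_map, hop]
    rw [r1, r2, hy1, hy2]
    have s1 : (Sum.elim x y' : ι ⊕ _ → K) (e1 o1) = Sum.elim x (fun k => y' (some (.inl k))) o1 :=
      congrFun (r1 y') o1
    have s2 : (Sum.elim x y' : ι ⊕ _ → K) (e2 o2) = Sum.elim x (fun k => y' (some (.inr k))) o2 :=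
      congrFun (r2 y') o2
    rw [s1, s2]
    constructor
    · rintro ⟨h0, h1, h2⟩
      rw [h1, h2, hv1, hv2] at h0
      funext k
      rcases k with _ | (k | k)
      · exact h0
      · exact congrFun h1 k
      · exact congrFun h2 k
    · rintro rfl
      refine ⟨?_, rfl, rfl⟩
      exact (congrArg₂ f hv1 hv2).symm
  · exact (hr K x).symm

lemma comp_sub {p q : MvPolynomial ι ℤ} (hp : Comp p) (hq : Comp q) : Comp (p - q) :=
  comp_op (fun a b c => .sub a b c) (fun a b => a - b) (fun s a b c => Iff.rfl) hp hq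
    fun K _ x => map_sub _ _ _

lemma comp_mul {p q : MvPolynomial ι ℤ} (hp : Comp p) (hq : Comp q) : Comp (p * q) :=
  comp_op (fun a b c => .mul a b c) (fun a b => a * b) (fun s a b c => Iff.rfl) hp hq
    fun K _ x => map_mul _ _ _

lemma comp_zero : Comp (0 : MvPolynomial ι ℤ) := by
  have := comp_sub (ι := ι) comp_one comp_one
  rwa [sub_self] at this

lemma comp_neg {p : MvPolynomial ι ℤ} (hp : Comp p) : Comp (-p) := by
  have := comp_sub comp_zero hp
  rwa [zero_sub] at this

lemma comp_add {p q : MvPolynomial ι ℤ} (hp : Comp p) (hq : Comp q) : Comp (p + q) := by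
  have := comp_sub hp (comp_neg hq)
  rwa [sub_neg_eq_add] at this

lemma comp_int (n : ℤ) : Comp (C n : MvPolynomial ι ℤ) := by
  induction n using Int.induction_on with
  | zero => rw [map_zero]; exact comp_zero
  | succ i ih => rw [map_add, map_one]; exact comp_add ih comp_one
  | pred i ih => rw [map_sub, map_one]; exact comp_sub ih comp_one

lemma comp_all (p : MvPolynomial ι ℤ) : Comp p := by
  induction p using MvPolynomial.induction_on with
  | C n => exact comp_int n
  | add p q hp hq => exact comp_add hp hq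
  | mul_X p i hp => exact comp_mul hp (comp_X i)

end comp

section gates

variable {V : Type} [AddCommGroup V] {L : V ≃+ V} {m : Measure V L} {S : AddSubgroup V}

theorem good_of_gates
    (h : ∀ (α G : Type) [Finite α] [Finite G] (g : G → Gate α),
      Good m S fun K _ (s : α → K) => ∀ k, (g k).holds s)
    (ι : Type) [Finite ι] (φ : Form ι) : Good m S fun K _ x => φ.holds x := by
  refine good_of_closed (fun ι _ c hc => ?_) ι φ
  have hcon := hc.con
  obtain ⟨G, _, p, hp⟩ := hc
  choose Γ hΓ H hH g o hg using fun k => comp_all (p k)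
  have i1 : ∀ k, Finite (Γ k) := hΓ
  have i2 : ∀ k, Finite (H k) := hH
  let e : ∀ k, ι ⊕ Γ k → ι ⊕ (Σ k, Γ k) := fun k => Sum.map id fun y => ⟨k, y⟩
  have r : ∀ (K : Type) [Field K] (s : ι ⊕ (Σ k, Γ k) → K) (k : G), (fun i => s (e k i)) =
      Sum.elim (fun i => s (.inl i)) fun y => s (.inr ⟨k, y⟩) := by
    intro K _ s k
    funext i
    rcases i with i | i <;> rfl
  have h1 := h (ι ⊕ (Σ k, Γ k)) ((Σ k, H k) ⊕ G)
    (Sum.elim (fun k => (g k.1 k.2).map (e k.1)) fun k => .sub (e k (o k)) (e k (o k)) (e k (o k)))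
  refine (good_bij h1.1 hcon (fun i _ _ x => x (.inl i)) (fun i => isPoly_var _) ?_ ?_ ?_).1 h1
  · intro K _ s hs
    rw [Sum.forall] at hs
    rw [hp]
    intro k
    obtain ⟨y, hy, hv⟩ := hg k K fun i => s (.inl i)
    have h2 : (fun y' => s (.inr ⟨k, y'⟩)) = y := by
      rw [← hy]
      intro l
      have := hs.1 ⟨k, l⟩
      simp only [Sum.elim_inl, Gate.holds_map] at this
      rwa [r] at this
    have h3 := hs.2 k
    change s (e k (o k)) = s (e k (o k)) - s (e k (o k)) at h3
    rw [sub_self] at h3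
    rw [← hv, ← h2, ← h3]
    exact (congrFun (r K s k) (o k)).symm
  · intro K _ s s' hs hs' heq
    have h0 : (fun i => s (.inl i)) = fun i => s' (.inl i) := funext heq
    funext i
    rcases i with i | ⟨k, i⟩
    · exact heq i
    · obtain ⟨y, hy, hv⟩ := hg k K fun i => s (.inl i)
      have h2 : (fun y' => s (.inr ⟨k, y'⟩)) = y := by
        rw [← hy]
        intro l
        have := hs (.inl ⟨k, l⟩)
        simp only [Sum.elim_inl, Gate.holds_map] at this
        rwa [r] at this
      have h3 : (fun y' => s' (.inr ⟨k, y'⟩)) = y := by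
        rw [← hy]
        intro l
        have := hs' (.inl ⟨k, l⟩)
        simp only [Sum.elim_inl, Gate.holds_map] at this
        rw [r, ← h0] at this
        exact this
      exact congrFun (h2.trans h3.symm) i
  · intro K _ x hx
    rw [hp] at hx
    choose y hy hv using fun k => hg k K x
    refine ⟨Sum.elim x fun k => y k.1 k.2, ?_, fun k => rfl⟩
    have r' : ∀ k, (fun i => (Sum.elim x (fun k : Σ k, Γ k => y k.1 k.2) : _ → K) (e k i)) =
        Sum.elim x (y k) := fun k => r K _ k
    rw [Sum.forall]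
    constructor
    · rintro ⟨k, l⟩
      simp only [Sum.elim_inl, Gate.holds_map]
      rw [r']
      exact (hy k (y k)).2 rfl l
    · intro k
      have : (Sum.elim x (fun k : Σ k, Γ k => y k.1 k.2) : _ → K) (e k (o k)) = 0 := by
        refine (congrFun (r' k) (o k)).trans ?_
        rw [hv, hx]
      change _ = _ - _
      rw [this, sub_self]

end gates

end Pool.Agent.H504.MC
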