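import Pool.Agent.H504.MC.Two
import Pool.Agent.H504.MC.Families

/-!
# Matrices of rank at most two do not generate
-/

set_option autoImplicit false

namespace Pool.Agent.H504.MC

open Polynomial

local instance (p : Nat.Primes) : Fact (p : ℕ).Prime := ⟨p.2⟩

/-- multiplication by `p` -/
noncomputable def mulP : (Nat.Primes → ℚ) ≃+ (Nat.Primes → ℚ) where
  toFun f := fun p => (p : ℕ) * f p
  invFun f := fun p => ((p : ℕ) : ℚ)⁻¹ * f p
  left_inv f := by
    funext p
    have : ((p : ℕ) : ℚ) ≠ 0 := by exact_mod_cast p.2.ne_zero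
    field_simp
  right_inv f := by
    funext p
    have : ((p : ℕ) : ℚ) ≠ 0 := by exact_mod_cast p.2.ne_zero
    field_simp
  map_add' f g := by
    funext p
    simp [mul_add]

/-- the number of solutions in the field with `p` elements -/
noncomputable def cnt {ι : Type} (φ : Form ι) (p : Nat.Primes) : ℕ :=
  Nat.card {x : ι → ZMod p // φ.holds x}

/-- counting of points over the prime fields as a motivic measure -/
noncomputable def cntMeasure : Measure (Nat.Primes → ℚ) mulP where
  μ := fun ι _ φ p => cnt φ p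
  add := fun ι _ φ ψ => by
    classical
    funext p
    have h : cnt φ p = cnt (φ.and ψ) p + cnt (φ.and ψ.neg) p := by
      unfold cnt
      rw [← Nat.card_sum]
      refine Nat.card_congr ((Equiv.sumCompl fun x : {x : ι → ZMod p // φ.holds x} =>
        ψ.holds x.1).symm.trans (Equiv.sumCongr ?_ ?_))
      · exact Equiv.subtypeSubtypeEquivSubtypeInter _ fun x : ι → ZMod p => ψ.holds x
      · exact Equiv.subtypeSubtypeEquivSubtypeInter _ fun x : ι → ZMod p => ¬ ψ.holds x
    rw [Pi.add_apply, h]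
    push_cast
    rfl
  bij := fun ι κ _ _ φ ψ q h => by
    funext p
    have h1 : cnt φ p = cnt ψ p := Nat.card_congr (h (ZMod p)).equiv
    rw [h1]
  line := fun ι _ φ ψ h => by
    funext p
    have h1 : cnt ψ p = p * cnt φ p := by
      have e : {x : Option ι → ZMod p // ψ.holds x} ≃ ZMod p × {x : ι → ZMod p // φ.holds x} :=
        { toFun := fun x => (x.1 none, ⟨fun i => x.1 (some i), (h (ZMod p) x.1).1 x.2⟩)
          invFun := fun y => ⟨fun o => o.elim y.1 y.2.1, (h (ZMod p) _).2 y.2.2⟩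
          left_inv := fun x => Subtype.ext (funext fun o => by cases o <;> rfl)
          right_inv := fun y => rfl }
      unfold cnt
      rw [Nat.card_congr e, Nat.card_prod, Nat.card_zmod]
    change (cnt ψ p : ℚ) = (p : ℕ) * (cnt φ p : ℚ)
    rw [h1]
    push_cast
    rfl

/-- functions given by quotients of polynomials -/
def ratFun : AddSubgroup (Nat.Primes → ℚ) where
  carrier := {f | ∃ P Q : ℚ[X], Q ≠ 0 ∧ ∀ p : Nat.Primes, Q.eval ((p : ℕ) : ℚ) * f p =
    P.eval ((p : ℕ) : ℚ)}
  zero_mem' := ⟨0, 1, one_ne_zero, fun p => by simp⟩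
  add_mem' := by
    rintro f g ⟨P, Q, hQ, h⟩ ⟨P', Q', hQ', h'⟩
    refine ⟨P * Q' + P' * Q, Q * Q', mul_ne_zero hQ hQ', fun p => ?_⟩
    rw [eval_mul, eval_add, eval_mul, eval_mul, ← h, ← h', Pi.add_apply]
    ring
  neg_mem' := by
    rintro f ⟨P, Q, hQ, h⟩
    refine ⟨-P, Q, hQ, fun p => ?_⟩
    rw [eval_neg, ← h, Pi.neg_apply]
    ring

lemma iter_mulP (k : ℕ) (f : Nat.Primes → ℚ) (p : Nat.Primes) :
    (⇑mulP)^[k] f p = ((p : ℕ) : ℚ) ^ k * f p := by
  induction k generalizing f with
  | zero => simp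
  | succ k ih =>
    rw [Function.iterate_succ_apply, ih]
    change _ * (((p : ℕ) : ℚ) * f p) = _
    ring

lemma saturated_ratFun : Saturated mulP ratFun := by
  constructor
  · intro f
    constructor
    · rintro ⟨P, Q, hQ, h⟩
      refine ⟨P, X * Q, mul_ne_zero X_ne_zero hQ, fun p => ?_⟩
      rw [eval_mul, eval_X, ← h p]
      change _ = _ * (((p : ℕ) : ℚ) * f p)
      ring
    · rintro ⟨P, Q, hQ, h⟩
      refine ⟨X * P, Q, hQ, fun p => ?_⟩
      rw [eval_mul, eval_X, ← h p]
      change _ * (((p : ℕ) : ℚ) * f p) = _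
      ring
  · rintro k f ⟨P, Q, hQ, h⟩
    refine ⟨P, Q * (X ^ (k + 1) - 1), mul_ne_zero hQ ?_, fun p => ?_⟩
    · exact (monic_X_pow_sub_C (1 : ℚ) (Nat.succ_ne_zero k)).ne_zero
    · rw [← h p, Pi.sub_apply, iter_mulP]
      simp only [eval_mul, eval_sub, eval_pow, eval_X, eval_one]
      ring

/-- the equation `x ^ 2 + 1 = 0` -/
noncomputable def sqForm : Form Unit := .eq (MvPolynomial.X () ^ 2 + 1)

lemma cnt_sqForm (p : Nat.Primes) : cnt sqForm p = 0 ↔ (p : ℕ) % 4 = 3 := by
  unfold cnt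
  have hf : Finite {x : Unit → ZMod p // sqForm.holds x} := inferInstance
  rw [Finite.card_eq_zero_iff, isEmpty_subtype]
  have h1 : ∀ x : Unit → ZMod p, sqForm.holds x ↔ -1 = x () * x () := by
    intro x
    change MvPolynomial.aeval x (MvPolynomial.X () ^ 2 + 1 : MvPolynomial Unit ℤ) = 0 ↔ _
    rw [map_add, map_pow, MvPolynomial.aeval_X, map_one]
    constructor
    · intro h
      linear_combination -h
    · intro h
      linear_combination -h
  constructor
  · intro h
    by_contra h3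
    obtain ⟨y, hy⟩ := (ZMod.exists_sq_eq_neg_one_iff (p := (p : ℕ))).2 h3
    exact h (fun _ => y) ((h1 _).2 hy)
  · intro h3 x hx
    exact (ZMod.exists_sq_eq_neg_one_iff (p := (p : ℕ))).1 ⟨x (), (h1 x).1 hx⟩ h3

lemma infinite_eval {a : ZMod 4} (ha : IsUnit a) {P : ℚ[X]}
    (h : ∀ p : Nat.Primes, ((p : ℕ) : ZMod 4) = a → P.eval ((p : ℕ) : ℚ) = 0) : P = 0 := by
  refine eq_zero_of_infinite_isRoot P ?_
  have h1 : Set.Infinite {p : ℕ | p.Prime ∧ (p : ZMod 4) = a} :=
    Nat.infinite_setOfPred_prime_and_eq_mod ha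
  have h2 := h1.image (f := fun p : ℕ => (p : ℚ)) Nat.cast_injective.injOn
  refine h2.mono ?_
  rintro _ ⟨p, ⟨hp, hpa⟩, rfl⟩
  exact h ⟨p, hp⟩ hpa

lemma sqForm_notMem : cntMeasure.μ Unit sqForm ∉ ratFun := by
  rintro ⟨P, Q, hQ, h⟩
  have h' : ∀ p : Nat.Primes, Q.eval ((p : ℕ) : ℚ) * (cnt sqForm p : ℚ) =
    P.eval ((p : ℕ) : ℚ) := h
  have h3 : ∀ p : Nat.Primes, ((p : ℕ) : ZMod 4) = 3 → (p : ℕ) % 4 = 3 := by
    intro p hp
    have : ((p : ℕ) : ZMod 4) = ((3 : ℕ) : ZMod 4) := by simpa using hp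
    rw [ZMod.natCast_eq_natCast_iff] at this
    exact this
  have h1 : ∀ p : Nat.Primes, ((p : ℕ) : ZMod 4) = 1 → (p : ℕ) % 4 = 1 := by
    intro p hp
    have : ((p : ℕ) : ZMod 4) = ((1 : ℕ) : ZMod 4) := by simpa using hp
    rw [ZMod.natCast_eq_natCast_iff] at this
    exact this
  have hP : P = 0 := infinite_eval (a := 3) (by decide) fun p hp => by
    rw [← h' p, (cnt_sqForm p).2 (h3 p hp)]
    simp
  refine hQ (infinite_eval (a := 1) isUnit_one fun p hp => ?_)
  have h4 := h' p
  rw [hP, eval_zero, mul_eq_zero] at h4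
  refine h4.resolve_right fun h5 => ?_
  have h6 := (cnt_sqForm p).1 (by exact_mod_cast h5)
  have h7 := h1 p hp
  omega

lemma good_pt_ratFun : Good cntMeasure ratFun pt := by
  have hrep : Rep (.eq 0 : Form Empty) pt := fun K _ x => by
    change True ↔ MvPolynomial.aeval x (0 : MvPolynomial Empty ℤ) = 0
    simp
  refine ⟨⟨_, hrep⟩, ?_⟩
  rw [cntMeasure.val_rep hrep]
  refine ⟨1, 1, one_ne_zero, fun p => ?_⟩
  have : cnt (.eq 0 : Form Empty) p = 1 := by
    unfold cnt
    have h : ∀ x : Empty → ZMod p, (.eq 0 : Form Empty).holds x := fun x => by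
      change MvPolynomial.aeval x (0 : MvPolynomial Empty ℤ) = 0
      simp
    rw [Nat.card_congr (Equiv.subtypeUnivEquiv h)]
    simp
  change _ * ((cnt (.eq 0 : Form Empty) p : ℕ) : ℚ) = _
  rw [this]
  simp

/-- A family generates only if it is not contained in the family of the sets whose measures are in
every saturated subgroup that contains the measure of the point. -/
lemma not_generates {F : ∀ ι : Type, Cond ι → Prop}
    (h : ∀ (V : Type) [AddCommGroup V] (L : V ≃+ V) (m : Measure V L) (S : AddSubgroup V),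
      Saturated L S → Good m S pt → ∀ (ι : Type) [Finite ι] (X : Cond ι), F ι X → Good m S X) :
    ¬ Generates F := by
  intro hF
  refine sqForm_notMem (hF _ _ cntMeasure ratFun saturated_ratFun (fun ι _ φ X hX hφ => ?_) Unit
    sqForm)
  have h1 := (h _ _ cntMeasure ratFun saturated_ratFun good_pt_ratFun ι X hX).2
  rwa [cntMeasure.val_rep hφ] at h1

/-- the measures of sparse matrices of rank at most two -/
theorem tate_det {r : ℕ} (hr : r ≤ 2) (V : Type) [AddCommGroup V] (L : V ≃+ V) (m : Measure V L)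
    (S : AddSubgroup V) (hS : Saturated L S) (hpt : Good m S pt) (ι : Type) [Finite ι] (X : Cond ι)
    (hX : DetFamily r ι X) : Good m S X := by
  obtain ⟨n, k, T⟩ := hX
  exact good_spLe_two hS hpt hr fun v => v ∈ T

theorem tate_rank {r : ℕ} (hr : r ≤ 2) (V : Type) [AddCommGroup V] (L : V ≃+ V) (m : Measure V L)
    (S : AddSubgroup V) (hS : Saturated L S) (hpt : Good m S pt) (ι : Type) [Finite ι] (X : Cond ι)
    (hX : RankFamily r ι X) : Good m S X := by
  obtain ⟨n, k, T⟩ := hX
  exact good_sp_le_two hS hpt hr fun v => v ∈ T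

theorem generates_det_iff (r : ℕ) : Generates (DetFamily r) ↔ 3 ≤ r := by
  refine ⟨fun h => ?_, generates_det⟩
  by_contra h3
  exact not_generates (fun V _ L m S hS hpt ι _ X hX => tate_det (by omega) V L m S hS hpt ι X hX) h

theorem generates_rank_iff (r : ℕ) : Generates (RankFamily r) ↔ 3 ≤ r := by
  refine ⟨fun h => ?_, generates_rank⟩
  by_contra h3
  exact not_generates (fun V _ L m S hS hpt ι _ X hX => tate_rank (by omega) V L m S hS hpt ι X hX) h

end Pool.Agent.H504.MC
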