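import Pool.Agent.H504.MC.Thin
import Pool.Agent.H504.MC.Sharp

/-!
# Families of thin matrices
-/

set_option autoImplicit false

namespace Pool.Agent.H504.MC

open Matrix

/-- every row and every column contains at most `k` places of `T` -/
def Thin {n : ℕ} (k : ℕ) (T : Set (Fin n × Fin n)) : Prop :=
  (∀ i, {j | (i, j) ∈ T}.ncard ≤ k) ∧ ∀ j, {i | (i, j) ∈ T}.ncard ≤ k

/-- invertible matrices with at most `k` entries that may be nonzero in every row and column -/
inductive ThinInvertible (k : ℕ) : ∀ ι : Type, Cond ι → Prop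
  | mk (n : ℕ) (T : Set (Fin n × Fin n)) (h : Thin k T) :
      ThinInvertible k (Fin n × Fin n) (invertibleLocus T)

/-- matrices with determinant `1` and at most `k` entries that may be nonzero in every row and column -/
inductive ThinUnimodular (k : ℕ) : ∀ ι : Type, Cond ι → Prop
  | mk (n : ℕ) (T : Set (Fin n × Fin n)) (h : Thin k T) :
      ThinUnimodular k (Fin n × Fin n) (unimodularLocus T)

/-- matrices with determinant `0` and at most `k` entries that may be nonzero in every row and column -/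
inductive ThinSingular (k : ℕ) : ∀ ι : Type, Cond ι → Prop
  | mk (n : ℕ) (T : Set (Fin n × Fin n)) (h : Thin k T) :
      ThinSingular k (Fin n × Fin n) (singularLocus T)

section

variable {V : Type} [AddCommGroup V] {L : V ≃+ V} {m : Measure V L} {S : AddSubgroup V}

lemma rs_eq {n : ℕ} (T : Fin n × Fin n → Prop) (i : Fin n) : rs T i = {j | T (i, j)}.ncard := by
  classical
  have h : ∀ j, ind (T (i, j)) = if T (i, j) then 1 else 0 := fun j => by
    by_cases h : T (i, j)
    · rw [ind_pos h, if_pos h]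
    · rw [ind_neg h, if_neg h]
  unfold rs
  rw [Finset.sum_congr rfl fun j _ => h j, ← Finset.card_filter, ← Set.ncard_coe_finset]
  congr 1
  ext j
  simp

lemma cs_eq {n : ℕ} (T : Fin n × Fin n → Prop) (j : Fin n) : cs T j = {i | T (i, j)}.ncard :=
  rs_eq (fun v => T (v.2, v.1)) j

lemma Thin.mono {n k k' : ℕ} {T : Set (Fin n × Fin n)} (h : Thin k T) (hk : k ≤ k') : Thin k' T :=
  ⟨fun i => (h.1 i).trans hk, fun j => (h.2 j).trans hk⟩

lemma Thin.pad {n k : ℕ} {T : Set (Fin n × Fin n)} (h : Thin k T) : Thin k (padSet T) := by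
  constructor
  · intro i
    induction i using Fin.cases with
    | zero =>
      have : {j | ((0 : Fin (n + 1)), j) ∈ padSet T} = ∅ := by
        ext j
        simp only [padSet, Set.mem_ofPred_eq, Prod.mk.injEq, Set.mem_empty_iff_false, iff_false]
        rintro ⟨i', j', ⟨h1, _⟩, _⟩
        exact Fin.succ_ne_zero _ h1.symm
      rw [this, Set.ncard_empty]
      exact Nat.zero_le _
    | succ i =>
      have : {j | (i.succ, j) ∈ padSet T} = Fin.succ '' {j | (i, j) ∈ T} := by
        ext j
        simp only [padSet, Set.mem_ofPred_eq, Prod.mk.injEq, Set.mem_image]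
        constructor
        · rintro ⟨i', j', ⟨h1, h2⟩, h3⟩
          rw [Fin.succ_inj] at h1
          subst h1
          exact ⟨j', h3, h2.symm⟩
        · rintro ⟨j', h3, rfl⟩
          exact ⟨i, j', ⟨rfl, rfl⟩, h3⟩
      rw [this, Set.ncard_image_of_injective _ (Fin.succ_injective n)]
      exact h.1 i
  · intro j
    induction j using Fin.cases with
    | zero =>
      have : {i | (i, (0 : Fin (n + 1))) ∈ padSet T} = ∅ := by
        ext j
        simp only [padSet, Set.mem_ofPred_eq, Prod.mk.injEq, Set.mem_empty_iff_false, iff_false]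
        rintro ⟨i', j', ⟨_, h1⟩, _⟩
        exact Fin.succ_ne_zero _ h1.symm
      rw [this, Set.ncard_empty]
      exact Nat.zero_le _
    | succ j =>
      have : {i | (i, j.succ) ∈ padSet T} = Fin.succ '' {i | (i, j) ∈ T} := by
        ext i
        simp only [padSet, Set.mem_ofPred_eq, Prod.mk.injEq, Set.mem_image]
        constructor
        · rintro ⟨i', j', ⟨h1, h2⟩, h3⟩
          rw [Fin.succ_inj] at h2
          subst h2
          exact ⟨i', h3, h1.symm⟩
        · rintro ⟨i', h3, rfl⟩
          exact ⟨i', j, ⟨rfl, rfl⟩, h3⟩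
      rw [this, Set.ncard_image_of_injective _ (Fin.succ_injective n)]
      exact h.2 j

/-- the thin patterns suffice -/
lemma good_of_thinFin (hS : Saturated L S)
    (h : ∀ (n : ℕ) (T : Set (Fin n × Fin n)), Thin 3 T → Good m S (invertibleLocus T))
    (n : ℕ) (T : Set (Fin n × Fin n)) : Good m S (invertibleLocus T) := by
  classical
  refine good_of_thin (m := m) hS (fun ν _ _ T' hr hc => ?_) (Fin n) fun v => v ∈ T
  let e := Fintype.equivFin ν
  have hT : Thin 3 {v : Fin (Fintype.card ν) × Fin (Fintype.card ν) | T' (e.symm v.1, e.symm v.2)} := by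
    refine ⟨fun i => ?_, fun j => ?_⟩
    · rw [← hr_aux e T' i]
      exact hr _
    · rw [← hc_aux e T' j]
      exact hc _
  refine good_reindex (e.prodCongr e) (h _ _ hT) fun K _ z => ?_
  have h1 : (Matrix.of fun i j => z (i, j)).det = (Matrix.of fun i j => z (e i, e j)).det :=
    (det_submatrix_equiv_self e (Matrix.of fun i j => z (i, j))).symm
  unfold invertibleLocus inv
  rw [h1]
  refine and_congr_left fun _ => ⟨fun h v hv => h (e v.1, e v.2) ?_, fun h v hv => ?_⟩
  · simpa using hv
  · have := h (e.symm v.1, e.symm v.2) hv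
    simpa using this
where
  hr_aux {ν : Type} [Fintype ν] (e : ν ≃ Fin (Fintype.card ν)) (T' : ν × ν → Prop)
      (i : Fin (Fintype.card ν)) : rs T' (e.symm i) = {j | (i, j) ∈
        {v : Fin (Fintype.card ν) × Fin (Fintype.card ν) | T' (e.symm v.1, e.symm v.2)}}.ncard := by
    rw [← rs_comp e.symm e.symm T' i, rs_eq]
    rfl
  hc_aux {ν : Type} [Fintype ν] (e : ν ≃ Fin (Fintype.card ν)) (T' : ν × ν → Prop)
      (j : Fin (Fintype.card ν)) : cs T' (e.symm j) = {i | (i, j) ∈
        {v : Fin (Fintype.card ν) × Fin (Fintype.card ν) | T' (e.symm v.1, e.symm v.2)}}.ncard := by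
    rw [← cs_comp e.symm e.symm T' j, cs_eq]
    rfl

lemma good_invertible_two (hS : Saturated L S) (hpt : Good m S pt) {n : ℕ} {T : Set (Fin n × Fin n)}
    (h : Thin 2 T) : Good m S (invertibleLocus T) := by
  classical
  refine good_thin_two (m := m) hS hpt n (Fin n) (Fintype.card_fin n) (fun v => v ∈ T) (fun i => ?_)
    fun j => ?_
  · rw [rs_eq]
    exact h.1 i
  · rw [cs_eq]
    exact h.2 j

lemma good_singular_two (hS : Saturated L S) (hpt : Good m S pt) {n : ℕ} {T : Set (Fin n × Fin n)}
    (h : Thin 2 T) : Good m S (singularLocus T) :=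
  (Good.inter (con_eq (isPoly_det fun i j => isPoly_var (i, j)) isPoly_zero)
    (good_zeros (m := m) hS hpt fun v => v ∈ T) (good_invertible_two hS hpt h)).congr
    fun K _ z => Iff.rfl

lemma good_unimodular_two (hS : Saturated L S) (hpt : Good m S pt) {n : ℕ} {T : Set (Fin n × Fin n)}
    (h : Thin 2 T) : Good m S (unimodularLocus T) :=
  (good_unimodular_iff hS).2 (good_invertible_two hS hpt h)

end

theorem generates_thinInvertible {k : ℕ} (hk : 3 ≤ k) : Generates (ThinInvertible k) := by
  intro V _ L m S hS h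
  refine generates_invertible V L m S hS fun ι _ φ X hX hφ => ?_
  obtain ⟨n, T⟩ := hX
  have hG := good_of_thinFin (m := m) hS (fun n T hT => good_of_family h (.mk n T (hT.mono hk))
    (con_inv fun v => v ∈ T)) n T
  have h3 := hG.2
  rwa [m.val_rep hφ] at h3

theorem generates_thinUnimodular {k : ℕ} (hk : 3 ≤ k) : Generates (ThinUnimodular k) := by
  intro V _ L m S hS h
  refine generates_thinInvertible hk V L m S hS fun ι _ φ X hX hφ => ?_
  obtain ⟨n, T, hT⟩ := hX
  have hG := (good_unimodular_iff (m := m) hS).1 (good_of_family h (.mk n T hT) (con_unimodular T))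
  have h3 := hG.2
  rwa [m.val_rep hφ] at h3

theorem generates_thinSingular {k : ℕ} (hk : 3 ≤ k) : Generates (ThinSingular k) := by
  intro V _ L m S hS h
  refine generates_thinInvertible hk V L m S hS fun ι _ φ X hX hφ => ?_
  obtain ⟨n, T, hT⟩ := hX
  have hG := good_invertible_of_singular (m := m) (good_of_family h (.mk n T hT) (con_singular T))
    (good_of_family h (.mk _ _ hT.pad) (con_singular _))
  have h3 := hG.2
  rwa [m.val_rep hφ] at h3

theorem tate_thinInvertible {k : ℕ} (hk : k ≤ 2) (V : Type) [AddCommGroup V] (L : V ≃+ V)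
    (m : Measure V L) (S : AddSubgroup V) (hS : Saturated L S) (hpt : Good m S pt) (ι : Type)
    [Finite ι] (X : Cond ι) (hX : ThinInvertible k ι X) : Good m S X := by
  obtain ⟨n, T, hT⟩ := hX
  exact good_invertible_two hS hpt (hT.mono hk)

theorem tate_thinUnimodular {k : ℕ} (hk : k ≤ 2) (V : Type) [AddCommGroup V] (L : V ≃+ V)
    (m : Measure V L) (S : AddSubgroup V) (hS : Saturated L S) (hpt : Good m S pt) (ι : Type)
    [Finite ι] (X : Cond ι) (hX : ThinUnimodular k ι X) : Good m S X := by
  obtain ⟨n, T, hT⟩ := hX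
  exact good_unimodular_two hS hpt (hT.mono hk)

theorem tate_thinSingular {k : ℕ} (hk : k ≤ 2) (V : Type) [AddCommGroup V] (L : V ≃+ V)
    (m : Measure V L) (S : AddSubgroup V) (hS : Saturated L S) (hpt : Good m S pt) (ι : Type)
    [Finite ι] (X : Cond ι) (hX : ThinSingular k ι X) : Good m S X := by
  obtain ⟨n, T, hT⟩ := hX
  exact good_singular_two hS hpt (hT.mono hk)

theorem generates_thinInvertible_iff (k : ℕ) : Generates (ThinInvertible k) ↔ 3 ≤ k := by
  refine ⟨fun h => ?_, generates_thinInvertible⟩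
  by_contra h3
  exact not_generates (fun V _ L m S hS hpt ι _ X hX =>
    tate_thinInvertible (by omega) V L m S hS hpt ι X hX) h

theorem generates_thinUnimodular_iff (k : ℕ) : Generates (ThinUnimodular k) ↔ 3 ≤ k := by
  refine ⟨fun h => ?_, generates_thinUnimodular⟩
  by_contra h3
  exact not_generates (fun V _ L m S hS hpt ι _ X hX =>
    tate_thinUnimodular (by omega) V L m S hS hpt ι X hX) h

theorem generates_thinSingular_iff (k : ℕ) : Generates (ThinSingular k) ↔ 3 ≤ k := by
  refine ⟨fun h => ?_, generates_thinSingular⟩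
  by_contra h3
  exact not_generates (fun V _ L m S hS hpt ι _ X hX =>
    tate_thinSingular (by omega) V L m S hS hpt ι X hX) h

/-- only Tate twists of the motive of the point occur in the virtual motives of the members of `F` -/
def Motives.OnlyTate {Sim : Type} (𝓜 : Motives Sim) (F : ∀ ι : Type, Cond ι → Prop) : Prop :=
  ∀ (ι : Type) [Finite ι] (φ : Form ι) (X : Cond ι), F ι X → Rep φ X →
    ∀ M : Sim, 𝓜.h.μ ι φ M ≠ 0 → ∃ n : ℤ, 𝓜.h.μ Empty (.eq 0) (𝓜.tw n M) ≠ 0

lemma Motives.tw_zero {Sim : Type} (𝓜 : Motives Sim) (M : Sim) : 𝓜.tw 0 M = M := by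
  have := 𝓜.tw_add 0 0
  rw [add_zero] at this
  rw [mul_eq_right.mp this.symm]
  rfl

lemma Motives.tw_tw {Sim : Type} (𝓜 : Motives Sim) (a b : ℤ) (M : Sim) :
    𝓜.tw a (𝓜.tw b M) = 𝓜.tw (a + b) M := by
  rw [𝓜.tw_add]
  rfl

lemma onlyTate {F : ∀ ι : Type, Cond ι → Prop}
    (h : ∀ (V : Type) [AddCommGroup V] (L : V ≃+ V) (m : Measure V L) (S : AddSubgroup V),
      Saturated L S → Good m S pt → ∀ (ι : Type) [Finite ι] (X : Cond ι), F ι X → Good m S X)
    {Sim : Type} (𝓜 : Motives Sim) : 𝓜.OnlyTate F := by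
  intro ι _ φ X hX hφ M hM
  have hrep : Rep (.eq 0 : Form Empty) pt := fun K _ x => by
    change True ↔ MvPolynomial.aeval x (0 : MvPolynomial Empty ℤ) = 0
    simp
  have hpt : Good 𝓜.h (supp 𝓜.tw fun M => ∃ n : ℤ, 𝓜.h.μ Empty (.eq 0) (𝓜.tw n M) ≠ 0) pt := by
    refine ⟨⟨_, hrep⟩, ?_⟩
    rw [𝓜.h.val_rep hrep]
    intro M hM n
    refine ⟨-n, ?_⟩
    rw [𝓜.tw_tw, neg_add_cancel, 𝓜.tw_zero]
    exact hM
  have h1 := (h _ _ 𝓜.h _ (saturated_supp 𝓜.tw_add 𝓜.tw_free _) hpt ι X hX).2
  rw [𝓜.h.val_rep hφ] at h1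
  have h2 := h1 M hM 0
  rw [𝓜.tw_zero] at h2
  exact h2

end Pool.Agent.H504.MC
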