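import Pool.Agent.H504.MC.GraphSym
import Pool.Agent.H504.MC.ThinFam

/-!
# Graph hypersurfaces
-/

set_option autoImplicit false

namespace Pool.Agent.H504.MC

open Matrix

/-- the symmetric matrices whose entry at `(i, j)` is zero unless `i` and `j` are adjacent: the weights
of the edges of the graph `G` -/
def edgeWeights {n : ℕ} (G : SimpleGraph (Fin (n + 1))) : Cond (Fin (n + 1) × Fin (n + 1)) :=
  fun _ _ z => (∀ i j, z (i, j) = z (j, i)) ∧ ∀ i j, ¬ G.Adj i j → z (i, j) = 0

/-- Kirchhoff's polynomial, the sum over the spanning trees of the products of the weights of their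
edges, as the determinant of the Laplace matrix without the row and the column of the vertex `0` -/
def kirchhoff {n : ℕ} {K : Type} [Field K] (z : Fin (n + 1) × Fin (n + 1) → K) : K :=
  (Matrix.of fun i j : Fin n =>
    (if i = j then ∑ w, z (i.succ, w) else 0) - z (i.succ, j.succ)).det

/-- the graph hypersurface of `G` -/
def graphHypersurface {n : ℕ} (G : SimpleGraph (Fin (n + 1))) :
    Cond (Fin (n + 1) × Fin (n + 1)) := fun K _ z => edgeWeights G K z ∧ kirchhoff z = 0

/-- the complement of the graph hypersurface of `G` -/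
def graphComplement {n : ℕ} (G : SimpleGraph (Fin (n + 1))) :
    Cond (Fin (n + 1) × Fin (n + 1)) := fun K _ z => edgeWeights G K z ∧ kirchhoff z ≠ 0

/-- the graph hypersurfaces of the graphs with degrees at most `k` -/
inductive GraphHypersurfaces (k : ℕ) : ∀ ι : Type, Cond ι → Prop
  | mk (n : ℕ) (G : SimpleGraph (Fin (n + 1))) (h : ∀ i, (G.neighborSet i).ncard ≤ k) :
      GraphHypersurfaces k (Fin (n + 1) × Fin (n + 1)) (graphHypersurface G)

/-- the complements of the graph hypersurfaces of the graphs with degrees at most `k` -/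
inductive GraphComplements (k : ℕ) : ∀ ι : Type, Cond ι → Prop
  | mk (n : ℕ) (G : SimpleGraph (Fin (n + 1))) (h : ∀ i, (G.neighborSet i).ncard ≤ k) :
      GraphComplements k (Fin (n + 1) × Fin (n + 1)) (graphComplement G)

section

variable {V : Type} [AddCommGroup V] {L : V ≃+ V} {m : Measure V L} {S : AddSubgroup V}

variable {W : Type} [Fintype W] [DecidableEq W] {K : Type} [Field K]

lemma kir_comp {W' : Type} [Fintype W'] [DecidableEq W'] (e : W ≃ W') (w₀ : W)
    (z : W' × W' → K) : kir (e w₀) z = kir w₀ fun v => z (e v.1, e v.2) := by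
  rw [kir, ← det_submatrix_equiv_self e, kir]
  congr 1
  ext i j
  simp only [submatrix_apply, kirM, of_apply, e.injective.eq_iff]
  rw [e.sum_comp fun w => z (e i, w)]

lemma kir_zero {n : ℕ} {z : Fin (n + 1) × Fin (n + 1) → K} (hz : ∀ i j, z (i, j) = z (j, i)) :
    kir 0 z = kirchhoff z := by
  have h1 := kir_comp (finSuccEquiv n).symm (none : Option (Fin n)) z
  have h2 : (finSuccEquiv n).symm none = 0 := finSuccEquiv_symm_none
  rw [h2, kir_none fun i j => hz _ _] at h1
  rw [h1, kirchhoff]
  congr 1
  ext i j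
  simp only [lap, of_apply, finSuccEquiv_symm_some]
  rw [(finSuccEquiv n).symm.sum_comp fun w => z (i.succ, w)]

lemma exists_equiv_zero (w₀ : W) : ∃ (n : ℕ) (e : W ≃ Fin (n + 1)), e w₀ = 0 := by
  have : 0 < Fintype.card W := Fintype.card_pos_iff.2 ⟨w₀⟩
  obtain ⟨n, hn⟩ : ∃ n, Fintype.card W = n + 1 := ⟨Fintype.card W - 1, by omega⟩
  refine ⟨n, (Fintype.equivFinOfCardEq hn).trans
    (Equiv.swap (Fintype.equivFinOfCardEq hn w₀) 0), ?_⟩
  rw [Equiv.trans_apply, Equiv.swap_apply_left]

/-- the graph on the vertices `0, …, n` -/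
def graphOf {n : ℕ} (e : W ≃ Fin (n + 1)) (G : W → W → Prop) (hG : ∀ i j, G i j → G j i)
    (hi : ∀ i, ¬ G i i) : SimpleGraph (Fin (n + 1)) where
  Adj i j := G (e.symm i) (e.symm j)
  symm := ⟨fun _ _ h => hG _ _ h⟩
  loopless := ⟨fun _ h => hi _ h⟩

lemma ncard_graphOf {n : ℕ} (e : W ≃ Fin (n + 1)) (G : W → W → Prop)
    (hG : ∀ i j, G i j → G j i) (hi : ∀ i, ¬ G i i) (i : Fin (n + 1)) :
    ((graphOf e G hG hi).neighborSet i).ncard = dg G (e.symm i) := by
  have h := rs_eq (fun v : Fin (n + 1) × Fin (n + 1) => G (e.symm v.1) (e.symm v.2)) i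
  refine h.symm.trans ?_
  exact e.symm.sum_comp fun w => ind (G (e.symm i) w)

lemma con_edgeWeights {n : ℕ} (G : SimpleGraph (Fin (n + 1))) : IsCon (edgeWeights G) :=
  con_sup G.Adj

lemma con_graphComplement {n : ℕ} (G : SimpleGraph (Fin (n + 1))) : IsCon (graphComplement G) :=
  con_congr (con_gr 0 G.Adj) fun K _ z => and_congr_right fun h => by rw [kir_zero h.1]

lemma con_graphHypersurface {n : ℕ} (G : SimpleGraph (Fin (n + 1))) :
    IsCon (graphHypersurface G) :=
  con_congr (con_and (con_sup G.Adj) (con_eq (isPoly_kir 0) isPoly_zero)) fun K _ z =>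
    and_congr_right fun h => by rw [kir_zero h.1]

lemma edgeWeights_comp {n : ℕ} (e : W ≃ Fin (n + 1)) (G : W → W → Prop)
    (hG : ∀ i j, G i j → G j i) (hi : ∀ i, ¬ G i i) (z : Fin (n + 1) × Fin (n + 1) → K) :
    edgeWeights (graphOf e G hG hi) K z ↔ sup G K fun v => z (e v.1, e v.2) := by
  constructor
  · rintro ⟨h1, h2⟩
    refine ⟨fun i j => h1 _ _, fun i j hij => h2 _ _ fun h => hij ?_⟩
    have h' : G (e.symm (e i)) (e.symm (e j)) := h
    simpa using h'
  · rintro ⟨h1, h2⟩
    refine ⟨fun i j => ?_, fun i j hij => ?_⟩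
    · have := h1 (e.symm i) (e.symm j)
      simpa using this
    · have := h2 (e.symm i) (e.symm j) hij
      simpa using this

/-- the complements for the graphs on `0, …, n` -/
theorem good_of_complements (hS : Saturated L S)
    (h : ∀ (n : ℕ) (G : SimpleGraph (Fin (n + 1))), (∀ i, (G.neighborSet i).ncard ≤ 3) →
      Good m S (graphComplement G)) (ι : Type) [Finite ι] (φ : Form ι) :
    Good m S fun K _ x => φ.holds x := by
  refine good_of_gr hS (fun W _ _ w₀ G hG hi hd => ?_) ι φ
  obtain ⟨n, e, he⟩ := exists_equiv_zero w₀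
  refine good_reindex (e.prodCongr e) (h n (graphOf e G hG hi) fun i => ?_) fun K _ z => ?_
  · rw [ncard_graphOf]
    exact hd _
  · unfold graphComplement gr
    rw [edgeWeights_comp]
    refine and_congr_right fun h1 => ?_
    have hz : ∀ i j, z (i, j) = z (j, i) := fun i j => by
      have := h1.1 (e.symm i) (e.symm j)
      simpa using this
    rw [← kir_zero hz, ← he, kir_comp]
    exact Iff.rfl

/-- a new vertex without edges -/
def isol {n : ℕ} (G : SimpleGraph (Fin (n + 1))) : SimpleGraph (Fin (n + 1 + 1)) :=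
  graphOf (finSuccEquiv (n + 1)).symm (fun a b : Option (Fin (n + 1)) =>
    ∃ i j, a = some i ∧ b = some j ∧ G.Adj i j)
    (fun _ _ ⟨i, j, hi, hj, h⟩ => ⟨j, i, hj, hi, h.symm⟩)
    (fun _ ⟨i, j, hi, hj, h⟩ => G.ne_of_adj h (Option.some_injective _ (hi.symm.trans hj)))

lemma isol_adj_succ {n : ℕ} (G : SimpleGraph (Fin (n + 1))) (i j : Fin (n + 1)) :
    (isol G).Adj i.succ j.succ ↔ G.Adj i j := by
  constructor
  · rintro ⟨i', j', hi, hj, h⟩
    have e1 : i = i' := by simpa using hi
    have e2 : j = j' := by simpa using hj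
    rwa [e1, e2]
  · intro h
    exact ⟨i, j, by simp, by simp, h⟩

lemma isol_adj_zero {n : ℕ} (G : SimpleGraph (Fin (n + 1))) (j : Fin (n + 1 + 1)) :
    ¬ (isol G).Adj 0 j := by
  rintro ⟨i', j', hi, hj, h⟩
  simp at hi

lemma isol_neighbor {n k : ℕ} {G : SimpleGraph (Fin (n + 1))}
    (h : ∀ i, (G.neighborSet i).ncard ≤ k) (i : Fin (n + 1 + 1)) :
    ((isol G).neighborSet i).ncard ≤ k := by
  induction i using Fin.cases with
  | zero =>
    have : (isol G).neighborSet 0 = ∅ := by
      ext j
      simp only [SimpleGraph.mem_neighborSet, Set.mem_empty_iff_false, iff_false]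
      exact isol_adj_zero G j
    rw [this, Set.ncard_empty]
    exact Nat.zero_le _
  | succ i =>
    have : (isol G).neighborSet i.succ ⊆ Fin.succ '' G.neighborSet i := by
      intro j hj
      induction j using Fin.cases with
      | zero => exact absurd ((isol G).adj_symm hj) (isol_adj_zero G _)
      | succ j => exact ⟨j, (isol_adj_succ G i j).1 hj, rfl⟩
    refine (Set.ncard_le_ncard this (Set.toFinite _)).trans ?_
    rw [Set.ncard_image_of_injective _ (Fin.succ_injective _)]
    exact h i

lemma kirchhoff_isol {n : ℕ} (G : SimpleGraph (Fin (n + 1)))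
    {z : Fin (n + 1 + 1) × Fin (n + 1 + 1) → K} (hz : edgeWeights (isol G) K z) :
    kirchhoff z = 0 := by
  rw [kirchhoff]
  have h : (∃ v : Fin (n + 1) → K, v ≠ 0 ∧ (Matrix.of fun i j : Fin (n + 1) =>
      (if i = j then ∑ w, z (i.succ, w) else 0) - z (i.succ, j.succ)) *ᵥ v = 0) := by
    refine ⟨fun _ => 1, fun h => one_ne_zero (congrFun h 0), ?_⟩
    funext i
    simp only [mulVec, dotProduct, of_apply, mul_one, Finset.sum_sub_distrib, Pi.zero_apply,
      Finset.sum_ite_eq, Finset.mem_univ, if_true]
    rw [Fin.sum_univ_succ fun w => z (i.succ, w),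
      hz.2 i.succ 0 fun h => isol_adj_zero G _ ((isol G).adj_symm h), zero_add, sub_self]
  exact exists_mulVec_eq_zero_iff.1 h

/-- the space of the weights -/
lemma good_weights {n : ℕ} (G : SimpleGraph (Fin (n + 1)))
    (h : Good m S (graphHypersurface (isol G))) : Good m S (edgeWeights G) := by
  have h1 : Good m S (edgeWeights (isol G)) := h.congr fun K _ z =>
    ⟨fun h => h.1, fun h => ⟨h, kirchhoff_isol G h⟩⟩
  refine (good_bij (con_edgeWeights G) (con_edgeWeights (isol G)) (fun v K _ z =>
    (Fin.cases (0 : K) (fun i => Fin.cases (0 : K) (fun j => z (i, j)) v.2) v.1 : K))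
    ?_ ?_ ?_ ?_).2 h1
  · rintro ⟨i, j⟩
    induction i using Fin.cases with
    | zero => exact isPoly_zero
    | succ i =>
      induction j using Fin.cases with
      | zero => exact isPoly_zero
      | succ j => exact isPoly_var _
  · rintro K _ z ⟨h1, h2⟩
    constructor
    · intro i j
      induction i using Fin.cases with
      | zero =>
        induction j using Fin.cases with
        | zero => rfl
        | succ j => rfl
      | succ i =>
        induction j using Fin.cases with
        | zero => rfl
        | succ j => exact h1 i j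
    · intro i j hij
      induction i using Fin.cases with
      | zero => rfl
      | succ i =>
        induction j using Fin.cases with
        | zero => rfl
        | succ j => exact h2 i j fun h => hij ((isol_adj_succ G i j).2 h)
  · intro K _ z z' _ _ heq
    funext ⟨i, j⟩
    exact heq (i.succ, j.succ)
  · rintro K _ y ⟨h1, h2⟩
    refine ⟨fun v => y (v.1.succ, v.2.succ), ⟨fun i j => h1 _ _, fun i j hij => h2 _ _ fun h =>
      hij ((isol_adj_succ G i j).1 h)⟩, ?_⟩
    rintro ⟨i, j⟩
    induction i using Fin.cases with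
    | zero => exact (h2 _ _ (isol_adj_zero G j)).symm
    | succ i =>
      induction j using Fin.cases with
      | zero => exact (h2 _ _ fun h => isol_adj_zero G _ ((isol G).adj_symm h)).symm
      | succ j => rfl

end

theorem generates_complements {k : ℕ} (hk : 3 ≤ k) : Generates (GraphComplements k) := by
  intro V _ L m S hS h ι _ φ
  exact mem_of_good (good_of_complements hS (fun n G hG => good_of_family h
    (.mk n G fun i => (hG i).trans hk) (con_graphComplement G)) ι φ)

theorem generates_hypersurfaces {k : ℕ} (hk : 3 ≤ k) : Generates (GraphHypersurfaces k) := by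
  intro V _ L m S hS h ι _ φ
  refine mem_of_good (good_of_complements hS (fun n G hG => ?_) ι φ)
  have h1 : Good m S (graphHypersurface G) := good_of_family h
    (.mk n G fun i => (hG i).trans hk) (con_graphHypersurface G)
  have h2 : Good m S (edgeWeights G) := good_weights G (good_of_family h
    (.mk _ _ fun i => (isol_neighbor hG i).trans hk) (con_graphHypersurface _))
  have hZ : IsCon fun K _ (z : Fin (n + 1) × Fin (n + 1) → K) => kirchhoff z = 0 :=
    con_eq (isPoly_det fun i j => by
      refine IsPoly.sub ?_ (isPoly_var _)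
      by_cases hij : i = j
      · simp only [if_pos hij]
        exact isPoly_sum _ fun w => isPoly_var _
      · simp only [if_neg hij]
        exact isPoly_zero) isPoly_zero
  exact Good.diff hZ h2 h1

end Pool.Agent.H504.MC
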