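import Pool.Agent.H504.MC.Split

/-!
# Matrices with few nonzero entries in every row and column
-/

set_option autoImplicit false

namespace Pool.Agent.H504.MC

open Matrix

open Classical in
/-- `1` if `P` is true and `0` otherwise -/
noncomputable def ind (P : Prop) : ℕ := if P then 1 else 0

lemma ind_pos {P : Prop} (h : P) : ind P = 1 := if_pos h

lemma ind_neg {P : Prop} (h : ¬ P) : ind P = 0 := if_neg h

lemma ind_congr {P Q : Prop} (h : P ↔ Q) : ind P = ind Q := by rw [propext h]

lemma ind_mono {P Q : Prop} (h : P → Q) : ind P ≤ ind Q := by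
  by_cases hP : P
  · rw [ind_pos hP, ind_pos (h hP)]
  · rw [ind_neg hP]; exact Nat.zero_le _

lemma ind_or {P Q R : Prop} (h : P → Q ∨ R) : ind P ≤ ind Q + ind R := by
  by_cases hP : P
  · rcases h hP with h | h
    · rw [ind_pos hP, ind_pos h]; exact Nat.le_add_right _ _
    · rw [ind_pos hP, ind_pos h]; exact Nat.le_add_left _ _
  · rw [ind_neg hP]; exact Nat.zero_le _

lemma ind_add {P Q R : Prop} (h : P ↔ Q ∨ R) (h' : ¬ (Q ∧ R)) : ind P = ind Q + ind R := by
  by_cases hQ : Q
  · rw [ind_pos (h.2 (.inl hQ)), ind_pos hQ, ind_neg fun hR => h' ⟨hQ, hR⟩]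
  · by_cases hR : R
    · rw [ind_pos (h.2 (.inr hR)), ind_neg hQ, ind_pos hR]
    · rw [ind_neg fun hP => (h.1 hP).elim hQ hR, ind_neg hQ, ind_neg hR]

lemma sum_ind_eq {ν : Type} [Fintype ν] (a : ν) : ∑ i, ind (i = a) = 1 := by
  classical
  have : ∀ i, ind (i = a) = if i = a then 1 else 0 := fun i => by
    by_cases h : i = a
    · rw [ind_pos h, if_pos h]
    · rw [ind_neg h, if_neg h]
  simp only [this, Finset.sum_ite_eq', Finset.mem_univ, if_true]

lemma sum_ind_and {ν : Type} [Fintype ν] (a : ν) (P : Prop) : ∑ i, ind (i = a ∧ P) = ind P := by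
  by_cases hP : P
  · rw [ind_pos hP, ← sum_ind_eq a]
    exact Finset.sum_congr rfl fun i _ => ind_congr ⟨fun h => h.1, fun h => ⟨h, hP⟩⟩
  · rw [ind_neg hP]
    exact Finset.sum_eq_zero fun i _ => ind_neg fun h => hP h.2

section count

variable {ν μ : Type} [Fintype ν] [Fintype μ]

/-- the number of allowed places in row `i` -/
noncomputable def rs (T : ν × μ → Prop) (i : ν) : ℕ := ∑ j, ind (T (i, j))

/-- the number of allowed places in column `j` -/
noncomputable def cs (T : ν × μ → Prop) (j : μ) : ℕ := ∑ i, ind (T (i, j))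

lemma rs_mono {T T' : ν × μ → Prop} {i i' : ν} (h : ∀ j, T (i, j) → T' (i', j)) :
    rs T i ≤ rs T' i' :=
  Finset.sum_le_sum fun j _ => ind_mono (h j)

lemma cs_mono {T T' : ν × μ → Prop} {j j' : μ} (h : ∀ i, T (i, j) → T' (i, j')) :
    cs T j ≤ cs T' j' :=
  Finset.sum_le_sum fun i _ => ind_mono (h i)

end count

section opt

variable {ν : Type} [Fintype ν]

lemma rs_opt (T : Option ν × Option ν → Prop) (o : Option ν) :
    rs T o = ind (T (o, none)) + rs (fun v : Option ν × ν => T (v.1, some v.2)) o := by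
  unfold rs
  rw [Fintype.sum_option]

lemma cs_opt (T : Option ν × Option ν → Prop) (o : Option ν) :
    cs T o = ind (T (none, o)) + cs (fun v : ν × Option ν => T (some v.1, v.2)) o := by
  unfold cs
  rw [Fintype.sum_option]

end opt

variable {V : Type} [AddCommGroup V] {L : V ≃+ V} {m : Measure V L} {S : AddSubgroup V}

section split

variable {ν : Type} [Fintype ν] [DecidableEq ν]

/-- the pattern with the row `i₀` divided into the places `j₁`, `j₂` and the other places -/
def tQ (T : ν × ν → Prop) (i₀ j₁ j₂ : ν) : Option ν × Option ν → Prop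
  | (some i, some j) => T (i, j) ∧ (i = i₀ → j = j₁ ∨ j = j₂)
  | (none, some j) => T (i₀, j) ∧ j ≠ j₁ ∧ j ≠ j₂
  | (some i, none) => i = i₀
  | (none, none) => True

lemma good_tQ (hS : Saturated L S) {T : ν × ν → Prop} {i₀ j₁ j₂ : ν}
    (h : Good m S (inv (tQ T i₀ j₁ j₂)))
    (h1 : Good m S (inv fun v : ν × ν => T v ∧ (v.1 = i₀ → v.2 = j₁ ∨ v.2 = j₂)))
    (h2 : Good m S (inv fun v : ν × ν => T v ∧ (v.1 = i₀ → v.2 ≠ j₁ ∧ v.2 ≠ j₂))) :
    Good m S (inv T) := by
  classical
  have e : tE (tQ T i₀ j₁ j₂) i₀ = T := by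
    funext ⟨i, j⟩
    unfold tE
    by_cases hi : i = i₀
    · subst hi
      simp only [if_true, tQ]
      refine propext ?_
      tauto
    · simp only [if_neg hi, tQ]
      refine propext ?_
      tauto
  rw [← e]
  refine (good_split_iff hS (T := tQ T i₀ j₁ j₂) trivial rfl (fun i hi => hi) ?_ ?_).1 h
  · refine good_one hS (fun i hi => hi.2 ?_) ?_
    · have : i = i₀ := hi.1
      rw [this]
    · convert h1 using 3
      rename_i v
      simp only [tQ, ne_eq, Prod.mk.injEq, reduceCtorEq, and_false, not_false_iff, and_true]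
  · refine good_inv_perm (Equiv.swap none (some i₀)) (Equiv.refl _) ?_
    refine good_one hS (fun i hi => ?_) ?_
    · by_cases hii : i = i₀
      · subst hii
        have h3 := hi.2
        simp at h3
      · have h3 : Equiv.swap none (some i₀) (some i) = some i :=
          Equiv.swap_apply_of_ne_of_ne (by simp) (by simpa using hii)
        have h4 := hi.1
        simp only [h3] at h4
        exact hii h4
    · convert h2 using 3
      rename_i v
      rcases v with ⟨i, j⟩
      by_cases hii : i = i₀
      · subst hii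
        simp only [Equiv.swap_apply_right, Equiv.refl_apply]
        simp only [tQ, ne_eq, Prod.mk.injEq, reduceCtorEq, and_false, not_false_iff, and_true,
          true_imp_iff]
      · have h3 : Equiv.swap none (some i₀) (some i) = some i :=
          Equiv.swap_apply_of_ne_of_ne (by simp) (by simpa using hii)
        simp only [h3, Equiv.refl_apply]
        simp only [tQ, ne_eq, Prod.mk.injEq, reduceCtorEq, and_false, not_false_iff, and_true]
        tauto

/-- the excess over three of the numbers of allowed places in rows and columns -/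
noncomputable def exc (T : ν × ν → Prop) : ℕ := ∑ i, (rs T i - 3) + ∑ j, (cs T j - 3)

lemma exc_swap (T : ν × ν → Prop) : exc (fun v : ν × ν => T (v.2, v.1)) = exc T := by
  unfold exc
  rw [add_comm]
  rfl

lemma exc_lt {T T' : ν × ν → Prop} {i₀ : ν} (h : ∀ v, T' v → T v) (h1 : rs T' i₀ < rs T i₀)
    (h2 : 4 ≤ rs T i₀) : exc T' < exc T := by
  unfold exc
  refine Nat.add_lt_add_of_lt_of_le (Finset.sum_lt_sum (fun i _ => ?_) ⟨i₀, Finset.mem_univ _, ?_⟩)
    (Finset.sum_le_sum fun j _ => ?_)
  · exact Nat.sub_le_sub_right (rs_mono fun j => h _) 3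
  · omega
  · exact Nat.sub_le_sub_right (cs_mono fun j => h _) 3

lemma rs_two {T : ν × ν → Prop} {i₀ j₁ j₂ : ν} (h12 : j₁ ≠ j₂) (h1 : T (i₀, j₁)) (h2 : T (i₀, j₂)) :
    rs (fun v : ν × ν => T v ∧ (v.1 = i₀ → v.2 = j₁ ∨ v.2 = j₂)) i₀ = 2 := by
  unfold rs
  have : ∀ j : ν, ind (T (i₀, j) ∧ (i₀ = i₀ → j = j₁ ∨ j = j₂)) = ind (j = j₁) + ind (j = j₂) := by
    intro j
    refine ind_add ⟨fun h => h.2 rfl, ?_⟩ ?_
    · rintro (rfl | rfl)
      · exact ⟨h1, fun _ => .inl rfl⟩
      · exact ⟨h2, fun _ => .inr rfl⟩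
    · rintro ⟨rfl, h⟩
      exact h12 h
  refine (Finset.sum_congr rfl fun j _ => this j).trans ?_
  rw [Finset.sum_add_distrib, sum_ind_eq, sum_ind_eq]

lemma rs_add {T : ν × ν → Prop} {i₀ j₁ j₂ : ν} :
    rs (fun v : ν × ν => T v ∧ (v.1 = i₀ → v.2 = j₁ ∨ v.2 = j₂)) i₀ +
      rs (fun v : ν × ν => T v ∧ (v.1 = i₀ → v.2 ≠ j₁ ∧ v.2 ≠ j₂)) i₀ = rs T i₀ := by
  unfold rs
  rw [← Finset.sum_add_distrib]
  refine Finset.sum_congr rfl fun j _ => (ind_add ?_ ?_).symm
  · constructor
    · intro h
      by_cases hj : j = j₁ ∨ j = j₂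
      · exact .inl ⟨h, fun _ => hj⟩
      · exact .inr ⟨h, fun _ => not_or.1 hj⟩
    · rintro (h | h)
      · exact h.1
      · exact h.1
  · rintro ⟨h, h'⟩
    have a := h.2 rfl
    have b := h'.2 rfl
    exact a.elim b.1 b.2

lemma exc_tQ {T : ν × ν → Prop} {i₀ j₁ j₂ : ν} (h12 : j₁ ≠ j₂) (h1 : T (i₀, j₁)) (h2 : T (i₀, j₂))
    (h4 : 4 ≤ rs T i₀) : exc (tQ T i₀ j₁ j₂) < exc T := by
  have r2 := rs_two h12 h1 h2
  have ra := rs_add (T := T) (i₀ := i₀) (j₁ := j₁) (j₂ := j₂)
  have rn : rs (tQ T i₀ j₁ j₂) none = rs T i₀ - 1 := by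
    have h5 : rs (tQ T i₀ j₁ j₂) none = 1 +
        rs (fun v : ν × ν => T v ∧ (v.1 = i₀ → v.2 ≠ j₁ ∧ v.2 ≠ j₂)) i₀ := by
      rw [rs_opt, ind_pos (show tQ T i₀ j₁ j₂ (none, none) from trivial)]
      congr 1
      exact Finset.sum_congr rfl fun j _ => ind_congr
        ⟨fun h => ⟨h.1, fun _ => h.2⟩, fun h => ⟨h.1, h.2 rfl⟩⟩
    omega
  have ri : rs (tQ T i₀ j₁ j₂) (some i₀) = 3 := by
    have h5 : rs (tQ T i₀ j₁ j₂) (some i₀) = 1 +
        rs (fun v : ν × ν => T v ∧ (v.1 = i₀ → v.2 = j₁ ∨ v.2 = j₂)) i₀ := by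
      rw [rs_opt, ind_pos (show tQ T i₀ j₁ j₂ (some i₀, none) from rfl)]
      rfl
    omega
  have ro : ∀ i, i ≠ i₀ → rs (tQ T i₀ j₁ j₂) (some i) = rs T i := by
    intro i hi
    rw [rs_opt, ind_neg (show ¬ tQ T i₀ j₁ j₂ (some i, none) from hi), zero_add]
    exact Finset.sum_congr rfl fun j _ => ind_congr
      ⟨fun h => h.1, fun h => ⟨h, fun h' => (hi h').elim⟩⟩
  have cn : cs (tQ T i₀ j₁ j₂) none = 2 := by
    rw [cs_opt, ind_pos (show tQ T i₀ j₁ j₂ (none, none) from trivial)]
    have : cs (fun v : ν × Option ν => tQ T i₀ j₁ j₂ (some v.1, v.2)) none = 1 := sum_ind_eq i₀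
    rw [this]
  have co : ∀ j, cs (tQ T i₀ j₁ j₂) (some j) = cs T j := by
    intro j
    rw [cs_opt]
    have h5 : ∀ i : ν, ind (T (i, j)) = ind (i = i₀ ∧ (T (i₀, j) ∧ j ≠ j₁ ∧ j ≠ j₂)) +
        ind (T (i, j) ∧ (i = i₀ → j = j₁ ∨ j = j₂)) := by
      intro i
      refine ind_add ⟨fun h => ?_, ?_⟩ ?_
      · by_cases hi : i = i₀
        · subst hi
          by_cases hj : j = j₁ ∨ j = j₂
          · exact .inr ⟨h, fun _ => hj⟩
          · exact .inl ⟨rfl, h, not_or.1 hj⟩
        · exact .inr ⟨h, fun h' => (hi h').elim⟩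
      · rintro (⟨rfl, h, _⟩ | h)
        · exact h
        · exact h.1
      · rintro ⟨⟨rfl, _, h, h'⟩, _, h3⟩
        exact (h3 rfl).elim h h'
    have h6 : cs T j = ∑ i, (ind (i = i₀ ∧ (T (i₀, j) ∧ j ≠ j₁ ∧ j ≠ j₂)) +
        ind (T (i, j) ∧ (i = i₀ → j = j₁ ∨ j = j₂))) := Finset.sum_congr rfl fun i _ => h5 i
    rw [h6, Finset.sum_add_distrib, sum_ind_and]
    rfl
  have hsum : ∀ f : ν → ℕ, ∑ i, f i = f i₀ + ∑ i ∈ Finset.univ.erase i₀, f i := fun f =>
    (Finset.add_sum_erase _ f (Finset.mem_univ i₀)).symm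
  unfold exc
  rw [Fintype.sum_option, Fintype.sum_option, cn, rn, hsum fun i => rs (tQ T i₀ j₁ j₂) (some i) - 3,
    hsum fun i => rs T i - 3, ri]
  have h6 : ∑ i ∈ Finset.univ.erase i₀, (rs (tQ T i₀ j₁ j₂) (some i) - 3) =
      ∑ i ∈ Finset.univ.erase i₀, (rs T i - 3) :=
    Finset.sum_congr rfl fun i hi => by rw [ro i (Finset.ne_of_mem_erase hi)]
  rw [h6]
  simp only [co]
  omega

lemma exists_pair {T : ν × ν → Prop} {i₀ : ν} (h4 : 4 ≤ rs T i₀) :
    ∃ j₁ j₂, j₁ ≠ j₂ ∧ T (i₀, j₁) ∧ T (i₀, j₂) := by
  classical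
  by_contra hne
  have h5 : ∃ j₁, T (i₀, j₁) := by
    by_contra h5
    have : rs T i₀ = 0 := Finset.sum_eq_zero fun j _ => ind_neg fun h => h5 ⟨j, h⟩
    omega
  obtain ⟨j₁, hj⟩ := h5
  have : rs T i₀ ≤ 1 := by
    rw [← sum_ind_eq j₁]
    refine Finset.sum_le_sum fun j _ => ind_mono fun h => ?_
    by_contra h6
    exact hne ⟨j, j₁, h6, h, hj⟩
  omega

end split

/-- reduction to patterns with at most three places in every row and column -/
theorem good_of_thin (hS : Saturated L S)
    (h : ∀ (ν : Type) [Fintype ν] [DecidableEq ν] (T : ν × ν → Prop), (∀ i, rs T i ≤ 3) →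
      (∀ j, cs T j ≤ 3) → Good m S (inv T))
    (ν : Type) [Fintype ν] [DecidableEq ν] (T : ν × ν → Prop) : Good m S (inv T) := by
  have key : ∀ (N : ℕ) (ν : Type) [Fintype ν] [DecidableEq ν] (T : ν × ν → Prop), exc T ≤ N →
      Good m S (inv T) := by
    intro N
    induction N with
    | zero =>
      intro ν _ _ T hN
      have h0 : exc T = 0 := Nat.le_zero.1 hN
      unfold exc at h0
      rw [Nat.add_eq_zero_iff, Finset.sum_eq_zero_iff, Finset.sum_eq_zero_iff] at h0
      refine h ν T (fun i => ?_) fun j => ?_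
      · have := h0.1 i (Finset.mem_univ _)
        omega
      · have := h0.2 j (Finset.mem_univ _)
        omega
    | succ N ih =>
      have step : ∀ (ν : Type) [Fintype ν] [DecidableEq ν] (T : ν × ν → Prop), exc T ≤ N + 1 →
          ∀ i₀, 4 ≤ rs T i₀ → Good m S (inv T) := by
        intro ν _ _ T hN i₀ h4
        obtain ⟨j₁, j₂, h12, h1, h2⟩ := exists_pair h4
        have r2 := rs_two h12 h1 h2
        have ra := rs_add (T := T) (i₀ := i₀) (j₁ := j₁) (j₂ := j₂)
        refine good_tQ hS (i₀ := i₀) (j₁ := j₁) (j₂ := j₂) (ih _ _ ?_) (ih _ _ ?_) (ih _ _ ?_)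
        · have := exc_tQ h12 h1 h2 h4
          omega
        · have := exc_lt (T := T) (i₀ := i₀)
            (T' := fun v : ν × ν => T v ∧ (v.1 = i₀ → v.2 = j₁ ∨ v.2 = j₂)) (fun v hv => hv.1)
            (by omega) h4
          omega
        · have := exc_lt (T := T) (i₀ := i₀)
            (T' := fun v : ν × ν => T v ∧ (v.1 = i₀ → v.2 ≠ j₁ ∧ v.2 ≠ j₂)) (fun v hv => hv.1)
            (by omega) h4
          omega
      intro ν _ _ T hN
      by_cases hr : ∃ i₀, 4 ≤ rs T i₀
      · obtain ⟨i₀, hi⟩ := hr
        exact step ν T hN i₀ hi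
      · by_cases hc : ∃ j₀, 4 ≤ cs T j₀
        · obtain ⟨j₀, hj⟩ := hc
          exact good_inv_transpose (step ν (fun v => T (v.2, v.1)) (by rw [exc_swap]; exact hN) j₀ hj)
        · refine h ν T (fun i => ?_) fun j => ?_
          · by_contra h5
            exact hr ⟨i, by omega⟩
          · by_contra h5
            exact hc ⟨j, by omega⟩
  exact key (exc T) ν T le_rfl

lemma rs_comp {ν ν' : Type} [Fintype ν] [Fintype ν'] (σ τ : ν ≃ ν') (T : ν' × ν' → Prop) (i : ν) :
    rs (fun v : ν × ν => T (σ v.1, τ v.2)) i = rs T (σ i) :=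
  τ.sum_comp fun j => ind (T (σ i, j))

lemma cs_comp {ν ν' : Type} [Fintype ν] [Fintype ν'] (σ τ : ν ≃ ν') (T : ν' × ν' → Prop) (j : ν) :
    cs (fun v : ν × ν => T (σ v.1, τ v.2)) j = cs T (τ j) :=
  σ.sum_comp fun i => ind (T (i, τ j))

/-- patterns with at most two places in every row and column -/
theorem good_thin_two (hS : Saturated L S) (hpt : Good m S pt) : ∀ (n : ℕ) (ν : Type) [Fintype ν]
    [DecidableEq ν], Fintype.card ν = n → ∀ T : ν × ν → Prop, (∀ i, rs T i ≤ 2) →
      (∀ j, cs T j ≤ 2) → Good m S (inv T) := by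
  classical
  intro n
  induction n with
  | zero =>
    intro ν _ _ hn T _ _
    have : IsEmpty ν := Fintype.card_eq_zero_iff.1 hn
    refine (good_zeros hS hpt T).congr fun K _ z => ?_
    unfold inv
    rw [det_isEmpty]
    simp
  | succ n ih =>
    have step2 : ∀ T : Option (Fin n) × Option (Fin n) → Prop, (∀ i, rs T i ≤ 2) →
        (∀ j, cs T j ≤ 2) → T (none, none) → Good m S (inv T) := by
      intro T hr hc h0
      have hrn : rs (fun v : Option (Fin n) × Fin n => T (v.1, some v.2)) none ≤ 1 := by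
        have := hr none
        rw [rs_opt, ind_pos h0] at this
        omega
      have hcn : cs (fun v : Fin n × Option (Fin n) => T (some v.1, v.2)) none ≤ 1 := by
        have := hc none
        rw [cs_opt, ind_pos h0] at this
        omega
      have hro : ∀ o, rs (fun v : Option (Fin n) × Fin n => T (v.1, some v.2)) o ≤ 2 := fun o => by
        have := hr o
        rw [rs_opt] at this
        omega
      have hco : ∀ j, cs (fun v : Fin n × Fin n => T (some v.1, some v.2)) j +
          ind (T (none, some j)) ≤ 2 := fun j => by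
        have := hc (some j)
        rw [cs_opt] at this
        have e : cs (fun v : Fin n × Option (Fin n) => T (some v.1, v.2)) (some j) =
          cs (fun v : Fin n × Fin n => T (some v.1, some v.2)) j := rfl
        omega
      have g1 : ∀ {T' : Option (Fin n) × Option (Fin n) → Prop}, (∀ i, ¬ T' (some i, none)) →
          (∀ i, rs (fun v : Fin n × Fin n => T' (some v.1, some v.2)) i ≤ 2) →
          (∀ j, cs (fun v : Fin n × Fin n => T' (some v.1, some v.2)) j ≤ 2) →
          Good m S (inv T') := fun h1 h2 h3 =>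
        good_one hS h1 (ih (Fin n) (Fintype.card_fin n) _ h2 h3)
      by_cases hex : ∃ i₀, T (some i₀, none)
      · obtain ⟨i₀, h1⟩ := hex
        have hT : ∀ i, i ≠ i₀ → ¬ T (some i, none) := by
          intro i hi hTi
          have : 2 ≤ cs (fun v : Fin n × Option (Fin n) => T (some v.1, v.2)) none := by
            have e : (2 : ℕ) = ∑ k : Fin n, (ind (k = i₀) + ind (k = i)) := by
              rw [Finset.sum_add_distrib, sum_ind_eq, sum_ind_eq]
            rw [e]
            refine Finset.sum_le_sum fun k _ => ?_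
            rw [← ind_add (P := k = i₀ ∨ k = i) Iff.rfl fun h => hi (h.2.symm.trans h.1)]
            refine ind_mono ?_
            rintro (rfl | rfl)
            · exact h1
            · exact hTi
          omega
        have hri : rs (fun v : Option (Fin n) × Fin n => T (v.1, some v.2)) (some i₀) ≤ 1 := by
          have := hr (some i₀)
          rw [rs_opt, ind_pos h1] at this
          omega
        have bound : ∀ T' : Fin n × Fin n → Prop, (∀ i j, i ≠ i₀ → T' (i, j) → T (some i, some j)) →
            (∀ j, T' (i₀, j) → T (some i₀, some j) ∨ T (none, some j)) →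
            (∀ i, rs T' i ≤ 2) ∧ ∀ j, cs T' j ≤ 2 := by
          intro T' a b
          refine ⟨fun i => ?_, fun j => ?_⟩
          · by_cases hi : i = i₀
            · subst hi
              have : rs T' i ≤ rs (fun v : Option (Fin n) × Fin n => T (v.1, some v.2)) (some i) +
                  rs (fun v : Option (Fin n) × Fin n => T (v.1, some v.2)) none := by
                unfold rs
                rw [← Finset.sum_add_distrib]
                exact Finset.sum_le_sum fun j _ => ind_or (b j)
              omega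
            · refine le_trans ?_ (hro (some i))
              exact Finset.sum_le_sum fun j _ => ind_mono (a i j hi)
          · refine le_trans ?_ (hco j)
            unfold cs
            rw [← sum_ind_and i₀ (T (none, some j)), ← Finset.sum_add_distrib]
            refine Finset.sum_le_sum fun i _ => ind_or fun hj => ?_
            by_cases hi : i = i₀
            · subst hi
              exact (b j hj).imp_right fun h => ⟨rfl, h⟩
            · exact .inl (a i j hi hj)
        refine (good_split_iff hS h0 h1 hT ?_ ?_).2 ?_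
        · refine g1 (fun i hi => ?_) ?_ ?_
          · by_cases hii : i = i₀
            · exact hi.2 (by rw [hii])
            · exact hT i hii hi.1
          · exact (bound _ (fun i j _ h5 => h5.1) fun j h5 => .inl h5.1).1
          · exact (bound _ (fun i j _ h5 => h5.1) fun j h5 => .inl h5.1).2
        · refine good_inv_perm (Equiv.swap none (some i₀)) (Equiv.refl _) ?_
          have hb := bound (fun v : Fin n × Fin n => T (Equiv.swap none (some i₀) (some v.1),
            Equiv.refl _ (some v.2)) ∧ (Equiv.swap none (some i₀) (some v.1),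
            Equiv.refl (Option (Fin n)) (some v.2)) ≠ (none, none)) (fun i j hi h5 => by
              have h3 : Equiv.swap none (some i₀) (some i) = some i :=
                Equiv.swap_apply_of_ne_of_ne (by simp) (by simpa using hi)
              have h6 := h5.1
              simp only [h3] at h6
              exact h6) (fun j h5 => by
              have h6 := h5.1
              simp only [Equiv.swap_apply_right] at h6
              exact .inr h6)
          refine g1 (fun i hi => ?_) hb.1 hb.2
          by_cases hii : i = i₀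
          · subst hii
            have h3 := hi.2
            simp at h3
          · have h3 : Equiv.swap none (some i₀) (some i) = some i :=
              Equiv.swap_apply_of_ne_of_ne (by simp) (by simpa using hii)
            have h4 := hi.1
            simp only [h3] at h4
            exact hT i hii h4
        · have hb := bound (tE T i₀) (fun i j hi h5 => by
            unfold tE at h5
            simpa [hi] using h5) (fun j h5 => by
            unfold tE at h5
            simpa using h5)
          exact ih (Fin n) (Fintype.card_fin n) _ hb.1 hb.2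
      · refine g1 (fun i hi => hex ⟨i, hi⟩) (fun i => ?_) fun j => ?_
        · exact hro (some i)
        · have := hco j
          omega
    have step1 : ∀ T : Option (Fin n) × Option (Fin n) → Prop, (∀ i, rs T i ≤ 2) →
        (∀ j, cs T j ≤ 2) → Good m S (inv T) := by
      intro T hr hc
      by_cases hex : ∃ o, T (o, none)
      · obtain ⟨o, ho⟩ := hex
        refine good_inv_perm (Equiv.swap none o) (Equiv.refl _) (step2 _ (fun i => ?_) (fun j => ?_) ?_)
        · rw [rs_comp]; exact hr _
        · rw [cs_comp]; exact hc _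
        · simpa using ho
      · refine good_false fun K _ z hz => hz.2 ?_
        exact det_eq_zero_of_column_eq_zero none fun i => hz.1 _ fun h => hex ⟨i, h⟩
    intro ν _ _ hn T hr hc
    let e : Option (Fin n) ≃ ν := Fintype.equivOfCardEq (by simp [hn])
    refine good_inv_perm e e (step1 _ (fun i => ?_) fun j => ?_)
    · rw [rs_comp]; exact hr _
    · rw [cs_comp]; exact hc _

end Pool.Agent.H504.MC
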