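import Pool.Agent.H504.MC.Calc

/-!
# A pencil of two polynomials
-/

set_option autoImplicit false

namespace Pool.Agent.H504.MC

variable {V : Type} [AddCommGroup V] {L : V ≃+ V} {m : Measure V L} {S : AddSubgroup V}

variable {β : Type} [Finite β] {P : Cond β} {F H : Fun β}

lemma poly_some (hF : IsPoly F) : IsPoly fun K _ (x : Option β → K) => F K fun i => x (some i) :=
  hF.comp fun i => isPoly_var (some i)

lemma poly_some2 (hF : IsPoly F) :
    IsPoly fun K _ (x : Option (Option β) → K) => F K fun i => x (some (some i)) :=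
  hF.comp fun i => isPoly_var (some (some i))

lemma val_pencil (m : Measure V L) (hP : IsCon P) (hF : IsPoly F) (hH : IsPoly H) :
    m.val (fun K _ (x : Option β → K) => (P K fun i => x (some i)) ∧
      x none * F K (fun i => x (some i)) + H K (fun i => x (some i)) ≠ 0) =
    L (m.val fun K _ x => (P K x ∧ F K x = 0) ∧ H K x ≠ 0) +
      (L (m.val fun K _ x => P K x ∧ F K x ≠ 0) - m.val fun K _ x => P K x ∧ F K x ≠ 0) := by
  have c0 : IsCon fun K _ x => (P K x ∧ F K x = 0) ∧ H K x ≠ 0 :=
    con_and (con_and hP (con_eq hF isPoly_zero)) (con_ne hH isPoly_zero)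
  have c1 : IsCon fun K _ x => P K x ∧ F K x ≠ 0 := con_and hP (con_ne hF isPoly_zero)
  have cp : IsCon fun K _ (x : Option β → K) => (P K fun i => x (some i)) ∧
      x none * F K (fun i => x (some i)) + H K (fun i => x (some i)) ≠ 0 :=
    con_and (con_res hP _) (con_ne (((isPoly_var none).mul (poly_some hF)).add (poly_some hH))
      isPoly_zero)
  have cz : IsCon fun K _ (x : Option β → K) => F K (fun i => x (some i)) = 0 :=
    con_eq (poly_some hF) isPoly_zero
  rw [m.val_split cp cz, ← m.val_line c0, ← m.val_gm c1]
  congr 1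
  · refine m.val_congr fun K _ x => ?_
    constructor
    · rintro ⟨⟨h1, h2⟩, h3⟩
      rw [h3, mul_zero, zero_add] at h2
      exact ⟨⟨h1, h3⟩, h2⟩
    · rintro ⟨⟨h1, h3⟩, h2⟩
      refine ⟨⟨h1, ?_⟩, h3⟩
      rw [h3, mul_zero, zero_add]
      exact h2
  · refine m.val_bij (con_and cp (con_not cz)) (con_and (con_res c1 _)
      (con_ne (isPoly_var _) isPoly_zero)) (fun o K _ x => o.elim (x none * F K (fun i => x (some i)) +
        H K (fun i => x (some i))) fun i => x (some i)) ?_ ?_ ?_ ?_
    · rintro (_ | i)
      · exact ((isPoly_var none).mul (poly_some hF)).add (poly_some hH)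
      · exact isPoly_var _
    · rintro K _ x ⟨⟨h1, h2⟩, h3⟩
      exact ⟨⟨h1, h3⟩, h2⟩
    · rintro K _ x x' ⟨⟨h1, h2⟩, h3⟩ ⟨⟨h1', h2'⟩, h3'⟩ heq
      have e : (fun i => x (some i)) = fun i => x' (some i) := funext fun i => heq (some i)
      have h4 : x none * F K (fun i => x (some i)) + H K (fun i => x (some i)) =
        x' none * F K (fun i => x' (some i)) + H K (fun i => x' (some i)) := heq none
      rw [← e] at h4
      funext o
      rcases o with _ | i
      · exact mul_right_cancel₀ h3 (add_right_cancel h4)
      · exact heq (some i)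
    · rintro K _ y ⟨⟨h1, h3⟩, h2⟩
      refine ⟨fun o => o.elim ((y none - H K fun i => y (some i)) / F K fun i => y (some i))
        fun i => y (some i), ⟨⟨h1, ?_⟩, h3⟩, ?_⟩
      · simp only [Option.elim]
        rw [div_mul_cancel₀ _ h3, sub_add_cancel]
        exact h2
      · rintro (_ | i)
        · simp only [Option.elim]
          rw [div_mul_cancel₀ _ h3, sub_add_cancel]
        · rfl

lemma val_series (m : Measure V L) (hP : IsCon P) (hF : IsPoly F) (hH : IsPoly H) :
    m.val (fun K _ (x : Option (Option β) → K) => (P K fun i => x (some (some i))) ∧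
      x none * x (some none) * F K (fun i => x (some (some i))) +
        (x none + x (some none)) * H K (fun i => x (some (some i))) ≠ 0) =
    (L (L (m.val fun K _ x => (P K x ∧ F K x = 0) ∧ H K x ≠ 0)) -
      L (m.val fun K _ x => (P K x ∧ F K x = 0) ∧ H K x ≠ 0)) +
    ((L (L (m.val fun K _ x => (P K x ∧ F K x ≠ 0) ∧ H K x = 0) -
        m.val fun K _ x => (P K x ∧ F K x ≠ 0) ∧ H K x = 0) -
      (L (m.val fun K _ x => (P K x ∧ F K x ≠ 0) ∧ H K x = 0) -
        m.val fun K _ x => (P K x ∧ F K x ≠ 0) ∧ H K x = 0)) +
    (L (L (m.val fun K _ x => (P K x ∧ F K x ≠ 0) ∧ ¬ H K x = 0)) -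
      (L (m.val fun K _ x => (P K x ∧ F K x ≠ 0) ∧ ¬ H K x = 0) -
        m.val fun K _ x => (P K x ∧ F K x ≠ 0) ∧ ¬ H K x = 0))) := by
  have c0 : IsCon fun K _ x => (P K x ∧ F K x = 0) ∧ H K x ≠ 0 :=
    con_and (con_and hP (con_eq hF isPoly_zero)) (con_ne hH isPoly_zero)
  have c1 : IsCon fun K _ x => (P K x ∧ F K x ≠ 0) ∧ H K x = 0 :=
    con_and (con_and hP (con_ne hF isPoly_zero)) (con_eq hH isPoly_zero)
  have c2 : IsCon fun K _ x => (P K x ∧ F K x ≠ 0) ∧ ¬ H K x = 0 :=
    con_and (con_and hP (con_ne hF isPoly_zero)) (con_ne hH isPoly_zero)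
  have pq : IsPoly fun K _ (x : Option (Option β) → K) =>
      x none * x (some none) * F K (fun i => x (some (some i))) +
        (x none + x (some none)) * H K (fun i => x (some (some i))) :=
    (((isPoly_var _).mul (isPoly_var _)).mul (poly_some2 hF)).add
      (((isPoly_var _).add (isPoly_var _)).mul (poly_some2 hH))
  have cp : IsCon fun K _ (x : Option (Option β) → K) => (P K fun i => x (some (some i))) ∧
      x none * x (some none) * F K (fun i => x (some (some i))) +
        (x none + x (some none)) * H K (fun i => x (some (some i))) ≠ 0 :=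
    con_and (con_res hP _) (con_ne pq isPoly_zero)
  have cz : IsCon fun K _ (x : Option (Option β) → K) => F K (fun i => x (some (some i))) = 0 :=
    con_eq (poly_some2 hF) isPoly_zero
  have cy : IsCon fun K _ (x : Option (Option β) → K) => H K (fun i => x (some (some i))) = 0 :=
    con_eq (poly_some2 hH) isPoly_zero
  rw [m.val_split cp cz, m.val_split (con_and cp (con_not cz)) cy]
  congr 1
  · -- `F = 0`
    rw [← m.val_line c0, ← m.val_gm (con_res c0 (some : β → Option β))]
    refine m.val_bij (con_and cp cz) (con_and (con_res (con_res c0 _) _)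
      (con_ne (isPoly_var _) isPoly_zero)) (fun o _ _ x => o.elim (x none + x (some none))
        fun o => x (some o)) ?_ ?_ ?_ ?_
    · rintro (_ | i)
      · exact (isPoly_var none).add (isPoly_var (some none))
      · exact isPoly_var _
    · rintro K _ x ⟨⟨h1, h2⟩, h3⟩
      rw [h3, mul_zero, zero_add, mul_ne_zero_iff] at h2
      exact ⟨⟨⟨h1, h3⟩, h2.2⟩, h2.1⟩
    · rintro K _ x x' _ _ heq
      have e1 : ∀ o, x (some o) = x' (some o) := fun o => heq (some o)
      have h4 : x none + x (some none) = x' none + x' (some none) := heq none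
      funext o
      rcases o with _ | o
      · rw [e1] at h4
        exact add_right_cancel h4
      · exact e1 o
    · rintro K _ y ⟨⟨⟨h1, h3⟩, h2⟩, h4⟩
      refine ⟨fun o => o.elim (y none - y (some none)) fun o => y (some o), ⟨⟨h1, ?_⟩, h3⟩, ?_⟩
      · change (y none - y (some none)) * y (some none) * F K (fun i => y (some (some i))) +
          (y none - y (some none) + y (some none)) * H K (fun i => y (some (some i))) ≠ 0
        rw [h3, mul_zero, zero_add, sub_add_cancel]
        exact mul_ne_zero h4 h2
      · rintro (_ | o)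
        · exact sub_add_cancel _ _
        · rfl
  · congr 1
    · -- `F ≠ 0`, `H = 0`
      rw [← m.val_gm c1, ← m.val_gm (con_and (con_res c1 (some : β → Option β))
        (con_ne (isPoly_var none) isPoly_zero))]
      refine m.val_congr fun K _ x => ?_
      constructor
      · rintro ⟨⟨⟨h1, h2⟩, h3⟩, h4⟩
        rw [h4, mul_zero, add_zero, mul_ne_zero_iff, mul_ne_zero_iff] at h2
        exact ⟨⟨⟨⟨h1, h3⟩, h4⟩, h2.1.2⟩, h2.1.1⟩
      · rintro ⟨⟨⟨⟨h1, h3⟩, h4⟩, h5⟩, h6⟩
        refine ⟨⟨⟨h1, ?_⟩, h3⟩, h4⟩
        rw [h4, mul_zero, add_zero]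
        exact mul_ne_zero (mul_ne_zero h6 h5) h3
    · -- `F ≠ 0`, `H ≠ 0`
      have h0 := m.val_split (con_res (con_res c2 (some : β → Option β))
        (some : Option β → Option (Option β))) (con_eq pq isPoly_zero)
      rw [m.val_line (con_res c2 _), m.val_line c2] at h0
      have h1 : m.val (fun K _ (x : Option (Option β) → K) =>
          ((P K (fun i => x (some (some i))) ∧ F K (fun i => x (some (some i))) ≠ 0) ∧
            ¬ H K (fun i => x (some (some i))) = 0) ∧
          x none * x (some none) * F K (fun i => x (some (some i))) +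
            (x none + x (some none)) * H K (fun i => x (some (some i))) = 0) =
          L (m.val fun K _ x => (P K x ∧ F K x ≠ 0) ∧ ¬ H K x = 0) -
            m.val fun K _ x => (P K x ∧ F K x ≠ 0) ∧ ¬ H K x = 0 := by
        rw [← m.val_gm c2]
        refine m.val_bij (con_and (con_res (con_res c2 _) _) (con_eq pq isPoly_zero))
          (con_and (con_res c2 _) (con_ne (isPoly_var _) isPoly_zero))
          (fun o K _ x => o.elim (x none * F K (fun i => x (some (some i))) +
            H K (fun i => x (some (some i)))) fun i => x (some (some i))) ?_ ?_ ?_ ?_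
        · rintro (_ | i)
          · exact ((isPoly_var none).mul (poly_some2 hF)).add (poly_some2 hH)
          · exact isPoly_var _
        · rintro K _ x ⟨⟨⟨h1, h2⟩, h3⟩, h4⟩
          refine ⟨⟨⟨h1, h2⟩, h3⟩, fun h5 => ?_⟩
          change x none * F K (fun i => x (some (some i))) + H K (fun i => x (some (some i))) = 0 at h5
          have h6 : x none * H K (fun i => x (some (some i))) = 0 := by
            linear_combination h4 - x (some none) * h5
          rcases mul_eq_zero.1 h6 with h7 | h7
          · rw [h7, zero_mul, zero_add] at h5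
            exact h3 h5
          · exact h3 h7
        · rintro K _ x x' ⟨⟨⟨h1, h2⟩, h3⟩, h4⟩ ⟨⟨⟨h1', h2'⟩, h3'⟩, h4'⟩ heq
          have e : (fun i => x (some (some i))) = fun i => x' (some (some i)) :=
            funext fun i => heq (some i)
          have h5 : x none * F K (fun i => x (some (some i))) + H K (fun i => x (some (some i))) =
            x' none * F K (fun i => x' (some (some i))) + H K (fun i => x' (some (some i))) := heq none
          rw [← e] at h5 h4'
          have h6 : x none = x' none := mul_right_cancel₀ h2 (add_right_cancel h5)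
          have h7 : x none * F K (fun i => x (some (some i))) + H K (fun i => x (some (some i))) ≠ 0 := by
            intro h7
            have h8 : x none * H K (fun i => x (some (some i))) = 0 := by
              linear_combination h4 - x (some none) * h7
            rcases mul_eq_zero.1 h8 with h9 | h9
            · rw [h9, zero_mul, zero_add] at h7
              exact h3 h7
            · exact h3 h9
          funext o
          rcases o with _ | _ | i
          · exact h6
          · refine mul_right_cancel₀ h7 ?_
            rw [← h6] at h4'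
            linear_combination h4 - h4'
          · exact heq (some i)
        · rintro K _ y ⟨⟨⟨h1, h2⟩, h3⟩, h4⟩
          let f : K := F K fun i => y (some i)
          let g : K := H K fun i => y (some i)
          refine ⟨fun o => o.elim ((y none - g) / f) fun o => o.elim ((g ^ 2 / y none - g) / f)
            fun i => y (some i), ⟨⟨⟨h1, h2⟩, h3⟩, ?_⟩, ?_⟩
          · change (y none - g) / f * ((g ^ 2 / y none - g) / f) * f +
              ((y none - g) / f + (g ^ 2 / y none - g) / f) * g = 0
            have hf : f ≠ 0 := h2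
            have hy : y none ≠ 0 := h4
            field_simp
            ring
          · rintro (_ | i)
            · change (y none - g) / f * f + g = y none
              rw [div_mul_cancel₀ _ h2, sub_add_cancel]
            · rfl
      rw [h1] at h0
      rw [h0, add_sub_cancel_left]
      exact m.val_congr fun K _ x => by tauto

/-- If the sets given by `x F + H ≠ 0`, `H ≠ 0` and `x y F + (x + y) H ≠ 0` are good, then the set
given by `F ≠ 0` is good. -/
theorem good_three (hS : Saturated L S) (hP : IsCon P) (hF : IsPoly F) (hH : IsPoly H)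
    (h1 : Good m S fun K _ (x : Option β → K) => (P K fun i => x (some i)) ∧
      x none * F K (fun i => x (some i)) + H K (fun i => x (some i)) ≠ 0)
    (h2 : Good m S fun K _ x => P K x ∧ H K x ≠ 0)
    (h3 : Good m S fun K _ (x : Option (Option β) → K) => (P K fun i => x (some (some i))) ∧
      x none * x (some none) * F K (fun i => x (some (some i))) +
        (x none + x (some none)) * H K (fun i => x (some (some i))) ≠ 0) :
    Good m S fun K _ x => P K x ∧ F K x ≠ 0 := by
  refine ⟨con_and hP (con_ne hF isPoly_zero), ?_⟩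
  have v1 := val_pencil m hP hF hH
  have v3 := val_series m hP hF hH
  have v2 := m.val_split (con_and hP (con_ne hH isPoly_zero)) (con_eq hF isPoly_zero)
  have v4 := m.val_split (con_and hP (con_ne hF isPoly_zero)) (con_eq hH isPoly_zero)
  have e1 : m.val (fun K _ x => (P K x ∧ H K x ≠ 0) ∧ F K x = 0) =
      m.val fun K _ x => (P K x ∧ F K x = 0) ∧ H K x ≠ 0 := m.val_congr fun K _ x => by tauto
  have e2 : m.val (fun K _ x => (P K x ∧ H K x ≠ 0) ∧ ¬ F K x = 0) =
      m.val fun K _ x => (P K x ∧ F K x ≠ 0) ∧ ¬ H K x = 0 := m.val_congr fun K _ x => by tauto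
  rw [e1, e2] at v2
  have m1 := h1.2
  have m2 := h2.2
  have m3 := h3.2
  rw [v1] at m1
  rw [v2] at m2
  rw [v3] at m3
  rw [v4] at m1 ⊢
  generalize m.val (fun K _ x => (P K x ∧ F K x = 0) ∧ H K x ≠ 0) = b at *
  generalize m.val (fun K _ x => (P K x ∧ F K x ≠ 0) ∧ H K x = 0) = a at *
  generalize m.val (fun K _ x => (P K x ∧ F K x ≠ 0) ∧ ¬ H K x = 0) = c at *
  have hc : c ∈ S := by
    rw [← hS.line]
    have h5 := S.sub_mem m3 (S.sub_mem ((hS.line _).2 m1) m1)
    have h6 : L (L b) - L b + (L (L a - a) - (L a - a) + (L (L c) - (L c - c))) -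
        (L (L b + (L (a + c) - (a + c))) - (L b + (L (a + c) - (a + c)))) = L c := by
      simp only [map_add, map_sub]
      abel
    rwa [h6] at h5
  have hb : b ∈ S := by
    have := S.sub_mem m2 hc
    rwa [add_sub_cancel_right] at this
  refine (sat_gm hS _).1 ?_
  have := S.sub_mem m1 ((hS.line _).2 hb)
  rwa [add_sub_cancel_left] at this

end Pool.Agent.H504.MC
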