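import Pool.Agent.H504.MC.Kir
import Pool.Agent.H504.MC.Three
import Pool.Agent.H504.MC.Thin

/-!
# Splitting a vertex of a graph
-/

set_option autoImplicit false

namespace Pool.Agent.H504.MC

open Matrix

variable {V : Type} [AddCommGroup V] {L : V ≃+ V} {m : Measure V L} {S : AddSubgroup V}

variable {W : Type} [Fintype W] [DecidableEq W]

/-- symmetric weights of the graph `G` -/
def sup (G : W → W → Prop) : Cond (W × W) := fun _ _ z =>
  (∀ i j, z (i, j) = z (j, i)) ∧ ∀ i j, ¬ G i j → z (i, j) = 0

/-- symmetric weights of the graph `G` with nonzero Kirchhoff determinant -/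
def gr (w₀ : W) (G : W → W → Prop) : Cond (W × W) := fun K _ z => sup G K z ∧ kir w₀ z ≠ 0

lemma con_sup (G : W → W → Prop) : IsCon (sup G) :=
  con_and (con_forall fun _ => con_forall fun _ => con_eq (isPoly_var _) (isPoly_var _))
    (con_forall fun i => con_forall fun j => con_imp (con_const _)
      (con_eq (isPoly_var _) isPoly_zero))

lemma isPoly_kir (w₀ : W) : IsPoly fun K _ (z : W × W → K) => kir w₀ z := by
  refine isPoly_det fun i j => ((IsPoly.sub ?_ (isPoly_var _)).add ?_)
  · by_cases h : i = j
    · simp only [if_pos h]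
      exact isPoly_sum _ fun w => isPoly_var _
    · simp only [if_neg h]
      exact isPoly_zero
  · by_cases h : i = w₀ ∧ j = w₀
    · simp only [if_pos h]
      exact isPoly_one
    · simp only [if_neg h]
      exact isPoly_zero

lemma con_gr (w₀ : W) (G : W → W → Prop) : IsCon (gr w₀ G) :=
  con_and (con_sup G) (con_ne (isPoly_kir w₀) isPoly_zero)

lemma isPoly_contr (i₀ : W) (v : W × W) :
    IsPoly fun K _ (z : Option W × Option W → K) => contr i₀ z v := by
  refine IsPoly.add (IsPoly.add (isPoly_var _) ?_) ?_
  · by_cases h : v.1 = i₀ ∧ v.2 ≠ i₀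
    · simp only [if_pos h]
      exact isPoly_var _
    · simp only [if_neg h]
      exact isPoly_zero
  · by_cases h : v.2 = i₀ ∧ v.1 ≠ i₀
    · simp only [if_pos h]
      exact isPoly_var _
    · simp only [if_neg h]
      exact isPoly_zero

lemma isPoly_dele (i₀ : W) (v : Option W × Option W) :
    IsPoly fun K _ (z : Option W × Option W → K) => dele i₀ z v := by
  by_cases h : v = (none, some i₀) ∨ v = (some i₀, none)
  · simp only [dele, if_pos h]
    exact isPoly_zero
  · simp only [dele, if_neg h]
    exact isPoly_var _

/-- the new vertex takes the edges between `i₀` and the vertices in `N` -/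
def spl (i₀ : W) (N : W → Prop) (G : W → W → Prop) : Option W → Option W → Prop
  | none, none => False
  | none, some b => N b
  | some a, none => N a
  | some a, some b => G a b ∧ ¬ (a = i₀ ∧ N b) ∧ ¬ (b = i₀ ∧ N a)

/-- the edge between `none` and `some i₀` is added -/
def adde (i₀ : W) (H : Option W → Option W → Prop) : Option W → Option W → Prop := fun a b =>
  H a b ∨ (a = none ∧ b = some i₀) ∨ (a = some i₀ ∧ b = none)

/-- a path of length two between `none` and `some i₀` is added -/
def addp (i₀ : W) (H : Option W → Option W → Prop) :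
    Option (Option W) → Option (Option W) → Prop
  | none, none => False
  | none, some b => b = none ∨ b = some i₀
  | some a, none => a = none ∨ a = some i₀
  | some a, some b => H a b

variable {K : Type} [Field K] {i₀ w₀ : W}

lemma contr_dele (z : Option W × Option W → K) : contr i₀ (dele i₀ z) = contr i₀ z := by
  funext v
  simp only [contr, dele_ss, dele_sn, dele_ns]
  by_cases h1 : v.1 = i₀
  · by_cases h2 : v.2 = i₀
    · simp [h1, h2]
    · simp [h1, h2]
  · by_cases h2 : v.2 = i₀
    · simp [h1, h2]
    · simp [h1, h2]

lemma dele_symm {z : Option W × Option W → K} (h : ∀ i j, z (i, j) = z (j, i)) (i j : Option W) :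
    dele i₀ z (i, j) = dele i₀ z (j, i) := by
  simp only [dele, Prod.mk.injEq, h i j]
  congr 1
  exact propext ⟨fun h => h.elim (fun h => .inr h.symm) fun h => .inl h.symm,
    fun h => h.elim (fun h => .inr h.symm) fun h => .inl h.symm⟩

lemma contr_symm {z : Option W × Option W → K} (h : ∀ i j, z (i, j) = z (j, i)) (i j : W) :
    contr i₀ z (i, j) = contr i₀ z (j, i) := by
  simp only [contr, h (some i) (some j), h (some i) none, h (some j) none]
  ring

/-- the contraction is a bijection on weights -/
lemma good_contr {G : W → W → Prop} (hG : ∀ i j, G i j → G j i) (hi : ∀ i, ¬ G i i)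
    {N : W → Prop} (hN : ∀ b, N b → G i₀ b) :
    Good m S (fun K _ z => sup (spl i₀ N G) K z ∧ kir w₀ (contr i₀ z) ≠ 0) ↔
      Good m S (gr w₀ G) := by
  have hN0 : ¬ N i₀ := fun h => hi _ (hN _ h)
  refine good_bij (con_and (con_sup _) (con_ne ((isPoly_kir w₀).comp (isPoly_contr i₀)) isPoly_zero))
    (con_gr _ _) (fun v K _ z => contr i₀ z v) (isPoly_contr i₀) ?_ ?_ ?_
  · rintro K _ z ⟨⟨h1, h2⟩, h3⟩
    refine ⟨⟨contr_symm h1, fun a b hab => ?_⟩, h3⟩
    have e1 : z (some a, some b) = 0 := h2 _ _ fun h => hab h.1
    have e2 : (if a = i₀ ∧ b ≠ i₀ then z (none, some b) else 0) = 0 := by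
      split_ifs with h
      · exact h2 _ _ fun h' => hab (by rw [h.1]; exact hN b h')
      · rfl
    have e3 : (if b = i₀ ∧ a ≠ i₀ then z (some a, none) else 0) = 0 := by
      split_ifs with h
      · exact h2 _ _ fun h' => hab (by rw [h.1]; exact hG _ _ (hN a h'))
      · rfl
    simp only [contr, e1, e2, e3, add_zero]
  · rintro K _ z z' ⟨⟨h1, h2⟩, -⟩ ⟨⟨h1', h2'⟩, -⟩ heq
    have hns : ∀ b, z (none, some b) = z' (none, some b) := fun b => by
      by_cases hb : N b
      · have hb0 : b ≠ i₀ := fun h => hN0 (h ▸ hb)
        have h3 := heq (i₀, b)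
        have e1 : z (some i₀, some b) = 0 := h2 _ _ fun h => h.2.1 ⟨rfl, hb⟩
        have e2 : z' (some i₀, some b) = 0 := h2' _ _ fun h => h.2.1 ⟨rfl, hb⟩
        simpa [contr, e1, e2, hb0] using h3
      · rw [h2 none (some b) hb, h2' none (some b) hb]
    funext v
    rcases v with ⟨_ | a, _ | b⟩
    · rw [h2 none none id, h2' none none id]
    · exact hns b
    · rw [h1, h1', hns]
    · by_cases hab : spl i₀ N G (some a) (some b)
      · have h3 := heq (a, b)
        have e1 : ∀ y : Option W × Option W → K, (∀ i j, ¬ spl i₀ N G i j → y (i, j) = 0) →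
            contr i₀ y (a, b) = y (some a, some b) := fun y hy => by
          have e2 : (if a = i₀ ∧ b ≠ i₀ then y (none, some b) else 0) = 0 := by
            split_ifs with h
            · exact hy _ _ fun h' => hab.2.1 ⟨h.1, h'⟩
            · rfl
          have e3 : (if b = i₀ ∧ a ≠ i₀ then y (some a, none) else 0) = 0 := by
            split_ifs with h
            · exact hy _ _ fun h' => hab.2.2 ⟨h.1, h'⟩
            · rfl
          simp only [contr, e2, e3, add_zero]
        rwa [e1 z h2, e1 z' h2'] at h3
      · rw [h2 _ _ hab, h2' _ _ hab]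
  · rintro K _ y ⟨⟨h1, h2⟩, h3⟩
    classical
    let z : Option W × Option W → K := fun v => v.1.elim
      (v.2.elim 0 fun b => if N b then y (i₀, b) else 0)
      (fun a => v.2.elim (if N a then y (a, i₀) else 0) fun b =>
        if (a = i₀ ∧ N b) ∨ (b = i₀ ∧ N a) then 0 else y (a, b))
    have hc : contr i₀ z = y := by
      funext ⟨a, b⟩
      change (if (a = i₀ ∧ N b) ∨ (b = i₀ ∧ N a) then 0 else y (a, b)) +
        (if a = i₀ ∧ b ≠ i₀ then (if N b then y (i₀, b) else 0) else 0) +
        (if b = i₀ ∧ a ≠ i₀ then (if N a then y (a, i₀) else 0) else 0) = y (a, b)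
      by_cases ha : a = i₀
      · subst ha
        by_cases hb : b = a
        · subst hb
          simp [hN0]
        · by_cases hNb : N b <;> simp [hb, hNb]
      · by_cases hb : b = i₀
        · subst hb
          by_cases hNa : N a <;> simp [ha, hNa]
        · simp [ha, hb]
    refine ⟨z, ⟨⟨?_, ?_⟩, ?_⟩, fun v => congrFun hc v⟩
    · rintro (_ | a) (_ | b)
      · rfl
      · change (if N b then y (i₀, b) else 0) = if N b then y (b, i₀) else 0
        rw [h1]
      · change (if N a then y (a, i₀) else 0) = if N a then y (i₀, a) else 0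
        rw [h1]
      · change (if (a = i₀ ∧ N b) ∨ (b = i₀ ∧ N a) then 0 else y (a, b)) =
          if (b = i₀ ∧ N a) ∨ (a = i₀ ∧ N b) then 0 else y (b, a)
        rw [h1 a b]
        exact if_congr or_comm rfl rfl
    · rintro (_ | a) (_ | b) hab
      · rfl
      · exact if_neg hab
      · exact if_neg hab
      · change (if (a = i₀ ∧ N b) ∨ (b = i₀ ∧ N a) then 0 else y (a, b)) = 0
        split_ifs with h
        · rfl
        · exact h2 a b fun h' => hab ⟨h', fun h'' => h (.inl h''), fun h'' => h (.inr h'')⟩
    · change kir w₀ (contr i₀ z) ≠ 0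
      rw [hc]
      exact h3

/-- the edge between `none` and `some i₀` -/
lemma good_adde {H : Option W → Option W → Prop} (h0 : ¬ H none (some i₀))
    (h0' : ¬ H (some i₀) none) (h : Good m S (gr (some w₀) (adde i₀ H))) :
    Good m S fun K _ (x : Option (Option W × Option W) → K) => (sup H K fun i => x (some i)) ∧
      x none * kir w₀ (contr i₀ fun i => x (some i)) + kir (some w₀) (fun i => x (some i)) ≠ 0 := by
  have cX : IsCon fun K _ (x : Option (Option W × Option W) → K) =>
      (sup H K fun i => x (some i)) ∧ x none * kir w₀ (contr i₀ fun i => x (some i)) +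
        kir (some w₀) (fun i => x (some i)) ≠ 0 :=
    con_and (con_res (con_sup H) _) (con_ne (((isPoly_var none).mul
      (poly_some ((isPoly_kir w₀).comp (isPoly_contr i₀)))).add (poly_some (isPoly_kir (some w₀))))
      isPoly_zero)
  refine (good_bij (con_gr _ _) cX (fun o K _ z => o.elim (z (none, some i₀)) (dele i₀ z))
    ?_ ?_ ?_ ?_).1 h
  · rintro (_ | v)
    · exact isPoly_var _
    · exact isPoly_dele i₀ v
  · rintro K _ z ⟨⟨h1, h2⟩, h3⟩
    refine ⟨⟨dele_symm h1, fun i j hij => ?_⟩, ?_⟩
    · change dele i₀ z (i, j) = 0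
      by_cases hc : (i, j) = (none, some i₀) ∨ (i, j) = (some i₀, none)
      · exact if_pos hc
      · refine (if_neg hc).trans (h2 _ _ fun h => ?_)
        rcases h with h | h | h
        · exact hij h
        · exact hc (.inl (Prod.ext h.1 h.2))
        · exact hc (.inr (Prod.ext h.1 h.2))
    · change z (none, some i₀) * kir w₀ (contr i₀ (dele i₀ z)) + kir (some w₀) (dele i₀ z) ≠ 0
      rwa [contr_dele, ← kir_contr w₀ i₀ h1]
  · rintro K _ z z' ⟨⟨h1, -⟩, -⟩ ⟨⟨h1', -⟩, -⟩ heq
    funext v
    have h3 : z (none, some i₀) = z' (none, some i₀) := heq none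
    by_cases hv : v = (none, some i₀) ∨ v = (some i₀, none)
    · rcases hv with hv | hv
      · rw [hv]
        exact h3
      · rw [hv, h1, h1']
        exact h3
    · have h4 : dele i₀ z v = dele i₀ z' v := heq (some v)
      rwa [dele, dele, if_neg hv, if_neg hv] at h4
  · rintro K _ y ⟨⟨h1, h2⟩, h3⟩
    let z : Option W × Option W → K := fun v =>
      if v = (none, some i₀) ∨ v = (some i₀, none) then y none else y (some v)
    have hd : dele i₀ z = fun v => y (some v) := by
      funext v
      by_cases hv : v = (none, some i₀) ∨ v = (some i₀, none)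
      · rw [dele, if_pos hv]
        rcases hv with hv | hv
        · rw [hv]
          exact (h2 _ _ h0).symm
        · rw [hv]
          exact (h2 _ _ h0').symm
      · rw [dele, if_neg hv]
        exact if_neg hv
    have hz : ∀ i j, z (i, j) = z (j, i) := fun i j => by
      change (if (i, j) = (none, some i₀) ∨ (i, j) = (some i₀, none) then y none else
        y (some (i, j))) = if (j, i) = (none, some i₀) ∨ (j, i) = (some i₀, none) then y none else
        y (some (j, i))
      refine if_congr ?_ rfl (h1 i j)
      simp only [Prod.mk.injEq]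
      exact ⟨fun h => h.elim (fun h => .inr h.symm) fun h => .inl h.symm,
        fun h => h.elim (fun h => .inr h.symm) fun h => .inl h.symm⟩
    have hn : z (none, some i₀) = y none := if_pos (.inl rfl)
    refine ⟨z, ⟨⟨hz, fun i j hij => ?_⟩, ?_⟩, ?_⟩
    · refine (if_neg fun h => ?_).trans (h2 i j fun h => hij (.inl h))
      rcases h with h | h
      · exact hij (.inr (.inl ⟨congrArg Prod.fst h, congrArg Prod.snd h⟩))
      · exact hij (.inr (.inr ⟨congrArg Prod.fst h, congrArg Prod.snd h⟩))
    · rw [kir_contr w₀ i₀ hz, ← contr_dele, hd, hn]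
      exact h3
    · rintro (_ | v)
      · exact hn
      · exact congrFun hd v

/-- the Kirchhoff determinant after a path of length two is added -/
lemma kir_path {z : Option (Option W) × Option (Option W) → K} (hz : ∀ i j, z (i, j) = z (j, i))
    (h0 : ∀ b : Option W, b ≠ none → b ≠ some i₀ → z (none, some b) = 0)
    (h1 : z (some none, some (some i₀)) = 0) :
    kir (some (some w₀)) z = z (none, some (some i₀)) * z (none, some none) *
      kir w₀ (contr i₀ fun v => z (some v.1, some v.2)) +
      (z (none, some (some i₀)) + z (none, some none)) *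
        kir (some w₀) fun v => z (some v.1, some v.2) := by
  have s1 := kir_contr (some w₀) (some i₀) hz
  have s2 := kir_contr w₀ i₀ (z := contr (some i₀) z) (contr_symm hz)
  have s3 := kir_contr (some w₀) (none : Option W) (z := dele (some i₀) z) (dele_symm hz)
  have s4 : kir (some (some w₀)) (dele none (dele (some i₀) z)) = 0 := by
    refine kir_isolated (some w₀) fun b => ?_
    rw [dele_ns, dele_ns]
    split_ifs with h h'
    · rfl
    · rfl
    · exact h0 b h h'
  have e1 : contr i₀ (contr (some i₀) z) = contr i₀ fun v => z (some v.1, some v.2) := by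
    rw [← contr_dele, ← contr_dele (z := fun v => z (some v.1, some v.2))]
    congr 1
    funext ⟨a, b⟩
    rcases a with _ | a
    · rcases b with _ | b
      · simp [dele, contr]
      · rw [dele_ns, dele_ns]
        split_ifs with h
        · rfl
        · simp [contr, h]
    · rcases b with _ | b
      · rw [dele_sn, dele_sn]
        split_ifs with h
        · rfl
        · simp [contr, h]
      · rw [dele_ss, dele_ss]
        have e2 : (if some a = some i₀ ∧ some b ≠ some i₀ then z (none, some (some b)) else 0) = 0 := by
          split_ifs with h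
          · exact h0 _ (by simp) h.2
          · rfl
        have e3 : (if some b = some i₀ ∧ some a ≠ some i₀ then z (some (some a), none) else 0) = 0 := by
          split_ifs with h
          · rw [hz]
            exact h0 _ (by simp) h.2
          · rfl
        simp only [contr, e2, e3, add_zero]
  have e4 : contr (some i₀) z (none, some i₀) = z (none, some none) := by
    simp [contr, h1, hz (some none) none]
  have e5 : dele i₀ (contr (some i₀) z) = fun v => z (some v.1, some v.2) := by
    funext ⟨a, b⟩
    rcases a with _ | a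
    · rcases b with _ | b
      · simp [dele, contr]
      · rw [dele_ns]
        split_ifs with h
        · rw [h]
          exact h1.symm
        · simp [contr, h]
    · rcases b with _ | b
      · rw [dele_sn]
        split_ifs with h
        · rw [h]
          exact ((hz _ _).trans h1).symm
        · simp [contr, h]
      · rw [dele_ss]
        have e2 : (if some a = some i₀ ∧ some b ≠ some i₀ then z (none, some (some b)) else 0) = 0 := by
          split_ifs with h
          · exact h0 _ (by simp) h.2
          · rfl
        have e3 : (if some b = some i₀ ∧ some a ≠ some i₀ then z (some (some a), none) else 0) = 0 := by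
          split_ifs with h
          · rw [hz]
            exact h0 _ (by simp) h.2
          · rfl
        simp only [contr, e2, e3, add_zero]
  have e6 : dele (some i₀) z (none, some none) = z (none, some none) := by
    rw [dele_ns, if_neg (by simp)]
  have e7 : contr none (dele (some i₀) z) = fun v => z (some v.1, some v.2) := by
    funext ⟨a, b⟩
    have e2 : (if a = none ∧ b ≠ none then dele (some i₀) z (none, some b) else 0) = 0 := by
      split_ifs with h
      · rw [dele_ns]
        split_ifs with h'
        · rfl
        · exact h0 _ h.2 h'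
      · rfl
    have e3 : (if b = none ∧ a ≠ none then dele (some i₀) z (some a, none) else 0) = 0 := by
      split_ifs with h
      · rw [dele_sn]
        split_ifs with h'
        · rfl
        · rw [hz]
          exact h0 _ h.2 h'
      · rfl
    simp only [contr, e2, e3, add_zero, dele_ss]
  rw [s1, s2, s3, s4, e1, e4, e5, e6, e7]
  ring

/-- the path of length two between `none` and `some i₀` -/
lemma good_addp {H : Option W → Option W → Prop} (h0 : ¬ H none (some i₀))
    (h : Good m S (gr (some (some w₀)) (addp i₀ H))) :
    Good m S fun K _ (x : Option (Option (Option W × Option W)) → K) =>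
      (sup H K fun i => x (some (some i))) ∧
      x none * x (some none) * kir w₀ (contr i₀ fun i => x (some (some i))) +
        (x none + x (some none)) * kir (some w₀) (fun i => x (some (some i))) ≠ 0 := by
  have cX : IsCon fun K _ (x : Option (Option (Option W × Option W)) → K) =>
      (sup H K fun i => x (some (some i))) ∧
      x none * x (some none) * kir w₀ (contr i₀ fun i => x (some (some i))) +
        (x none + x (some none)) * kir (some w₀) (fun i => x (some (some i))) ≠ 0 :=
    con_and (con_res (con_sup H) _) (con_ne ((((isPoly_var none).mul (isPoly_var _)).mul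
      (poly_some2 ((isPoly_kir w₀).comp (isPoly_contr i₀)))).add
      (((isPoly_var _).add (isPoly_var _)).mul (poly_some2 (isPoly_kir (some w₀)))))
      isPoly_zero)
  refine (good_bij (con_gr _ _) cX (fun o K _ z => o.elim (z (none, some (some i₀))) fun o =>
    o.elim (z (none, some none)) fun v => z (some v.1, some v.2)) ?_ ?_ ?_ ?_).1 h
  · rintro (_ | _ | v)
    · exact isPoly_var _
    · exact isPoly_var _
    · exact isPoly_var _
  · rintro K _ z ⟨⟨h1, h2⟩, h3⟩
    refine ⟨⟨fun i j => h1 _ _, fun i j hij => h2 _ _ hij⟩, ?_⟩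
    rwa [kir_path h1 (fun b hb hb' => h2 _ _ fun h => h.elim hb hb') (h2 _ _ h0)] at h3
  · rintro K _ z z' ⟨⟨h1, h2⟩, -⟩ ⟨⟨h1', h2'⟩, -⟩ heq
    have hns : ∀ b, z (none, some b) = z' (none, some b) := fun b => by
      by_cases hb : b = none
      · rw [hb]
        exact heq (some none)
      · by_cases hb' : b = some i₀
        · rw [hb']
          exact heq none
        · rw [h2 none (some b) fun h => h.elim hb hb', h2' none (some b) fun h => h.elim hb hb']
    funext v
    rcases v with ⟨_ | a, _ | b⟩
    · rw [h2 none none id, h2' none none id]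
    · exact hns b
    · rw [h1, h1', hns]
    · exact heq (some (some (a, b)))
  · rintro K _ y ⟨⟨h1, h2⟩, h3⟩
    let f : Option W → K := fun b => if b = none then y (some none) else if b = some i₀ then
      y none else 0
    let z : Option (Option W) × Option (Option W) → K := fun v => v.1.elim
      (v.2.elim 0 f) fun a => v.2.elim (f a) fun b => y (some (some (a, b)))
    have hz : ∀ i j, z (i, j) = z (j, i) := by
      rintro (_ | a) (_ | b)
      · rfl
      · rfl
      · rfl
      · exact h1 a b
    have f1 : z (none, some none) = y (some none) := by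
      change f none = _
      simp [f]
    have f2 : z (none, some (some i₀)) = y none := by
      change f (some i₀) = _
      simp [f]
    have f0 : ∀ b : Option W, b ≠ none → b ≠ some i₀ → z (none, some b) = 0 := fun b hb hb' =>
      (if_neg hb).trans (if_neg hb')
    refine ⟨z, ⟨⟨hz, ?_⟩, ?_⟩, ?_⟩
    · rintro (_ | a) (_ | b) hab
      · rfl
      · exact f0 b (fun h => hab (.inl h)) fun h => hab (.inr h)
      · exact (hz _ _).trans (f0 a (fun h => hab (.inl h)) fun h => hab (.inr h))
      · exact h2 a b hab
    · rw [kir_path hz f0 (h2 _ _ h0), f1, f2]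
      exact h3
    · rintro (_ | _ | v)
      · exact f2
      · exact f1
      · rfl

/-- splitting a vertex -/
theorem good_split_vertex (hS : Saturated L S) {G : W → W → Prop} (hG : ∀ i j, G i j → G j i)
    (hi : ∀ i, ¬ G i i) {N : W → Prop} (hN : ∀ b, N b → G i₀ b)
    (h1 : Good m S (gr (some w₀) (adde i₀ (spl i₀ N G))))
    (h2 : Good m S (gr (some w₀) (spl i₀ N G)))
    (h3 : Good m S (gr (some (some w₀)) (addp i₀ (spl i₀ N G)))) : Good m S (gr w₀ G) := by
  have hN0 : ¬ N i₀ := fun h => hi _ (hN _ h)
  rw [← good_contr hG hi hN]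
  exact good_three hS (con_sup _) ((isPoly_kir w₀).comp (isPoly_contr i₀)) (isPoly_kir (some w₀))
    (good_adde hN0 hN0 h1) h2 (good_addp hN0 h3)

/-! ### degrees -/

/-- the degree -/
noncomputable def dg (G : W → W → Prop) (w : W) : ℕ := ∑ v, ind (G w v)

/-- the excess -/
noncomputable def ex (G : W → W → Prop) : ℕ := ∑ w, (dg G w - 3)

lemma ex_lt_opt {G : W → W → Prop} {G' : Option W → Option W → Prop} (h0 : dg G' none ≤ 3)
    (h1 : ∀ a, dg G' (some a) ≤ dg G a) (h2 : dg G' (some i₀) < dg G i₀) (h3 : 4 ≤ dg G i₀) :
    ex G' < ex G := by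
  rw [ex, Fintype.sum_option, Nat.sub_eq_zero_of_le h0, zero_add]
  refine Finset.sum_lt_sum (fun a _ => Nat.sub_le_sub_right (h1 a) 3) ⟨i₀, Finset.mem_univ _, ?_⟩
  omega

lemma ex_lt_opt2 {G : W → W → Prop} {G' : Option (Option W) → Option (Option W) → Prop}
    (h0 : dg G' none ≤ 3) (h0' : dg G' (some none) ≤ 3)
    (h1 : ∀ a, dg G' (some (some a)) ≤ dg G a) (h2 : dg G' (some (some i₀)) < dg G i₀)
    (h3 : 4 ≤ dg G i₀) : ex G' < ex G := by
  rw [ex, Fintype.sum_option, Fintype.sum_option, Nat.sub_eq_zero_of_le h0,
    Nat.sub_eq_zero_of_le h0', zero_add, zero_add]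
  refine Finset.sum_lt_sum (fun a _ => Nat.sub_le_sub_right (h1 a) 3) ⟨i₀, Finset.mem_univ _, ?_⟩
  omega

section deg

variable {G : W → W → Prop} {N : W → Prop}

lemma dg_spl_none (hN2 : ∑ b, ind (N b) = 2) : dg (spl i₀ N G) none = 2 := by
  rw [dg, Fintype.sum_option, ind_neg (show ¬ spl i₀ N G none none from id), zero_add]
  exact hN2

lemma dg_spl_self (hi : ∀ i, ¬ G i i) (hN : ∀ b, N b → G i₀ b) (hN2 : ∑ b, ind (N b) = 2) :
    dg (spl i₀ N G) (some i₀) + 2 = dg G i₀ := by
  have hN0 : ¬ N i₀ := fun h => hi _ (hN _ h)
  rw [dg, Fintype.sum_option, ind_neg (show ¬ spl i₀ N G (some i₀) none from hN0), zero_add, ← hN2,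
    ← Finset.sum_add_distrib]
  refine Finset.sum_congr rfl fun b _ => (ind_add ⟨fun h => ?_, fun h => ?_⟩ ?_).symm
  · by_cases hb : N b
    · exact .inr hb
    · exact .inl ⟨h, fun h' => hb h'.2, fun h' => hN0 h'.2⟩
  · rcases h with h | h
    · exact h.1
    · exact hN b h
  · rintro ⟨h, h'⟩
    exact h.2.1 ⟨rfl, h'⟩

lemma dg_spl_other (hG : ∀ i j, G i j → G j i) (hN : ∀ b, N b → G i₀ b) {a : W} (ha : a ≠ i₀) :
    dg (spl i₀ N G) (some a) = dg G a := by
  rw [dg, Fintype.sum_option]
  change ind (N a) + ∑ b, ind (spl i₀ N G (some a) (some b)) = ∑ b, ind (G a b)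
  have h1 : ∀ b, ind (G a b) = ind (b = i₀ ∧ N a) + ind (spl i₀ N G (some a) (some b)) := fun b => by
    refine ind_add ⟨fun h => ?_, fun h => ?_⟩ ?_
    · by_cases hb : b = i₀ ∧ N a
      · exact .inl hb
      · exact .inr ⟨h, fun h' => ha h'.1, hb⟩
    · rcases h with h | h
      · rw [h.1]
        exact hG _ _ (hN a h.2)
      · exact h.1
    · rintro ⟨h, h'⟩
      exact h'.2.2 h
  rw [Finset.sum_congr rfl fun b _ => h1 b, Finset.sum_add_distrib, sum_ind_and]

lemma dg_adde_le (H : Option W → Option W → Prop) (a : Option W) :
    dg H a ≤ dg (adde i₀ H) a := Finset.sum_le_sum fun b _ => ind_mono fun h => .inl h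

lemma dg_adde_none {H : Option W → Option W → Prop} (h0 : ¬ H none (some i₀)) :
    dg (adde i₀ H) none = dg H none + 1 := by
  rw [dg, dg, ← sum_ind_eq (some i₀), ← Finset.sum_add_distrib]
  refine Finset.sum_congr rfl fun b _ => ind_add ⟨fun h => ?_, fun h => ?_⟩ ?_
  · rcases h with h | h | h
    · exact .inl h
    · exact .inr h.2
    · exact absurd h.1 (by simp)
  · rcases h with h | h
    · exact .inl h
    · exact .inr (.inl ⟨rfl, h⟩)
  · rintro ⟨h, h'⟩
    exact h0 (h' ▸ h)

lemma dg_adde_self {H : Option W → Option W → Prop} (h0 : ¬ H (some i₀) none) :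
    dg (adde i₀ H) (some i₀) = dg H (some i₀) + 1 := by
  rw [dg, dg, ← sum_ind_eq (none : Option W), ← Finset.sum_add_distrib]
  refine Finset.sum_congr rfl fun b _ => ind_add ⟨fun h => ?_, fun h => ?_⟩ ?_
  · rcases h with h | h | h
    · exact .inl h
    · exact absurd h.1 (by simp)
    · exact .inr h.2
  · rcases h with h | h
    · exact .inl h
    · exact .inr (.inr ⟨rfl, h⟩)
  · rintro ⟨h, h'⟩
    exact h0 (h' ▸ h)

lemma dg_adde_other {H : Option W → Option W → Prop} {a : W} (ha : a ≠ i₀) :
    dg (adde i₀ H) (some a) = dg H (some a) := by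
  refine Finset.sum_congr rfl fun b _ => ind_congr ⟨fun h => ?_, fun h => .inl h⟩
  rcases h with h | h | h
  · exact h
  · exact absurd h.1 (by simp)
  · exact absurd h.1 (by simpa using ha)

lemma dg_addp_none (H : Option W → Option W → Prop) : dg (addp i₀ H) none = 2 := by
  rw [dg, Fintype.sum_option, ind_neg (show ¬ addp i₀ H none none from id), zero_add]
  have : ∀ b : Option W, ind (addp i₀ H none (some b)) = ind (b = none) + ind (b = some i₀) :=
    fun b => ind_add Iff.rfl fun h => by simp [h.1] at h
  rw [Finset.sum_congr rfl fun b _ => this b, Finset.sum_add_distrib, sum_ind_eq, sum_ind_eq]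

lemma dg_addp_some (H : Option W → Option W → Prop) (a : Option W) :
    dg (addp i₀ H) (some a) = ind (a = none ∨ a = some i₀) + dg H a := by
  rw [dg, Fintype.sum_option]
  rfl

end deg

/-- **Reduction to degrees at most three.** -/
theorem good_gr_of_cubic (hS : Saturated L S)
    (h : ∀ (W : Type) [Fintype W] [DecidableEq W] (w₀ : W) (G : W → W → Prop),
      (∀ i j, G i j → G j i) → (∀ i, ¬ G i i) → (∀ i, dg G i ≤ 3) → Good m S (gr w₀ G))
    (W : Type) [Fintype W] [DecidableEq W] (w₀ : W) (G : W → W → Prop)
    (hG : ∀ i j, G i j → G j i) (hi : ∀ i, ¬ G i i) : Good m S (gr w₀ G) := by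
  have key : ∀ (n : ℕ) (W : Type) [Fintype W] [DecidableEq W] (w₀ : W) (G : W → W → Prop),
      (∀ i j, G i j → G j i) → (∀ i, ¬ G i i) → ex G = n → Good m S (gr w₀ G) := by
    intro n
    induction n using Nat.strong_induction_on with
    | _ n ih =>
      intro W _ _ w₀ G hG hi hn
      by_cases h3 : ∀ i, dg G i ≤ 3
      · exact h W w₀ G hG hi h3
      · obtain ⟨i₀, hi₀⟩ := not_forall.1 h3
        have h4 : 4 ≤ dg G i₀ := by omega
        -- two neighbours
        obtain ⟨j₁, hj₁⟩ : ∃ j, G i₀ j := by
          by_contra hc
          have : dg G i₀ = 0 := Finset.sum_eq_zero fun j _ => ind_neg fun h => hc ⟨j, h⟩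
          omega
        obtain ⟨j₂, hj₂, hj⟩ : ∃ j, G i₀ j ∧ j ≠ j₁ := by
          by_contra hc
          have : dg G i₀ ≤ 1 := by
            rw [← sum_ind_eq j₁]
            refine Finset.sum_le_sum fun j _ => ind_mono fun h => ?_
            by_contra hj
            exact hc ⟨j, h, hj⟩
          omega
        let N : W → Prop := fun b => b = j₁ ∨ b = j₂
        have hN : ∀ b, N b → G i₀ b := by
          rintro b (rfl | rfl)
          · exact hj₁
          · exact hj₂
        have hN2 : ∑ b, ind (N b) = 2 := by
          have : ∀ b, ind (N b) = ind (b = j₁) + ind (b = j₂) := fun b =>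
            ind_add Iff.rfl fun h => hj (h.2.symm.trans h.1)
          rw [Finset.sum_congr rfl fun b _ => this b, Finset.sum_add_distrib, sum_ind_eq, sum_ind_eq]
        have hN0 : ¬ N i₀ := fun h => hi _ (hN _ h)
        have d1 := dg_spl_none (i₀ := i₀) (G := G) hN2
        have d2 := dg_spl_self hi hN hN2
        have d3 : ∀ a, a ≠ i₀ → dg (spl i₀ N G) (some a) = dg G a := fun a =>
          dg_spl_other hG hN
        have sS : ∀ i j, spl i₀ N G i j → spl i₀ N G j i := by
          rintro (_ | a) (_ | b) hab
          · exact hab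
          · exact hab
          · exact hab
          · exact ⟨hG _ _ hab.1, hab.2.2, hab.2.1⟩
        have sI : ∀ i, ¬ spl i₀ N G i i := by
          rintro (_ | a) hab
          · exact hab
          · exact hi _ hab.1
        refine good_split_vertex hS hG hi hN ?_ ?_ ?_
        · refine ih _ ?_ _ (some w₀) _ ?_ ?_ rfl
          · rw [← hn]
            refine ex_lt_opt (i₀ := i₀) ?_ ?_ ?_ h4
            · rw [dg_adde_none (show ¬ spl i₀ N G none (some i₀) from hN0), d1]
            · intro a
              by_cases ha : a = i₀
              · rw [ha, dg_adde_self (show ¬ spl i₀ N G (some i₀) none from hN0)]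
                omega
              · rw [dg_adde_other ha, d3 a ha]
            · rw [dg_adde_self (show ¬ spl i₀ N G (some i₀) none from hN0)]
              omega
          · rintro i j (hab | hab | hab)
            · exact .inl (sS _ _ hab)
            · exact .inr (.inr ⟨hab.2, hab.1⟩)
            · exact .inr (.inl ⟨hab.2, hab.1⟩)
          · rintro i (hab | hab | hab)
            · exact sI i hab
            · exact absurd (hab.1.symm.trans hab.2) (by simp)
            · exact absurd (hab.1.symm.trans hab.2) (by simp)
        · refine ih _ ?_ _ (some w₀) _ sS sI rfl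
          rw [← hn]
          refine ex_lt_opt (i₀ := i₀) ?_ ?_ ?_ h4
          · rw [d1]
            norm_num
          · intro a
            by_cases ha : a = i₀
            · rw [ha]
              omega
            · rw [d3 a ha]
          · omega
        · refine ih _ ?_ _ (some (some w₀)) _ ?_ ?_ rfl
          · rw [← hn]
            refine ex_lt_opt2 (i₀ := i₀) ?_ ?_ ?_ ?_ h4
            · rw [dg_addp_none]
              norm_num
            · rw [dg_addp_some, d1, ind_pos (.inl rfl)]
            · intro a
              rw [dg_addp_some]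
              by_cases ha : a = i₀
              · rw [ha, ind_pos (.inr rfl)]
                omega
              · rw [ind_neg (by simpa using ha), d3 a ha, zero_add]
            · rw [dg_addp_some, ind_pos (.inr rfl)]
              omega
          · rintro (_ | a) (_ | b) hab
            · exact hab
            · exact hab
            · exact hab
            · exact sS _ _ hab
          · rintro (_ | a) hab
            · exact hab
            · exact sI _ hab
  exact key _ W w₀ G hG hi rfl

end Pool.Agent.H504.MC
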