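import Pool.Agent.H504.MC.GraphStep

/-!
# Symmetric matrices and graphs
-/

set_option autoImplicit false

namespace Pool.Agent.H504.MC

open Matrix

variable {V : Type} [AddCommGroup V] {L : V ≃+ V} {m : Measure V L} {S : AddSubgroup V}

variable {ν : Type} [Fintype ν] [DecidableEq ν] {K : Type} [Field K]

/-- the Laplace matrix without the row and the column of the root -/
def lap (z : Option ν × Option ν → K) : Matrix ν ν K := Matrix.of fun i j =>
  (if i = j then ∑ w, z (some i, w) else 0) - z (some i, some j)

lemma kir_none {z : Option ν × Option ν → K} (hz : ∀ i j, z (i, j) = z (j, i)) :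
    kir none z = (lap z).det := by
  have h1 := det_updateRow_sum (kirM none z) none fun _ => (1 : K)
  rw [one_smul] at h1
  have h2 : (∑ k, (1 : K) • kirM none z k) = Pi.single none 1 := by
    funext j
    rw [Finset.sum_apply]
    have h3 : ∀ k, ((1 : K) • kirM none z k) j = (if k = j then ∑ w, z (k, w) else 0) - z (k, j) +
        if k = none ∧ j = none then 1 else 0 := fun k => by
      rw [one_smul]
      rfl
    rw [Finset.sum_congr rfl fun k _ => h3 k, Finset.sum_add_distrib, Finset.sum_sub_distrib,
      Finset.sum_ite_eq' Finset.univ j, if_pos (Finset.mem_univ _),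
      Finset.sum_congr rfl fun w _ => hz w j, sub_self, zero_add]
    rcases j with _ | j
    · simp
    · simp
  rw [h2, det_opt_row] at h1
  · rw [updateRow_self, Pi.single_eq_same, one_mul] at h1
    rw [kir, ← h1]
    congr 1
    ext i j
    rw [submatrix_apply, updateRow_ne (by simp)]
    simp [kirM, lap]
  · intro i
    rw [updateRow_self]
    simp

/-- the graph of a symmetric matrix with prescribed zeros -/
def opG (T : ν × ν → Prop) : Option ν → Option ν → Prop
  | none, none => False
  | none, some _ => True
  | some _, none => True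
  | some i, some j => i ≠ j ∧ T (i, j) ∧ T (j, i)

lemma opG_symm (T : ν × ν → Prop) : ∀ i j, opG T i j → opG T j i := by
  rintro (_ | i) (_ | j) h
  · exact h
  · trivial
  · trivial
  · exact ⟨Ne.symm h.1, h.2.2, h.2.1⟩

lemma opG_irrefl (T : ν × ν → Prop) : ∀ i, ¬ opG T i i := by
  rintro (_ | i) h
  · exact h
  · exact h.1 rfl

lemma isPoly_lap (i j : ν) :
    IsPoly fun (K : Type) _ (z : Option ν × Option ν → K) => lap z i j := by
  refine IsPoly.sub ?_ (isPoly_var _)
  by_cases h : i = j
  · simp only [if_pos h]
    exact isPoly_sum _ fun w => isPoly_var _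
  · simp only [if_neg h]
    exact isPoly_zero

theorem good_nds_of_gr (T : ν × ν → Prop) (hT : ∀ i, T (i, i))
    (h : Good m S (gr none (opG T))) : Good m S (nds T) := by
  have cY : IsCon (nds T) := con_and con_symm (con_and (con_forall fun v => con_imp (con_const _)
    (con_eq (isPoly_var _) isPoly_zero)) (con_ne (isPoly_det fun i j => isPoly_var (i, j))
      isPoly_zero))
  refine (good_bij (con_gr _ _) cY (fun v K _ z => lap z v.1 v.2) (fun v => isPoly_lap v.1 v.2)
    ?_ ?_ ?_).1 h
  · rintro K _ z ⟨⟨h1, h2⟩, h3⟩
    refine ⟨fun i j => ?_, fun v hv => ?_, ?_⟩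
    · change (if i = j then ∑ w, z (some i, w) else 0) - z (some i, some j) =
        (if j = i then ∑ w, z (some j, w) else 0) - z (some j, some i)
      rw [h1 (some i) (some j)]
      by_cases hij : i = j
      · rw [hij]
      · rw [if_neg hij, if_neg (Ne.symm hij)]
    · have hne : v.1 ≠ v.2 := fun h => hv (by
        have : v = (v.1, v.1) := Prod.ext rfl h.symm
        rw [this]
        exact hT _)
      change (if v.1 = v.2 then ∑ w, z (some v.1, w) else 0) - z (some v.1, some v.2) = 0
      rw [if_neg hne, h2 (some v.1) (some v.2) fun h => hv h.2.1, sub_zero]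
    · change (lap z).det ≠ 0
      rwa [← kir_none h1]
  · rintro K _ z z' ⟨⟨h1, h2⟩, -⟩ ⟨⟨h1', h2'⟩, -⟩ heq
    have hss : ∀ i j, z (some i, some j) = z' (some i, some j) := fun i j => by
      by_cases hij : i = j
      · rw [hij, h2 _ _ (opG_irrefl T _), h2' _ _ (opG_irrefl T _)]
      · have h3 : (if i = j then ∑ w, z (some i, w) else 0) - z (some i, some j) =
            (if i = j then ∑ w, z' (some i, w) else 0) - z' (some i, some j) := heq (i, j)
        rwa [if_neg hij, if_neg hij, zero_sub, zero_sub, neg_inj] at h3
    have hsn : ∀ i, z (some i, none) = z' (some i, none) := fun i => by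
      have h3 : (if i = i then ∑ w, z (some i, w) else 0) - z (some i, some i) =
          (if i = i then ∑ w, z' (some i, w) else 0) - z' (some i, some i) := heq (i, i)
      rw [if_pos rfl, if_pos rfl, hss, Fintype.sum_option, Fintype.sum_option,
        Finset.sum_congr rfl fun j _ => hss i j] at h3
      exact add_right_cancel (sub_left_inj.1 h3)
    funext v
    rcases v with ⟨_ | i, _ | j⟩
    · rw [h2 _ _ (opG_irrefl T _), h2' _ _ (opG_irrefl T _)]
    · rw [h1, h1', hsn]
    · exact hsn i
    · exact hss i j
  · rintro K _ y ⟨h1, h2, h3⟩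
    let z : Option ν × Option ν → K := fun v => v.1.elim
      (v.2.elim 0 fun j => ∑ k, y (j, k)) fun i => v.2.elim (∑ k, y (i, k)) fun j =>
        if i = j then 0 else - y (i, j)
    have hz : ∀ i j, z (i, j) = z (j, i) := by
      rintro (_ | i) (_ | j)
      · rfl
      · rfl
      · rfl
      · change (if i = j then 0 else - y (i, j)) = if j = i then 0 else - y (j, i)
        rw [h1 i j]
        exact if_congr eq_comm rfl rfl
    have hl : lap z = Matrix.of fun i j => y (i, j) := by
      ext i j
      change (if i = j then ∑ w, z (some i, w) else 0) - (if i = j then 0 else - y (i, j)) = y (i, j)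
      by_cases hij : i = j
      · rw [if_pos hij, if_pos hij, sub_zero, Fintype.sum_option]
        change ∑ k, y (i, k) + ∑ k, (if i = k then 0 else - y (i, k)) = y (i, j)
        rw [← Finset.sum_add_distrib, ← hij]
        rw [Finset.sum_eq_single i]
        · rw [if_pos rfl, add_zero]
        · intro k _ hk
          rw [if_neg (Ne.symm hk), add_neg_cancel]
        · intro h
          exact absurd (Finset.mem_univ _) h
      · rw [if_neg hij, if_neg hij, zero_sub, neg_neg]
    refine ⟨z, ⟨⟨hz, ?_⟩, ?_⟩, fun v => congrFun (congrFun hl v.1) v.2⟩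
    · rintro (_ | i) (_ | j) hij
      · rfl
      · exact absurd trivial hij
      · exact absurd trivial hij
      · change (if i = j then 0 else - y (i, j)) = 0
        split_ifs with h
        · rfl
        · rw [neg_eq_zero]
          by_cases h4 : T (i, j)
          · rw [h1]
            exact h2 (j, i) fun h5 => hij ⟨h, h4, h5⟩
          · exact h2 (i, j) h4
    · rw [kir_none hz, hl]
      exact h3

/-- **Universality for graphs.** -/
theorem good_of_gr (hS : Saturated L S)
    (h : ∀ (W : Type) [Fintype W] [DecidableEq W] (w₀ : W) (G : W → W → Prop),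
      (∀ i j, G i j → G j i) → (∀ i, ¬ G i i) → (∀ i, dg G i ≤ 3) → Good m S (gr w₀ G))
    (ι : Type) [Finite ι] (φ : Form ι) : Good m S fun K _ x => φ.holds x :=
  good_of_nds hS (fun ν _ _ T hT => good_nds_of_gr T hT
    (good_gr_of_cubic hS h _ none (opG T) (opG_symm T) (opG_irrefl T))) ι φ

end Pool.Agent.H504.MC
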