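import Pool.Agent.H504.MC.Strata

/-!
# Symmetric matrices with prescribed zeros outside the diagonal
-/

set_option autoImplicit false

namespace Pool.Agent.H504.MC

open Matrix Module

section field

variable {K ν : Type} [Field K] [Fintype ν]

/-- the columns `g j` are a basis of the space of columns -/
lemma exists_cols {R C : Type} [Finite R] [Fintype C] (A : Matrix R C K) {r : ℕ} (hr : A.rank = r) :
    ∃ g : Fin r → C, LinearIndependent K fun j => A.col (g j) := by
  rw [rank_eq_finrank_span_cols] at hr
  exact exists_independent _ hr.ge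

/-- the matrix without the last row and column -/
def mM (z : Option ν × Option ν → K) : Matrix ν ν K := Matrix.of fun i j => z (some i, some j)

/-- the matrix without the last row -/
def mN (z : Option ν × Option ν → K) : Matrix ν (Option ν) K := Matrix.of fun i j => z (some i, j)

/-- the matrix without the last column -/
def mR (z : Option ν × Option ν → K) : Matrix (Option ν) ν K := Matrix.of fun i j => z (i, some j)

/-- the whole matrix -/
def mF (z : Option ν × Option ν → K) : Matrix (Option ν) (Option ν) K := Matrix.of fun i j => z (i, j)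

lemma mN_eq (z : Option ν × Option ν → K) :
    mN z = Matrix.of (addCol (fun i j => z (some i, some j)) fun i => z (some i, none)) := by
  ext i (_ | j) <;> rfl

lemma mF_eq (z : Option ν × Option ν → K) :
    mF z = Matrix.of (addCol (fun i j => z (i, some j)) fun i => z (i, none)) := by
  ext i (_ | j) <;> rfl

lemma rank_M_le_N (z : Option ν × Option ν → K) : (mM z).rank ≤ (mN z).rank := by
  rw [mN_eq]
  exact rank_le_addCol _ _

lemma rank_N_le (z : Option ν × Option ν → K) : (mN z).rank ≤ (mM z).rank + 1 := by
  rw [mN_eq]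
  exact addCol_rank_le _ _

lemma rank_N_le_F (z : Option ν × Option ν → K) : (mN z).rank ≤ (mF z).rank :=
  rank_submatrix_le (mF z) some id

lemma rank_R_eq {z : Option ν × Option ν → K} (hz : ∀ i j, z (i, j) = z (j, i)) :
    (mR z).rank = (mN z).rank := by
  rw [← rank_transpose]
  congr 1
  ext i j
  exact hz j (some i)

lemma rank_F_le {z : Option ν × Option ν → K} (hz : ∀ i j, z (i, j) = z (j, i)) :
    (mF z).rank ≤ (mN z).rank + 1 := by
  rw [← rank_R_eq hz, mF_eq]
  exact addCol_rank_le _ _

/-- the last column is not in the space of the other columns -/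
lemma rank_F_of_N {z : Option ν × Option ν → K} (hz : ∀ i j, z (i, j) = z (j, i))
    (h : (mN z).rank = (mM z).rank + 1) : (mF z).rank = (mM z).rank + 2 := by
  have h1 := rank_F_le hz
  have h2 := rank_N_le_F z
  by_contra h3
  have h4 : (mF z).rank = (mN z).rank := by omega
  obtain ⟨g, hg⟩ := exists_cols (mR z) (rank_R_eq hz)
  have hg' : LinearIndependent K fun j => (mF z).col (some (g j)) := hg
  obtain ⟨x, hx⟩ := card_le_rank hg' h4 none
  have h5 := rank_addCol_of_comb (fun i j => z (some i, some j)) g x
  have h6 : mN z = Matrix.of (addCol (fun i j => z (some i, some j))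
      fun i => ∑ j, x j * z (some i, some (g j))) := by
    refine (mN_eq z).trans ?_
    congr 2
    funext i
    exact hx (some i)
  rw [← h6] at h5
  change (mN z).rank = (mM z).rank at h5
  omega

/-- columns `g j` that are independent without the last coordinate -/
lemma independent_F {z : Option ν × Option ν → K} {r : ℕ} {g : Fin r → ν}
    (hg : LinearIndependent K fun j => (mM z).col (g j)) :
    LinearIndependent K fun j => (mF z).col (some (g j)) :=
  LinearIndependent.of_comp (LinearMap.funLeft K K some) hg

/-- the last entry is determined by the other ones if the rank does not grow -/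
lemma corner_unique {z z' : Option ν × Option ν → K} (hz : ∀ i j, z (i, j) = z (j, i))
    (hz' : ∀ i j, z' (i, j) = z' (j, i)) (h : (mF z).rank = (mM z).rank)
    (h' : (mF z').rank = (mM z').rank) (e1 : ∀ i j, z (some i, some j) = z' (some i, some j))
    (e2 : ∀ i, z (some i, none) = z' (some i, none)) : z (none, none) = z' (none, none) := by
  have hM : mM z = mM z' := by
    ext i j
    exact e1 i j
  obtain ⟨g, hg⟩ := exists_cols (mM z) rfl
  have hg' : LinearIndependent K fun j => (mM z').col (g j) := by rwa [← hM]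
  obtain ⟨x, hx⟩ := card_le_rank (independent_F hg) h none
  obtain ⟨x', hx'⟩ := card_le_rank (independent_F hg') (h'.trans (by rw [hM])) none
  have hxx : x = x' := by
    rw [Fintype.linearIndependent_iff] at hg
    have h4 := hg (fun j => x j - x' j) (by
      funext i
      rw [Finset.sum_apply]
      change ∑ j, (x j - x' j) * z (some i, some (g j)) = 0
      simp only [sub_mul, Finset.sum_sub_distrib]
      have a : z (some i, none) = ∑ j, x j * z (some i, some (g j)) := hx (some i)
      have b : z' (some i, none) = ∑ j, x' j * z' (some i, some (g j)) := hx' (some i)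
      simp only [← e1] at b
      rw [← a, ← b, e2, sub_self])
    funext j
    exact sub_eq_zero.1 (h4 j)
  have a : z (none, none) = ∑ j, x j * z (none, some (g j)) := hx none
  have b : z' (none, none) = ∑ j, x' j * z' (none, some (g j)) := hx' none
  rw [a, b, hxx]
  refine Finset.sum_congr rfl fun j _ => ?_
  rw [hz none, hz' none, e2]

/-- the last entry can be chosen such that the rank does not grow -/
lemma exists_corner (A : ν × ν → K) (v : ν → K) (hA : ∀ i j, A (i, j) = A (j, i))
    (h : (Matrix.of (addCol (fun i j => A (i, j)) v)).rank = (Matrix.of fun i j => A (i, j)).rank) :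
    ∃ z : Option ν × Option ν → K, (∀ i j, z (i, j) = z (j, i)) ∧
      (∀ i j, z (some i, some j) = A (i, j)) ∧ (∀ i, z (some i, none) = v i) ∧
      (mF z).rank = (mM z).rank := by
  obtain ⟨g, hg⟩ := exists_cols (Matrix.of fun i j => A (i, j)) rfl
  have hg' : LinearIndependent K fun j => (Matrix.of (addCol (fun i j => A (i, j)) v)).col
    (some (g j)) := hg
  obtain ⟨x, hx⟩ := card_le_rank hg' h none
  let z : Option ν × Option ν → K := fun p => match p with
    | (some i, some j) => A (i, j)
    | (some i, none) => v i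
    | (none, some j) => v j
    | (none, none) => ∑ j, x j * v (g j)
  have hz : ∀ i j, z (i, j) = z (j, i) := by
    rintro (_ | i) (_ | j)
    · rfl
    · rfl
    · rfl
    · exact hA i j
  refine ⟨z, hz, fun _ _ => rfl, fun _ => rfl, ?_⟩
  have h1 : mF z = Matrix.of (addCol (fun i j => z (i, some j))
      fun i => ∑ j, x j * z (i, some (g j))) := by
    rw [mF_eq]
    congr 2
    funext i
    rcases i with _ | i
    · rfl
    · exact hx i
  rw [h1, rank_addCol_of_comb]
  change (mR z).rank = _
  rw [rank_R_eq hz, mN_eq]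
  exact h

end field

lemma rank_eq_card_iff {K R : Type} [Field K] [Fintype R] [DecidableEq R] (A : Matrix R R K) :
    A.det ≠ 0 ↔ A.rank = Fintype.card R := by
  constructor
  · exact rank_of_det_ne_zero
  · intro hA h0
    have h2 : LinearIndependent K A.row := by
      rw [linearIndependent_iff_card_eq_finrank_span, ← hA, rank_eq_finrank_span_row]
      rfl
    have h3 := linearIndependent_rows_iff_isUnit.1 h2
    rw [isUnit_iff_isUnit_det, isUnit_iff_ne_zero] at h3
    exact h3 h0

variable {V : Type} [AddCommGroup V] {L : V ≃+ V} {m : Measure V L} {S : AddSubgroup V}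

lemma iter_mem (hS : Saturated L S) (n : ℕ) (v : V) : (⇑L)^[n] v ∈ S ↔ v ∈ S := by
  induction n with
  | zero => exact Iff.rfl
  | succ n ih => rw [Function.iterate_succ_apply', hS.line, ih]

lemma diff_mem (hS : Saturated L S) {a b : ℕ} (hab : b < a) {v : V}
    (h : (⇑L)^[a] v - (⇑L)^[b] v ∈ S) : v ∈ S := by
  obtain ⟨k, hk⟩ := Nat.exists_eq_add_of_lt hab
  have h4 : a = b + (k + 1) := by omega
  rw [h4, Function.iterate_add_apply, ← iter_sub, iter_mem hS] at h
  exact hS.pow k _ h

section border

variable {ν : Type} [Fintype ν]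

/-- symmetric matrices of rank `r` whose entries are zero outside the set `T` -/
def sym (T : ν × ν → Prop) (r : ℕ) : Cond (ν × ν) := fun _ _ z =>
  (∀ i j, z (i, j) = z (j, i)) ∧ (∀ v, ¬ T v → z v = 0) ∧ (Matrix.of fun i j => z (i, j)).rank = r

lemma con_symm : IsCon fun K _ (z : ν × ν → K) => ∀ i j, z (i, j) = z (j, i) :=
  con_forall fun _ => con_forall fun _ => con_eq (isPoly_var _) (isPoly_var _)

lemma con_sym (T : ν × ν → Prop) (r : ℕ) : IsCon (sym T r) :=
  con_and con_symm (con_and (con_zeros T) (con_rank (fun v _ _ z => z v) (fun v => isPoly_var v) r))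

/-- positions of the matrix without the last row -/
def eB : (ν × ν) ⊕ ν → Option ν × Option ν
  | .inl v => (some v.1, some v.2)
  | .inr i => (some i, none)

/-- one more row and column with arbitrary entries such that the columns satisfy `Q` -/
def bor (Q : Cond ((ν × ν) ⊕ ν)) : Cond (Option ν × Option ν) := fun K _ z =>
  (∀ i, z (none, some i) = z (some i, none)) ∧ Q K fun v => z (eB v)

lemma con_bor {Q : Cond ((ν × ν) ⊕ ν)} (hQ : IsCon Q) : IsCon (bor Q) :=
  con_and (con_forall fun _ => con_eq (isPoly_var _) (isPoly_var _)) (con_res hQ _)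

lemma val_bor (m : Measure V L) {Q : Cond ((ν × ν) ⊕ ν)} (hQ : IsCon Q) :
    m.val (bor Q) = L (m.val Q) := by
  rw [← m.val_line hQ]
  refine m.val_bij (con_bor hQ) (con_res hQ _) (fun v _ _ z => z (v.elim (none, none) eB))
    (fun v => isPoly_var _) (fun K _ z hz => hz.2) ?_ ?_
  · rintro K _ z z' hz hz' heq
    funext ⟨i, j⟩
    rcases i with _ | i <;> rcases j with _ | j
    · exact heq none
    · rw [hz.1, hz'.1]
      exact heq (some (.inr j))
    · exact heq (some (.inr i))
    · exact heq (some (.inl (i, j)))
  · rintro K _ y hy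
    refine ⟨fun p => match p with
      | (some i, some j) => y (some (.inl (i, j)))
      | (some i, none) => y (some (.inr i))
      | (none, some j) => y (some (.inr j))
      | (none, none) => y none, ⟨fun _ => rfl, ?_⟩, ?_⟩
    · have e : (fun v : (ν × ν) ⊕ ν => (fun p : Option ν × Option ν => (match p with
          | (some i, some j) => y (some (.inl (i, j)))
          | (some i, none) => y (some (.inr i))
          | (none, some j) => y (some (.inr j))
          | (none, none) => y none : K)) (eB v)) = fun v => y (some v) := by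
        funext v
        rcases v with v | i <;> rfl
      rw [e]
      exact hy
    · rintro (_ | (v | i)) <;> rfl

/-- symmetric matrices with one more row and column such that the rank stays `r` -/
lemma val_stay (m : Measure V L) {r : ℕ} {P : Cond (ν × ν)} (hP : IsCon P)
    (hr : ∀ (K : Type) [Field K] (z : ν × ν → K), P K z →
      (∀ i j, z (i, j) = z (j, i)) ∧ (Matrix.of fun i c => z (i, c)).rank = r) :
    IsCon (fun K _ (z : Option ν × Option ν → K) => bor (fun K _ z => P K fun v => z (.inl v)) K z ∧
      (mF z).rank = r) ∧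
    m.val (fun K _ (z : Option ν × Option ν → K) => bor (fun K _ z => P K fun v => z (.inl v)) K z ∧
      (mF z).rank = r) = (⇑L)^[r] (m.val P) := by
  have hc : IsCon (fun K _ (z : Option ν × Option ν → K) =>
      bor (fun K _ z => P K fun v => z (.inl v)) K z ∧ (mF z).rank = r) :=
    con_and (con_bor (con_res hP _)) (con_rank (fun v _ _ z => z v) (fun v => isPoly_var v) r)
  refine ⟨hc, ?_⟩
  rw [← val_withCol_eq m hP fun K _ z hz => (hr K z hz).2]
  have hsym : ∀ (K : Type) [Field K] (z : Option ν × Option ν → K),
      bor (fun K _ z => P K fun v => z (.inl v)) K z → ∀ i j, z (i, j) = z (j, i) := by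
    rintro K _ z ⟨h1, h2⟩ (_ | i) (_ | j)
    · rfl
    · exact h1 j
    · exact (h1 i).symm
    · exact (hr K _ h2).1 i j
  refine m.val_bij hc (con_withCol hP r) (fun v _ _ z => z (eB v)) (fun v => isPoly_var _) ?_ ?_ ?_
  · rintro K _ z ⟨hz, hF⟩
    refine ⟨hz.2, ?_⟩
    have h1 := (hr K _ hz.2).2
    change (mM z).rank = r at h1
    have h2 := rank_M_le_N z
    have h3 := rank_N_le_F z
    change (Matrix.of (addCol (fun i j => z (some i, some j)) fun i => z (some i, none))).rank = r
    rw [← mN_eq]
    omega
  · rintro K _ z z' ⟨hz, hF⟩ ⟨hz', hF'⟩ heq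
    have e1 : ∀ i j, z (some i, some j) = z' (some i, some j) := fun i j => heq (.inl (i, j))
    have e2 : ∀ i, z (some i, none) = z' (some i, none) := fun i => heq (.inr i)
    have h1 : (mM z).rank = r := (hr K _ hz.2).2
    have h1' : (mM z').rank = r := (hr K _ hz'.2).2
    have h2 := corner_unique (hsym K z hz) (hsym K z' hz') (hF.trans h1.symm) (hF'.trans h1'.symm)
      e1 e2
    funext ⟨i, j⟩
    rcases i with _ | i <;> rcases j with _ | j
    · exact h2
    · rw [hz.1, hz'.1, e2]
    · exact e2 i
    · exact e1 i j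
  · rintro K _ y ⟨hy, hrk⟩
    have h1 := hr K _ hy
    obtain ⟨z, hz, hz1, hz2, hz3⟩ := exists_corner (fun v => y (.inl v)) (fun i => y (.inr i)) h1.1
      (hrk.trans h1.2.symm)
    have e : (fun v : ν × ν => z (some v.1, some v.2)) = fun v => y (.inl v) :=
      funext fun v => hz1 v.1 v.2
    refine ⟨z, ⟨⟨fun i => hz _ _, ?_⟩, ?_⟩, ?_⟩
    · change P K fun v => z (some v.1, some v.2)
      rw [e]
      exact hy
    · rw [hz3]
      change (Matrix.of fun i j => (fun v : ν × ν => z (some v.1, some v.2)) (i, j)).rank = r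
      rw [e]
      exact h1.2
    · rintro (v | i)
      · exact hz1 _ _
      · exact hz2 _

/-- the pattern with one more index without prescribed zeros -/
def tF (T : ν × ν → Prop) : Option ν × Option ν → Prop
  | (some i, some j) => T (i, j)
  | _ => True

lemma sym_tF {K : Type} [Field K] {T : ν × ν → Prop} {z : Option ν × Option ν → K} {s r : ℕ} :
    (sym (tF T) s K z ∧ (mM z).rank = r) ↔
      (bor (fun K _ z => sym T r K fun v => z (.inl v)) K z ∧ (mF z).rank = s) := by
  constructor
  · rintro ⟨⟨h1, h2, h3⟩, h4⟩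
    exact ⟨⟨fun i => h1 _ _, fun i j => h1 _ _, fun v hv => h2 (some v.1, some v.2) hv, h4⟩, h3⟩
  · rintro ⟨⟨h1, h2, h3, h4⟩, h5⟩
    refine ⟨⟨?_, ?_, h5⟩, h4⟩
    · rintro (_ | i) (_ | j)
      · rfl
      · exact h1 j
      · exact (h1 i).symm
      · exact h2 i j
    · rintro ⟨_ | i, _ | j⟩ hv
      · exact (hv trivial).elim
      · exact (hv trivial).elim
      · exact (hv trivial).elim
      · exact h3 (i, j) hv

lemma good_sym_step (hS : Saturated L S) {T : ν × ν → Prop} {r : ℕ} (hr : r < Fintype.card ν)
    (h0 : Good m S (sym (tF T) (r + 2))) (h1 : Good m S (sym T (r + 1)))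
    (h2 : Good m S (sym T (r + 2))) : Good m S (sym T r) := by
  refine ⟨con_sym T r, ?_⟩
  have cM : ∀ k, IsCon fun K _ (z : Option ν × Option ν → K) => (mM z).rank = k := fun k =>
    con_rank (fun v _ _ z => z (some v.1, some v.2)) (fun v => isPoly_var _) k
  have cN : ∀ k, IsCon fun K _ (z : Option ν × Option ν → K) => (mN z).rank = k := fun k =>
    con_rank (fun v _ _ z => z (some v.1, v.2)) (fun v => isPoly_var _) k
  have cF : ∀ k, IsCon fun K _ (z : Option ν × Option ν → K) => (mF z).rank = k := fun k =>
    con_rank (fun v _ _ z => z v) (fun v => isPoly_var _) k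
  have hst : ∀ k, IsCon (fun K _ (z : Option ν × Option ν → K) =>
      bor (fun K _ z => sym T k K fun v => z (.inl v)) K z ∧ (mF z).rank = k) ∧
      m.val (fun K _ (z : Option ν × Option ν → K) =>
        bor (fun K _ z => sym T k K fun v => z (.inl v)) K z ∧ (mF z).rank = k) =
      (⇑L)^[k] (m.val (sym T k)) := fun k =>
    val_stay m (con_sym T k) fun K _ z hz => ⟨hz.1, hz.2.2⟩
  have hB : ∀ k, m.val (bor fun K _ z => sym T k K fun v => z (.inl v)) =
      L ((⇑L)^[Fintype.card ν] (m.val (sym T k))) := fun k => by
    rw [val_bor m (con_res (con_sym T k) _), m.val_aff ν (con_sym T k), Nat.card_eq_fintype_card]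
  have hN : ∀ k, m.val (bor (withCol (sym T k) k)) = L ((⇑L)^[k] (m.val (sym T k))) := fun k => by
    rw [val_bor m (con_withCol (con_sym T k) k), val_withCol_eq m (con_sym T k)
      fun K _ z hz => hz.2.2]
  have eN : ∀ (k : ℕ) (K : Type) [Field K] (z : Option ν × Option ν → K),
      (bor (fun K _ z => sym T k K fun v => z (.inl v)) K z ∧ (mN z).rank = k) ↔
        bor (withCol (sym T k) k) K z := by
    intro k K _ z
    rw [mN_eq]
    constructor
    · rintro ⟨⟨a, b⟩, c⟩
      exact ⟨a, b, c⟩
    · rintro ⟨a, b, c⟩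
      exact ⟨⟨a, b⟩, c⟩
  have hsymm : ∀ (k : ℕ) (K : Type) [Field K] (z : Option ν × Option ν → K),
      bor (fun K _ z => sym T k K fun v => z (.inl v)) K z →
        (∀ i j, z (i, j) = z (j, i)) ∧ (mM z).rank = k := by
    intro k K _ z hz
    have := (sym_tF (s := (mF z).rank)).2 ⟨hz, rfl⟩
    exact ⟨this.1.1, this.2⟩
  -- split the symmetric matrices of rank `r + 2`
  have s1 := m.val_split h0.1 (cM (r + 2))
  have s2 := m.val_split (con_and h0.1 (con_not (cM (r + 2)))) (cM (r + 1))
  have e1 : m.val (fun K _ (z : Option ν × Option ν → K) => sym (tF T) (r + 2) K z ∧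
      (mM z).rank = r + 2) = (⇑L)^[r + 2] (m.val (sym T (r + 2))) := by
    rw [← (hst (r + 2)).2]
    exact m.val_congr fun K _ z => sym_tF
  have e2 : m.val (fun K _ (z : Option ν × Option ν → K) => (sym (tF T) (r + 2) K z ∧
      ¬ (mM z).rank = r + 2) ∧ (mM z).rank = r + 1) = L ((⇑L)^[r + 1] (m.val (sym T (r + 1)))) -
        (⇑L)^[r + 1] (m.val (sym T (r + 1))) := by
    have a := m.val_split (con_bor (con_withCol (con_sym T (r + 1)) (r + 1))) (cF (r + 1))
    rw [hN] at a
    have b : m.val (fun K _ z => bor (withCol (sym T (r + 1)) (r + 1)) K z ∧ (mF z).rank = r + 1) =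
        (⇑L)^[r + 1] (m.val (sym T (r + 1))) := by
      rw [← (hst (r + 1)).2]
      refine m.val_congr fun K _ z => ?_
      rw [← eN]
      constructor
      · rintro ⟨⟨a, _⟩, c⟩
        exact ⟨a, c⟩
      · rintro ⟨a, c⟩
        refine ⟨⟨a, ?_⟩, c⟩
        have h5 := (hsymm _ K z a).2
        have h6 := rank_M_le_N z
        have h7 := rank_N_le_F z
        omega
    rw [b] at a
    rw [a, add_sub_cancel_left]
    refine m.val_congr fun K _ z => ?_
    rw [← eN]
    constructor
    · rintro ⟨⟨a, _⟩, c⟩
      have h8 := (sym_tF.1 ⟨a, c⟩)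
      have h9 := a.2.2
      change (mF z).rank = r + 2 at h9
      refine ⟨⟨h8.1, ?_⟩, by omega⟩
      have h6 := rank_M_le_N z
      have h7 := rank_N_le z
      by_contra h10
      have h11 := rank_F_of_N a.1 (by omega)
      omega
    · rintro ⟨⟨a, b⟩, c⟩
      have h5 := hsymm _ K z a
      have h6 := rank_N_le_F z
      have h7 := rank_F_le h5.1
      have h8 : (mF z).rank = r + 2 := by omega
      have h9 := sym_tF.2 ⟨a, h8⟩
      have h10 := h9.2
      exact ⟨⟨h9.1, by omega⟩, h9.2⟩
  have e3 : m.val (fun K _ (z : Option ν × Option ν → K) => (sym (tF T) (r + 2) K z ∧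
      ¬ (mM z).rank = r + 2) ∧ ¬ (mM z).rank = r + 1) =
        L ((⇑L)^[Fintype.card ν] (m.val (sym T r))) - L ((⇑L)^[r] (m.val (sym T r))) := by
    have a := m.val_split (con_bor (con_res (con_sym T r) (Sum.inl : ν × ν → (ν × ν) ⊕ ν))) (cN r)
    rw [hB] at a
    have b : m.val (fun K _ z => bor (fun K _ z => sym T r K fun v => z (.inl v)) K z ∧
        (mN z).rank = r) = L ((⇑L)^[r] (m.val (sym T r))) := by
      rw [← hN]
      exact m.val_congr fun K _ z => eN r K z
    rw [b] at a
    rw [a, add_sub_cancel_left]
    refine m.val_congr fun K _ z => ?_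
    constructor
    · rintro ⟨⟨a, b⟩, c⟩
      have h9 := a.2.2
      change (mF z).rank = r + 2 at h9
      have h4 := rank_M_le_N z
      have h5 := rank_N_le z
      have h6 := rank_N_le_F z
      have h7 := rank_F_le a.1
      have h8 : (mM z).rank = r := by omega
      exact ⟨(sym_tF.1 ⟨a, h8⟩).1, by omega⟩
    · rintro ⟨a, b⟩
      have h5 := hsymm _ K z a
      have h6 := rank_M_le_N z
      have h7 := rank_N_le z
      have h8 := rank_F_of_N h5.1 (by omega)
      have h9 := (sym_tF (s := r + 2)).2 ⟨a, by omega⟩
      exact ⟨⟨h9.1, by omega⟩, by omega⟩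
  rw [e1] at s1
  rw [e2, e3] at s2
  have h4 : L ((⇑L)^[Fintype.card ν] (m.val (sym T r)) - (⇑L)^[r] (m.val (sym T r))) ∈ S := by
    have : L ((⇑L)^[Fintype.card ν] (m.val (sym T r)) - (⇑L)^[r] (m.val (sym T r))) =
        m.val (sym (tF T) (r + 2)) - (⇑L)^[r + 2] (m.val (sym T (r + 2))) -
        (L ((⇑L)^[r + 1] (m.val (sym T (r + 1)))) - (⇑L)^[r + 1] (m.val (sym T (r + 1)))) := by
      rw [s1, s2, map_sub]
      abel
    rw [this]
    exact S.sub_mem (S.sub_mem h0.2 ((iter_mem hS _ _).2 h2.2))
      (S.sub_mem ((hS.line _).2 ((iter_mem hS _ _).2 h1.2)) ((iter_mem hS _ _).2 h1.2))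
  exact diff_mem hS hr ((hS.line _).1 h4)

end border

/-- invertible symmetric matrices whose entries are zero outside the set `T` -/
def nds {ν : Type} [Fintype ν] [DecidableEq ν] (T : ν × ν → Prop) : Cond (ν × ν) := fun _ _ z =>
  (∀ i j, z (i, j) = z (j, i)) ∧ (∀ v, ¬ T v → z v = 0) ∧ (Matrix.of fun i j => z (i, j)).det ≠ 0

theorem good_sym_of_nds (hS : Saturated L S)
    (h : ∀ (ν : Type) [Fintype ν] [DecidableEq ν] (T : ν × ν → Prop), (∀ i, T (i, i)) →
      Good m S (nds T)) (ν : Type) [Fintype ν] (T : ν × ν → Prop)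
    (hT : ∀ i, T (i, i)) (r : ℕ) : Good m S (sym T r) := by
  classical
  have key : ∀ (c : ℕ) (ν : Type) [Fintype ν] (T : ν × ν → Prop) (r : ℕ), (∀ i, T (i, i)) →
      Fintype.card ν ≤ r + c → Good m S (sym T r) := by
    intro c
    induction c using Nat.strong_induction_on with
    | _ c ih =>
      intro ν _ T r hT hc
      rcases lt_trichotomy (Fintype.card ν) r with h1 | h1 | h1
      · refine good_false fun K _ z hz => ?_
        have h2 := rank_le_card_height (Matrix.of fun i j => z (i, j))
        have h3 := hz.2.2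
        omega
      · subst h1
        refine (h ν T hT).congr fun K _ z => ?_
        unfold nds sym
        rw [rank_eq_card_iff]
      · refine good_sym_step hS h1 (ih (c - 1) (by omega) _ _ (r + 2) ?_ ?_)
          (ih (c - 1) (by omega) _ _ (r + 1) hT (by omega))
          (ih (c - 1) (by omega) _ _ (r + 2) hT (by omega))
        · rintro (_ | i)
          · trivial
          · exact hT i
        · rw [Fintype.card_option]
          omega
  exact key (Fintype.card ν) ν T r hT (by omega)

end Pool.Agent.H504.MC
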