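import Pool.Agent.H504.MC.Strata
import Pool.Agent.H504.MC.Sym

/-!
# Solution spaces of systems of linear equations
-/

set_option autoImplicit false

namespace Pool.Agent.H504.MC

open Matrix Module

section field

variable {K R C : Type} [Field K] [Finite R] [Fintype C]

/-- the rows of a nonzero minor of order the rank span all rows -/
lemma row_comb {A : Matrix R C K} {r : ℕ} {f : Fin r → R} {g : Fin r → C}
    (h : (A.submatrix f g).det ≠ 0) (hr : A.rank = r) (i : R) :
    ∃ x : Fin r → K, ∀ c, A i c = ∑ j, x j * A (f j) c := by
  have h1 : (A.transpose.submatrix g f).det ≠ 0 := by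
    rw [← det_transpose]
    exact h
  have _ : Fintype R := Fintype.ofFinite R
  have h2 : LinearIndependent K fun j => A.transpose.col (f j) :=
    independent_of_det (A := A.transpose) h1
  have h3 : A.transpose.rank = r := by rw [rank_transpose, hr]
  exact card_le_rank h2 h3 i

lemma kernel_of_rows {A : Matrix R C K} {r : ℕ} {f : Fin r → R} {g : Fin r → C}
    (h : (A.submatrix f g).det ≠ 0) (hr : A.rank = r) (y : C → K)
    (hy : ∀ j, ∑ c, A (f j) c * y c = 0) (i : R) : ∑ c, A i c * y c = 0 := by
  obtain ⟨x, hx⟩ := row_comb h hr i
  have : ∑ c, A i c * y c = ∑ j, x j * ∑ c, A (f j) c * y c := by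
    simp only [hx, Finset.sum_mul, Finset.mul_sum]
    rw [Finset.sum_comm]
    exact Finset.sum_congr rfl fun j _ => Finset.sum_congr rfl fun c _ => by ring
  rw [this]
  exact Finset.sum_eq_zero fun j _ => by rw [hy j, mul_zero]

end field

variable {V : Type} [AddCommGroup V] {L : V ≃+ V} {m : Measure V L} {S : AddSubgroup V}

/-- points of `P` together with a solution of a system of homogeneous linear equations -/
def ker {ι R C : Type} [Fintype C] (P : Cond ι) (e : R × C → Fun ι) : Cond (ι ⊕ C) := fun K _ z =>
  (P K fun i => z (.inl i)) ∧ ∀ i, ∑ c, e (i, c) K (fun i => z (.inl i)) * z (.inr c) = 0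

lemma con_ker {ι R C : Type} [Finite R] [Fintype C] {P : Cond ι} (hP : IsCon P)
    {e : R × C → Fun ι} (he : ∀ v, IsPoly (e v)) : IsCon (ker P e) :=
  con_and (con_res hP _) (con_forall fun i => con_eq (isPoly_sum _ fun c =>
    (isPoly_inl (he (i, c))).mul (isPoly_var _)) isPoly_zero)

section

variable {ι R C : Type} [Finite ι] [Finite R] [Fintype C]

/-- The solutions of a system of rank `r` form a vector space of dimension `|C| - r`. -/
lemma val_ker (m : Measure V L) {r : ℕ} {P : Cond ι} (hP : IsCon P) {e : R × C → Fun ι}
    (he : ∀ v, IsPoly (e v))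
    (hr : ∀ (K : Type) [Field K] (z : ι → K), P K z →
      (Matrix.of fun i c => e (i, c) K z : Matrix R C K).rank = r) :
    (⇑L)^[r] (m.val (ker P e)) = (⇑L)^[Nat.card C] (m.val P) := by
  classical
  have key : ∀ s : Finset ((Fin r → R) × (Fin r → C)), ∀ P : Cond ι, IsCon P →
      (∀ (K : Type) [Field K] (z : ι → K), P K z →
        (Matrix.of fun i c => e (i, c) K z : Matrix R C K).rank = r ∧
        ∃ a ∈ s, ((Matrix.of fun i c => e (i, c) K z : Matrix R C K).submatrix a.1 a.2).det ≠ 0) →
      (⇑L)^[r] (m.val (ker P e)) = (⇑L)^[Nat.card C] (m.val P) := by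
    intro s
    induction s using Finset.induction_on with
    | empty =>
      intro P hP h
      have h1 : m.val P = 0 := m.val_false fun K _ z hz => by simpa using (h K z hz).2
      have h2 : m.val (ker P e) = 0 :=
        m.val_false fun K _ z hz => by simpa using (h K _ hz.1).2
      rw [h1, h2, iter_zero, iter_zero]
    | insert a s ha ih =>
      intro P hP h
      let Z : Cond ι := fun K _ z =>
        ((Matrix.of fun i c => e (i, c) K z : Matrix R C K).submatrix a.1 a.2).det = 0
      have hZ : IsCon Z := con_eq (isPoly_det fun i j => he (a.1 i, a.2 j)) isPoly_zero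
      have h1 := ih (fun K _ z => P K z ∧ Z K z) (con_and hP hZ) (by
        intro K _ z hz
        obtain ⟨h1, b, hb, hb'⟩ := h K z hz.1
        rcases Finset.mem_insert.1 hb with rfl | hb
        · exact (hb' hz.2).elim
        · exact ⟨h1, b, hb, hb'⟩)
      have h2 : (⇑L)^[r] (m.val (ker (fun K _ z => P K z ∧ ¬ Z K z) e)) =
          (⇑L)^[Nat.card C] (m.val fun K _ z => P K z ∧ ¬ Z K z) := by
        have hc : IsCon fun K _ z => P K z ∧ ¬ Z K z := con_and hP (con_not hZ)
        have h3 := m.val_aff C hc
        have h4 := m.val_aff (Fin r) (con_ker hc he)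
        rw [Nat.card_eq_fintype_card, Fintype.card_fin] at h4
        rw [← h3, ← h4]
        let B : ∀ (K : Type) [Field K], (ι ⊕ C → K) → Matrix (Fin r) (Fin r) K := fun K _ z =>
          Matrix.of fun i j => e (a.1 i, a.2 j) K fun i => z (.inl i)
        let w : ∀ (K : Type) [Field K], (ι ⊕ C → K) → Fin r → K := fun K _ z j =>
          ∑ c, e (a.1 j, c) K (fun i => z (.inl i)) * z (.inr c)
        have hBp : ∀ i j, IsPoly fun K _ z => B K z i j := fun i j => isPoly_inl (he (a.1 i, a.2 j))
        have hw : ∀ j, IsPoly fun K _ z => w K z j := fun j => isPoly_sum _ fun c =>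
          (isPoly_inl (he _)).mul (isPoly_var _)
        have hadj : ∀ i j, IsPoly fun K _ z => (B K z).adjugate i j := by
          intro i j
          have : (fun (K : Type) [Field K] (z : ι ⊕ C → K) => (B K z).adjugate i j) =
              fun (K : Type) [Field K] (z : ι ⊕ C → K) =>
              (Matrix.of fun k l => if k = j then (if l = i then (1 : K) else 0) else B K z k l).det := by
            funext K _ z
            rw [adjugate_apply]
            congr 1
            ext k l
            rw [updateRow_apply, of_apply]
            by_cases hk : k = j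
            · rw [if_pos hk, if_pos hk, Pi.single_apply]
            · rw [if_neg hk, if_neg hk]
          rw [this]
          refine isPoly_det fun k l => ?_
          by_cases hk : k = j
          · by_cases hl : l = i
            · simpa [hk, hl] using isPoly_one
            · simpa [hk, hl] using isPoly_zero
          · simpa [hk] using hBp k l
        have hdet : IsPoly fun K _ z => (B K z).det := isPoly_det fun i j => hBp i j
        -- facts about the map
        have hg : ∀ (K : Type) [Field K] (z : ι ⊕ C → K), (B K z).det ≠ 0 →
            Function.Injective a.2 := by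
          intro K _ z hd j j' hjj
          by_contra hne
          exact hd (det_zero_of_column_eq hne fun i => by simp only [B, of_apply, hjj])
        have hcol : ∀ (K : Type) [Field K] (z : ι ⊕ C → K), (B K z).det ≠ 0 →
            ∀ (u : Fin r → K) (k : Fin r),
            ∑ c, e (a.1 k, c) K (fun i => z (.inl i)) *
              (∑ j, if c = a.2 j then u j else 0) = ((B K z) *ᵥ u) k := by
          intro K _ z hd u k
          have : ∀ c, e (a.1 k, c) K (fun i => z (.inl i)) *
              (∑ j, if c = a.2 j then u j else 0) =
              ∑ j, if c = a.2 j then e (a.1 k, a.2 j) K (fun i => z (.inl i)) * u j else 0 := by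
            intro c
            rw [Finset.mul_sum]
            refine Finset.sum_congr rfl fun j _ => ?_
            by_cases hc : c = a.2 j
            · rw [if_pos hc, if_pos hc, hc]
            · rw [if_neg hc, if_neg hc, mul_zero]
          simp only [this]
          rw [Finset.sum_comm]
          refine Finset.sum_congr rfl fun j _ => ?_
          rw [Finset.sum_ite_eq' Finset.univ (a.2 j)]
          simp [B]
        have hBw : ∀ (K : Type) [Field K] (z : ι ⊕ C → K),
            (B K z) *ᵥ ((B K z).adjugate *ᵥ w K z) = (B K z).det • w K z := by
          intro K _ z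
          rw [mulVec_mulVec, mul_adjugate, smul_mulVec, one_mulVec]
        let q : ∀ (K : Type) [Field K], (ι ⊕ C → K) → C → K := fun K _ z c =>
          (B K z).det * z (.inr c) -
            ∑ j, if c = a.2 j then ((B K z).adjugate *ᵥ w K z) j else 0
        have hq : ∀ c, IsPoly fun K _ z => q K z c := by
          intro c
          refine (hdet.mul (isPoly_var _)).sub (isPoly_sum _ fun j => ?_)
          by_cases hc : c = a.2 j
          · simp only [if_pos hc]
            exact isPoly_sum Finset.univ fun k => (hadj j k).mul (hw k)
          · simp only [if_neg hc]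
            exact isPoly_zero
        have hqker : ∀ (K : Type) [Field K] (z : ι ⊕ C → K), (B K z).det ≠ 0 → ∀ k,
            ∑ c, e (a.1 k, c) K (fun i => z (.inl i)) * q K z c = 0 := by
          intro K _ z hd k
          have h5 := hcol K z hd ((B K z).adjugate *ᵥ w K z) k
          rw [hBw] at h5
          simp only [q, mul_sub, Finset.sum_sub_distrib]
          rw [h5]
          have : ∑ c, e (a.1 k, c) K (fun i => z (.inl i)) * ((B K z).det * z (.inr c)) =
              (B K z).det * w K z k := by
            rw [Finset.mul_sum]
            exact Finset.sum_congr rfl fun c _ => by ring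
          rw [this, Pi.smul_apply, smul_eq_mul, sub_self]
        have hne : ∀ (K : Type) [Field K] (z : ι ⊕ C → K), (¬ Z K fun i => z (.inl i)) →
            (B K z).det ≠ 0 := fun K _ z hz => hz
        -- a kernel vector with zero coordinates outside the range of `a.2` is zero
        have huniq : ∀ (K : Type) [Field K] (z : ι ⊕ C → K), (B K z).det ≠ 0 → ∀ y : C → K,
            (∀ k, ∑ c, e (a.1 k, c) K (fun i => z (.inl i)) * y c = 0) →
            (∀ c, (∀ j, c ≠ a.2 j) → y c = 0) → y = 0 := by
          intro K _ z hd y hy h0
          have hinj := hg K z hd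
          have hy' : ∀ c, y c = ∑ j, if c = a.2 j then y (a.2 j) else 0 := by
            intro c
            by_cases hc : ∃ j, c = a.2 j
            · obtain ⟨j, rfl⟩ := hc
              have : ∀ j', (if a.2 j = a.2 j' then y (a.2 j') else 0) =
                  if j = j' then y (a.2 j') else 0 := fun j' => by
                by_cases hj : j = j'
                · rw [hj]; simp
                · rw [if_neg hj, if_neg fun h => hj (hinj h)]
              simp only [this]
              simp
            · push Not at hc
              rw [h0 c hc]
              exact (Finset.sum_eq_zero fun j _ => if_neg (hc j)).symm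
          have h5 : (B K z) *ᵥ (fun j => y (a.2 j)) = 0 := by
            funext k
            refine (hcol K z hd _ k).symm.trans (Eq.trans ?_ (hy k))
            exact Finset.sum_congr rfl fun c _ => by rw [← hy' c]
          have h6 := eq_zero_of_mulVec_eq_zero hd h5
          funext c
          rw [hy' c]
          exact Finset.sum_eq_zero fun j _ => by
            rw [congrFun h6 j]
            simp
        refine (m.val_bij (con_res hc _) (con_res (con_ker hc he) _)
          (fun v _ _ z => v.elim (fun v => v.elim (fun i => z (.inl i)) fun c => q _ z c)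
            fun j => z (.inr (a.2 j))) ?_ ?_ ?_ ?_).symm
        · rintro ((i | c) | j)
          · exact isPoly_var _
          · exact hq c
          · exact isPoly_var _
        · intro K _ z hz
          refine ⟨hz, fun i => ?_⟩
          exact kernel_of_rows (A := Matrix.of fun i c => e (i, c) K fun i => z (.inl i))
            (f := a.1) (g := a.2) hz.2 (h K _ hz.1).1 (q K z) (hqker K z (hne K z hz.2)) i
        · intro K _ z z' hz hz' heq
          have e1 : (fun i => z (.inl i)) = fun i => z' (.inl i) :=
            funext fun i => heq (.inl (.inl i))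
          have e2 : ∀ c, q K z c = q K z' c := fun c => heq (.inl (.inr c))
          have e3 : ∀ j, z (.inr (a.2 j)) = z' (.inr (a.2 j)) := fun j => heq (.inr j)
          have hB : B K z = B K z' := by
            ext i j
            simp only [B, of_apply, e1]
          have hd := hne K z hz.2
          funext v
          rcases v with v | c
          · exact congrFun e1 v
          · by_cases hc : ∃ j, c = a.2 j
            · obtain ⟨j, rfl⟩ := hc
              exact e3 j
            · push Not at hc
              have h5 := e2 c
              simp only [q] at h5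
              rw [Finset.sum_eq_zero fun j _ => if_neg (hc j),
                Finset.sum_eq_zero fun j _ => if_neg (hc j), sub_zero, sub_zero, ← hB] at h5
              exact mul_left_cancel₀ hd h5
        · rintro K _ y ⟨hy, hy2⟩
          let y0 : ι → K := fun i => y (.inl (.inl i))
          let d : K := (Matrix.of fun i j => e (a.1 i, a.2 j) K y0 : Matrix (Fin r) (Fin r) K).det
          have hd : d ≠ 0 := hy.2
          let z : ι ⊕ C → K := Sum.elim y0 fun c =>
            if hc : ∃ j, c = a.2 j then y (.inr hc.choose) else y (.inl (.inr c)) / d
          have hzl : (fun i => z (.inl i)) = y0 := rfl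
          have hdz : (B K z).det = d := rfl
          have hdz' : (B K z).det ≠ 0 := hd
          have hinj := hg K z hdz'
          have hz1 : ∀ j, z (.inr (a.2 j)) = y (.inr j) := by
            intro j
            have hj : ∃ j', a.2 j = a.2 j' := ⟨j, rfl⟩
            change (if hc : ∃ j', a.2 j = a.2 j' then y (.inr hc.choose) else _) = _
            rw [dif_pos hj]
            exact congrArg (fun k => y (.inr k)) (hinj hj.choose_spec).symm
          have hz2 : ∀ c, (∀ j, c ≠ a.2 j) → z (.inr c) = y (.inl (.inr c)) / d := by
            intro c hc
            change (if hc : ∃ j', c = a.2 j' then y (.inr hc.choose) else _) = _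
            rw [dif_neg (by push Not; exact hc)]
          refine ⟨z, hy, ?_⟩
          have h7 : (fun c => q K z c - y (.inl (.inr c))) = 0 := by
            refine huniq K z hdz' _ (fun k => ?_) fun c hc => ?_
            · simp only [mul_sub, Finset.sum_sub_distrib]
              rw [hqker K z hdz' k, hzl]
              rw [show (∑ c, e (a.1 k, c) K y0 * y (.inl (.inr c))) = 0 from hy2 (a.1 k), sub_zero]
            · simp only [q]
              rw [Finset.sum_eq_zero fun j _ => if_neg (hc j), sub_zero, hdz, hz2 c hc,
                mul_div_cancel₀ _ hd, sub_self]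
          rintro ((i | c) | j)
          · rfl
          · exact sub_eq_zero.1 (congrFun h7 c)
          · exact hz1 j
      have e1 := m.val_split hP hZ
      have e2 := m.val_split (con_ker hP he) (con_res hZ (Sum.inl : ι → ι ⊕ C))
      rw [e1, iter_add, ← h1, ← h2, e2, iter_add]
      congr 2
      · exact m.val_congr fun K _ z => by
          simp only [ker]
          tauto
      · exact m.val_congr fun K _ z => by
          simp only [ker]
          tauto
  have _ : Fintype ((Fin r → R) × (Fin r → C)) := Fintype.ofFinite _
  refine key Finset.univ P hP fun K _ z hz => ⟨hr K z hz, ?_⟩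
  obtain ⟨f, g, h⟩ := (le_rank_iff (Matrix.of fun i c => e (i, c) K z) r).1 (hr K z hz).ge
  exact ⟨(f, g), Finset.mem_univ _, h⟩

lemma good_ker (hS : Saturated L S) {r : ℕ} {P : Cond ι} (hP : IsCon P) {e : R × C → Fun ι}
    (he : ∀ v, IsPoly (e v))
    (hr : ∀ (K : Type) [Field K] (z : ι → K), P K z →
      (Matrix.of fun i c => e (i, c) K z : Matrix R C K).rank = r) :
    Good m S (ker P e) ↔ Good m S P := by
  have h := val_ker m hP he hr
  rw [Good, Good, ← iter_mem hS r (m.val (ker P e)), h, iter_mem hS]
  simp only [hP, con_ker hP he, true_and]

/-- Solutions of a system of rank `r` that are not solutions of a larger system of rank `s`. -/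
lemma good_ker_diff (hS : Saturated L S) {r s : ℕ} (hrs : r < s) {P : Cond ι} (hP : IsCon P)
    {R' : Type} [Finite R'] {e : R × C → Fun ι} {e' : R' × C → Fun ι}
    (he : ∀ v, IsPoly (e v)) (he' : ∀ v, IsPoly (e' v))
    (hr : ∀ (K : Type) [Field K] (z : ι → K), P K z →
      (Matrix.of fun i c => e (i, c) K z : Matrix R C K).rank = r)
    (hs : ∀ (K : Type) [Field K] (z : ι → K), P K z →
      (Matrix.of fun i c => e' (i, c) K z : Matrix R' C K).rank = s)
    (hsub : ∀ (K : Type) [Field K] (z : ι ⊕ C → K), ker P e' K z → ker P e K z) :
    Good m S (fun K _ z => ker P e K z ∧ ¬ ker P e' K z) ↔ Good m S P := by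
  have h1 := val_ker m hP he hr
  have h2 := val_ker m hP he' hs
  have h3 := m.val_split (con_ker hP he) (con_ker hP he')
  have h4 : m.val (fun K _ z => ker P e K z ∧ ker P e' K z) = m.val (ker P e') :=
    m.val_congr fun K _ z => ⟨fun h => h.2, fun h => ⟨hsub K z h, h⟩⟩
  rw [h4] at h3
  have h5 : (⇑L)^[s] (m.val (fun K _ z => ker P e K z ∧ ¬ ker P e' K z)) =
      (⇑L)^[s - r] ((⇑L)^[Nat.card C] (m.val P)) - (⇑L)^[Nat.card C] (m.val P) := by
    have h6 : m.val (fun K _ z => ker P e K z ∧ ¬ ker P e' K z) =
        m.val (ker P e) - m.val (ker P e') := by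
      rw [h3]
      abel
    rw [h6, iter_sub, h2]
    congr 1
    rw [← h1, ← Function.iterate_add_apply]
    congr 2
    omega
  rw [Good, Good, ← iter_mem hS s, h5]
  have hc : IsCon fun K _ z => ker P e K z ∧ ¬ ker P e' K z :=
    con_and (con_ker hP he) (con_not (con_ker hP he'))
  simp only [hP, hc, true_and]
  obtain ⟨k, hk⟩ := Nat.exists_eq_add_of_lt hrs
  have h7 : s - r = k + 1 := by omega
  rw [h7]
  constructor
  · intro h
    exact (iter_mem hS _ _).1 (hS.pow k _ h)
  · intro h
    exact S.sub_mem ((iter_mem hS _ _).2 ((iter_mem hS _ _).2 h)) ((iter_mem hS _ _).2 h)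

end

end Pool.Agent.H504.MC
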