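import Pool.Agent.H504.MC.Two
import Pool.Agent.H504.MC.Families

/-!
# Determinants with two entries in one column
-/

set_option autoImplicit false

namespace Pool.Agent.H504.MC

open Matrix

section field

variable {K ν : Type} [Field K] [Fintype ν] [DecidableEq ν]

lemma det_opt (M : Matrix (Option ν) (Option ν) K) (h : ∀ i, M (some i) none = 0) :
    M.det = M none none * (M.submatrix some some).det := by
  let e : Unit ⊕ ν ≃ Option ν :=
    { toFun := Sum.elim (fun _ => none) some
      invFun := fun o => o.elim (.inl ()) .inr
      left_inv := by rintro (_ | i) <;> rfl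
      right_inv := by rintro (_ | i) <;> rfl }
  have h1 : M.submatrix e e = Matrix.fromBlocks (Matrix.of fun _ _ => M none none)
      (Matrix.of fun _ j => M none (some j)) 0 (M.submatrix some some) := by
    ext (_ | i) (_ | j)
    · rfl
    · rfl
    · exact h i
    · rfl
  rw [← det_submatrix_equiv_self e M, h1, det_fromBlocks_zero₂₁, det_unique]
  rfl

lemma det_split (M : Matrix (Option ν) (Option ν) K) (i₀ : ν) (hy : M none none ≠ 0)
    (h : ∀ i, i ≠ i₀ → M (some i) none = 0) :
    M.det = ((M.submatrix some some).updateRow i₀ fun j =>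
      M none none * M (some i₀) (some j) - M (some i₀) none * M none (some j)).det := by
  let c : K := -(M (some i₀) none) / M none none
  have h1 := det_updateRow_add_smul_self M (i := some i₀) (j := none) (by simp) c
  rw [← h1, det_opt]
  · rw [updateRow_ne (by simp)]
    have h2 : (M.updateRow (some i₀) (M (some i₀) + c • M none)).submatrix some some =
        (M.submatrix some some).updateRow i₀ fun j =>
          M (some i₀) (some j) + c * M none (some j) := by
      ext i j
      by_cases hi : i = i₀
      · subst hi
        simp
      · simp [hi]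
    rw [h2, ← det_updateRow_smul]
    congr 2
    funext j
    simp only [Pi.smul_apply, smul_eq_mul, c]
    field_simp
    ring
  · intro i
    by_cases hi : i = i₀
    · subst hi
      rw [updateRow_self]
      simp only [Pi.add_apply, Pi.smul_apply, smul_eq_mul, c]
      field_simp
      ring
    · rw [updateRow_ne (by simpa using hi)]
      exact h i hi

lemma det_ne_iff {ν' : Type} [Fintype ν'] [DecidableEq ν'] (A : Matrix ν' ν' K) (σ τ : ν ≃ ν') :
    (A.submatrix σ τ).det ≠ 0 ↔ A.det ≠ 0 := by
  rw [← isUnit_iff_ne_zero, ← isUnit_iff_ne_zero, ← isUnit_iff_isUnit_det, ← isUnit_iff_isUnit_det]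
  exact isUnit_submatrix_equiv σ τ

end field

variable {V : Type} [AddCommGroup V] {L : V ≃+ V} {m : Measure V L} {S : AddSubgroup V}

/-- permutations of rows and columns -/
lemma good_inv_perm {ν ν' : Type} [Fintype ν] [DecidableEq ν] [Fintype ν'] [DecidableEq ν']
    (σ τ : ν ≃ ν') {T : ν' × ν' → Prop} (h : Good m S (inv fun v : ν × ν => T (σ v.1, τ v.2))) :
    Good m S (inv T) := by
  refine good_reindex (σ.symm.prodCongr τ.symm) h fun K _ z => ?_
  unfold inv
  refine and_congr ⟨fun h v hv => h (σ.symm v.1, τ.symm v.2) (by simpa using hv),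
    fun h v hv => ?_⟩ ?_
  · have := h (σ v.1, τ v.2) hv
    simpa using this
  · have h1 := det_ne_iff (Matrix.of fun i j => z (σ.symm i, τ.symm j)) σ τ
    have h2 : (Matrix.of fun i j => z (σ.symm i, τ.symm j)).submatrix σ τ =
        Matrix.of fun i j => z (i, j) := by
      ext i j
      simp
    rw [h2] at h1
    exact h1

/-- transposition -/
lemma good_inv_transpose {ν : Type} [Fintype ν] [DecidableEq ν] {T : ν × ν → Prop}
    (h : Good m S (inv fun v : ν × ν => T (v.2, v.1))) : Good m S (inv T) := by
  refine good_reindex (Equiv.prodComm ν ν) h fun K _ z => ?_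
  unfold inv
  refine and_congr ⟨fun h v hv => h (v.2, v.1) hv, fun h v hv => h (v.2, v.1) hv⟩ ?_
  rw [← det_transpose]
  rfl

section one

variable {ν : Type} [Fintype ν] [DecidableEq ν]

/-- a column with only one entry -/
lemma good_one (hS : Saturated L S) {T : Option ν × Option ν → Prop}
    (hT : ∀ i, ¬ T (some i, none)) (h : Good m S (inv fun v : ν × ν => T (some v.1, some v.2))) :
    Good m S (inv T) := by
  classical
  by_cases h0 : T (none, none)
  · have h1 := (good_gms hS Unit h.1).2 h
    have h2 := (good_aff hS {j : ν // T (none, some j)} h1.1).2 h1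
    refine (good_bij (con_inv T) h2.1 (fun v _ _ z => z (v.elim (fun v => v.elim
      (fun v => (some v.1, some v.2)) fun _ => (none, none)) fun j => (none, some j.1)))
      (fun v => isPoly_var _) ?_ ?_ ?_).2 h2
    · rintro K _ z ⟨hz, hd⟩
      have hd' := det_opt (Matrix.of fun i j => z (i, j)) fun i => hz _ (hT i)
      rw [hd', mul_ne_zero_iff] at hd
      exact ⟨⟨fun v hv => hz (some v.1, some v.2) hv, hd.2⟩, fun _ => hd.1⟩
    · rintro K _ z z' ⟨hz, hd⟩ ⟨hz', hd'⟩ heq
      funext v
      rcases v with ⟨_ | i, _ | j⟩
      · exact heq (.inl (.inr ()))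
      · by_cases hj : T (none, some j)
        · exact heq (.inr ⟨j, hj⟩)
        · rw [hz _ hj, hz' _ hj]
      · rw [hz _ (hT i), hz' _ (hT i)]
      · exact heq (.inl (.inl (i, j)))
    · rintro K _ y ⟨⟨hy, hd⟩, hn⟩
      let z : Option ν × Option ν → K := fun v => match v with
        | (none, none) => y (.inl (.inr ()))
        | (none, some j) => if hj : T (none, some j) then y (.inr ⟨j, hj⟩) else 0
        | (some _, none) => 0
        | (some i, some j) => y (.inl (.inl (i, j)))
      refine ⟨z, ⟨?_, ?_⟩, ?_⟩
      · rintro ⟨_ | i, _ | j⟩ hv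
        · exact (hv h0).elim
        · exact dif_neg hv
        · rfl
        · exact hy (i, j) hv
      · rw [det_opt (Matrix.of fun i j => z (i, j)) fun i => rfl]
        exact mul_ne_zero (hn ()) hd
      · rintro ((v | _) | ⟨j, hj⟩)
        · rfl
        · rfl
        · exact dif_pos hj
  · refine good_false fun K _ z hz => hz.2 ?_
    refine det_eq_zero_of_column_eq_zero none fun i => ?_
    rcases i with _ | i
    · exact hz.1 _ h0
    · exact hz.1 _ (hT i)

/-- the pattern after the elimination of a column with two entries -/
def tE (T : Option ν × Option ν → Prop) (i₀ : ν) : ν × ν → Prop := fun v =>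
  if v.1 = i₀ then T (some i₀, some v.2) ∨ T (none, some v.2) else T (some v.1, some v.2)

lemma good_two (hS : Saturated L S) {T : Option ν × Option ν → Prop} {i₀ : ν}
    (h0 : T (none, none)) (h1 : T (some i₀, none)) (hT : ∀ i, i ≠ i₀ → ¬ T (some i, none)) :
    Good m S (fun K _ z => inv T K z ∧ z (none, none) ≠ 0 ∧ z (some i₀, none) ≠ 0) ↔
      Good m S (inv (tE T i₀)) := by
  classical
  have c1 := con_inv (tE T i₀)
  rw [← good_gms hS (Fin 2) c1]
  have c2 := con_and (con_res c1 (Sum.inl : ν × ν → (ν × ν) ⊕ Fin 2))
    (con_forall fun k => con_ne (isPoly_var (.inr k)) isPoly_zero)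
  rw [← good_aff hS {j : ν // T (some i₀, some j) ∧ T (none, some j)} c2]
  refine good_bij (con_and (con_inv T) (con_and (con_ne (isPoly_var _) isPoly_zero)
    (con_ne (isPoly_var _) isPoly_zero))) (con_res c2 _)
    (fun v _ _ z => v.elim (fun v => v.elim (fun v => if v.1 = i₀ then
      z (none, none) * z (some i₀, some v.2) - z (some i₀, none) * z (none, some v.2) else
      z (some v.1, some v.2)) fun k => if k = 0 then z (none, none) else z (some i₀, none))
      fun j => z (none, some j.1)) ?_ ?_ ?_ ?_
  · rintro ((v | k) | j)
    · by_cases hv : v.1 = i₀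
      · simp only [Sum.elim_inl, if_pos hv]
        exact ((isPoly_var _).mul (isPoly_var _)).sub ((isPoly_var _).mul (isPoly_var _))
      · simp only [Sum.elim_inl, if_neg hv]
        exact isPoly_var _
    · by_cases hk : k = 0
      · simp only [Sum.elim_inl, Sum.elim_inr, if_pos hk]
        exact isPoly_var _
      · simp only [Sum.elim_inl, Sum.elim_inr, if_neg hk]
        exact isPoly_var _
    · exact isPoly_var _
  · rintro K _ z ⟨⟨hz, hd⟩, hy, hx⟩
    refine ⟨⟨?_, ?_⟩, ?_⟩
    · rintro ⟨i, j⟩ hv
      by_cases hi : i = i₀
      · subst hi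
        unfold tE at hv
        simp only [if_true, not_or] at hv
        change (if i = i then z (none, none) * z (some i, some j) -
          z (some i, none) * z (none, some j) else z (some i, some j)) = 0
        rw [if_pos rfl, hz _ hv.1, hz _ hv.2]
        ring
      · unfold tE at hv
        simp only [if_neg hi] at hv
        change (if i = i₀ then z (none, none) * z (some i₀, some j) -
          z (some i₀, none) * z (none, some j) else z (some i, some j)) = 0
        rw [if_neg hi]
        exact hz _ hv
    · rw [det_split (Matrix.of fun i j => z (i, j)) i₀ hy fun i hi => hz _ (hT i hi)] at hd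
      convert hd using 2
      ext i j
      by_cases hi : i = i₀
      · subst hi
        simp
      · simp [hi]
    · intro k
      fin_cases k
      · exact hy
      · exact hx
  · rintro K _ z z' ⟨⟨hz, hd⟩, hy, hx⟩ ⟨⟨hz', hd'⟩, hy', hx'⟩ heq
    have ey : z (none, none) = z' (none, none) := heq (.inl (.inr 0))
    have ex : z (some i₀, none) = z' (some i₀, none) := heq (.inl (.inr 1))
    have e1 : ∀ i j, i ≠ i₀ → z (some i, some j) = z' (some i, some j) := by
      intro i j hi
      have := heq (.inl (.inl (i, j)))
      simpa only [Sum.elim_inl, if_neg hi] using this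
    have e2 : ∀ j, z (none, none) * z (some i₀, some j) - z (some i₀, none) * z (none, some j) =
        z' (none, none) * z' (some i₀, some j) - z' (some i₀, none) * z' (none, some j) := by
      intro j
      have := heq (.inl (.inl (i₀, j)))
      simpa only [Sum.elim_inl, if_true] using this
    have e3 : ∀ j, z (none, some j) = z' (none, some j) ∧
        z (some i₀, some j) = z' (some i₀, some j) := by
      intro j
      have e2' := e2 j
      rw [← ey, ← ex] at e2'
      by_cases hj : T (none, some j)
      · by_cases hj' : T (some i₀, some j)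
        · have e4 : z (none, some j) = z' (none, some j) := heq (.inr ⟨j, hj', hj⟩)
          rw [← e4] at e2'
          exact ⟨e4, mul_left_cancel₀ hy (sub_left_injective e2')⟩
        · rw [hz _ hj', hz' _ hj', mul_zero, zero_sub, zero_sub] at e2'
          exact ⟨mul_left_cancel₀ hx (neg_injective e2'), by rw [hz _ hj', hz' _ hj']⟩
      · rw [hz _ hj, hz' _ hj, mul_zero, sub_zero, sub_zero] at e2'
        exact ⟨by rw [hz _ hj, hz' _ hj], mul_left_cancel₀ hy e2'⟩
    funext v
    rcases v with ⟨_ | i, _ | j⟩
    · exact ey
    · exact (e3 j).1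
    · by_cases hi : i = i₀
      · rw [hi]; exact ex
      · rw [hz _ (hT i hi), hz' _ (hT i hi)]
    · by_cases hi : i = i₀
      · rw [hi]; exact (e3 j).2
      · exact e1 i j hi
  · rintro K _ w ⟨⟨hw, hd⟩, hn⟩
    let y : K := w (.inl (.inr 0))
    let x : K := w (.inl (.inr 1))
    have hy : y ≠ 0 := hn 0
    have hx : x ≠ 0 := hn 1
    let B : ν → ν → K := fun i j => w (.inl (.inl (i, j)))
    -- the new row
    let r2 : ν → K := fun j => if hj : T (some i₀, some j) ∧ T (none, some j) then
      w (.inr ⟨j, hj⟩) else if T (none, some j) then - B i₀ j / x else 0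
    let r1 : ν → K := fun j => (B i₀ j + x * r2 j) / y
    have hr1 : ∀ j, y * r1 j - x * r2 j = B i₀ j := by
      intro j
      simp only [r1]
      field_simp
      ring
    have hr2 : ∀ j, ¬ T (none, some j) → r2 j = 0 := by
      intro j hj
      simp only [r2]
      rw [dif_neg fun h => hj h.2, if_neg hj]
    have hr1' : ∀ j, ¬ T (some i₀, some j) → r1 j = 0 := by
      intro j hj
      by_cases hj2 : T (none, some j)
      · have : r2 j = - B i₀ j / x := by
          simp only [r2]
          rw [dif_neg fun h => hj h.1, if_pos hj2]
        simp only [r1]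
        rw [this]
        field_simp
        ring
      · have h3 : B i₀ j = 0 := hw (i₀, j) (by
          unfold tE
          simp [hj, hj2])
        simp only [r1]
        rw [h3, hr2 j hj2]
        simp
    let z : Option ν × Option ν → K := fun v => match v with
      | (none, none) => y
      | (none, some j) => r2 j
      | (some i, none) => if i = i₀ then x else 0
      | (some i, some j) => if i = i₀ then r1 j else B i j
    have zT : ∀ v, ¬ T v → z v = 0 := by
      rintro ⟨_ | i, _ | j⟩ hv
      · exact (hv h0).elim
      · exact hr2 j hv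
      · refine if_neg ?_
        rintro rfl
        exact hv h1
      · by_cases hi : i = i₀
        · subst hi
          exact (if_pos rfl).trans (hr1' j hv)
        · refine (if_neg hi).trans (hw (i, j) ?_)
          unfold tE
          simpa [hi] using hv
    have zx : z (some i₀, none) = x := if_pos rfl
    refine ⟨z, ⟨⟨zT, ?_⟩, hy, ?_⟩, ?_⟩
    · rw [det_split (Matrix.of fun i j => z (i, j)) i₀ hy fun i hi => zT _ (hT i hi)]
      convert hd using 2
      ext i j
      by_cases hi : i = i₀
      · subst hi
        rw [updateRow_self]
        change y * z (some i, some j) - z (some i, none) * r2 j = B i j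
        have h3 : z (some i, some j) = r1 j := if_pos rfl
        rw [zx, h3]
        exact hr1 j
      · rw [updateRow_ne hi]
        exact if_neg hi
    · rw [zx]
      exact hx
    · rintro (((v | k)) | ⟨j, hj⟩)
      · rcases v with ⟨i, j⟩
        by_cases hi : i = i₀
        · subst hi
          simp only [Sum.elim_inl, if_true]
          change y * z (some i, some j) - z (some i, none) * r2 j = B i j
          have h3 : z (some i, some j) = r1 j := if_pos rfl
          rw [zx, h3]
          exact hr1 j
        · simp only [Sum.elim_inl, if_neg hi]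
          exact if_neg hi
      · fin_cases k
        · rfl
        · exact zx
      · exact dif_pos hj

/-- splitting of a row -/
lemma good_split_iff (hS : Saturated L S) {T : Option ν × Option ν → Prop} {i₀ : ν}
    (h0 : T (none, none)) (h1 : T (some i₀, none)) (hT : ∀ i, i ≠ i₀ → ¬ T (some i, none))
    (hx : Good m S (inv fun v => T v ∧ v ≠ (some i₀, none)))
    (hy : Good m S (inv fun v => T v ∧ v ≠ (none, none))) :
    Good m S (inv T) ↔ Good m S (inv (tE T i₀)) := by
  rw [← good_two hS h0 h1 hT]
  have e1 : Good m S fun K _ z => inv T K z ∧ z (some i₀, none) = 0 := hx.congr fun K _ z => by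
    unfold inv
    constructor
    · rintro ⟨h2, h3⟩
      exact ⟨⟨fun v hv => h2 v fun h => hv h.1, h3⟩, h2 _ fun h => h.2 rfl⟩
    · rintro ⟨⟨h2, h3⟩, h4⟩
      refine ⟨fun v hv => ?_, h3⟩
      by_cases hv' : v = (some i₀, none)
      · rw [hv']; exact h4
      · exact h2 v fun h => hv ⟨h, hv'⟩
  have e2 : Good m S fun K _ z => (inv T K z ∧ ¬ z (some i₀, none) = 0) ∧ z (none, none) = 0 :=
    hy.congr fun K _ z => by
      unfold inv
      constructor
      · rintro ⟨h2, h3⟩
        refine ⟨⟨⟨fun v hv => h2 v fun h => hv h.1, h3⟩, fun h4 => h3 ?_⟩, h2 _ fun h => h.2 rfl⟩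
        refine det_eq_zero_of_column_eq_zero none fun i => ?_
        rcases i with _ | i
        · exact h2 _ fun h => h.2 rfl
        · by_cases hi : i = i₀
          · rw [hi]; exact h4
          · exact h2 _ fun h => hT i hi h.1
      · rintro ⟨⟨⟨h2, h3⟩, _⟩, h4⟩
        refine ⟨fun v hv => ?_, h3⟩
        by_cases hv' : v = (none, none)
        · rw [hv']; exact h4
        · exact h2 v fun h => hv ⟨h, hv'⟩
  have cx : IsCon fun K _ (z : Option ν × Option ν → K) => z (some i₀, none) = 0 :=
    con_eq (isPoly_var _) isPoly_zero
  have cy : IsCon fun K _ (z : Option ν × Option ν → K) => z (none, none) = 0 :=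
    con_eq (isPoly_var _) isPoly_zero
  constructor
  · intro h
    exact (Good.diff cy (Good.diff cx h e1) e2).congr fun K _ z => by
      rw [and_assoc, and_comm (a := ¬ z (some i₀, none) = 0)]
  · intro h
    refine Good.glue (con_inv T) cx e1 (Good.glue (con_and (con_inv T) (con_not cx)) cy e2
      (h.congr fun K _ z => ?_))
    rw [and_assoc, and_comm (a := ¬ z (some i₀, none) = 0)]

end one

end Pool.Agent.H504.MC
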