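import Pool.Agent.H504.MC.SymTwo
import Pool.Agent.H504.MC.Split

/-!
# Kirchhoff determinants
-/

set_option autoImplicit false

namespace Pool.Agent.H504.MC

open Matrix

variable {K W : Type} [Field K] [Fintype W] [DecidableEq W]

/-- the Laplace matrix of the weights `z`, with `1` added at the root `w₀` -/
def kirM (w₀ : W) (z : W × W → K) : Matrix W W K := Matrix.of fun i j =>
  (if i = j then ∑ w, z (i, w) else 0) - z (i, j) + if i = w₀ ∧ j = w₀ then 1 else 0

/-- the Kirchhoff determinant -/
def kir (w₀ : W) (z : W × W → K) : K := (kirM w₀ z).det

lemma det_opt_row (M : Matrix (Option W) (Option W) K) (h : ∀ i, M none (some i) = 0) :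
    M.det = M none none * (M.submatrix some some).det := by
  rw [← det_transpose, det_opt Mᵀ h, ← det_transpose (M.submatrix some some)]
  rfl

/-- the matrix after adding the row `none` to the row `some i₀`, and the same for the columns -/
def rc (i₀ : W) (M : Matrix (Option W) (Option W) K) : Matrix (Option W) (Option W) K :=
  Matrix.of fun a b => M a b + (if a = some i₀ then M none b else 0) +
    if b = some i₀ then M a none + (if a = some i₀ then M none none else 0) else 0

lemma det_rc (i₀ : W) (M : Matrix (Option W) (Option W) K) : (rc i₀ M).det = M.det := by
  have h1 := det_updateRow_add_self M (i := some i₀) (j := none) (by simp)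
  have h2 := det_updateCol_add_self (M.updateRow (some i₀) (M (some i₀) + M none))
    (i := some i₀) (j := none) (by simp)
  rw [← h1, ← h2]
  congr 1
  ext a b
  by_cases hb : b = some i₀
  · subst hb
    rw [updateCol_self]
    by_cases ha : a = some i₀
    · subst ha
      simp only [rc, of_apply, if_true, updateRow_self, Pi.add_apply]
    · simp only [rc, of_apply, if_true, if_neg ha, updateRow_ne ha, add_zero]
  · rw [updateCol_ne hb]
    by_cases ha : a = some i₀
    · subst ha
      simp only [rc, of_apply, if_true, if_neg hb, updateRow_self, Pi.add_apply, add_zero]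
    · simp only [rc, of_apply, if_neg hb, if_neg ha, updateRow_ne ha, add_zero]

/-- the weights after the contraction of the edge between `none` and `some i₀` -/
def contr (i₀ : W) (z : Option W × Option W → K) : W × W → K := fun v =>
  z (some v.1, some v.2) + (if v.1 = i₀ ∧ v.2 ≠ i₀ then z (none, some v.2) else 0) +
    (if v.2 = i₀ ∧ v.1 ≠ i₀ then z (some v.1, none) else 0)

/-- the weights after the deletion of the edge between `none` and `some i₀` -/
def dele (i₀ : W) (z : Option W × Option W → K) : Option W × Option W → K := fun v =>
  if v = (none, some i₀) ∨ v = (some i₀, none) then 0 else z v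

lemma kirM_nn (w₀ : W) (z : Option W × Option W → K) :
    kirM (some w₀) z none none = ∑ w, z (none, some w) := by
  simp only [kirM, of_apply, if_true, Fintype.sum_option, reduceCtorEq, false_and, if_false, add_zero]
  ring

lemma kirM_ns (w₀ : W) (z : Option W × Option W → K) (b : W) :
    kirM (some w₀) z none (some b) = - z (none, some b) := by
  simp only [kirM, of_apply, reduceCtorEq, false_and, if_false, add_zero, zero_sub]

lemma kirM_sn (w₀ : W) (z : Option W × Option W → K) (a : W) :
    kirM (some w₀) z (some a) none = - z (some a, none) := by
  simp only [kirM, of_apply, reduceCtorEq, and_false, if_false, add_zero, zero_sub]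

lemma kirM_ss (w₀ : W) (z : Option W × Option W → K) (a b : W) :
    kirM (some w₀) z (some a) (some b) = (if a = b then z (some a, none) +
      ∑ w, z (some a, some w) else 0) - z (some a, some b) + if a = w₀ ∧ b = w₀ then 1 else 0 := by
  simp only [kirM, of_apply, Option.some.injEq, Fintype.sum_option]

lemma dele_ns {i₀ : W} (z : Option W × Option W → K) (b : W) :
    dele i₀ z (none, some b) = if b = i₀ then 0 else z (none, some b) := by
  simp [dele]

lemma dele_sn {i₀ : W} (z : Option W × Option W → K) (b : W) :
    dele i₀ z (some b, none) = if b = i₀ then 0 else z (some b, none) := by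
  simp [dele]

lemma dele_ss {i₀ : W} (z : Option W × Option W → K) (a b : W) :
    dele i₀ z (some a, some b) = z (some a, some b) := by
  simp [dele]

lemma sum_split (i₀ : W) (f : W → K) : ∑ w, f w = f i₀ + ∑ w, (if w = i₀ then 0 else f w) := by
  have : ∀ w, f w = (if w = i₀ then f w else 0) + (if w = i₀ then 0 else f w) := fun w => by
    by_cases h : w = i₀
    · rw [if_pos h, if_pos h, add_zero]
    · rw [if_neg h, if_neg h, zero_add]
  rw [Finset.sum_congr rfl fun w _ => this w, Finset.sum_add_distrib]
  simp

lemma sum_contr {i₀ : W} (z : Option W × Option W → K) (a : W) :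
    ∑ w, contr i₀ z (a, w) = ∑ w, z (some a, some w) + if a = i₀ then
      ∑ w, (if w = i₀ then 0 else z (none, some w)) else z (some a, none) := by
  simp only [contr, Finset.sum_add_distrib]
  rw [add_assoc]
  congr 1
  by_cases h : a = i₀
  · simp [h, ite_not]
  · simp [h]

lemma kir_contr (w₀ i₀ : W) {z : Option W × Option W → K} (hz : ∀ i j, z (i, j) = z (j, i)) :
    kir (some w₀) z = z (none, some i₀) * kir w₀ (contr i₀ z) + kir (some w₀) (dele i₀ z) := by
  have h1 := det_rc i₀ (kirM (some w₀) z)
  have h2 := det_rc i₀ (kirM (some w₀) (dele i₀ z))
  have e1 : z (some i₀, none) = z (none, some i₀) := hz _ _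
  have h3 : rc i₀ (kirM (some w₀) z) = (rc i₀ (kirM (some w₀) (dele i₀ z))).updateRow none
      ((rc i₀ (kirM (some w₀) (dele i₀ z))) none + z (none, some i₀) • Pi.single none 1) := by
    ext a b
    rcases a with _ | a
    · rw [updateRow_self]
      rcases b with _ | b
      · simp only [rc, of_apply, reduceCtorEq, if_false, add_zero, kirM_nn, Pi.add_apply,
          Pi.smul_apply, Pi.single_eq_same, smul_eq_mul, mul_one, dele_ns]
        rw [sum_split i₀ fun w => z (none, some w)]
        ring
      · simp only [rc, of_apply, reduceCtorEq, if_false, add_zero, kirM_nn, kirM_ns, Pi.add_apply,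
          Pi.smul_apply, ne_eq, not_false_eq_true, Pi.single_eq_of_ne, smul_eq_mul, mul_zero,
          dele_ns, Option.some.injEq]
        by_cases hb : b = i₀
        · subst hb
          simp only [if_true]
          rw [sum_split b fun w => z (none, some w)]
          ring
        · simp only [if_neg hb]
    · rw [updateRow_ne (by simp)]
      rcases b with _ | b
      · simp only [rc, of_apply, reduceCtorEq, if_false, add_zero, kirM_nn, kirM_sn, dele_sn,
          dele_ns, Option.some.injEq]
        by_cases ha : a = i₀
        · subst ha
          simp only [if_true]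
          rw [sum_split a fun w => z (none, some w), e1]
          ring
        · simp only [if_neg ha]
      · simp only [rc, of_apply, kirM_nn, kirM_sn, kirM_ns, kirM_ss, dele_sn,
          dele_ns, dele_ss, Option.some.injEq]
        by_cases ha : a = i₀
        · subst ha
          by_cases hb : b = a
          · subst hb
            simp only [if_true]
            rw [sum_split b fun w => z (none, some w), e1]
            ring
          · simp only [if_true, if_neg hb, if_neg (Ne.symm hb)]
        · by_cases hb : b = i₀
          · subst hb
            simp only [if_true, if_neg ha]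
          · simp only [if_neg ha, if_neg hb]
  have h4 : ((rc i₀ (kirM (some w₀) (dele i₀ z))).updateRow none (Pi.single none 1)).det =
      kir w₀ (contr i₀ z) := by
    rw [det_opt_row]
    · rw [updateRow_self, Pi.single_eq_same, one_mul]
      unfold kir
      congr 1
      ext a b
      rw [submatrix_apply, updateRow_ne (by simp)]
      simp only [rc, of_apply, kirM_nn, kirM_sn, kirM_ns, kirM_ss, dele_sn, dele_ns, dele_ss,
        Option.some.injEq]
      change _ = (if a = b then ∑ w, contr i₀ z (a, w) else 0) - contr i₀ z (a, b) +
        if a = w₀ ∧ b = w₀ then 1 else 0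
      rw [sum_contr]
      by_cases ha : a = i₀
      · subst ha
        by_cases hb : b = a
        · subst hb
          simp only [if_true, contr, ne_eq, not_true_eq_false, and_false, if_false]
          ring
        · simp only [if_true, if_neg hb, if_neg (Ne.symm hb), contr, ne_eq, hb, not_false_eq_true,
            and_self, false_and, if_false]
          ring
      · by_cases hb : b = i₀
        · subst hb
          simp only [if_true, if_neg ha, contr, ne_eq, ha, not_false_eq_true, and_self,
            false_and, if_false]
          ring
        · simp only [if_neg ha, if_neg hb, contr, ne_eq, ha, hb, false_and, if_false]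
          ring
    · intro i
      rw [updateRow_self, Pi.single_eq_of_ne (by simp)]
  unfold kir
  rw [← h1, h3, det_updateRow_add, det_updateRow_smul, updateRow_eq_self, h2, h4]
  unfold kir
  ring

/-- a vertex without edges -/
lemma kir_isolated (w₀ : W) {z : Option W × Option W → K} (h : ∀ w, z (none, some w) = 0) :
    kir (some w₀) z = 0 := by
  refine det_eq_zero_of_row_eq_zero none fun b => ?_
  rcases b with _ | b
  · rw [kirM_nn]
    exact Finset.sum_eq_zero fun w _ => h w
  · rw [kirM_ns, h, neg_zero]

end Pool.Agent.H504.MC
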