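import Pool.Agent.H504.MC.ThinFam

/-!
# The L-functions of motives and of constructible sets
-/

set_option autoImplicit false

namespace Pool.Agent.H504.MC

open Polynomial

/-- The Galois representations of the simple motives over `ℚ`, for a choice of primes `ℓ_p ≠ p` and of
embeddings of the fields of `ℓ_p`-adic numbers in `ℂ`: the weights, the characteristic polynomials
`det (1 - Frob_p T)` of the geometric Frobenius on the invariants of inertia of the `ℓ_p`-adic
realisation, and the existence of Galois invariants in the realisations of `M(w / 2)`, `w` the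
weight. -/
structure GaloisData {Sim : Type} (𝓜 : Motives Sim) where
  /-- the weight -/
  wt : Sim → ℤ
  /-- `det (1 - Frob_p T)` -/
  pol : Sim → Nat.Primes → ℂ[X]
  /-- the weight `w` is even and, for every prime `ℓ`, the `ℓ`-adic realisation of `M(w / 2)` has nonzero
  Galois invariants -/
  inv : Sim → Prop
  wt_tw : ∀ n M, wt (𝓜.tw n M) = wt M - 2 * n
  pol_tw : ∀ n M p, pol (𝓜.tw n M) p = (pol M p).comp (C (((p : ℕ) : ℂ) ^ (-n)) * X)
  inv_tw : ∀ n M, inv (𝓜.tw n M) ↔ inv M
  conv : ∀ M, ∃ σ : ℝ, ∀ s : ℂ, σ < s.re →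
    ∃ a ≠ 0, HasProd (fun p : Nat.Primes => ((pol M p).eval (((p : ℕ) : ℂ) ^ (-s)))⁻¹) a

/-- the function has a meromorphic continuation from some right half plane to the plane -/
def Continues (f : ℂ → ℂ) : Prop :=
  ∃ F : ℂ → ℂ, MeromorphicOn F Set.univ ∧ ∃ σ : ℝ, ∀ s : ℂ, σ < s.re → F s = f s

/-- the function has a holomorphic continuation from some right half plane to the plane -/
def ContinuesEntire (f : ℂ → ℂ) : Prop :=
  ∃ F : ℂ → ℂ, Differentiable ℂ F ∧ ∃ σ : ℝ, ∀ s : ℂ, σ < s.re → F s = f s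

/-- equality on some right half plane -/
def EqRight (f g : ℂ → ℂ) : Prop := ∃ σ : ℝ, ∀ s : ℂ, σ < s.re → f s = g s

lemma Continues.congr {f g : ℂ → ℂ} (h : Continues f) (hfg : EqRight f g) : Continues g := by
  obtain ⟨F, h1, σ, h2⟩ := h
  obtain ⟨σ', h3⟩ := hfg
  exact ⟨F, h1, max σ σ', fun s hs => (h2 s ((le_max_left _ _).trans_lt hs)).trans
    (h3 s ((le_max_right _ _).trans_lt hs))⟩

lemma ContinuesEntire.congr {f g : ℂ → ℂ} (h : ContinuesEntire f) (hfg : EqRight f g) :
    ContinuesEntire g := by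
  obtain ⟨F, h1, σ, h2⟩ := h
  obtain ⟨σ', h3⟩ := hfg
  exact ⟨F, h1, max σ σ', fun s hs => (h2 s ((le_max_left _ _).trans_lt hs)).trans
    (h3 s ((le_max_right _ _).trans_lt hs))⟩

lemma continues_one : Continues fun _ => 1 :=
  ⟨fun _ => 1, fun s _ => MeromorphicAt.const 1 s, 0, fun _ _ => rfl⟩

lemma continuesEntire_one : ContinuesEntire fun _ => 1 :=
  ⟨fun _ => 1, differentiable_const 1, 0, fun _ _ => rfl⟩

lemma Continues.mul {f g : ℂ → ℂ} (hf : Continues f) (hg : Continues g) :
    Continues fun s => f s * g s := by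
  obtain ⟨F, h1, σ, h2⟩ := hf
  obtain ⟨G, h3, σ', h4⟩ := hg
  refine ⟨F * G, h1.mul h3, max σ σ', fun s hs => ?_⟩
  rw [Pi.mul_apply, h2 s ((le_max_left _ _).trans_lt hs), h4 s ((le_max_right _ _).trans_lt hs)]

lemma ContinuesEntire.mul {f g : ℂ → ℂ} (hf : ContinuesEntire f) (hg : ContinuesEntire g) :
    ContinuesEntire fun s => f s * g s := by
  obtain ⟨F, h1, σ, h2⟩ := hf
  obtain ⟨G, h3, σ', h4⟩ := hg
  refine ⟨fun s => F s * G s, h1.mul h3, max σ σ', fun s hs => ?_⟩
  beta_reduce
  rw [h2 s ((le_max_left _ _).trans_lt hs), h4 s ((le_max_right _ _).trans_lt hs)]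

lemma Continues.inv {f : ℂ → ℂ} (hf : Continues f) : Continues fun s => (f s)⁻¹ := by
  obtain ⟨F, h1, σ, h2⟩ := hf
  refine ⟨F⁻¹, h1.inv, σ, fun s hs => ?_⟩
  rw [Pi.inv_apply, h2 s hs]

lemma Continues.shift {f : ℂ → ℂ} (hf : Continues f) (n : ℤ) : Continues fun s => f (s + n) := by
  obtain ⟨F, h1, σ, h2⟩ := hf
  refine ⟨fun s => F (s + n), fun s _ => ?_, σ - n, fun s hs => h2 _ ?_⟩
  · have h3 : AnalyticAt ℂ (fun s : ℂ => s + n) s := by fun_prop
    exact MeromorphicAt.comp_analyticAt (f := F) (g := fun s : ℂ => s + n) (h1 (s + n) trivial) h3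
  · rw [Complex.add_re, Complex.intCast_re]
    linarith

lemma ContinuesEntire.shift {f : ℂ → ℂ} (hf : ContinuesEntire f) (n : ℤ) :
    ContinuesEntire fun s => f (s + n) := by
  obtain ⟨F, h1, σ, h2⟩ := hf
  refine ⟨fun s => F (s + n), h1.comp (differentiable_id.add_const _), σ - n, fun s hs => h2 _ ?_⟩
  rw [Complex.add_re, Complex.intCast_re]
  linarith

namespace GaloisData

variable {Sim : Type} {𝓜 : Motives Sim} (D : GaloisData 𝓜)

/-- the L-function `L(M, s)` of a simple motive, for `s` in a right half plane -/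
noncomputable def L (M : Sim) (s : ℂ) : ℂ :=
  ∏' p : Nat.Primes, ((D.pol M p).eval (((p : ℕ) : ℂ) ^ (-s)))⁻¹

/-- the L-function of a sum of simple motives -/
noncomputable def LM (M : Sim →₀ ℕ) (s : ℂ) : ℂ := M.prod fun N k => D.L N s ^ k

/-- the L-function of the part of weight `w` of a virtual motive -/
noncomputable def LW (v : Sim →₀ ℤ) (w : ℤ) (s : ℂ) : ℂ := by
  classical exact v.prod fun N k => if D.wt N = w then D.L N s ^ k else 1

/-- The conjecture for a motive: meromorphic continuation, and holomorphic continuation if it is pure of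
odd weight, or pure of even weight `w` and such that for each of its simple factors `N` the `ℓ`-adic
realisation of `N(w / 2)` has no Galois invariants, for at least one prime `ℓ`. -/
def Conjecture (M : Sim →₀ ℕ) : Prop :=
  Continues (D.LM M) ∧ ∀ w, (∀ N ∈ M.support, D.wt N = w) →
    (Odd w ∨ ∀ N ∈ M.support, ¬ D.inv N) → ContinuesEntire (D.LM M)

/-- the L-functions of all weights have meromorphic continuations -/
def Mero (v : Sim →₀ ℤ) : Prop := ∀ w, Continues (D.LW v w)

lemma L_tw (n : ℤ) (M : Sim) (s : ℂ) : D.L (𝓜.tw n M) s = D.L M (s + n) := by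
  refine tprod_congr fun p => ?_
  have hp : ((p : ℕ) : ℂ) ≠ 0 := Nat.cast_ne_zero.2 p.2.ne_zero
  rw [D.pol_tw, eval_comp, eval_mul, eval_C, eval_X, ← Complex.cpow_intCast, ← Complex.cpow_add _ _ hp]
  congr 3
  push_cast
  ring

lemma ne_zero (M : Sim) : ∃ σ : ℝ, ∀ s : ℂ, σ < s.re → D.L M s ≠ 0 := by
  obtain ⟨σ, h⟩ := D.conv M
  refine ⟨σ, fun s hs => ?_⟩
  obtain ⟨a, ha, h1⟩ := h s hs
  rw [L, h1.tprod_eq]
  exact ha

lemma ne_zero_finset (t : Finset Sim) : ∃ σ : ℝ, ∀ s : ℂ, σ < s.re → ∀ M ∈ t, D.L M s ≠ 0 := by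
  classical
  induction t using Finset.induction_on with
  | empty => exact ⟨0, fun s _ M hM => (Finset.notMem_empty M hM).elim⟩
  | insert N t hN ih =>
    obtain ⟨σ, h⟩ := ih
    obtain ⟨σ', h'⟩ := D.ne_zero N
    refine ⟨max σ σ', fun s hs M hM => ?_⟩
    rcases Finset.mem_insert.1 hM with rfl | hM
    · exact h' s ((le_max_right _ _).trans_lt hs)
    · exact h s ((le_max_left _ _).trans_lt hs) M hM

lemma LW_add (v v' : Sim →₀ ℤ) (w : ℤ) :
    EqRight (fun s => D.LW v w s * D.LW v' w s) (D.LW (v + v') w) := by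
  classical
  obtain ⟨σ, h⟩ := D.ne_zero_finset (v.support ∪ v'.support)
  refine ⟨σ, fun s hs => ?_⟩
  unfold LW
  rw [Finsupp.prod_add_index]
  · intro N _
    simp
  · intro N hN a b
    by_cases hw : D.wt N = w
    · simp only [if_pos hw]
      exact zpow_add₀ (h s hs N hN) a b
    · simp only [if_neg hw, mul_one]

lemma LW_neg (v : Sim →₀ ℤ) (w : ℤ) (s : ℂ) : D.LW (-v) w s = (D.LW v w s)⁻¹ := by
  classical
  unfold LW
  rw [Finsupp.prod_neg_index]
  · rw [Finsupp.prod, Finsupp.prod, ← Finset.prod_inv_distrib]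
    refine Finset.prod_congr rfl fun N _ => ?_
    by_cases hw : D.wt N = w
    · rw [if_pos hw, if_pos hw, zpow_neg]
    · rw [if_neg hw, if_neg hw, inv_one]
  · intro N
    simp

lemma LW_lef (v : Sim →₀ ℤ) (w : ℤ) (s : ℂ) :
    D.LW (lef 𝓜.tw v) w s = D.LW v (w - 2) (s + (-1 : ℤ)) := by
  classical
  unfold LW lef
  rw [Finsupp.domCongr_apply, Finsupp.prod_equivMapDomain]
  refine Finsupp.prod_congr fun N _ => ?_
  rw [D.wt_tw, D.L_tw]
  by_cases hw : D.wt N = w - 2
  · rw [if_pos hw, if_pos (by omega)]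
  · rw [if_neg hw, if_neg (by omega)]

/-- the virtual motives whose L-functions of all weights have meromorphic continuations -/
def meroGroup : AddSubgroup (Sim →₀ ℤ) where
  carrier := {v | D.Mero v}
  zero_mem' := fun w => continues_one.congr ⟨0, fun s _ => by
    unfold LW
    rw [Finsupp.prod_zero_index]⟩
  add_mem' := fun h h' w => ((h w).mul (h' w)).congr (D.LW_add _ _ w)
  neg_mem' := fun h w => (h w).inv.congr ⟨0, fun s _ => (D.LW_neg _ w s).symm⟩

lemma mero_lef (v : Sim →₀ ℤ) (w : ℤ) :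
    Continues (D.LW (lef 𝓜.tw v) w) ↔ Continues (D.LW v (w - 2)) := by
  have h : D.LW (lef 𝓜.tw v) w = fun s => D.LW v (w - 2) (s + (-1 : ℤ)) :=
    funext fun s => D.LW_lef v w s
  rw [h]
  constructor
  · intro h1
    refine (h1.shift 1).congr ⟨0, fun s _ => ?_⟩
    push_cast
    ring_nf
  · exact fun h1 => h1.shift (-1)

lemma mero_iter (k : ℕ) (v : Sim →₀ ℤ) (w : ℤ) :
    Continues (D.LW ((⇑(lef 𝓜.tw))^[k] v) w) ↔ Continues (D.LW v (w - 2 * k)) := by
  induction k generalizing w with
  | zero => simp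
  | succ k ih =>
    rw [Function.iterate_succ_apply', mero_lef, ih]
    have : w - 2 - 2 * (k : ℤ) = w - 2 * ((k + 1 : ℕ) : ℤ) := by
      push_cast
      ring
    rw [this]

lemma saturated_mero : Saturated (lef 𝓜.tw) D.meroGroup where
  line := fun v => by
    constructor
    · intro h w
      have := (D.mero_lef v (w + 2)).1 (h (w + 2))
      rwa [add_sub_cancel_right] at this
    · exact fun h w => (D.mero_lef v w).2 (h _)
  pow := fun k v hv => by
    classical
    obtain ⟨B, hB⟩ : ∃ B : ℤ, ∀ N ∈ v.support, B ≤ D.wt N := by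
      refine ⟨-∑ N ∈ v.support, |D.wt N|, fun N hN => ?_⟩
      have h1 : |D.wt N| ≤ ∑ N ∈ v.support, |D.wt N| :=
        Finset.single_le_sum (f := fun N => |D.wt N|) (fun _ _ => abs_nonneg _) hN
      have h2 := neg_abs_le (D.wt N)
      linarith
    have key : ∀ n : ℕ, ∀ w : ℤ, w < B + n → Continues (D.LW v w) := by
      intro n
      induction n with
      | zero =>
        intro w hw
        refine continues_one.congr ⟨0, fun s _ => ?_⟩
        unfold LW
        refine (Finset.prod_eq_one fun N hN => if_neg fun h => ?_).symm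
        have := hB N hN
        simp only [Nat.cast_zero, add_zero] at hw
        omega
      | succ n ih =>
        intro w hw
        have h1 := hv w
        have h2 := (D.mero_iter (k + 1) v w).2 (ih _ (by push_cast at hw ⊢; omega))
        have h3 := h2.mul h1.inv
        refine h3.congr ?_
        have h4 := D.LW_add ((⇑(lef 𝓜.tw))^[k + 1] v)
          (-((⇑(lef 𝓜.tw))^[k + 1] v - v)) w
        obtain ⟨σ, h5⟩ := h4
        refine ⟨σ, fun s hs => ?_⟩
        have h6 := h5 s hs
        beta_reduce at h6 ⊢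
        rw [D.LW_neg] at h6
        rw [h6]
        congr 1
        abel
    intro w
    exact key (w - B + 1).toNat w (by
      have := Int.self_le_toNat (w - B + 1)
      omega)

/-- Meromorphic continuation of the L-functions of all weights, for a generating family. -/
theorem mero_iff {F : ∀ ι : Type, Cond ι → Prop} (hF : Generates F) :
    (∀ (ι : Type) [Finite ι] (φ : Form ι), D.Mero (𝓜.h.μ ι φ)) ↔
      ∀ (ι : Type) [Finite ι] (φ : Form ι) (X : Cond ι), F ι X → Rep φ X → D.Mero (𝓜.h.μ ι φ) :=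
  ⟨fun h ι _ φ _ _ _ => h ι φ, fun h => hF _ _ 𝓜.h D.meroGroup D.saturated_mero h⟩

lemma LM_add (M N : Sim →₀ ℕ) (s : ℂ) : D.LM (M + N) s = D.LM M s * D.LM N s := by
  classical
  unfold LM
  rw [Finsupp.prod_add_index]
  · intro N _
    simp
  · intro N _ a b
    exact pow_add _ a b

lemma LM_single (M : Sim) : D.LM (Finsupp.single M 1) = D.L M := by
  funext s
  unfold LM
  rw [Finsupp.prod_single_index, pow_one]
  exact pow_zero _

lemma conjecture_zero : D.Conjecture 0 := by
  have h : D.LM 0 = fun _ => 1 := funext fun s => Finsupp.prod_zero_index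
  exact ⟨by rw [h]; exact continues_one, fun _ _ _ => by rw [h]; exact continuesEntire_one⟩

lemma conjecture_add (M N : Sim →₀ ℕ) (hM : D.Conjecture M) (hN : D.Conjecture N) :
    D.Conjecture (M + N) := by
  classical
  have h : D.LM (M + N) = fun s => D.LM M s * D.LM N s := funext fun s => D.LM_add M N s
  have h1 : ∀ Q, Q ∈ M.support → Q ∈ (M + N).support := fun Q hQ => by
    rw [Finsupp.mem_support_iff] at hQ ⊢
    rw [Finsupp.add_apply]
    omega
  have h2 : ∀ Q, Q ∈ N.support → Q ∈ (M + N).support := fun Q hQ => by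
    rw [Finsupp.mem_support_iff] at hQ ⊢
    rw [Finsupp.add_apply]
    omega
  refine ⟨by rw [h]; exact hM.1.mul hN.1, fun w hw hw' => ?_⟩
  rw [h]
  exact (hM.2 w (fun Q hQ => hw Q (h1 Q hQ)) (hw'.imp_right fun h Q hQ => h Q (h1 Q hQ))).mul
    (hN.2 w (fun Q hQ => hw Q (h2 Q hQ)) (hw'.imp_right fun h Q hQ => h Q (h2 Q hQ)))

lemma conjecture_tw (n : ℤ) (M : Sim) (h : D.Conjecture (Finsupp.single M 1)) :
    D.Conjecture (Finsupp.single (𝓜.tw n M) 1) := by
  classical
  have h1 : D.LM (Finsupp.single (𝓜.tw n M) 1) = fun s => D.LM (Finsupp.single M 1) (s + n) := by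
    funext s
    rw [D.LM_single, D.LM_single, D.L_tw]
  rw [Conjecture, h1]
  refine ⟨h.1.shift n, fun w hw hw' => (h.2 (w + 2 * n) (fun N hN => ?_) ?_).shift n⟩
  · have hN' : N = M := by
      rw [Finsupp.mem_support_iff, Finsupp.single_apply] at hN
      by_contra h0
      exact hN (if_neg fun h => h0 h.symm)
    have h2 := hw (𝓜.tw n M) (by simp)
    rw [D.wt_tw] at h2
    rw [hN']
    omega
  · rcases hw' with hw' | hw'
    · left
      rw [Int.odd_add]
      exact ⟨fun _ => ⟨n, by ring⟩, fun _ => hw'⟩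
    · right
      intro N hN
      have hN' : N = M := by
        rw [Finsupp.mem_support_iff, Finsupp.single_apply] at hN
        by_contra h0
        exact hN (if_neg fun h => h0 h.symm)
      rw [hN', ← D.inv_tw n]
      exact hw' _ (by simp)

/-- The conjecture for all motives, for a generating family. -/
theorem conjecture_iff {F : ∀ ι : Type, Cond ι → Prop} (hF : Generates F) :
    (∀ M, D.Conjecture M) ↔
      ∀ (ι : Type) [Finite ι] (φ : Form ι) (X : Cond ι), F ι X → Rep φ X →
        ∀ M : Sim, 𝓜.h.μ ι φ M ≠ 0 → D.Conjecture (Finsupp.single M 1) := by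
  rw [forall_iff hF 𝓜 D.Conjecture D.conjecture_zero D.conjecture_add]
  constructor
  · intro h ι _ φ X hX hφ M hM
    have := h ι φ X hX hφ M hM 0
    rwa [𝓜.tw_zero] at this
  · intro h ι _ φ X hX hφ M hM n
    exact D.conjecture_tw n M (h ι φ X hX hφ M hM)

end GaloisData

end Pool.Agent.H504.MC
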