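import Pool.Agent.H504.MC.Plane

/-!
# Ranks and minors
-/

set_option autoImplicit false

namespace Pool.Agent.H504.MC

open Matrix Module

section field

variable {K : Type} [Field K]

lemma exists_independent {ι W : Type} [Finite ι] [AddCommGroup W] [Module K W] (v : ι → W) {k : ℕ}
    (hk : k ≤ finrank K (Submodule.span K (Set.range v))) :
    ∃ f : Fin k → ι, LinearIndependent K fun i => v (f i) := by
  have : Module.Finite K (Submodule.span K (Set.range v)) :=
    Module.Finite.span_of_finite K (Set.finite_range v)
  obtain ⟨f, hf, hs, hl⟩ := Submodule.exists_fun_fin_finrank_span_eq K (Set.range v)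
  choose g hg using hf
  refine ⟨fun i => g (Fin.castLE hk i), ?_⟩
  have h1 : (fun i => v (g (Fin.castLE hk i))) = f ∘ Fin.castLE hk := by
    funext i
    exact hg _
  rw [h1]
  exact hl.comp _ (Fin.castLE_injective hk)

lemma le_rank_iff {R C : Type} [Finite R] [Fintype C] (A : Matrix R C K) (k : ℕ) :
    k ≤ A.rank ↔ ∃ (f : Fin k → R) (g : Fin k → C), (A.submatrix f g).det ≠ 0 := by
  constructor
  · intro h
    rw [rank_eq_finrank_span_row] at h
    obtain ⟨f, hf⟩ := exists_independent _ h
    have h2 : LinearIndependent K (A.submatrix f id).row := hf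
    have h3 := h2.rank_matrix
    rw [Fintype.card_fin, rank_eq_finrank_span_cols] at h3
    obtain ⟨g, hg⟩ := exists_independent _ h3.ge
    refine ⟨f, g, ?_⟩
    have h4 : LinearIndependent K (A.submatrix f g).col := hg
    rw [linearIndependent_cols_iff_isUnit, isUnit_iff_isUnit_det, isUnit_iff_ne_zero] at h4
    exact h4
  · rintro ⟨f, g, h⟩
    have h1 := rank_of_det_ne_zero h
    rw [Fintype.card_fin] at h1
    rw [← h1]
    exact rank_submatrix_le _ _ _

lemma det_eq_zero_of_rank_lt {R C n : Type} [Finite R] [Fintype C] [Fintype n] [DecidableEq n]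
    (A : Matrix R C K) (f : n → R) (g : n → C) (h : A.rank < Fintype.card n) :
    (A.submatrix f g).det = 0 := by
  by_contra h0
  have h1 := rank_of_det_ne_zero h0
  have h2 := rank_submatrix_le A f g
  rw [h1] at h2
  exact absurd h2 (not_le.2 h)

end field

lemma con_le_rank {ι R C : Type} [Finite R] [Fintype C] (e : R × C → Fun ι)
    (he : ∀ v, IsPoly (e v)) (k : ℕ) :
    IsCon fun K _ z => k ≤ (Matrix.of fun i j => e (i, j) K z).rank := by
  refine con_congr (con_exists fun f : Fin k → R => con_exists fun g : Fin k → C =>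
    con_ne (isPoly_det fun i j => he (f i, g j)) isPoly_zero) fun K _ z => ?_
  rw [le_rank_iff]
  rfl

lemma con_rank {ι R C : Type} [Finite R] [Fintype C] (e : R × C → Fun ι)
    (he : ∀ v, IsPoly (e v)) (k : ℕ) :
    IsCon fun K _ z => (Matrix.of fun i j => e (i, j) K z).rank = k :=
  con_congr (con_and (con_le_rank e he k) (con_not (con_le_rank e he (k + 1)))) fun K _ z => by
    rw [Nat.not_le, Nat.lt_succ_iff, and_comm]
    exact le_antisymm_iff.symm

end Pool.Agent.H504.MC
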