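import Pool.Agent.H504.MC.ThinFam

/-!
# Nilpotent matrices with prescribed zeros
-/

set_option autoImplicit false

namespace Pool.Agent.H504.MC

open Matrix

/-- the `n × n` matrices `A` with `A ^ e = 0` whose entries outside `T` are zero -/
def nilpotentLocus {n : ℕ} (T : Set (Fin n × Fin n)) (e : ℕ) : Cond (Fin n × Fin n) := fun _ _ z =>
  (∀ v ∉ T, z v = 0) ∧ (Matrix.of fun i j => z (i, j)) ^ e = 0

/-- sparse strictly upper triangular matrices `A` with `A ^ e = 0` -/
inductive NilpotentFamily (e : ℕ) : ∀ ι : Type, Cond ι → Prop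
  | mk (n : ℕ) (T : Set (Fin n × Fin n)) (h : ∀ v ∈ T, v.1 < v.2) :
      NilpotentFamily e (Fin n × Fin n) (nilpotentLocus T e)

variable {V : Type} [AddCommGroup V] {L : V ≃+ V} {m : Measure V L} {S : AddSubgroup V}

lemma isPoly_mpow {ν ι : Type} [Fintype ν] [DecidableEq ν] {f : ν → ν → Fun ι}
    (hf : ∀ i j, IsPoly (f i j)) (e : ℕ) (i j : ν) :
    IsPoly fun K _ x => ((Matrix.of fun i j => f i j K x) ^ e) i j := by
  induction e generalizing j with
  | zero =>
    simp only [pow_zero, Matrix.one_apply]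
    by_cases h : i = j
    · simp only [if_pos h]; exact isPoly_one
    · simp only [if_neg h]; exact isPoly_zero
  | succ e ih =>
    simp only [pow_succ, Matrix.mul_apply]
    exact isPoly_sum Finset.univ fun k => (ih k).mul (hf k j)

lemma con_mpow {ν ι : Type} [Fintype ν] [DecidableEq ν] {f : ν → ν → Fun ι}
    (hf : ∀ i j, IsPoly (f i j)) (e : ℕ) :
    IsCon fun K _ x => (Matrix.of fun i j => f i j K x) ^ e = 0 :=
  con_congr (con_forall fun i => con_forall fun j => con_eq (isPoly_mpow hf e i j) isPoly_zero)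
    fun K _ x => by
      rw [← Matrix.ext_iff]
      rfl

lemma con_nilpotent {n : ℕ} (T : Set (Fin n × Fin n)) (e : ℕ) : IsCon (nilpotentLocus T e) :=
  con_and (con_zeros fun v => v ∈ T) (con_mpow (fun i j => isPoly_var (i, j)) e)

/-- a sparse matrix `A` with `A ^ (e + 1) = 0` and a sparse vector `d` such that the column `j` of
`A ^ e` is zero if `d j ≠ 0` or `j ∈ G` -/
def mixNil {ν : Type} [Fintype ν] [DecidableEq ν] (T : ν × ν → Prop) (e : ℕ) (F G : ν → Prop) :
    Cond ((ν × ν) ⊕ ν) := fun _ _ z =>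
  ((∀ v, ¬ T v → z (.inl v) = 0) ∧ ∀ j, ¬ F j → z (.inr j) = 0) ∧
    (Matrix.of fun i j => z (.inl (i, j))) ^ (e + 1) = 0 ∧
    ∀ i j, ((Matrix.of fun i j => z (.inl (i, j))) ^ e) i j * z (.inr j) = 0 ∧
      (G j → ((Matrix.of fun i j => z (.inl (i, j))) ^ e) i j = 0)

lemma con_mixNil {ν : Type} [Fintype ν] [DecidableEq ν] (T : ν × ν → Prop) (e : ℕ)
    (F G : ν → Prop) : IsCon (mixNil T e F G) := by
  have h : ∀ i j, IsPoly fun K _ (z : (ν × ν) ⊕ ν → K) =>
      ((Matrix.of fun i j => z (.inl (i, j))) ^ e) i j :=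
    isPoly_mpow (f := fun i j _ _ z => z (Sum.inl (i, j))) (fun i j => isPoly_var (Sum.inl (i, j))) e
  refine con_and (con_and (con_forall fun v => con_imp (con_const _)
    (con_eq (isPoly_var _) isPoly_zero)) (con_forall fun v => con_imp (con_const _)
    (con_eq (isPoly_var _) isPoly_zero))) (con_and (con_mpow (fun i j => isPoly_var _) _)
    (con_forall fun i => con_forall fun j => con_and (con_eq ((h i j).mul (isPoly_var _))
      isPoly_zero) (con_imp (con_const _) (con_eq (h i j) isPoly_zero))))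

lemma good_mixNil_step (hS : Saturated L S) {ν : Type} [Fintype ν] [DecidableEq ν]
    {T : ν × ν → Prop} {e : ℕ} {F G : ν → Prop} {j₀ : ν} (hj : ¬ F j₀)
    (h1 : Good m S (mixNil T e (fun j => F j ∨ j = j₀) G)) (h2 : Good m S (mixNil T e F G)) :
    Good m S (mixNil T e F fun j => G j ∨ j = j₀) := by
  have hc := con_mixNil T e F fun j => G j ∨ j = j₀
  rw [← good_gm hS hc]
  have h3 : Good m S fun K _ z => mixNil T e (fun j => F j ∨ j = j₀) G K z ∧ ¬ z (.inr j₀) = 0 := by
    refine Good.diff (con_eq (isPoly_var _) isPoly_zero) h1 (h2.congr fun K _ z => ?_)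
    constructor
    · rintro ⟨⟨hz, hF⟩, hr⟩
      exact ⟨⟨⟨hz, fun j h => hF j fun h' => h (.inl h')⟩, hr⟩, hF j₀ hj⟩
    · rintro ⟨⟨⟨hz, hF⟩, hr⟩, h0⟩
      refine ⟨⟨hz, fun j h => ?_⟩, hr⟩
      by_cases h' : j = j₀
      · rw [h']; exact h0
      · exact hF j fun h'' => h''.elim h h'
  refine (good_bij h3.1 (con_and (con_res hc _) (con_ne (isPoly_var _) isPoly_zero))
    (fun v K _ z => match v with
      | none => z (.inr j₀)
      | some (.inl v) => z (.inl v)
      | some (.inr j) => if j = j₀ then 0 else z (.inr j)) ?_ ?_ ?_ ?_).1 h3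
  · rintro (_ | (v | j))
    · exact isPoly_var _
    · exact isPoly_var _
    · by_cases h : j = j₀
      · simp only [if_pos h]; exact isPoly_zero
      · simp only [if_neg h]; exact isPoly_var _
  · rintro K _ z ⟨⟨⟨hz, hF⟩, hp, hr⟩, hn⟩
    refine ⟨⟨⟨hz, fun j h => ?_⟩, hp, fun i j => ⟨?_, ?_⟩⟩, hn⟩
    · change (if j = j₀ then 0 else z (.inr j)) = 0
      by_cases h' : j = j₀
      · rw [if_pos h']
      · rw [if_neg h']
        exact hF j fun h'' => h''.elim h h'
    · change _ * (if j = j₀ then 0 else z (.inr j)) = 0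
      by_cases h' : j = j₀
      · rw [if_pos h', mul_zero]
      · rw [if_neg h']
        exact (hr i j).1
    · rintro (h | rfl)
      · exact (hr i j).2 h
      · exact (mul_eq_zero.1 (hr i j).1).resolve_right hn
  · rintro K _ z z' ⟨⟨⟨hz, hF⟩, hp, hr⟩, hn⟩ ⟨⟨⟨hz', hF'⟩, hp', hr'⟩, hn'⟩ heq
    funext v
    rcases v with v | j
    · exact heq (some (.inl v))
    · by_cases h : j = j₀
      · rw [h]; exact heq none
      · have := heq (some (.inr j))
        simp only [if_neg h] at this
        exact this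
  · rintro K _ y ⟨⟨⟨hy, hF⟩, hp, hr⟩, hn⟩
    refine ⟨fun v => match v with
      | .inl v => y (some (.inl v))
      | .inr j => if j = j₀ then y none else y (some (.inr j)), ⟨⟨⟨hy, fun j h => ?_⟩, hp,
        fun i j => ⟨?_, fun h => (hr i j).2 (.inl h)⟩⟩, ?_⟩, ?_⟩
    · change (if j = j₀ then y none else y (some (.inr j))) = 0
      rw [if_neg fun h' => h (.inr h')]
      exact hF j fun h' => h (.inl h')
    · change _ * (if j = j₀ then y none else y (some (.inr j))) = 0
      by_cases h' : j = j₀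
      · have := (hr i j).2 (.inr h')
        exact mul_eq_zero_of_left this _
      · rw [if_neg h']
        exact (hr i j).1
    · change ¬ (if j₀ = j₀ then y none else y (some (.inr j₀))) = 0
      rw [if_pos rfl]
      exact hn
    · rintro (_ | (v | j))
      · exact if_pos rfl
      · rfl
      · change (if j = j₀ then 0 else if j = j₀ then y none else y (some (.inr j))) = _
        by_cases h : j = j₀
        · rw [if_pos h, h]
          exact (hF j₀ hj).symm
        · rw [if_neg h, if_neg h]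

lemma good_mixNil (hS : Saturated L S) {ν : Type} [Fintype ν] [DecidableEq ν]
    {T : ν × ν → Prop} {e : ℕ} (h : ∀ F : ν → Prop, Good m S (mixNil T e F fun _ => False))
    (s : Finset ν) : ∀ F : ν → Prop, (∀ j ∈ s, ¬ F j) → Good m S (mixNil T e F fun j => j ∈ s) := by
  induction s using Finset.induction_on with
  | empty =>
    intro F _
    have := h F
    have e1 : (fun j : ν => j ∈ (∅ : Finset ν)) = fun _ => False := by
      funext j
      simp
    rwa [e1]
  | insert j₀ s hj ih =>
    intro F hF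
    have h1 := good_mixNil_step hS (m := m) (T := T) (e := e) (G := fun j => j ∈ s)
      (hF j₀ (Finset.mem_insert_self _ _))
      (ih (fun j => F j ∨ j = j₀) fun j hjs h' => h'.elim (hF j (Finset.mem_insert_of_mem hjs))
        fun h'' => hj (h'' ▸ hjs)) (ih F fun j hjs => hF j (Finset.mem_insert_of_mem hjs))
    have e1 : (fun j : ν => j ∈ insert j₀ s) = fun j => j ∈ s ∨ j = j₀ := by
      funext j
      rw [Finset.mem_insert, or_comm]
    rwa [e1]

lemma fromBlocks_pow {ν K : Type} [Fintype ν] [DecidableEq ν] [Field K] (A D : Matrix ν ν K)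
    (e : ℕ) : (fromBlocks A D 0 0 : Matrix (ν ⊕ ν) (ν ⊕ ν) K) ^ (e + 1) =
      fromBlocks (A ^ (e + 1)) (A ^ e * D) 0 0 := by
  induction e with
  | zero => simp
  | succ e ih =>
    rw [pow_succ, ih, fromBlocks_multiply]
    simp [pow_succ]

/-- the positions of a matrix `A` and a diagonal matrix in a matrix with two blocks -/
def tD {ν : Type} (T : ν × ν → Prop) (F : ν → Prop) : (ν ⊕ ν) × (ν ⊕ ν) → Prop
  | (.inl i, .inl j) => T (i, j)
  | (.inl i, .inr j) => i = j ∧ F j
  | _ => False

/-- sparse matrices with `A ^ e = 0` -/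
def nilp {ν : Type} [Fintype ν] [DecidableEq ν] (T : ν × ν → Prop) (e : ℕ) : Cond (ν × ν) :=
  fun _ _ z => (∀ v, ¬ T v → z v = 0) ∧ (Matrix.of fun i j => z (i, j)) ^ e = 0

lemma con_nilp {ν : Type} [Fintype ν] [DecidableEq ν] (T : ν × ν → Prop) (e : ℕ) :
    IsCon (nilp T e) :=
  con_and (con_zeros T) (con_mpow (fun i j => isPoly_var (i, j)) e)

lemma good_nilp_mix {ν : Type} [Fintype ν] [DecidableEq ν] {T : ν × ν → Prop} {e : ℕ}
    {F : ν → Prop} (h : Good m S (nilp (tD T F) (e + 1))) :
    Good m S (mixNil T e F fun _ => False) := by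
  refine (good_bij h.1 (con_mixNil _ _ _ _) (fun v _ _ z => z (match v with
    | .inl (i, j) => (.inl i, .inl j)
    | .inr j => (.inl j, .inr j))) (fun v => isPoly_var _) ?_ ?_ ?_).1 h
  · rintro K _ z ⟨hz, hr⟩
    have hB : (Matrix.of fun i j => z (i, j)) = fromBlocks (Matrix.of fun i j => z (.inl i, .inl j))
        (diagonal fun j => z (.inl j, .inr j)) 0 0 := by
      ext i j
      rcases i with i | i <;> rcases j with j | j
      · rfl
      · by_cases hij : i = j
        · subst hij
          simp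
        · rw [fromBlocks_apply₁₂, diagonal_apply_ne _ hij]
          exact hz (.inl i, .inr j) fun h => hij h.1
      · exact hz (.inr i, .inl j) fun h => h
      · exact hz (.inr i, .inr j) fun h => h
    rw [hB, fromBlocks_pow, ← fromBlocks_zero, fromBlocks_inj] at hr
    refine ⟨⟨fun v hv => hz (.inl v.1, .inl v.2) hv, fun j hj => hz (.inl j, .inr j) fun h => hj h.2⟩,
      hr.1, fun i j => ⟨?_, fun h => h.elim⟩⟩
    have h1 := congrFun (congrFun hr.2.1 i) j
    rw [mul_diagonal] at h1
    exact h1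
  · rintro K _ z z' ⟨hz, hr⟩ ⟨hz', hr'⟩ heq
    funext v
    rcases v with ⟨i | i, j | j⟩
    · exact heq (.inl (i, j))
    · by_cases hij : i = j
      · subst hij
        exact heq (.inr i)
      · rw [hz (.inl i, .inr j) fun h => hij h.1, hz' (.inl i, .inr j) fun h => hij h.1]
    · rw [hz (.inr i, .inl j) fun h => h, hz' (.inr i, .inl j) fun h => h]
    · rw [hz (.inr i, .inr j) fun h => h, hz' (.inr i, .inr j) fun h => h]
  · rintro K _ y ⟨⟨hy, hF⟩, hp, hr⟩
    let B : Matrix (ν ⊕ ν) (ν ⊕ ν) K := fromBlocks (Matrix.of fun i j => y (.inl (i, j)))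
      (diagonal fun j => y (.inr j)) 0 0
    refine ⟨fun v => B v.1 v.2, ⟨?_, ?_⟩, ?_⟩
    · intro v hv
      rcases v with ⟨i | i, j | j⟩
      · exact hy (i, j) hv
      · change diagonal (fun j => y (.inr j)) i j = 0
        by_cases hij : i = j
        · subst hij
          rw [diagonal_apply_eq]
          exact hF i fun h => hv ⟨rfl, h⟩
        · rw [diagonal_apply_ne _ hij]
      · rfl
      · rfl
    · have hB : (Matrix.of fun i j => B (i, j).1 (i, j).2) = B := rfl
      rw [hB]
      rw [fromBlocks_pow, hp, ← fromBlocks_zero, fromBlocks_inj]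
      refine ⟨rfl, ?_, rfl, rfl⟩
      ext i j
      rw [mul_diagonal]
      exact (hr i j).1
    · rintro (⟨i, j⟩ | j)
      · rfl
      · change diagonal (fun j => y (.inr j)) j j = y (.inr j)
        exact diagonal_apply_eq _ _

lemma good_nilp_of_mix {ν : Type} [Fintype ν] [DecidableEq ν] {T : ν × ν → Prop} {e : ℕ}
    (h : Good m S (mixNil T e (fun _ => False) fun _ => True)) : Good m S (nilp T e) := by
  refine (good_bij h.1 (con_nilp _ _) (fun v _ _ z => z (.inl v)) (fun v => isPoly_var _) ?_ ?_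
    ?_).1 h
  · rintro K _ z ⟨⟨hz, hF⟩, hp, hr⟩
    refine ⟨hz, ?_⟩
    ext i j
    exact (hr i j).2 trivial
  · rintro K _ z z' ⟨⟨hz, hF⟩, hp, hr⟩ ⟨⟨hz', hF'⟩, hp', hr'⟩ heq
    funext v
    rcases v with v | j
    · exact heq v
    · rw [hF j fun h => h, hF' j fun h => h]
  · rintro K _ y ⟨hy, hr⟩
    refine ⟨fun v => v.elim y fun _ => 0, ⟨⟨hy, fun j _ => rfl⟩, ?_, fun i j => ⟨mul_zero _, fun _ => ?_⟩⟩,
      fun v => rfl⟩
    · change (Matrix.of fun i j => y (i, j)) ^ (e + 1) = 0
      rw [pow_succ, hr, zero_mul]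
    · change ((Matrix.of fun i j => y (i, j)) ^ e) i j = 0
      rw [hr]
      rfl

/-- from `A ^ (e + 1) = 0` to `A ^ e = 0` -/
lemma good_nilp_step (hS : Saturated L S) {ν : Type} [Fintype ν] [DecidableEq ν]
    {T : ν × ν → Prop} {e : ℕ} (h : ∀ F : ν → Prop, Good m S (nilp (tD T F) (e + 1))) :
    Good m S (nilp T e) := by
  refine good_nilp_of_mix ?_
  have h1 := good_mixNil hS (fun F => good_nilp_mix (h F)) Finset.univ (fun _ => False)
    fun j _ h => h
  have e1 : (fun j : ν => j ∈ (Finset.univ : Finset ν)) = fun _ => True := by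
    funext j
    simp
  rwa [e1] at h1

lemma nilp_reindex {ν μ K : Type} [Fintype ν] [DecidableEq ν] [Fintype μ] [DecidableEq μ] [Field K]
    (f : ν ≃ μ) (z : μ × μ → K) (e : ℕ) : (Matrix.of fun i j => z (i, j)) ^ e = 0 ↔
      (Matrix.of fun i j => z (f i, f j)) ^ e = 0 := by
  have h1 : (Matrix.of fun i j => z (f i, f j)) =
      Matrix.reindexAlgEquiv ℤ K f.symm (Matrix.of fun i j => z (i, j)) := by
    ext i j
    simp
  rw [h1, ← map_pow (Matrix.reindexAlgEquiv ℤ K f.symm), map_eq_zero_iff _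
    (AlgEquiv.injective (Matrix.reindexAlgEquiv ℤ K f.symm))]

lemma good_nilpotent_step (hS : Saturated L S) {e : ℕ}
    (h : ∀ (n : ℕ) (T : Set (Fin n × Fin n)), (∀ v ∈ T, v.1 < v.2) →
      Good m S (nilpotentLocus T (e + 1))) (n : ℕ) (T : Set (Fin n × Fin n))
    (hT : ∀ v ∈ T, v.1 < v.2) : Good m S (nilpotentLocus T e) := by
  refine good_nilp_step hS (T := fun v => v ∈ T) (fun F => ?_)
  let f : Fin n ⊕ Fin n ≃ Fin (n + n) := finSumFinEquiv
  refine good_reindex (f.prodCongr f) (h (n + n) {v | tD (fun v => v ∈ T) F (f.symm v.1, f.symm v.2)}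
    ?_) fun K _ z => ?_
  · rintro ⟨a, b⟩ hab
    obtain ⟨a, rfl⟩ := f.surjective a
    obtain ⟨b, rfl⟩ := f.surjective b
    change tD (fun v => v ∈ T) F (f.symm (f a), f.symm (f b)) at hab
    rw [Equiv.symm_apply_apply, Equiv.symm_apply_apply] at hab
    change f a < f b
    rcases a with a | a <;> rcases b with b | b
    · simp only [f, finSumFinEquiv_apply_left]
      have h3 : a < b := hT _ hab
      rw [Fin.lt_def] at h3 ⊢
      simpa only [Fin.val_castAdd] using h3
    · simp only [f, finSumFinEquiv_apply_left, finSumFinEquiv_apply_right]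
      rw [Fin.lt_def]
      simp only [Fin.val_castAdd, Fin.val_natAdd]
      have := a.2
      omega
    · exact hab.elim
    · exact hab.elim
  · unfold nilpotentLocus nilp
    rw [nilp_reindex f z]
    refine and_congr ⟨fun h v hv => h (f v.1, f v.2) ?_, fun h v hv => ?_⟩ Iff.rfl
    · simpa using hv
    · have := h (f.symm v.1, f.symm v.2) hv
      simpa using this

theorem generates_nilpotent {e : ℕ} (he : 2 ≤ e) : Generates (NilpotentFamily e) := by
  intro V _ L m S hS h
  have key : ∀ k n (T : Set (Fin n × Fin n)), (∀ v ∈ T, v.1 < v.2) →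
      2 + k ≤ e → Good m S (nilpotentLocus T (e - k)) := by
    intro k
    induction k with
    | zero => exact fun n T hT _ => good_of_family h (.mk n T hT) (con_nilpotent T e)
    | succ k ih =>
      intro n T hT hk
      refine good_nilpotent_step hS (fun n T hT => ?_) n T hT
      have := ih n T hT (by omega)
      have e1 : e - (k + 1) + 1 = e - k := by omega
      rwa [e1]
  refine generates_squareZero V L m S hS fun ι _ φ X hX hφ => ?_
  obtain ⟨n, T, hT⟩ := hX
  have hG := key (e - 2) n T hT (by omega)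
  have e1 : e - (e - 2) = 2 := by omega
  rw [e1] at hG
  have h3 : m.val (squareZeroLocus T) ∈ S := hG.2
  rwa [m.val_rep hφ] at h3

theorem tate_nilpotent {e : ℕ} (he : e ≤ 1) (V : Type) [AddCommGroup V] (L : V ≃+ V)
    (m : Measure V L) (S : AddSubgroup V) (hS : Saturated L S) (hpt : Good m S pt) (ι : Type)
    [Finite ι] (X : Cond ι) (hX : NilpotentFamily e ι X) : Good m S X := by
  obtain ⟨n, T, hT⟩ := hX
  have hz : Good m S fun K _ (z : Fin n × Fin n → K) => ∀ v, z v = 0 :=
    (good_zeros (m := m) hS hpt fun _ : Fin n × Fin n => False).congr fun K _ z => by simp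
  interval_cases e
  · cases n with
    | zero =>
      refine hz.congr fun K _ z => ⟨fun h => ⟨fun v _ => h v, ?_⟩, fun h v => v.1.elim0⟩
      ext i
      exact i.elim0
    | succ n =>
      refine good_false fun K _ z hz => ?_
      have := hz.2
      rw [pow_zero] at this
      exact one_ne_zero this
  · refine hz.congr fun K _ z => ⟨fun h => ⟨fun v _ => h v, ?_⟩, fun h v => ?_⟩
    · rw [pow_one]
      ext i j
      exact h (i, j)
    · have := h.2
      rw [pow_one] at this
      exact congrFun (congrFun this v.1) v.2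

theorem generates_nilpotent_iff (e : ℕ) : Generates (NilpotentFamily e) ↔ 2 ≤ e := by
  refine ⟨fun h => ?_, generates_nilpotent⟩
  by_contra h3
  exact not_generates (fun V _ L m S hS hpt ι _ X hX =>
    tate_nilpotent (by omega) V L m S hS hpt ι X hX) h

end Pool.Agent.H504.MC
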