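import Pool.Agent.H504.MC.Gates

/-!
# Vectors up to scalars
-/

set_option autoImplicit false

namespace Pool.Agent.H504.MC

section good

variable {V : Type} [AddCommGroup V] {L : V ≃+ V} {m : Measure V L} {S : AddSubgroup V}

/-- points of `X` together with nonzero multiples of the vectors `w o` -/
def objCond {β O J : Type} (X : Cond β) (w : O → J → Fun β) (c : O → J) : Cond (β ⊕ O × J) :=
  fun K _ z => (X K fun b => z (.inl b)) ∧ ∀ o, z (.inr (o, c o)) ≠ 0 ∧
    ∀ j, z (.inr (o, j)) * w o (c o) K (fun b => z (.inl b)) =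
      z (.inr (o, c o)) * w o j K fun b => z (.inl b)

lemma isPoly_inl {β γ : Type} {f : Fun β} (hf : IsPoly f) :
    IsPoly fun K _ (z : β ⊕ γ → K) => f K fun b => z (.inl b) :=
  hf.comp fun b => isPoly_var (Sum.inl b)

lemma con_objCond {β O J : Type} [Finite O] [Finite J] {X : Cond β} (hX : IsCon X)
    {w : O → J → Fun β} (hw : ∀ o j, IsPoly (w o j)) (c : O → J) : IsCon (objCond X w c) :=
  con_and (con_res hX _) (con_forall fun _ => con_and (con_ne (isPoly_var _) isPoly_zero)
    (con_forall fun _ => con_eq ((isPoly_var _).mul (isPoly_inl (hw _ _)))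
      ((isPoly_var _).mul (isPoly_inl (hw _ _)))))

lemma good_objCond (hS : Saturated L S) {β O J : Type} [Finite β] [Finite O] [Finite J]
    {X : Cond β} (hX : IsCon X) {w : O → J → Fun β} (hw : ∀ o j, IsPoly (w o j)) (c : O → J)
    (hc : ∀ (K : Type) [Field K] (x : β → K), X K x → ∀ o, w o (c o) K x ≠ 0) :
    Good m S (objCond X w c) ↔ Good m S X := by
  rw [← good_gms hS O hX]
  refine good_bij (con_objCond hX hw c)
    (con_and (con_res hX _) (con_forall fun k => con_ne (isPoly_var _) isPoly_zero))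
    (fun b _ _ z => z (b.map id fun o => (o, c o))) (fun b => isPoly_var _)
    (fun K _ z hz => ⟨hz.1, fun o => (hz.2 o).1⟩) ?_ ?_
  · intro K _ z z' hz hz' h
    have h0 : (fun b => z (.inl b)) = fun b => z' (.inl b) := funext fun b => h (.inl b)
    funext b
    rcases b with b | ⟨o, j⟩
    · exact h (.inl b)
    · have h1 := (hz.2 o).2 j
      have h2 := (hz'.2 o).2 j
      have h3 : z (.inr (o, c o)) = z' (.inr (o, c o)) := h (.inr o)
      have h4 := hc K _ hz.1 o
      rw [h3, h0, ← h2] at h1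
      rw [h0] at h4
      exact mul_right_cancel₀ h4 h1
  · intro K _ y hy
    refine ⟨Sum.elim (fun b => y (.inl b)) fun oj => y (.inr oj.1) *
      w oj.1 oj.2 K (fun b => y (.inl b)) / w oj.1 (c oj.1) K (fun b => y (.inl b)),
      ⟨hy.1, fun o => ?_⟩, fun k => ?_⟩
    · have h4 := hc K _ hy.1 o
      simp only [Sum.elim_inl, Sum.elim_inr]
      refine ⟨?_, fun j => ?_⟩
      · rw [mul_div_assoc, div_self h4, mul_one]
        exact hy.2 o
      · field_simp
    · rcases k with b | o
      · rfl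
      · have h4 := hc K _ hy.1 o
        simp only [Sum.map_inr, Sum.elim_inr]
        rw [mul_div_assoc, div_self h4, mul_one]

end good

section vectors

variable {K : Type} [Field K]

/-- the vector `v` is a nonzero multiple of the vector `w` -/
def Prp (v w : Fin 3 → K) : Prop := ∃ l : K, l ≠ 0 ∧ ∀ j, v j = l * w j

/-- the scalar product -/
def dot (v w : Fin 3 → K) : K := v 0 * w 0 + v 1 * w 1 + v 2 * w 2

lemma dot_right {p v w : Fin 3 → K} (h : Prp v w) : dot p v = 0 ↔ dot p w = 0 := by
  obtain ⟨l, hl, h⟩ := h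
  have : dot p v = l * dot p w := by
    simp only [dot, h]
    ring
  rw [this, mul_eq_zero]
  tauto

lemma dot_left {p v w : Fin 3 → K} (h : Prp v w) : dot v p = 0 ↔ dot w p = 0 := by
  obtain ⟨l, hl, h⟩ := h
  have : dot v p = l * dot w p := by
    simp only [dot, h]
    ring
  rw [this, mul_eq_zero]
  tauto

lemma prp_mk {v : Fin 3 → K} {a b c : K} (l : K) (hl : l ≠ 0) (h0 : v 0 = l * a) (h1 : v 1 = l * b)
    (h2 : v 2 = l * c) : Prp v ![a, b, c] := by
  refine ⟨l, hl, fun j => ?_⟩
  fin_cases j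
  · exact h0
  · exact h1
  · exact h2

lemma prp_iff {v w : Fin 3 → K} {c : Fin 3} (hc : w c ≠ 0) :
    (v c ≠ 0 ∧ ∀ j, v j * w c = v c * w j) ↔ Prp v w := by
  constructor
  · rintro ⟨h0, h⟩
    refine ⟨v c / w c, div_ne_zero h0 hc, fun j => ?_⟩
    rw [div_mul_eq_mul_div, ← h j, mul_div_assoc, div_self hc, mul_one]
  · rintro ⟨l, hl, h⟩
    refine ⟨?_, fun j => ?_⟩
    · rw [h c]
      exact mul_ne_zero hl hc
    · rw [h c, h j]
      ring

end vectors

end Pool.Agent.H504.MC
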