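import Pool.Agent.H504.MC.Strata

/-!
# Parallel vectors in the plane and matrices of rank at most two
-/

set_option autoImplicit false

namespace Pool.Agent.H504.MC

open Matrix

/-- the point -/
def pt : Cond Empty := fun _ _ _ => True

section

variable {V : Type} [AddCommGroup V] {L : V ≃+ V} {m : Measure V L} {S : AddSubgroup V}

lemma con_pt : IsCon pt := con_true

/-- coordinate subspaces -/
lemma good_zeros (hS : Saturated L S) (hpt : Good m S pt) {ι : Type} [Finite ι] (T : ι → Prop) :
    Good m S fun K _ (z : ι → K) => ∀ v, ¬ T v → z v = 0 := by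
  classical
  have h1 := (good_aff hS {v // T v} con_pt).2 hpt
  refine (good_bij h1.1 (con_zeros T) (fun v _ _ x => if h : T v then x (.inr ⟨v, h⟩) else 0)
    (fun v => ?_) ?_ ?_ ?_).1 h1
  · by_cases h : T v
    · simp only [dif_pos h]; exact isPoly_var _
    · simp only [dif_neg h]; exact isPoly_zero
  · intro K _ x _ v hv
    exact dif_neg hv
  · intro K _ x x' _ _ heq
    funext v
    rcases v with v | ⟨v, hv⟩
    · exact v.elim
    · have := heq v
      simpa only [dif_pos hv] using this
  · intro K _ y hy
    refine ⟨fun v => v.elim (fun v => v.elim) fun v => y v.1, trivial, fun v => ?_⟩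
    by_cases h : T v
    · simp only [dif_pos h]; rfl
    · simp only [dif_neg h]; exact (hy v h).symm

/-- all Boolean combinations of conditions whose conjunctions are good -/
lemma good_bool {ι J : Type} [Finite ι] [Finite J] (c : J → Cond ι) (hc : ∀ j, IsCon (c j))
    (h : ∀ B : J → Prop, Good m S fun K _ z => ∀ j, B j → c j K z) (F : (J → Prop) → Prop) :
    Good m S fun K _ z => F fun j => c j K z := by
  classical
  have _ : Fintype J := Fintype.ofFinite J
  have conF : ∀ F : (J → Prop) → Prop, IsCon fun K _ z => F fun j => c j K z := by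
    intro F
    refine con_congr (con_exists fun U : Set J => con_and (con_const (F fun j => j ∈ U))
      (con_forall fun j => con_and (con_imp (con_const (j ∈ U)) (hc j))
        (con_imp (hc j) (con_const (j ∈ U))))) fun K _ z => ?_
    constructor
    · rintro ⟨U, hU, h1⟩
      have : (fun j => c j K z) = fun j => j ∈ U :=
        funext fun j => propext ⟨(h1 j).2, (h1 j).1⟩
      rw [this]
      exact hU
    · intro hF
      exact ⟨{j | c j K z}, hF, fun j => ⟨fun h => h, fun h => h⟩⟩
  have key : ∀ s : Finset J, ∀ (B : J → Prop) (F : (J → Prop) → Prop),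
      Good m S fun K _ z => (∀ j, B j → c j K z) ∧ F fun j => j ∈ s ∧ c j K z := by
    intro s
    induction s using Finset.induction_on with
    | empty =>
      intro B F
      by_cases hF : F fun _ => False
      · refine (h B).congr fun K _ z => ?_
        simp [hF]
      · refine good_false fun K _ z hz => hF ?_
        simpa using hz.2
    | insert a s ha ih =>
      intro B F
      have hX : IsCon fun K _ z => (∀ j, B j → c j K z) ∧ F fun j => j ∈ insert a s ∧ c j K z :=
        con_and (con_forall fun j => con_imp (con_const _) (hc j))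
          (conF fun P => F fun j => j ∈ insert a s ∧ P j)
      refine Good.glue hX (hc a) ?_ ?_
      · refine (ih (fun j => B j ∨ j = a) fun P => F fun j => j = a ∨ P j).congr fun K _ z => ?_
        constructor
        · rintro ⟨h1, h2⟩
          have h3 : c a K z := h1 a (.inr rfl)
          refine ⟨⟨fun j hj => h1 j (.inl hj), ?_⟩, h3⟩
          have : (fun j => j ∈ insert a s ∧ c j K z) = fun j => j = a ∨ j ∈ s ∧ c j K z := by
            funext j
            rw [Finset.mem_insert]
            refine propext ⟨?_, ?_⟩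
            · rintro ⟨h4 | h4, h5⟩
              · exact .inl h4
              · exact .inr ⟨h4, h5⟩
            · rintro (h4 | ⟨h4, h5⟩)
              · exact ⟨.inl h4, h4 ▸ h3⟩
              · exact ⟨.inr h4, h5⟩
          rw [this]
          exact h2
        · rintro ⟨⟨h1, h2⟩, h3⟩
          refine ⟨fun j hj => hj.elim (h1 j) fun h => h ▸ h3, ?_⟩
          have : (fun j => j ∈ insert a s ∧ c j K z) = fun j => j = a ∨ j ∈ s ∧ c j K z := by
            funext j
            rw [Finset.mem_insert]
            refine propext ⟨?_, ?_⟩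
            · rintro ⟨h4 | h4, h5⟩
              · exact .inl h4
              · exact .inr ⟨h4, h5⟩
            · rintro (h4 | ⟨h4, h5⟩)
              · exact ⟨.inl h4, h4 ▸ h3⟩
              · exact ⟨.inr h4, h5⟩
          rw [this] at h2
          exact h2
      · have hrw : ∀ (K : Type) [Field K] (z : ι → K), ¬ c a K z →
            (fun j => j ∈ insert a s ∧ c j K z) = fun j => j ∈ s ∧ c j K z := by
          intro K _ z h3
          funext j
          rw [Finset.mem_insert]
          refine propext ⟨?_, ?_⟩
          · rintro ⟨h4 | h4, h5⟩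
            · exact (h3 (h4 ▸ h5)).elim
            · exact ⟨h4, h5⟩
          · rintro ⟨h4, h5⟩
            exact ⟨.inr h4, h5⟩
        refine (Good.diff (hc a) (ih B F) ((ih (fun j => B j ∨ j = a) F).congr fun K _ z => ?_)).congr
          fun K _ z => ?_
        · constructor
          · rintro ⟨h1, h2⟩
            exact ⟨⟨fun j hj => h1 j (.inl hj), h2⟩, h1 a (.inr rfl)⟩
          · rintro ⟨⟨h1, h2⟩, h3⟩
            exact ⟨fun j hj => hj.elim (h1 j) fun h => h ▸ h3, h2⟩
        · refine and_congr_left fun h3 => ?_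
          rw [hrw K z h3]
  refine (key Finset.univ (fun _ => False) F).congr fun K _ z => ?_
  simp

end

section vectors

variable {K A : Type} [Field K]

/-- the vector with index `a` is zero -/
def vz (z : A × Fin 2 → K) (a : A) : Prop := z (a, 0) = 0 ∧ z (a, 1) = 0

/-- the determinant of two vectors -/
def wz (z : A × Fin 2 → K) (a b : A) : K := z (a, 0) * z (b, 1) - z (a, 1) * z (b, 0)

lemma wz_symm {z : A × Fin 2 → K} {a b : A} (h : wz z a b = 0) : wz z b a = 0 := by
  unfold wz at h ⊢
  linear_combination -h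

lemma exists_smul {z : A × Fin 2 → K} {a b : A} (hb : ¬ vz z b) (h : wz z a b = 0) :
    ∃ l : K, ∀ i, z (a, i) = l * z (b, i) := by
  unfold vz at hb
  unfold wz at h
  by_cases h0 : z (b, 0) = 0
  · have h1 : z (b, 1) ≠ 0 := fun h1 => hb ⟨h0, h1⟩
    rw [h0, mul_zero, sub_zero] at h
    have h2 := (mul_eq_zero.1 h).resolve_right h1
    refine ⟨z (a, 1) / z (b, 1), fun i => ?_⟩
    fin_cases i
    · change z (a, 0) = z (a, 1) / z (b, 1) * z (b, 0)
      rw [h0, h2, mul_zero]
    · change z (a, 1) = z (a, 1) / z (b, 1) * z (b, 1)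
      rw [div_mul_cancel₀ _ h1]
  · refine ⟨z (a, 0) / z (b, 0), fun i => ?_⟩
    fin_cases i
    · change z (a, 0) = z (a, 0) / z (b, 0) * z (b, 0)
      rw [div_mul_cancel₀ _ h0]
    · change z (a, 1) = z (a, 0) / z (b, 0) * z (b, 1)
      field_simp
      linear_combination -h

lemma wz_trans {z : A × Fin 2 → K} {a b c : A} (hb : ¬ vz z b) (h1 : wz z a b = 0)
    (h2 : wz z b c = 0) : wz z a c = 0 := by
  obtain ⟨l, hl⟩ := exists_smul hb h1
  unfold wz at h2 ⊢
  rw [hl, hl]
  linear_combination l * h2

end vectors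

section

variable {V : Type} [AddCommGroup V] {L : V ≃+ V} {m : Measure V L} {S : AddSubgroup V}

lemma con_vz {A ι : Type} (e : A × Fin 2 → ι) (a : A) :
    IsCon fun K _ (z : ι → K) => vz (fun v => z (e v)) a :=
  con_and (con_eq (isPoly_var _) isPoly_zero) (con_eq (isPoly_var _) isPoly_zero)

lemma isPoly_wz {A ι : Type} (e : A × Fin 2 → ι) (a b : A) :
    IsPoly fun K _ (z : ι → K) => wz (fun v => z (e v)) a b :=
  ((isPoly_var _).mul (isPoly_var _)).sub ((isPoly_var _).mul (isPoly_var _))

/-- nonzero vectors, parallel according to an equivalence relation -/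
lemma good_setoid (hS : Saturated L S) (hpt : Good m S pt) {A : Type} [Finite A] (r : Setoid A) :
    Good m S fun K _ (z : A × Fin 2 → K) =>
      (∀ a, ¬ vz z a) ∧ ∀ a b, r a b → wz z a b = 0 := by
  classical
  have hW : Good m S fun K _ (w : Quotient r × Fin 2 → K) => ∀ q, ¬ vz w q :=
    good_bool (fun q K _ w => vz w q) (fun q => con_vz id q) (fun B =>
      (good_zeros hS hpt fun v => ¬ B v.1).congr fun K _ w => by
        constructor
        · intro h q hq
          exact ⟨h (q, 0) (not_not.2 hq), h (q, 1) (not_not.2 hq)⟩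
        · rintro h ⟨q, i⟩ hv
          have := h q (not_not.1 hv)
          fin_cases i
          · exact this.1
          · exact this.2) fun U => ∀ q, ¬ U q
  let rep : A → A := fun a => (Quotient.mk r a).out
  have hrep : ∀ a, Quotient.mk r (rep a) = Quotient.mk r a := fun a => Quotient.out_eq _
  have hout : ∀ q : Quotient r, q.out = rep q.out := fun q => by
    change q.out = (Quotient.mk r q.out).out
    rw [Quotient.out_eq]
  have h1 := (good_gms hS {a : A // a ≠ rep a} hW.1).2 hW
  refine (good_bij h1.1 (con_and (con_forall fun a => con_not (con_vz id a)) (con_forall fun a =>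
    con_forall fun b => con_imp (con_const _) (con_eq (isPoly_wz id a b) isPoly_zero)))
    (fun v _ _ x => if h : v.1 ≠ rep v.1 then x (.inr ⟨v.1, h⟩) * x (.inl (Quotient.mk r v.1, v.2))
      else x (.inl (Quotient.mk r v.1, v.2))) (fun v => ?_) ?_ ?_ ?_).1 h1
  · by_cases h : v.1 ≠ rep v.1
    · simp only [dif_pos h]; exact (isPoly_var _).mul (isPoly_var _)
    · simp only [dif_neg h]; exact isPoly_var _
  · rintro K _ x ⟨hx, hn⟩
    have hl : ∀ a : A, ∃ l : K, l ≠ 0 ∧ ∀ i, (if h : a ≠ rep a then
        x (.inr ⟨a, h⟩) * x (.inl (Quotient.mk r a, i)) else x (.inl (Quotient.mk r a, i))) =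
        l * x (.inl (Quotient.mk r a, i)) := by
      intro a
      by_cases h : a ≠ rep a
      · exact ⟨_, hn ⟨a, h⟩, fun i => dif_pos h⟩
      · exact ⟨1, one_ne_zero, fun i => by rw [dif_neg h, one_mul]⟩
    refine ⟨fun a ha => ?_, fun a b hab => ?_⟩
    · obtain ⟨l, hl0, hl⟩ := hl a
      refine hx (Quotient.mk r a) ⟨?_, ?_⟩
      · exact (mul_eq_zero.1 ((hl 0).symm.trans ha.1)).resolve_left hl0
      · exact (mul_eq_zero.1 ((hl 1).symm.trans ha.2)).resolve_left hl0
    · obtain ⟨l, _, hl1⟩ := hl a
      obtain ⟨l', _, hl2⟩ := hl b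
      have hq : Quotient.mk r a = Quotient.mk r b := Quotient.sound hab
      simp only [wz, id]
      rw [hl1 0, hl1 1, hl2 0, hl2 1, hq]
      ring
  · rintro K _ x x' ⟨hx, hn⟩ ⟨hx', hn'⟩ heq
    have e1 : ∀ q i, x (.inl (q, i)) = x' (.inl (q, i)) := by
      intro q i
      have := heq (q.out, i)
      rw [dif_neg (not_not.2 (hout q)), dif_neg (not_not.2 (hout q))] at this
      change x (.inl (Quotient.mk r q.out, i)) = x' (.inl (Quotient.mk r q.out, i)) at this
      rwa [Quotient.out_eq] at this
    funext v
    rcases v with ⟨q, i⟩ | ⟨a, ha⟩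
    · exact e1 q i
    · have hq := hx (Quotient.mk r a)
      by_cases h0 : x (.inl (Quotient.mk r a, 0)) = 0
      · have h2 : x (.inl (Quotient.mk r a, 1)) ≠ 0 := fun h2 => hq ⟨h0, h2⟩
        have := heq (a, 1)
        rw [dif_pos ha, dif_pos ha] at this
        change x (.inr ⟨a, ha⟩) * x (.inl (Quotient.mk r a, 1)) =
          x' (.inr ⟨a, ha⟩) * x' (.inl (Quotient.mk r a, 1)) at this
        rw [← e1] at this
        exact mul_right_cancel₀ h2 this
      · have := heq (a, 0)
        rw [dif_pos ha, dif_pos ha] at this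
        change x (.inr ⟨a, ha⟩) * x (.inl (Quotient.mk r a, 0)) =
          x' (.inr ⟨a, ha⟩) * x' (.inl (Quotient.mk r a, 0)) at this
        rw [← e1] at this
        exact mul_right_cancel₀ h0 this
  · rintro K _ y ⟨hy, hp⟩
    have h3 : ∀ a : A, ∃ l : K, ∀ i, y (a, i) = l * y (rep a, i) := fun a =>
      exists_smul (hy (rep a)) (hp a (rep a) (Quotient.exact (hrep a).symm))
    choose l hl using h3
    have hl0 : ∀ a, l a ≠ 0 := fun a h0 => hy a
      ⟨(hl a 0).trans (by rw [h0, zero_mul]), (hl a 1).trans (by rw [h0, zero_mul])⟩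
    refine ⟨Sum.elim (fun v => y (v.1.out, v.2)) fun a => l a.1, ⟨fun q hq => hy q.out hq, fun a =>
      hl0 a.1⟩, ?_⟩
    rintro ⟨a, i⟩
    by_cases h : a ≠ rep a
    · rw [dif_pos h]
      exact (hl a i).symm
    · rw [dif_neg h]
      change y (rep a, i) = y (a, i)
      rw [← not_not.1 h]

/-- vectors with prescribed zeros and prescribed parallel pairs -/
lemma good_par (hS : Saturated L S) (hpt : Good m S pt) {A : Type} [Finite A] (Z : A → Prop)
    (E : A → A → Prop) : Good m S fun K _ (z : A × Fin 2 → K) =>
      (∀ a, Z a → vz z a) ∧ ∀ a b, E a b → wz z a b = 0 := by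
  classical
  have _ : Fintype A := Fintype.ofFinite A
  have cX : IsCon fun K _ (z : A × Fin 2 → K) =>
      (∀ a, Z a → vz z a) ∧ ∀ a b, E a b → wz z a b = 0 :=
    con_and (con_forall fun a => con_imp (con_const _) (con_vz id a)) (con_forall fun a =>
      con_forall fun b => con_imp (con_const _) (con_eq (isPoly_wz id a b) isPoly_zero))
  have ciff : ∀ (s : Finset A) (χ : A → Prop), IsCon fun K _ (z : A × Fin 2 → K) =>
      ∀ a, a ∉ s → (vz z a ↔ χ a) := fun s χ =>
    con_congr (con_forall fun a => con_imp (con_const (a ∉ s)) (con_and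
      (con_imp (con_vz id a) (con_const (χ a))) (con_imp (con_const (χ a)) (con_vz id a))))
      fun K _ z => forall_congr' fun a => imp_congr_right fun _ => iff_iff_implies_and_implies.symm
  have key : ∀ (s : Finset A) (χ : A → Prop), Good m S fun K _ (z : A × Fin 2 → K) =>
      ((∀ a, Z a → vz z a) ∧ ∀ a b, E a b → wz z a b = 0) ∧ ∀ a, a ∉ s → (vz z a ↔ χ a) := by
    intro s
    induction s using Finset.induction_on with
    | empty =>
      intro χ
      by_cases hZ : ∃ a, Z a ∧ ¬ χ a
      · obtain ⟨a, ha, hχ⟩ := hZ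
        exact good_false fun K _ z hz => hχ ((hz.2 a (Finset.notMem_empty a)).1 (hz.1.1 a ha))
      · have hZ' : ∀ a, Z a → χ a := fun a ha => by
          by_contra h
          exact hZ ⟨a, ha, h⟩
        let r : Setoid {a // ¬ χ a} := Relation.EqvGen.setoid fun a b => E a.1 b.1
        have h1 := good_setoid hS hpt r
        refine (good_bij (con_and cX (ciff _ _)) h1.1 (fun v _ _ z => z (v.1.1, v.2))
          (fun v => isPoly_var _) ?_ ?_ ?_).2 h1
        · rintro K _ z ⟨⟨hz, hE⟩, hχ⟩
          have hn : ∀ a : {a // ¬ χ a}, ¬ vz (fun v : {a // ¬ χ a} × Fin 2 => z (v.1.1, v.2)) a :=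
            fun a ha => a.2 ((hχ a.1 (Finset.notMem_empty _)).1 ha)
          refine ⟨hn, fun a b hab => ?_⟩
          have hab' : Relation.EqvGen (fun a b : {a // ¬ χ a} => E a.1 b.1) a b := hab
          induction hab' with
          | rel a b h => exact hE a.1 b.1 h
          | refl a => unfold wz; ring
          | symm a b _ ih => exact wz_symm (ih (by assumption))
          | trans a b c h1 h2 ih1 ih2 => exact wz_trans (hn b) (ih1 h1) (ih2 h2)
        · rintro K _ z z' ⟨_, hχ⟩ ⟨_, hχ'⟩ heq
          funext ⟨a, i⟩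
          by_cases ha : χ a
          · have h2 := (hχ a (Finset.notMem_empty _)).2 ha
            have h3 := (hχ' a (Finset.notMem_empty _)).2 ha
            fin_cases i
            · exact h2.1.trans h3.1.symm
            · exact h2.2.trans h3.2.symm
          · exact heq (⟨a, ha⟩, i)
        · rintro K _ y ⟨hy, hp⟩
          let z : A × Fin 2 → K := fun v => if h : χ v.1 then 0 else y (⟨v.1, h⟩, v.2)
          have hz0 : ∀ a, χ a → ∀ i, z (a, i) = 0 := fun a ha i => dif_pos ha
          have hz1 : ∀ a (ha : ¬ χ a), ∀ i, z (a, i) = y (⟨a, ha⟩, i) := fun a ha i => dif_neg ha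
          refine ⟨z, ⟨⟨fun a ha => ⟨hz0 a (hZ' a ha) 0, hz0 a (hZ' a ha) 1⟩, fun a b hab => ?_⟩,
            fun a _ => ⟨fun h => ?_, fun h => ⟨hz0 a h 0, hz0 a h 1⟩⟩⟩, fun v => hz1 v.1.1 v.1.2 v.2⟩
          · unfold wz
            by_cases ha : χ a
            · rw [hz0 a ha, hz0 a ha]; ring
            · by_cases hb : χ b
              · rw [hz0 b hb, hz0 b hb]; ring
              · rw [hz1 a ha, hz1 a ha, hz1 b hb, hz1 b hb]
                exact hp ⟨a, ha⟩ ⟨b, hb⟩ (Relation.EqvGen.rel _ _ hab)
          · by_contra ha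
            refine hy ⟨a, ha⟩ ⟨?_, ?_⟩
            · rw [← hz1 a ha]; exact h.1
            · rw [← hz1 a ha]; exact h.2
    | insert a s ha ih =>
      intro χ
      refine Good.glue (con_and cX (ciff _ _)) (con_vz id a) ?_ ?_
      · refine (ih (fun b => b = a ∨ χ b ∧ b ≠ a)).congr fun K _ z => ?_
        constructor
        · rintro ⟨hX, h⟩
          refine ⟨⟨hX, fun b hb => ?_⟩, (h a ha).2 (.inl rfl)⟩
          rw [Finset.mem_insert, not_or] at hb
          rw [h b hb.2]
          tauto
        · rintro ⟨⟨hX, h⟩, h'⟩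
          refine ⟨hX, fun b hb => ?_⟩
          by_cases hba : b = a
          · subst hba
            exact ⟨fun _ => .inl rfl, fun _ => h'⟩
          · rw [h b (by rw [Finset.mem_insert, not_or]; exact ⟨hba, hb⟩)]
            tauto
      · refine (ih (fun b => χ b ∧ b ≠ a)).congr fun K _ z => ?_
        constructor
        · rintro ⟨hX, h⟩
          refine ⟨⟨hX, fun b hb => ?_⟩, fun h1 => ((h a ha).1 h1).2 rfl⟩
          rw [Finset.mem_insert, not_or] at hb
          rw [h b hb.2]
          tauto
        · rintro ⟨⟨hX, h⟩, h'⟩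
          refine ⟨hX, fun b hb => ?_⟩
          by_cases hba : b = a
          · subst hba
            exact ⟨fun h1 => (h' h1).elim, fun h1 => (h1.2 rfl).elim⟩
          · rw [h b (by rw [Finset.mem_insert, not_or]; exact ⟨hba, hb⟩)]
            tauto
  refine (key Finset.univ fun _ => True).congr fun K _ z => ?_
  simp

/-- the condition that a vector is zero or that two vectors are parallel -/
def parCond {A : Type} (j : A ⊕ (A × A)) : Cond (A × Fin 2) := fun _ _ z =>
  j.elim (fun a => vz z a) fun a => wz z a.1 a.2 = 0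

lemma good_parBool (hS : Saturated L S) (hpt : Good m S pt) {A : Type} [Finite A]
    (F : (A ⊕ (A × A) → Prop) → Prop) :
    Good m S fun K _ (z : A × Fin 2 → K) => F fun j => parCond j K z := by
  refine good_bool parCond (fun j => ?_) (fun B => ?_) F
  · rcases j with a | a
    · exact con_vz id a
    · exact con_eq (isPoly_wz id _ _) isPoly_zero
  · refine (good_par hS hpt (fun a => B (.inl a)) fun a b => B (.inr (a, b))).congr fun K _ z => ?_
    rw [Sum.forall, Prod.forall]
    rfl

end

end Pool.Agent.H504.MC
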