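import Pool.Agent.H504.MC.Config

/-!
# Orthogonality relations between sparse vectors
-/

set_option autoImplicit false

namespace Pool.Agent.H504.MC

variable {V : Type} [AddCommGroup V] {L : V ≃+ V} {m : Measure V L} {S : AddSubgroup V}

/-- Families of vectors with prescribed zeros and prescribed orthogonality relations. -/
def ortho {R J C : Type} [Fintype J] (T : (R × J) ⊕ (C × J) → Prop) (N : R → C → Prop) :
    Cond ((R × J) ⊕ (C × J)) := fun _ _ z =>
  (∀ v, ¬ T v → z v = 0) ∧ ∀ r c, N r c → ∑ j, z (.inl (r, j)) * z (.inr (c, j)) = 0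

lemma con_ortho {R J C : Type} [Fintype J] [Finite R] [Finite C] (T : (R × J) ⊕ (C × J) → Prop)
    (N : R → C → Prop) : IsCon (ortho T N) :=
  con_and (con_forall fun v => con_imp (con_const _) (con_eq (isPoly_var v) isPoly_zero))
    (con_forall fun r => con_forall fun c => con_imp (con_const _) (con_eq
      (isPoly_sum _ fun j => (isPoly_var _).mul (isPoly_var _)) isPoly_zero))

lemma good_ortho_nz {R J C : Type} [Fintype J] [Finite R] [Finite C] {N : R → C → Prop}
    (hF : ∀ T, Good m S (ortho (J := J) T N)) (s : Finset ((R × J) ⊕ (C × J))) :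
    ∀ T, Good m S fun K _ z => ortho T N K z ∧ ∀ v ∈ s, z v ≠ 0 := by
  classical
  induction s using Finset.induction_on with
  | empty => exact fun T => (hF T).congr fun K _ z => by simp
  | insert v s hv ih =>
    intro T
    refine (Good.diff (con_eq (isPoly_var v) isPoly_zero) (ih T)
      ((ih fun w => T w ∧ w ≠ v).congr fun K _ z => ?_)).congr fun K _ z => ?_
    · constructor
      · rintro ⟨⟨h1, h2⟩, h3⟩
        refine ⟨⟨⟨fun w hw => h1 w fun h => hw h.1, h2⟩, h3⟩, h1 v fun h => h.2 rfl⟩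
      · rintro ⟨⟨⟨h1, h2⟩, h3⟩, h4⟩
        refine ⟨⟨fun w hw => ?_, h2⟩, h3⟩
        by_cases h : w = v
        · rw [h]; exact h4
        · exact h1 w fun hT => hw ⟨hT, h⟩
    · simp only [Finset.forall_mem_insert]
      tauto

section core

variable {α G : Type} (g : G → Gate α)

/-- the coordinates of all points and lines -/
def wO (o : Pt α G ⊕ Ln α G) (j : Fin 3) : Fun (α ⊕ Fin 2) := fun _ _ x =>
  o.elim (fun p => wP g (fun i => x (.inl i)) (x (.inr 0)) (x (.inr 1)) p j)
    fun l => wL g (fun i => x (.inl i)) (x (.inr 0)) (x (.inr 1)) l j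

/-- coordinates that are not zero -/
def cO : Pt α G ⊕ Ln α G → Fin 3 := Sum.elim cP (cL g)

lemma isPoly_vec {β : Type} {a b c : Fun β} (ha : IsPoly a) (hb : IsPoly b) (hc : IsPoly c)
    (j : Fin 3) : IsPoly fun K _ x => (![a K x, b K x, c K x] : Fin 3 → K) j := by
  fin_cases j
  · exact ha
  · exact hb
  · exact hc

lemma isPoly_wO (o : Pt α G ⊕ Ln α G) (j : Fin 3) : IsPoly (wO g o j) := by
  have px : IsPoly fun (K : Type) _ (z : α ⊕ Fin 2 → K) => z (.inr 0) := isPoly_var _
  have py : IsPoly fun (K : Type) _ (z : α ⊕ Fin 2 → K) => z (.inr 1) := isPoly_var _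
  have pt : ∀ i, IsPoly fun (K : Type) _ (z : α ⊕ Fin 2 → K) => z (.inl i) :=
    fun i => isPoly_var _
  have p0 : IsPoly fun (K : Type) _ (z : α ⊕ Fin 2 → K) => (0 : K) := isPoly_zero
  have p1 : IsPoly fun (K : Type) _ (z : α ⊕ Fin 2 → K) => (1 : K) := isPoly_one
  rcases o with (_ | _ | i | k | k) | (_ | _ | i | i | k)
  · exact isPoly_vec px py p1 j
  · exact isPoly_vec px py p0 j
  · exact isPoly_vec ((pt i).mul px) ((pt i).mul py) p1 j
  · change IsPoly fun (K : Type) _ (x : α ⊕ Fin 2 → K) =>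
      gp (fun i => x (.inl i)) (x (.inr 0)) (x (.inr 1)) (g k) j
    cases g k with
    | one i => exact isPoly_vec p0 p0 p1 j
    | sub a b c => exact isPoly_vec ((pt a).mul px) ((pt b).mul py) p1 j
    | mul a b c => exact isPoly_vec px ((pt b).mul py) p1 j
  · change IsPoly fun (K : Type) _ (x : α ⊕ Fin 2 → K) =>
      gq (fun i => x (.inl i)) (x (.inr 0)) (x (.inr 1)) (g k) j
    cases g k with
    | one i => exact isPoly_vec p0 p0 p1 j
    | sub a b c => exact isPoly_vec (((pt a).sub (pt b)).mul px) p0 p1 j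
    | mul a b c => exact isPoly_vec ((pt a).mul px) (((pt a).mul (pt b)).mul py) p1 j
  · exact isPoly_vec py px.neg p0 j
  · exact isPoly_vec p1 p0 px.neg j
  · exact isPoly_vec p1 p0 ((pt i).mul px).neg j
  · exact isPoly_vec p0 p1 ((pt i).mul py).neg j
  · change IsPoly fun (K : Type) _ (x : α ⊕ Fin 2 → K) =>
      gk (fun i => x (.inl i)) (x (.inr 0)) (x (.inr 1)) (g k) j
    cases g k with
    | one i => exact isPoly_vec p1 p0 p0 j
    | sub a b c => exact isPoly_vec py px.neg ((px.mul py).mul ((pt a).sub (pt b))).neg j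
    | mul a b c => exact isPoly_vec ((pt b).mul py) px.neg p0 j

/-- the conditions on coordinates of the configuration -/
def tO : (Pt α G × Fin 3) ⊕ (Ln α G × Fin 3) → Prop :=
  Sum.elim (fun o => tP g o.1 o.2) fun o => tL g o.1 o.2

/-- the coordinates that are required to be nonzero -/
def nO : (Pt α G × Fin 3) ⊕ (Ln α G × Fin 3) → Prop :=
  Sum.elim (fun o => o.1 = .u ∨ o.2 = cP o.1) fun o => o.2 = cL g o.1

lemma prp_of_obj {X : Cond (α ⊕ Fin 2)}
    (hX : ∀ (K : Type) [Field K] (x : α ⊕ Fin 2 → K), X K x → ∀ k, x (.inr k) ≠ 0)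
    {K : Type} [Field K] {z : (α ⊕ Fin 2) ⊕ ((Pt α G ⊕ Ln α G) × Fin 3) → K}
    (hz : objCond X (wO g) (cO g) K z) :
    (∀ o : Pt α G, Prp (fun j => z (.inr (.inl o, j)))
      (wP g (fun i => z (.inl (.inl i))) (z (.inl (.inr 0))) (z (.inl (.inr 1))) o)) ∧
    ∀ o : Ln α G, Prp (fun j => z (.inr (.inr o, j)))
      (wL g (fun i => z (.inl (.inl i))) (z (.inl (.inr 0))) (z (.inl (.inr 1))) o) := by
  obtain ⟨hx, h⟩ := hz
  have hx' := hX K _ hx
  exact ⟨fun o => (prp_iff (v := fun j => z (.inr (.inl o, j))) (w := wP g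
      (fun i => z (.inl (.inl i))) (z (.inl (.inr 0))) (z (.inl (.inr 1))) o) (c := cP o)
      (wP_c _ _ _ (hx' 0) o)).1 (h (.inl o)),
    fun o => (prp_iff (v := fun j => z (.inr (.inr o, j))) (w := wL g
      (fun i => z (.inl (.inl i))) (z (.inl (.inr 0))) (z (.inl (.inr 1))) o) (c := cL g o)
      (wL_c _ _ _ (hx' 0) (hx' 1) o)).1 (h (.inr o))⟩

theorem good_gates_of_ortho (hS : Saturated L S)
    (hF : ∀ (R C : Type) [Finite R] [Finite C] (T : (R × Fin 3) ⊕ (C × Fin 3) → Prop)
      (N : R → C → Prop), Good m S (ortho T N)) [Finite α] [Finite G] :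
    Good m S fun K _ (s : α → K) => ∀ k, (g k).holds s := by
  classical
  have cg : IsCon fun (K : Type) _ (s : α → K) => ∀ k, (g k).holds s :=
    con_forall fun k => (g k).con
  rw [← good_gms hS (Fin 2) cg]
  have cX : IsCon fun (K : Type) _ (x : α ⊕ Fin 2 → K) =>
      (∀ k, (g k).holds fun i => x (.inl i)) ∧ ∀ k, x (.inr k) ≠ 0 :=
    con_and (con_res cg _) (con_forall fun k => con_ne (isPoly_var _) isPoly_zero)
  have hc : ∀ (K : Type) [Field K] (x : α ⊕ Fin 2 → K),
      ((∀ k, (g k).holds fun i => x (.inl i)) ∧ ∀ k, x (.inr k) ≠ 0) →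
        ∀ o, wO g o (cO g o) K x ≠ 0 := by
    rintro K _ x ⟨_, hx⟩ (o | o)
    · exact wP_c _ _ _ (hx 0) o
    · exact wL_c _ _ _ (hx 0) (hx 1) o
  rw [← good_objCond hS cX (isPoly_wO g) (cO g) hc]
  have _ : Fintype ((Pt α G × Fin 3) ⊕ (Ln α G × Fin 3)) := Fintype.ofFinite _
  have hZ := good_ortho_nz (fun T => hF (Pt α G) (Ln α G) T (Rel g))
    (Finset.univ.filter (nO g)) (tO g)
  refine (good_bij (con_objCond cX (isPoly_wO g) (cO g)) hZ.1
    (fun v _ _ z => z (.inr (v.elim (fun o => (.inl o.1, o.2)) fun o => (.inr o.1, o.2))))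
    (fun v => isPoly_var _) ?_ ?_ ?_).2 hZ
  · intro K _ z hz
    obtain ⟨h1, h2⟩ := prp_of_obj g (fun K _ x hx => hx.2) hz
    obtain ⟨⟨hg, hn⟩, h⟩ := hz
    refine ⟨⟨?_, ?_⟩, ?_⟩
    · rintro (⟨o, j⟩ | ⟨o, j⟩) hv
      · obtain ⟨l, hl, e⟩ := h1 o
        have := e j
        rw [wP_t _ _ _ o j hv, mul_zero] at this
        exact this
      · obtain ⟨l, hl, e⟩ := h2 o
        have := e j
        rw [wL_t _ _ _ o j hv, mul_zero] at this
        exact this
    · intro r c hrc
      have := dot_w (z (.inl (.inr 0))) (z (.inl (.inr 1))) hg hrc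
      rw [← dot_left (h1 r), ← dot_right (h2 c)] at this
      rw [Fin.sum_univ_three]
      exact this
    · intro v hv
      rw [Finset.mem_filter] at hv
      rcases v with ⟨o, j⟩ | ⟨o, j⟩
      · rcases hv.2 with h3 | h3
        · change o = .u at h3
          subst h3
          obtain ⟨l, hl, e⟩ := h1 .u
          have := e j
          change z (.inr (.inl .u, j)) = _ at this
          change z (.inr (.inl .u, j)) ≠ 0
          rw [this]
          refine mul_ne_zero hl ?_
          fin_cases j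
          · exact hn 0
          · exact hn 1
          · exact one_ne_zero
        · change j = cP o at h3
          subst h3
          exact (h (.inl o)).1
      · have h3 := hv.2
        change j = cL g o at h3
        subst h3
        exact (h (.inr o)).1
  · intro K _ z z' hz hz' heq
    have e1 : ∀ (o : Pt α G) j, z (.inr (.inl o, j)) = z' (.inr (.inl o, j)) :=
      fun o j => heq (.inl (o, j))
    have e2 : ∀ (o : Ln α G) j, z (.inr (.inr o, j)) = z' (.inr (.inr o, j)) :=
      fun o j => heq (.inr (o, j))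
    obtain ⟨h1, h2⟩ := prp_of_obj g (fun K _ x hx => hx.2) hz
    obtain ⟨h1', h2'⟩ := prp_of_obj g (fun K _ x hx => hx.2) hz'
    have h1'' : ∀ o : Pt α G, Prp (fun j => z (.inr (.inl o, j)))
        (wP g (fun i => z' (.inl (.inl i))) (z' (.inl (.inr 0))) (z' (.inl (.inr 1))) o) := by
      intro o
      have : (fun j => z (.inr (.inl o, j))) = fun j => z' (.inr (.inl o, j)) := funext (e1 o)
      rw [this]
      exact h1' o
    have h2'' : ∀ o : Ln α G, Prp (fun j => z (.inr (.inr o, j)))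
        (wL g (fun i => z' (.inl (.inl i))) (z' (.inl (.inr 0))) (z' (.inl (.inr 1))) o) := by
      intro o
      have : (fun j => z (.inr (.inr o, j))) = fun j => z' (.inr (.inr o, j)) := funext (e2 o)
      rw [this]
      exact h2' o
    obtain ⟨a, b, c⟩ := params_unique (hz.1.2 0) _ _ h1 h2 h1'' h2''
    funext v
    rcases v with (i | j) | ⟨o | o, j⟩
    · exact congrFun a i
    · fin_cases j
      · exact b
      · exact c
    · exact e1 o j
    · exact e2 o j
  · rintro K _ z ⟨⟨hz1, hz2⟩, hz3⟩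
    have hz3' : ∀ v, nO g v → z v ≠ 0 := fun v hv => hz3 v (by simp [hv])
    obtain ⟨t, x, y, hx, hy, ht, h1, h2⟩ := exists_of_config (g := g)
      (fun o j => z (.inl (o, j))) (fun o j => z (.inr (o, j)))
      (fun j => hz3' (.inl (.u, j)) (.inl rfl)) (fun o => hz3' (.inl (o, cP o)) (.inr rfl))
      (fun o => hz3' (.inr (o, cL g o)) rfl) (fun o j h => hz1 (.inl (o, j)) h)
      (fun o j h => hz1 (.inr (o, j)) h) (fun o l h => by
        have := hz2 o l h
        rwa [Fin.sum_univ_three] at this)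
    have hb : (∀ k, (g k).holds fun i => (Sum.elim t ![x, y] : α ⊕ Fin 2 → K) (.inl i)) ∧
        ∀ k, (Sum.elim t ![x, y] : α ⊕ Fin 2 → K) (.inr k) ≠ 0 := by
      refine ⟨ht, fun k => ?_⟩
      fin_cases k
      · exact hx
      · exact hy
    refine ⟨Sum.elim (Sum.elim t ![x, y]) fun o => o.1.elim (fun p => z (.inl (p, o.2)))
      fun l => z (.inr (l, o.2)), ⟨hb, ?_⟩, ?_⟩
    · rintro (o | o)
      · exact (prp_iff (v := fun j => z (.inl (o, j))) (w := wP g t x y o) (c := cP o)
          (wP_c _ _ _ hx o)).2 (h1 o)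
      · exact (prp_iff (v := fun j => z (.inr (o, j))) (w := wL g t x y o) (c := cL g o)
          (wL_c _ _ _ hx hy o)).2 (h2 o)
    · rintro (⟨o, j⟩ | ⟨o, j⟩) <;> rfl

end core

/-- Universality for orthogonality relations between vectors with three coordinates. -/
theorem good_of_ortho (hS : Saturated L S)
    (hF : ∀ (R C : Type) [Finite R] [Finite C] (T : (R × Fin 3) ⊕ (C × Fin 3) → Prop)
      (N : R → C → Prop), Good m S (ortho T N))
    (ι : Type) [Finite ι] (φ : Form ι) : Good m S fun K _ x => φ.holds x :=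
  good_of_gates (fun _ _ _ _ g => good_gates_of_ortho g hS hF) ι φ

end Pool.Agent.H504.MC
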