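import Pool.Agent.H504.MC.SympUniv
import Pool.Agent.H504.MC.Sharp

/-!
# Representation varieties of right-angled Artin groups in Heisenberg groups
-/

set_option autoImplicit false

namespace Pool.Agent.H504.MC

/-- The Heisenberg group of dimension `2 m + 1`: the triples `(p, q, z)` with
`(p, q, z) (p', q', z') = (p + p', q + q', z + z' + ∑ p_j q'_j)`. -/
@[ext]
structure Heis (m : ℕ) (K : Type) where
  p : Fin m → K
  q : Fin m → K
  z : K

namespace Heis

variable {m : ℕ} {K : Type} [Field K]

instance : Mul (Heis m K) := ⟨fun a b => ⟨a.p + b.p, a.q + b.q, a.z + b.z + ∑ j, a.p j * b.q j⟩⟩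

instance : One (Heis m K) := ⟨⟨0, 0, 0⟩⟩

instance : Inv (Heis m K) := ⟨fun a => ⟨-a.p, -a.q, -a.z + ∑ j, a.p j * a.q j⟩⟩

lemma mul_def (a b : Heis m K) :
    a * b = ⟨a.p + b.p, a.q + b.q, a.z + b.z + ∑ j, a.p j * b.q j⟩ := rfl

lemma one_def : (1 : Heis m K) = ⟨0, 0, 0⟩ := rfl

lemma inv_def (a : Heis m K) : a⁻¹ = ⟨-a.p, -a.q, -a.z + ∑ j, a.p j * a.q j⟩ := rfl

instance : Group (Heis m K) :=
  Group.ofLeftAxioms
    (fun a b c => by
      simp only [mul_def, Pi.add_apply, add_mul, mul_add, Finset.sum_add_distrib]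
      ext
      · simp [add_assoc]
      · simp [add_assoc]
      · simp only
        ring)
    (fun a => by
      simp only [mul_def, one_def]
      ext <;> simp)
    (fun a => by
      simp only [mul_def, one_def, inv_def]
      ext
      · simp
      · simp
      · simp)

lemma mul_comm_iff (a b : Heis m K) :
    a * b = b * a ↔ ∑ j, (a.p j * b.q j - a.q j * b.p j) = 0 := by
  rw [mul_def, mul_def, Heis.mk.injEq, Finset.sum_sub_distrib, sub_eq_zero]
  have h : ∑ j, b.p j * a.q j = ∑ j, a.q j * b.p j := Finset.sum_congr rfl fun j _ => mul_comm _ _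
  rw [h, add_comm b.z a.z, add_right_inj]
  exact ⟨fun h => h.2.2, fun h => ⟨add_comm _ _, add_comm _ _, h⟩⟩

end Heis

/-- The right-angled Artin group of a graph: the generators are the vertices, and adjacent vertices
commute. -/
abbrev Raag {n : ℕ} (Γ : SimpleGraph (Fin n)) : Type :=
  PresentedGroup {r : FreeGroup (Fin n) | ∃ v w, Γ.Adj v w ∧
    r = FreeGroup.of v * FreeGroup.of w * (FreeGroup.of v)⁻¹ * (FreeGroup.of w)⁻¹}

/-- the elements of the Heisenberg group with the given coordinates -/
def heisPt {n m : ℕ} {K : Type} (z : Fin n × Option (Fin m ⊕ Fin m) → K) (v : Fin n) : Heis m K :=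
  ⟨fun j => z (v, some (.inl j)), fun j => z (v, some (.inr j)), z (v, none)⟩

/-- The variety of the homomorphisms of the right-angled Artin group of `Γ` to the Heisenberg group of
dimension `2 m + 1`: the coordinates of the images of the generators. -/
def repLocus (m : ℕ) {n : ℕ} (Γ : SimpleGraph (Fin n)) : Cond (Fin n × Option (Fin m ⊕ Fin m)) :=
  fun K _ z => ∃ f : Raag Γ →* Heis m K, ∀ v, f (PresentedGroup.of v) = heisPt z v

/-- the representation varieties of right-angled Artin groups in the Heisenberg group of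
dimension `2 m + 1` -/
inductive RaagFamily (m : ℕ) : ∀ ι : Type, Cond ι → Prop
  | mk (n : ℕ) (Γ : SimpleGraph (Fin n)) :
      RaagFamily m (Fin n × Option (Fin m ⊕ Fin m)) (repLocus m Γ)

lemma repLocus_iff (m : ℕ) {n : ℕ} (Γ : SimpleGraph (Fin n)) {K : Type} [Field K]
    (z : Fin n × Option (Fin m ⊕ Fin m) → K) :
    repLocus m Γ K z ↔ orthE Γ.Adj K fun v => z (v.1, some v.2) := by
  have hc : ∀ v w, heisPt z v * heisPt z w = heisPt z w * heisPt z v ↔
      om (fun c => z (v, some c)) (fun c => z (w, some c)) = 0 := fun v w =>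
    Heis.mul_comm_iff _ _
  constructor
  · rintro ⟨f, hf⟩ v w hvw
    have h1 : PresentedGroup.of (rels := {r : FreeGroup (Fin n) | ∃ v w, Γ.Adj v w ∧
        r = FreeGroup.of v * FreeGroup.of w * (FreeGroup.of v)⁻¹ * (FreeGroup.of w)⁻¹}) v *
        PresentedGroup.of w = PresentedGroup.of w * PresentedGroup.of v := by
      have h2 := PresentedGroup.one_of_mem (rels := {r : FreeGroup (Fin n) | ∃ v w, Γ.Adj v w ∧
        r = FreeGroup.of v * FreeGroup.of w * (FreeGroup.of v)⁻¹ * (FreeGroup.of w)⁻¹})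
        ⟨v, w, hvw, rfl⟩
      simp only [map_mul, map_inv] at h2
      rw [mul_inv_eq_one, mul_inv_eq_iff_eq_mul] at h2
      exact h2
    have h3 := congrArg f h1
    rw [map_mul, map_mul, hf, hf, hc] at h3
    exact h3
  · intro h
    refine ⟨PresentedGroup.toGroup (f := heisPt z) ?_, fun v => PresentedGroup.toGroup.of _⟩
    rintro _ ⟨v, w, hvw, rfl⟩
    simp only [map_mul, map_inv, FreeGroup.lift_apply_of]
    rw [mul_inv_eq_one, mul_inv_eq_iff_eq_mul, hc]
    exact h v w hvw

variable {V : Type} [AddCommGroup V] {L : V ≃+ V} {m : Measure V L} {S : AddSubgroup V}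

lemma con_repLocus (d : ℕ) {n : ℕ} (Γ : SimpleGraph (Fin n)) : IsCon (repLocus d Γ) :=
  con_congr (con_res (con_orthE Γ.Adj) fun v => (v.1, some v.2)) fun K _ z =>
    (repLocus_iff d Γ z).symm

/-- the central coordinates are free -/
lemma good_repLocus_iff (hS : Saturated L S) (d : ℕ) {n : ℕ} (Γ : SimpleGraph (Fin n)) :
    Good m S (repLocus d Γ) ↔ Good m S (orthE (D := Fin d) Γ.Adj) := by
  rw [← good_aff hS (Fin n) (con_orthE Γ.Adj)]
  let e : ((Fin n × (Fin d ⊕ Fin d)) ⊕ Fin n) ≃ Fin n × Option (Fin d ⊕ Fin d) :=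
    { toFun := Sum.elim (fun v => (v.1, some v.2)) fun v => (v, none)
      invFun := fun v => v.2.elim (.inr v.1) fun j => .inl (v.1, j)
      left_inv := by rintro (⟨v, j⟩ | v) <;> rfl
      right_inv := by rintro ⟨v, _ | j⟩ <;> rfl }
  exact (good_equiv e fun K _ z => repLocus_iff d Γ z).symm

/-- reduction to graphs -/
lemma good_orthE_of_graph {D : Type} [Fintype D]
    (h : ∀ (n : ℕ) (Γ : SimpleGraph (Fin n)), Good m S (orthE (D := D) Γ.Adj))
    (W : Type) [Finite W] (E : W → W → Prop) : Good m S (orthE (D := D) E) := by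
  have _ : Fintype W := Fintype.ofFinite W
  let e := Fintype.equivFin W
  let Γ : SimpleGraph (Fin (Fintype.card W)) :=
    SimpleGraph.fromRel fun a b => E (e.symm a) (e.symm b)
  refine good_reindex (e.prodCongr (Equiv.refl _)) (h _ Γ) fun K _ z => ?_
  constructor
  · intro hz v w hE
    by_cases hvw : v = w
    · rw [hvw]
      exact om_self _
    · refine hz (e v) (e w) ?_
      rw [SimpleGraph.fromRel_adj]
      refine ⟨fun he => hvw (e.injective he), .inl ?_⟩
      simpa using hE
  · intro hz a b hab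
    rw [SimpleGraph.fromRel_adj] at hab
    rcases hab.2 with hE | hE
    · have := hz _ _ hE
      simpa using this
    · have := om_swap_zero (hz _ _ hE)
      simpa using this

theorem generates_raag {d : ℕ} (hd : 2 ≤ d) : Generates (RaagFamily d) := by
  intro V _ L m S hS h ι _ φ
  refine mem_of_good (good_of_orthE hS (D := Fin d) (by rw [Fintype.card_fin]; exact hd)
    (fun W _ E => good_orthE_of_graph (fun n Γ => ?_) W E) ι φ)
  exact (good_repLocus_iff hS d Γ).1 (good_of_family h (.mk n Γ) (con_repLocus d Γ))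

lemma good_true (hS : Saturated L S) (hpt : Good m S pt) (ι : Type) [Finite ι] :
    Good m S fun (K : Type) _ (_ : ι → K) => True :=
  (good_equiv (Equiv.emptySum Empty ι) fun _ _ _ => Iff.rfl).1
    ((good_aff (κ := ι) hS con_pt).2 hpt)

theorem tate_raag {d : ℕ} (hd : d ≤ 1) (V : Type) [AddCommGroup V] (L : V ≃+ V) (m : Measure V L)
    (S : AddSubgroup V) (hS : Saturated L S) (hpt : Good m S pt) (ι : Type) [Finite ι] (X : Cond ι)
    (hX : RaagFamily d ι X) : Good m S X := by
  obtain ⟨n, Γ⟩ := hX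
  rw [good_repLocus_iff hS]
  have hd' : d = 0 ∨ d = 1 := by omega
  rcases hd' with rfl | rfl
  · refine (good_true hS hpt _).congr fun K _ z => ⟨fun _ v w _ => ?_, fun _ => trivial⟩
    rw [om, Finset.univ_eq_empty, Finset.sum_empty]
  · have h1 := good_parBool hS hpt (A := Fin n) fun B => ∀ v w, Γ.Adj v w → B (.inr (v, w))
    let e : (Fin 1 ⊕ Fin 1) ≃ Fin 2 := finSumFinEquiv
    refine good_reindex ((Equiv.refl (Fin n)).prodCongr e) h1 fun K _ z => ?_
    refine forall_congr' fun v => forall_congr' fun w => imp_congr_right fun _ => ?_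
    have e1 : e (.inl 0) = 0 := rfl
    have e2 : e (.inr 0) = 1 := rfl
    change wz z v w = 0 ↔ om (fun c => z (v, e c)) (fun c => z (w, e c)) = 0
    rw [om, Fin.sum_univ_one, e1, e2]
    exact Iff.rfl

theorem generates_raag_iff (d : ℕ) : Generates (RaagFamily d) ↔ 2 ≤ d := by
  refine ⟨fun h => ?_, generates_raag⟩
  by_contra h3
  exact not_generates (fun V _ L m S hS hpt ι _ X hX => tate_raag (by omega) V L m S hS hpt ι X hX) h

end Pool.Agent.H504.MC
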