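import Pool.Agent.H504.MC.Minors

/-!
# Matrices of given rank with prescribed zeros
-/

set_option autoImplicit false

namespace Pool.Agent.H504.MC

open Matrix

variable {V : Type} [AddCommGroup V] {L : V ≃+ V} {m : Measure V L} {S : AddSubgroup V}

/-- from positions that are free or zero to positions that are free, zero or not zero -/
lemma good_nz {ι : Type} [Finite ι] (P : Cond ι)
    (hF : ∀ T : ι → Prop, Good m S fun K _ z => (∀ v, ¬ T v → z v = 0) ∧ P K z) (s : Finset ι) :
    ∀ T : ι → Prop, Good m S fun K _ z =>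
      ((∀ v, ¬ T v → z v = 0) ∧ P K z) ∧ ∀ v ∈ s, z v ≠ 0 := by
  classical
  induction s using Finset.induction_on with
  | empty => exact fun T => (hF T).congr fun K _ z => by simp
  | insert v s hv ih =>
    intro T
    refine (Good.diff (con_eq (isPoly_var v) isPoly_zero) (ih T)
      ((ih fun w => T w ∧ w ≠ v).congr fun K _ z => ?_)).congr fun K _ z => ?_
    · constructor
      · rintro ⟨⟨h1, h2⟩, h3⟩
        exact ⟨⟨⟨fun w hw => h1 w fun h => hw h.1, h2⟩, h3⟩, h1 v fun h => h.2 rfl⟩
      · rintro ⟨⟨⟨h1, h2⟩, h3⟩, h4⟩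
        refine ⟨⟨fun w hw => ?_, h2⟩, h3⟩
        by_cases h : w = v
        · rw [h]; exact h4
        · exact h1 w fun hT => hw ⟨hT, h⟩
    · simp only [Finset.forall_mem_insert]
      tauto

/-- matrices of rank `r` whose entries are zero outside the set `T` -/
def sp {R C : Type} [Fintype C] (T : R × C → Prop) (r : ℕ) : Cond (R × C) := fun _ _ z =>
  (∀ v, ¬ T v → z v = 0) ∧ (Matrix.of fun i j => z (i, j)).rank = r

/-- matrices of rank at most `r` whose entries are zero outside the set `T` -/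
def spLe {R C : Type} [Fintype C] (T : R × C → Prop) (r : ℕ) : Cond (R × C) := fun _ _ z =>
  (∀ v, ¬ T v → z v = 0) ∧ (Matrix.of fun i j => z (i, j)).rank ≤ r

lemma con_zeros {ι : Type} [Finite ι] (T : ι → Prop) :
    IsCon fun K _ (z : ι → K) => ∀ v, ¬ T v → z v = 0 :=
  con_forall fun v => con_imp (con_const _) (con_eq (isPoly_var v) isPoly_zero)

lemma con_sp {R C : Type} [Finite R] [Fintype C] (T : R × C → Prop) (r : ℕ) : IsCon (sp T r) :=
  con_and (con_zeros T) (con_rank (fun v _ _ z => z v) (fun v => isPoly_var v) r)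

lemma con_spLe {R C : Type} [Finite R] [Fintype C] (T : R × C → Prop) (r : ℕ) :
    IsCon (spLe T r) :=
  con_and (con_zeros T) (con_congr (con_not (con_le_rank (fun v _ _ z => z v)
    (fun v => isPoly_var v) (r + 1))) fun K _ z => by rw [Nat.not_le, Nat.lt_succ_iff])

section bordered

variable {K J R C : Type} [Field K] [Fintype J] [DecidableEq J]

/-- the matrix with the blocks `D`, `X`, `Y D` and `Y X`, with `D` diagonal -/
def bord (d : J → K) (Y : R → J → K) (X : C → J → K) : J ⊕ R → J ⊕ C → K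
  | .inl i, .inl j => if i = j then d i else 0
  | .inl i, .inr c => X c i
  | .inr r, .inl i => Y r i * d i
  | .inr r, .inr c => ∑ i, Y r i * X c i

lemma rank_bord [Finite R] [Fintype C] {d : J → K} (hd : ∀ i, d i ≠ 0) (Y : R → J → K)
    (X : C → J → K) : (Matrix.of (bord d Y X)).rank = Fintype.card J := by
  apply le_antisymm
  · have : Matrix.of (bord d Y X) = Matrix.of (fun (a : J ⊕ R) (j : J) => a.elim
        (fun i => if i = j then 1 else 0) fun r => Y r j) * Matrix.of (fun (j : J) (b : J ⊕ C) =>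
        b.elim (fun i => if j = i then d j else 0) fun c => X c j) := by
      ext a b
      rw [Matrix.mul_apply]
      rcases a with i | r <;> rcases b with j | c
      · rcases eq_or_ne i j with rfl | h
        · simp [bord]
        · simp [bord, h]
      · simp [bord]
      · simp [bord]
      · simp [bord]
    rw [this]
    exact (rank_mul_le_left _ _).trans (rank_le_card_width _)
  · have h1 : ((Matrix.of (bord d Y X)).submatrix (Sum.inl : J → J ⊕ R)
        (Sum.inl : J → J ⊕ C)) = Matrix.diagonal d := by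
      ext i j
      simp [bord, Matrix.diagonal_apply]
    have h2 : (Matrix.diagonal d).rank = Fintype.card J := by
      refine rank_of_det_ne_zero ?_
      rw [det_diagonal]
      exact Finset.prod_ne_zero_iff.2 fun i _ => hd i
    rw [← h2, ← h1]
    exact rank_submatrix_le _ _ _

lemma eq_bord [Finite R] [Fintype C] {A : J ⊕ R → J ⊕ C → K} (hd : ∀ i, A (.inl i) (.inl i) ≠ 0)
    (h0 : ∀ i j, i ≠ j → A (.inl i) (.inl j) = 0) (hA : (Matrix.of A).rank = Fintype.card J)
    (r : R) (c : C) : A (.inr r) (.inr c) =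
      ∑ i, A (.inr r) (.inl i) / A (.inl i) (.inl i) * A (.inl i) (.inr c) := by
  let d : J → K := fun i => A (.inl i) (.inl i)
  have h1 := det_eq_zero_of_rank_lt (Matrix.of A) (n := J ⊕ Unit)
    (Sum.elim Sum.inl fun _ => Sum.inr r) (Sum.elim Sum.inl fun _ => Sum.inr c) (by
      rw [hA, Fintype.card_sum, Fintype.card_unit]
      exact Nat.lt_succ_self _)
  have h2 : (Matrix.of A).submatrix (Sum.elim Sum.inl fun _ : Unit => Sum.inr r)
      (Sum.elim Sum.inl fun _ : Unit => Sum.inr c) = Matrix.fromBlocks (Matrix.diagonal d)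
        (Matrix.of fun i _ => A (.inl i) (.inr c)) (Matrix.of fun _ i => A (.inr r) (.inl i))
        (Matrix.of fun _ _ => A (.inr r) (.inr c)) := by
    ext a b
    rcases a with i | _ <;> rcases b with j | _
    · rw [fromBlocks_apply₁₁, diagonal_apply]
      by_cases h : i = j
      · rw [if_pos h, ← h]; rfl
      · rw [if_neg h]; exact h0 i j h
    · rfl
    · rfl
    · rfl
  let _ : Invertible (Matrix.diagonal d) := ⟨Matrix.diagonal fun i => (d i)⁻¹, by
      rw [diagonal_mul_diagonal, ← diagonal_one]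
      congr 1
      funext i
      exact inv_mul_cancel₀ (hd i), by
      rw [diagonal_mul_diagonal, ← diagonal_one]
      congr 1
      funext i
      exact mul_inv_cancel₀ (hd i)⟩
  have hi : ⅟(Matrix.diagonal d) = Matrix.diagonal fun i => (d i)⁻¹ := rfl
  rw [h2, det_fromBlocks₁₁, hi, mul_eq_zero, det_diagonal, det_unique] at h1
  have h3 := h1.resolve_left (Finset.prod_ne_zero_iff.2 fun i _ => hd i)
  rw [Matrix.sub_apply, sub_eq_zero, Matrix.mul_apply] at h3
  refine h3.trans (Finset.sum_congr rfl fun i _ => ?_)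
  rw [Matrix.mul_diagonal, div_eq_mul_inv]
  rfl

end bordered

/-- positions of the bordered matrix -/
def tR {R J C : Type} (T : (R × J) ⊕ (C × J) → Prop) (N : R → C → Prop) :
    (J ⊕ R) × (J ⊕ C) → Prop
  | (.inl i, .inl j) => i = j
  | (.inl i, .inr c) => T (.inr (c, i))
  | (.inr r, .inl i) => T (.inl (r, i))
  | (.inr r, .inr c) => ¬ N r c

/-- Bordered matrices give all orthogonality relations between vectors with coordinates in `J`. -/
theorem good_ortho_of_bord (hS : Saturated L S) {R J C : Type} [Fintype J] [DecidableEq J]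
    [Finite R] [Fintype C] (T : (R × J) ⊕ (C × J) → Prop) (N : R → C → Prop)
    (hA : Good m S fun K _ z => ((∀ v, ¬ tR T N v → z v = 0) ∧
      (Matrix.of fun i j => z (i, j)).rank = Fintype.card J) ∧ ∀ i : J, z (.inl i, .inl i) ≠ 0) :
    Good m S (ortho T N) := by
  classical
  rw [← good_gms hS J (con_ortho T N)]
  have pY : ∀ r j, IsPoly fun K _ (z : ((R × J) ⊕ (C × J)) ⊕ J → K) => z (.inl (.inl (r, j))) :=
    fun r j => isPoly_var _
  have pX : ∀ r j, IsPoly fun K _ (z : ((R × J) ⊕ (C × J)) ⊕ J → K) => z (.inl (.inr (r, j))) :=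
    fun r j => isPoly_var _
  have pd : ∀ j, IsPoly fun K _ (z : ((R × J) ⊕ (C × J)) ⊕ J → K) => z (.inr j) :=
    fun j => isPoly_var _
  refine (good_bij (con_and (con_res (con_ortho T N) _) (con_forall fun k => con_ne (isPoly_var _)
    isPoly_zero)) hA.1 (fun v _ _ z => bord (fun i => z (.inr i)) (fun r j => z (.inl (.inl (r, j))))
      (fun c j => z (.inl (.inr (c, j)))) v.1 v.2) ?_ ?_ ?_ ?_).2 hA
  · rintro ⟨i | r, j | c⟩
    · by_cases h : i = j
      · simp only [bord, if_pos h]; exact pd i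
      · simp only [bord, if_neg h]; exact isPoly_zero
    · exact pX c i
    · exact (pY r j).mul (pd j)
    · exact isPoly_sum _ fun i => (pY r i).mul (pX c i)
  · rintro K _ z ⟨⟨hz, hr⟩, hd⟩
    refine ⟨⟨?_, rank_bord hd _ _⟩, ?_⟩
    · rintro ⟨i | r, j | c⟩ hv
      · exact if_neg hv
      · exact hz (.inr (c, i)) hv
      · exact mul_eq_zero_of_left (hz (.inl (r, j)) hv) _
      · exact hr r c (not_not.1 hv)
    · intro i
      simp only [bord, if_true]
      exact hd i
  · rintro K _ z z' ⟨⟨hz, hr⟩, hd⟩ ⟨⟨hz', hr'⟩, hd'⟩ heq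
    have e1 : ∀ i, z (.inr i) = z' (.inr i) := fun i => by
      have := heq (.inl i, .inl i)
      simpa [bord] using this
    funext v
    rcases v with (⟨r, j⟩ | ⟨c, j⟩) | i
    · have : z (.inl (.inl (r, j))) * z (.inr j) = z' (.inl (.inl (r, j))) * z' (.inr j) :=
        heq (.inr r, .inl j)
      rw [← e1 j] at this
      exact mul_right_cancel₀ (hd j) this
    · exact heq (.inl j, .inr c)
    · exact e1 i
  · rintro K _ y ⟨⟨hy, hr⟩, hd⟩
    have hW := eq_bord (A := fun a b => y (a, b)) hd (fun i j h => hy (.inl i, .inl j) h) hr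
    refine ⟨Sum.elim (Sum.elim (fun v => y (.inr v.1, .inl v.2) / y (.inl v.2, .inl v.2))
      fun v => y (.inl v.2, .inr v.1)) fun i => y (.inl i, .inl i), ⟨⟨?_, ?_⟩, hd⟩, ?_⟩
    · rintro (⟨r, j⟩ | ⟨c, j⟩) hv
      · change y (.inr r, .inl j) / _ = 0
        rw [hy (.inr r, .inl j) hv, zero_div]
      · exact hy (.inl j, .inr c) hv
    · intro r c hrc
      refine (hW r c).symm.trans ?_
      exact hy (.inr r, .inr c) (not_not.2 hrc)
    · rintro ⟨i | r, j | c⟩
      · by_cases h : i = j
        · subst h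
          simp [bord]
        · simp only [bord, if_neg h]
          exact (hy (.inl i, .inl j) h).symm
      · rfl
      · change y (.inr r, .inl j) / y (.inl j, .inl j) * y (.inl j, .inl j) = _
        exact div_mul_cancel₀ _ (hd j)
      · exact (hW r c).symm

/-- Sparse matrices with `D` diagonal and invertible and of rank `#J` give all orthogonality relations
between vectors with coordinates in `J`. -/
theorem good_ortho_of_rank (hS : Saturated L S) {R J C : Type} [Fintype J] [DecidableEq J]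
    [Finite R] [Fintype C] (P : Cond ((J ⊕ R) × (J ⊕ C)))
    (hP : ∀ (K : Type) [Field K] (z : (J ⊕ R) × (J ⊕ C) → K), (∀ i, z (.inl i, .inl i) ≠ 0) →
      (∀ i j, i ≠ j → z (.inl i, .inl j) = 0) →
      (P K z ↔ (Matrix.of fun i j => z (i, j)).rank = Fintype.card J))
    (h : ∀ T : (J ⊕ R) × (J ⊕ C) → Prop, Good m S fun K _ z => (∀ v, ¬ T v → z v = 0) ∧ P K z)
    (T : (R × J) ⊕ (C × J) → Prop) (N : R → C → Prop) : Good m S (ortho T N) := by
  classical
  have hA0 := good_nz P h
    (Finset.univ.image fun i : J => ((.inl i, .inl i) : (J ⊕ R) × (J ⊕ C))) (tR T N)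
  have hA : Good m S fun K _ z => ((∀ v, ¬ tR T N v → z v = 0) ∧
      (Matrix.of fun i j => z (i, j)).rank = Fintype.card J) ∧ ∀ i : J, z (.inl i, .inl i) ≠ 0 := by
    refine hA0.congr fun K _ z => ?_
    simp only [Finset.forall_mem_image, Finset.mem_univ, true_imp_iff]
    constructor
    · rintro ⟨⟨h1, h2⟩, h3⟩
      exact ⟨⟨h1, (hP K z (fun i => @h3 i) fun i j hij => h1 (.inl i, .inl j) hij).1 h2⟩,
        fun i => @h3 i⟩
    · rintro ⟨⟨h1, h2⟩, h3⟩
      refine ⟨⟨h1, (hP K z h3 fun i j hij => h1 (.inl i, .inl j) hij).2 h2⟩, ?_⟩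
      intro i
      exact @h3 i
  exact good_ortho_of_bord hS T N hA

/-- fewer coordinates -/
lemma good_ortho_inj {R J J' C : Type} [Fintype J] [Fintype J'] [Finite R] [Finite C] (e : J → J')
    (he : Function.Injective e) {N : R → C → Prop}
    (h : ∀ T : (R × J') ⊕ (C × J') → Prop, Good m S (ortho T N))
    (T : (R × J) ⊕ (C × J) → Prop) : Good m S (ortho T N) := by
  classical
  let T' : (R × J') ⊕ (C × J') → Prop := Sum.elim (fun v => ∃ j, e j = v.2 ∧ T (.inl (v.1, j)))
    fun v => ∃ j, e j = v.2 ∧ T (.inr (v.1, j))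
  have hs : ∀ (K : Type) [Field K] (z : (R × J') ⊕ (C × J') → K), (∀ v, ¬ T' v → z v = 0) →
      ∀ r c, ∑ j, z (.inl (r, j)) * z (.inr (c, j)) =
        ∑ j, z (.inl (r, e j)) * z (.inr (c, e j)) := by
    intro K _ z hz r c
    refine (Finset.sum_of_injOn e he.injOn (fun _ _ => Finset.mem_univ _) (fun j' _ hj' => ?_)
      fun j _ => rfl).symm
    rw [hz (.inl (r, j')) fun ⟨j, hj, _⟩ => hj' ⟨j, Finset.mem_coe.2 (Finset.mem_univ _), hj⟩, zero_mul]
  refine (good_bij (h T').1 (con_ortho T N) (fun v _ _ z => z (v.map (Prod.map id e)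
    (Prod.map id e))) (fun v => isPoly_var _) ?_ ?_ ?_).1 (h T')
  · rintro K _ z ⟨hz, hr⟩
    refine ⟨?_, fun r c hrc => ?_⟩
    · rintro (⟨r, j⟩ | ⟨c, j⟩) hv
      · refine hz (.inl (r, e j)) fun ⟨j', hj, hT⟩ => hv ?_
        rw [← he hj]; exact hT
      · refine hz (.inr (c, e j)) fun ⟨j', hj, hT⟩ => hv ?_
        rw [← he hj]; exact hT
    · exact (hs K z hz r c).symm.trans (hr r c hrc)
  · rintro K _ z z' ⟨hz, hr⟩ ⟨hz', hr'⟩ heq
    funext v
    rcases v with ⟨r, j⟩ | ⟨c, j⟩
    · by_cases hj : ∃ j', e j' = j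
      · obtain ⟨j', rfl⟩ := hj
        exact heq (.inl (r, j'))
      · rw [hz (.inl (r, j)) fun ⟨j', h1, _⟩ => hj ⟨j', h1⟩,
          hz' (.inl (r, j)) fun ⟨j', h1, _⟩ => hj ⟨j', h1⟩]
    · by_cases hj : ∃ j', e j' = j
      · obtain ⟨j', rfl⟩ := hj
        exact heq (.inr (c, j'))
      · rw [hz (.inr (c, j)) fun ⟨j', h1, _⟩ => hj ⟨j', h1⟩,
          hz' (.inr (c, j)) fun ⟨j', h1, _⟩ => hj ⟨j', h1⟩]
  · rintro K _ y ⟨hy, hr⟩
    let z : (R × J') ⊕ (C × J') → K := Sum.elim
      (fun v => if hj : ∃ j, e j = v.2 then y (.inl (v.1, hj.choose)) else 0)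
      fun v => if hj : ∃ j, e j = v.2 then y (.inr (v.1, hj.choose)) else 0
    have h1 : ∀ r j, z (.inl (r, e j)) = y (.inl (r, j)) := by
      intro r j
      have hj : ∃ j', e j' = e j := ⟨j, rfl⟩
      simp only [z, Sum.elim_inl, dif_pos hj]
      rw [he hj.choose_spec]
    have h2 : ∀ r j, z (.inr (r, e j)) = y (.inr (r, j)) := by
      intro r j
      have hj : ∃ j', e j' = e j := ⟨j, rfl⟩
      simp only [z, Sum.elim_inr, dif_pos hj]
      rw [he hj.choose_spec]
    have h3 : ∀ v, ¬ T' v → z v = 0 := by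
      rintro (⟨r, j⟩ | ⟨c, j⟩) hv
      · by_cases hj : ∃ j', e j' = j
        · obtain ⟨j', rfl⟩ := hj
          rw [h1]
          exact hy _ fun hT => hv ⟨j', rfl, hT⟩
        · simp only [z, Sum.elim_inl, dif_neg hj]
      · by_cases hj : ∃ j', e j' = j
        · obtain ⟨j', rfl⟩ := hj
          rw [h2]
          exact hy _ fun hT => hv ⟨j', rfl, hT⟩
        · simp only [z, Sum.elim_inr, dif_neg hj]
    refine ⟨z, ⟨h3, fun r c hrc => ?_⟩, ?_⟩
    · rw [hs K z h3 r c]
      simp only [h1, h2]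
      exact hr r c hrc
    · rintro (⟨r, j⟩ | ⟨c, j⟩)
      · exact h1 r j
      · exact h2 c j

/-- **Universality of sparse matrices of rank `r ≥ 3`.** -/
theorem good_of_sp (hS : Saturated L S) {r : ℕ} (hr : 3 ≤ r)
    (h : ∀ (R C : Type) [Fintype R] [Fintype C] (T : R × C → Prop), Good m S (sp T r))
    (ι : Type) [Finite ι] (φ : Form ι) : Good m S fun K _ x => φ.holds x := by
  refine good_of_ortho hS (fun R C _ _ T N => ?_) ι φ
  have _ : Fintype R := Fintype.ofFinite R
  have _ : Fintype C := Fintype.ofFinite C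
  exact good_ortho_inj (Fin.castLE hr) (Fin.castLE_injective hr) (fun T => good_ortho_of_rank hS
    (J := Fin r) _ (fun K _ z _ _ => by rw [Fintype.card_fin])
    (fun T => h (Fin r ⊕ R) (Fin r ⊕ C) T) T N) T

/-- **Universality of sparse matrices of rank at most `r`, where `r ≥ 3`.** -/
theorem good_of_spLe (hS : Saturated L S) {r : ℕ} (hr : 3 ≤ r)
    (h : ∀ (R C : Type) [Fintype R] [Fintype C] (T : R × C → Prop), Good m S (spLe T r))
    (ι : Type) [Finite ι] (φ : Form ι) : Good m S fun K _ x => φ.holds x := by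
  refine good_of_ortho hS (fun R C _ _ T N => ?_) ι φ
  have _ : Fintype R := Fintype.ofFinite R
  have _ : Fintype C := Fintype.ofFinite C
  refine good_ortho_inj (Fin.castLE hr) (Fin.castLE_injective hr) (fun T => good_ortho_of_rank hS
    (J := Fin r) _ (fun K _ z h1 h2 => ?_)
    (fun T => h (Fin r ⊕ R) (Fin r ⊕ C) T) T N) T
  have h3 : ((Matrix.of fun i j => z (i, j)).submatrix (Sum.inl : Fin r → Fin r ⊕ R)
      (Sum.inl : Fin r → Fin r ⊕ C)) = Matrix.diagonal fun i => z (.inl i, .inl i) := by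
    ext i j
    rw [Matrix.diagonal_apply]
    by_cases h4 : i = j
    · rw [if_pos h4, ← h4]; rfl
    · rw [if_neg h4]; exact h2 i j h4
  have h5 : (Matrix.diagonal fun i => z (.inl i, .inl i) : Matrix (Fin r) (Fin r) K).rank =
      Fintype.card (Fin r) := by
    refine rank_of_det_ne_zero ?_
    rw [det_diagonal]
    exact Finset.prod_ne_zero_iff.2 fun i _ => h1 i
  have h6 := rank_submatrix_le (Matrix.of fun i j => z (i, j)) (Sum.inl : Fin r → Fin r ⊕ R)
      (Sum.inl : Fin r → Fin r ⊕ C)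
  rw [h3, h5] at h6
  constructor
  · intro h7
    exact le_antisymm (h7.trans (Fintype.card_fin r).ge) h6
  · intro h7
    exact h7.le.trans (Fintype.card_fin r).le

end Pool.Agent.H504.MC
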