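import Pool.Agent.H504.MC.Rank

/-!
# Invertible matrices with prescribed zeros
-/

set_option autoImplicit false

namespace Pool.Agent.H504.MC

open Matrix Module

section field

variable {K R C : Type} [Field K] [Finite R] [Fintype C]

lemma card_le_rank {A : Matrix R C K} {r : ℕ} {g : Fin r → C}
    (hg : LinearIndependent K fun j => A.col (g j)) (hr : A.rank = r) (c : C) :
    ∃ x : Fin r → K, ∀ i, A i c = ∑ j, x j * A i (g j) := by
  have h1 : Submodule.span K (Set.range fun j => A.col (g j)) ≤
      Submodule.span K (Set.range A.col) :=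
    Submodule.span_mono (by rintro _ ⟨j, rfl⟩; exact ⟨g j, rfl⟩)
  have h2 : finrank K (Submodule.span K (Set.range fun j => A.col (g j))) =
      finrank K (Submodule.span K (Set.range A.col)) := by
    rw [finrank_span_eq_card hg, ← rank_eq_finrank_span_cols, hr, Fintype.card_fin]
  have _ : FiniteDimensional K (Submodule.span K (Set.range A.col)) :=
    FiniteDimensional.span_of_finite K (Set.finite_range _)
  have h3 := Submodule.eq_of_le_of_finrank_eq h1 h2
  have h4 : A.col c ∈ Submodule.span K (Set.range fun j => A.col (g j)) := by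
    rw [h3]
    exact Submodule.subset_span ⟨c, rfl⟩
  rw [Submodule.mem_span_range_iff_exists_fun] at h4
  obtain ⟨x, hx⟩ := h4
  refine ⟨x, fun i => ?_⟩
  have := congrFun hx i
  rw [Finset.sum_apply] at this
  exact this.symm

/-- one more column -/
def addCol (A : R → C → K) (v : R → K) : R → Option C → K := fun i c => c.elim (v i) (A i)

lemma range_addCol (A : R → C → K) (v : R → K) :
    Set.range (Matrix.of (addCol A v)).col = insert v (Set.range (Matrix.of A).col) := by
  ext w
  constructor
  · rintro ⟨_ | c, rfl⟩
    · exact .inl rfl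
    · exact .inr ⟨c, rfl⟩
  · rintro (rfl | ⟨c, rfl⟩)
    · exact ⟨none, rfl⟩
    · exact ⟨some c, rfl⟩

lemma rank_le_addCol (A : R → C → K) (v : R → K) :
    (Matrix.of A).rank ≤ (Matrix.of (addCol A v)).rank :=
  rank_submatrix_le (Matrix.of (addCol A v)) id some

lemma addCol_rank_le (A : R → C → K) (v : R → K) :
    (Matrix.of (addCol A v)).rank ≤ (Matrix.of A).rank + 1 := by
  have _ : FiniteDimensional K (Submodule.span K (Set.range (Matrix.of A).col)) :=
    FiniteDimensional.span_of_finite K (Set.finite_range _)
  rw [rank_eq_finrank_span_cols, rank_eq_finrank_span_cols, range_addCol, Submodule.span_insert,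
    add_comm]
  refine (Submodule.finrank_add_le_finrank_add_finrank _ _).trans ?_
  refine Nat.add_le_add_right ?_ _
  exact (finrank_span_le_card ({v} : Set (R → K))).trans (by simp)

lemma rank_addCol_of_comb (A : R → C → K) {r : ℕ} (g : Fin r → C) (x : Fin r → K) :
    (Matrix.of (addCol A fun i => ∑ j, x j * A i (g j))).rank = (Matrix.of A).rank := by
  rw [rank_eq_finrank_span_cols, rank_eq_finrank_span_cols, range_addCol]
  rw [Submodule.span_insert_eq_span]
  have : (fun i => ∑ j, x j * A i (g j)) = ∑ j, x j • (Matrix.of A).col (g j) := by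
    funext i
    rw [Finset.sum_apply]
    rfl
  rw [this]
  exact Submodule.sum_mem _ fun j _ => Submodule.smul_mem _ _ (Submodule.subset_span ⟨g j, rfl⟩)

lemma independent_of_det {A : R → C → K} {r : ℕ} {f : Fin r → R} {g : Fin r → C}
    (h : ((Matrix.of A).submatrix f g).det ≠ 0) :
    LinearIndependent K fun j => (Matrix.of A).col (g j) := by
  have h1 := linearIndependent_cols_of_det_ne_zero h
  exact LinearIndependent.of_comp (LinearMap.funLeft K K f) h1

end field

variable {V : Type} [AddCommGroup V] {L : V ≃+ V} {m : Measure V L} {S : AddSubgroup V}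

section column

variable {R C : Type} [Finite R] [Fintype C]

/-- pairs of a matrix that satisfies `P` and a column such that the matrix with this additional column
has rank `r` -/
def withCol (P : Cond (R × C)) (r : ℕ) : Cond ((R × C) ⊕ R) := fun K _ z =>
  (P K fun v => z (.inl v)) ∧
    (Matrix.of (addCol (fun i c => z (.inl (i, c))) fun i => z (.inr i))).rank = r

lemma con_withCol {P : Cond (R × C)} (hP : IsCon P) (r : ℕ) : IsCon (withCol P r) := by
  refine con_and (con_res hP _) (con_congr (con_rank (R := R) (C := Option C)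
    (fun v _ _ z => v.2.elim (z (.inr v.1)) fun c => z (.inl (v.1, c))) ?_ r) fun K _ z => ?_)
  · rintro ⟨i, _ | c⟩
    · exact isPoly_var _
    · exact isPoly_var _
  · have : (Matrix.of (addCol (fun i c => z (.inl (i, c))) fun i => z (.inr i)) :
        Matrix R (Option C) K) = Matrix.of fun i (j : Option C) =>
          j.elim (z (.inr i)) fun c => z (.inl (i, c)) := by
      ext i (_ | c) <;> rfl
    rw [this]

lemma iter_add {V : Type} [AddCommGroup V] (L : V ≃+ V) (n : ℕ) (a b : V) :
    (⇑L)^[n] (a + b) = (⇑L)^[n] a + (⇑L)^[n] b := by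
  induction n generalizing a b with
  | zero => rfl
  | succ n ih => rw [Function.iterate_succ_apply, Function.iterate_succ_apply,
      Function.iterate_succ_apply, map_add, ih]

lemma iter_sub {V : Type} [AddCommGroup V] (L : V ≃+ V) (n : ℕ) (a b : V) :
    (⇑L)^[n] (a - b) = (⇑L)^[n] a - (⇑L)^[n] b := by
  induction n generalizing a b with
  | zero => rfl
  | succ n ih => rw [Function.iterate_succ_apply, Function.iterate_succ_apply,
      Function.iterate_succ_apply, map_sub, ih]

lemma iter_zero {V : Type} [AddCommGroup V] (L : V ≃+ V) (n : ℕ) : (⇑L)^[n] 0 = 0 := by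
  induction n with
  | zero => rfl
  | succ n ih => rw [Function.iterate_succ_apply, map_zero, ih]

/-- columns in the span of the columns of a matrix of rank `r` form an affine space of dimension
`r` -/
lemma val_withCol_eq (m : Measure V L) {r : ℕ} {P : Cond (R × C)} (hP : IsCon P)
    (hr : ∀ (K : Type) [Field K] (z : R × C → K), P K z →
      (Matrix.of fun i c => z (i, c)).rank = r) :
    m.val (withCol P r) = (⇑L)^[r] (m.val P) := by
  classical
  have key : ∀ s : Finset ((Fin r → R) × (Fin r → C)), ∀ P : Cond (R × C), IsCon P →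
      (∀ (K : Type) [Field K] (z : R × C → K), P K z →
        (Matrix.of fun i c => z (i, c)).rank = r ∧
        ∃ a ∈ s, ((Matrix.of fun i c => z (i, c)).submatrix a.1 a.2).det ≠ 0) →
      m.val (withCol P r) = (⇑L)^[r] (m.val P) := by
    intro s
    induction s using Finset.induction_on with
    | empty =>
      intro P hP h
      have h1 : m.val P = 0 := m.val_false fun K _ z hz => by simpa using (h K z hz).2
      have h2 : m.val (withCol P r) = 0 :=
        m.val_false fun K _ z hz => by simpa using (h K _ hz.1).2
      rw [h1, h2, iter_zero]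
    | insert a s ha ih =>
      intro P hP h
      let Z : Cond (R × C) := fun K _ z =>
        ((Matrix.of fun i c => z (i, c)).submatrix a.1 a.2).det = 0
      have hZ : IsCon Z := con_eq (isPoly_det fun i j => isPoly_var (a.1 i, a.2 j)) isPoly_zero
      have h1 := ih (fun K _ z => P K z ∧ Z K z) (con_and hP hZ) (by
        intro K _ z hz
        obtain ⟨h1, b, hb, hb'⟩ := h K z hz.1
        rcases Finset.mem_insert.1 hb with rfl | hb
        · exact (hb' hz.2).elim
        · exact ⟨h1, b, hb, hb'⟩)
      have h2 : m.val (withCol (fun K _ z => P K z ∧ ¬ Z K z) r) =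
          (⇑L)^[r] (m.val fun K _ z => P K z ∧ ¬ Z K z) := by
        have hc : IsCon fun K _ z => P K z ∧ ¬ Z K z := con_and hP (con_not hZ)
        have h3 := m.val_aff (Fin r) hc
        rw [Nat.card_eq_fintype_card, Fintype.card_fin] at h3
        rw [← h3]
        refine (m.val_bij (con_res hc _) (con_withCol hc r) (fun v _ _ z => v.elim
          (fun v => z (.inl v)) fun i => ∑ j, z (.inr j) * z (.inl (i, a.2 j))) ?_ ?_ ?_ ?_).symm
        · rintro (v | i)
          · exact isPoly_var _
          · exact isPoly_sum _ fun j => (isPoly_var _).mul (isPoly_var _)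
        · intro K _ z hz
          refine ⟨hz, ?_⟩
          have := rank_addCol_of_comb (fun i c => z (.inl (i, c))) a.2 fun j => z (.inr j)
          exact this.trans (h K _ hz.1).1
        · intro K _ z z' hz hz' heq
          have e1 : ∀ v, z (.inl v) = z' (.inl v) := fun v => heq (.inl v)
          have e2 : ∀ i, ∑ j, z (.inr j) * z (.inl (i, a.2 j)) =
            ∑ j, z' (.inr j) * z' (.inl (i, a.2 j)) := fun i => heq (.inr i)
          have hli := independent_of_det (A := fun i c => z (.inl (i, c))) hz.2
          rw [Fintype.linearIndependent_iff] at hli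
          have h4 := hli (fun j => z (.inr j) - z' (.inr j)) (by
            funext i
            rw [Finset.sum_apply]
            have h5 := e2 i
            simp only [← e1] at h5
            change ∑ j, (z (.inr j) - z' (.inr j)) * z (.inl (i, a.2 j)) = 0
            simp only [sub_mul, Finset.sum_sub_distrib]
            exact sub_eq_zero.2 h5)
          funext v
          rcases v with v | j
          · exact e1 v
          · exact sub_eq_zero.1 (h4 j)
        · rintro K _ y ⟨hy, hrk⟩
          have hli := independent_of_det (A := fun i c => y (.inl (i, c))) hy.2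
          have hli' : LinearIndependent K fun j => (Matrix.of (addCol
              (fun i c => y (.inl (i, c))) fun i => y (.inr i))).col (some (a.2 j)) := hli
          obtain ⟨x, hx⟩ := card_le_rank hli' hrk none
          refine ⟨Sum.elim (fun v => y (.inl v)) x, hy, ?_⟩
          rintro (v | i)
          · rfl
          · exact (hx i).symm
      have e1 := m.val_split hP hZ
      have e2 := m.val_split (con_withCol hP r) (con_res hZ (Sum.inl : R × C → (R × C) ⊕ R))
      rw [e1, iter_add, ← h1, ← h2, e2]
      congr 1
      · exact m.val_congr fun K _ z => by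
          simp only [withCol]
          tauto
      · exact m.val_congr fun K _ z => by
          simp only [withCol]
          tauto
  have _ : Fintype ((Fin r → R) × (Fin r → C)) := Fintype.ofFinite _
  refine key Finset.univ P hP fun K _ z hz => ⟨hr K z hz, ?_⟩
  obtain ⟨f, g, h⟩ := (le_rank_iff (Matrix.of fun i c => z (i, c)) r).1 (hr K z hz).ge
  exact ⟨(f, g), Finset.mem_univ _, h⟩

/-- one more column without prescribed zeros -/
def tC {R C : Type} (T : R × C → Prop) : R × Option C → Prop := fun v =>
  v.2.elim True fun c => T (v.1, c)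

/-- the measures of rank strata and an additional column -/
lemma val_col (m : Measure V L) (T : R × C → Prop) (r : ℕ) :
    m.val (sp (tC T) (r + 1)) = (⇑L)^[r + 1] (m.val (sp T (r + 1))) +
      ((⇑L)^[Nat.card R] (m.val (sp T r)) - (⇑L)^[r] (m.val (sp T r))) := by
  classical
  let Z : Cond ((R × C) ⊕ R) := fun K _ z => (∀ v, ¬ T v → z (.inl v) = 0) ∧
    (Matrix.of (addCol (fun i c => z (.inl (i, c))) fun i => z (.inr i))).rank = r + 1
  have hZ : IsCon Z := con_withCol (con_zeros T) (r + 1)
  have h0 : m.val (sp (tC T) (r + 1)) = m.val Z := by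
    refine m.val_bij (con_sp _ _) hZ (fun v _ _ z => z (v.elim (fun v => (v.1, some v.2))
      fun i => (i, none))) (fun v => isPoly_var _) ?_ ?_ ?_
    · rintro K _ z ⟨hz, hr⟩
      refine ⟨fun v hv => hz (v.1, some v.2) hv, ?_⟩
      have e : (Matrix.of (addCol (fun i c => z (i, some c)) fun i => z (i, none)) :
          Matrix R (Option C) K) = Matrix.of fun i c => z (i, c) := by
        ext i (_ | c) <;> rfl
      rw [← hr, ← e]
      rfl
    · intro K _ z z' _ _ heq
      funext v
      rcases v with ⟨i, _ | c⟩
      · exact heq (.inr i)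
      · exact heq (.inl (i, c))
    · rintro K _ y ⟨hy, hr⟩
      refine ⟨fun v => v.2.elim (y (.inr v.1)) fun c => y (.inl (v.1, c)), ⟨?_, ?_⟩, ?_⟩
      · rintro ⟨i, _ | c⟩ hv
        · exact (hv trivial).elim
        · exact hy (i, c) hv
      · have e : (Matrix.of (addCol (fun i c => y (.inl (i, c))) fun i => y (.inr i)) :
            Matrix R (Option C) K) = Matrix.of fun i (c : Option C) =>
              c.elim (y (.inr i)) fun c => y (.inl (i, c)) := by
          ext i (_ | c) <;> rfl
        rw [← hr, e]
      · rintro (⟨i, c⟩ | i) <;> rfl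
  have h1 := m.val_split hZ (con_res (con_sp T (r + 1)) (Sum.inl : R × C → (R × C) ⊕ R))
  have h2 : m.val (fun K _ (z : (R × C) ⊕ R → K) => Z K z ∧ sp T (r + 1) K fun v => z (.inl v)) =
      (⇑L)^[r + 1] (m.val (sp T (r + 1))) := by
    rw [← val_withCol_eq m (con_sp T (r + 1)) fun K _ z hz => hz.2]
    refine m.val_congr fun K _ z => ?_
    simp only [Z, withCol, sp]
    tauto
  have h3 : m.val (fun K _ (z : (R × C) ⊕ R → K) => Z K z ∧ ¬ sp T (r + 1) K fun v => z (.inl v)) =
      (⇑L)^[Nat.card R] (m.val (sp T r)) - (⇑L)^[r] (m.val (sp T r)) := by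
    have h4 := m.val_split (con_res (con_sp T r) (Sum.inl : R × C → (R × C) ⊕ R))
      (con_withCol (con_zeros T) r)
    rw [m.val_aff R (con_sp T r)] at h4
    have h5 : m.val (fun K _ (z : (R × C) ⊕ R → K) => (sp T r K fun v => z (.inl v)) ∧
        withCol (fun K _ (z : R × C → K) => ∀ v, ¬ T v → z v = 0) r K z) =
        (⇑L)^[r] (m.val (sp T r)) := by
      rw [← val_withCol_eq m (con_sp T r) fun K _ z hz => hz.2]
      refine m.val_congr fun K _ z => ?_
      simp only [withCol, sp]
      tauto
    rw [h5] at h4
    rw [h4, add_sub_cancel_left]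
    refine m.val_congr fun K _ z => ?_
    have h6 := rank_le_addCol (fun i c => z (.inl (i, c))) fun i => z (.inr i)
    have h7 := addCol_rank_le (fun i c => z (.inl (i, c))) fun i => z (.inr i)
    simp only [Z, withCol, sp]
    constructor
    · rintro ⟨⟨h8, h9⟩, h10⟩
      have h11 : (Matrix.of fun i c => z (.inl (i, c))).rank = r := by
        have h12 : (Matrix.of fun i c => z (.inl (i, c))).rank ≠ r + 1 := fun h => h10 ⟨h8, h⟩
        omega
      refine ⟨⟨h8, h11⟩, fun h13 => ?_⟩
      have := h13.2
      omega
    · rintro ⟨⟨h8, h9⟩, h10⟩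
      have h11 : (Matrix.of (addCol (fun i c => z (.inl (i, c))) fun i => z (.inr i))).rank ≠ r :=
        fun h => h10 ⟨h8, h⟩
      refine ⟨⟨h8, by omega⟩, fun h13 => ?_⟩
      have := h13.2
      omega
  rw [h0, h1, h2, h3]

lemma good_col (hS : Saturated L S) {T : R × C → Prop} {r : ℕ} (hr : r < Nat.card R)
    (h1 : Good m S (sp (tC T) (r + 1))) (h2 : Good m S (sp T (r + 1))) : Good m S (sp T r) := by
  refine ⟨con_sp T r, ?_⟩
  have key : ∀ (n : ℕ) (v : V), (⇑L)^[n] v ∈ S ↔ v ∈ S := by
    intro n
    induction n with
    | zero => intro v; exact Iff.rfl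
    | succ n ih => intro v; rw [Function.iterate_succ_apply', hS.line, ih]
  have h := val_col m T r
  have h3 : (⇑L)^[Nat.card R] (m.val (sp T r)) - (⇑L)^[r] (m.val (sp T r)) ∈ S := by
    have : (⇑L)^[Nat.card R] (m.val (sp T r)) - (⇑L)^[r] (m.val (sp T r)) =
        m.val (sp (tC T) (r + 1)) - (⇑L)^[r + 1] (m.val (sp T (r + 1))) := by
      rw [h]
      abel
    rw [this]
    exact S.sub_mem h1.2 ((key _ _).2 h2.2)
  obtain ⟨k, hk⟩ := Nat.exists_eq_add_of_lt hr
  have h4 : Nat.card R = r + (k + 1) := by omega
  rw [h4, Function.iterate_add_apply, ← iter_sub, key] at h3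
  exact hS.pow k _ h3

end column

/-- invertible matrices whose entries are zero outside the set `T` -/
def inv {ν : Type} [Fintype ν] [DecidableEq ν] (T : ν × ν → Prop) : Cond (ν × ν) := fun _ _ z =>
  (∀ v, ¬ T v → z v = 0) ∧ (Matrix.of fun i j => z (i, j)).det ≠ 0

lemma con_inv {ν : Type} [Fintype ν] [DecidableEq ν] (T : ν × ν → Prop) : IsCon (inv T) :=
  con_and (con_zeros T) (con_ne (isPoly_det fun i j => isPoly_var (i, j)) isPoly_zero)

lemma good_transpose {R C : Type} [Fintype R] [Fintype C] {T : R × C → Prop} {r : ℕ}
    (h : Good m S (sp (fun v : C × R => T (v.2, v.1)) r)) : Good m S (sp T r) := by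
  refine (good_bij (con_sp _ _) (con_sp _ _) (fun v _ _ z => z (v.2, v.1))
    (fun v => isPoly_var _) ?_ ?_ ?_).2 h
  · rintro K _ z ⟨hz, hr⟩
    refine ⟨fun v hv => hz (v.2, v.1) hv, ?_⟩
    rw [← hr, ← rank_transpose]
    rfl
  · intro K _ z z' _ _ heq
    funext v
    exact heq (v.2, v.1)
  · rintro K _ y ⟨hy, hr⟩
    refine ⟨fun v => y (v.2, v.1), ⟨fun v hv => hy (v.2, v.1) hv, ?_⟩, fun v => rfl⟩
    rw [← hr, ← rank_transpose]
    rfl

lemma good_sp_of_inv (hS : Saturated L S)
    (h : ∀ (ν : Type) [Fintype ν] [DecidableEq ν] (T : ν × ν → Prop), Good m S (inv T))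
    (R C : Type) [Fintype R] [Fintype C] (T : R × C → Prop) (r : ℕ) : Good m S (sp T r) := by
  classical
  -- square matrices of full rank
  have h0 : ∀ (R C : Type) [Fintype R] [Fintype C] (T : R × C → Prop),
      Fintype.card R = Fintype.card C → Good m S (sp T (Fintype.card R)) := by
    intro R C _ _ T hRC
    let e : R ≃ C := Fintype.equivOfCardEq hRC
    have hr : ∀ (K : Type) [Field K] (A : Matrix R R K), A.det ≠ 0 ↔ A.rank = Fintype.card R := by
      intro K _ A
      constructor
      · exact rank_of_det_ne_zero
      · intro hA h0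
        have h1 := (le_rank_iff A (Fintype.card R)).1 hA.ge
        obtain ⟨f, g, hfg⟩ := h1
        refine hfg ?_
        have h2 : LinearIndependent K A.row := by
          rw [linearIndependent_iff_card_eq_finrank_span, ← hA, rank_eq_finrank_span_row]
          rfl
        have h3 := linearIndependent_rows_iff_isUnit.1 h2
        rw [isUnit_iff_isUnit_det, isUnit_iff_ne_zero] at h3
        exact (h3 h0).elim
    refine (good_bij (con_inv _) (con_sp _ _) (fun v _ _ z => z (v.1, e.symm v.2))
      (fun v => isPoly_var _) ?_ ?_ ?_).1 (h R fun v => T (v.1, e v.2))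
    · rintro K _ z ⟨hz, hd⟩
      refine ⟨fun v hv => hz _ (by simpa using hv), ?_⟩
      rw [hr] at hd
      rw [← hd]
      exact rank_submatrix (Matrix.of fun i j => z (i, j)) (Equiv.refl R) e.symm
    · intro K _ z z' _ _ heq
      funext v
      have := heq (v.1, e v.2)
      simpa using this
    · rintro K _ y ⟨hy, hrk⟩
      refine ⟨fun v => y (v.1, e v.2), ⟨fun v hv => hy _ hv, ?_⟩, fun v => ?_⟩
      · rw [hr, ← hrk]
        exact rank_submatrix (Matrix.of fun i j => y (i, j)) (Equiv.refl R) e
      · change y (v.1, e (e.symm v.2)) = y v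
        rw [e.apply_symm_apply]
  have hRempty : ∀ (R C : Type) [Fintype R] [Fintype C] (T : R × C → Prop) (r : ℕ),
      Fintype.card R < r → Good m S (sp T r) := by
    intro R C _ _ T r hr
    refine good_false fun K _ z hz => ?_
    have := rank_le_card_height (Matrix.of fun i j => z (i, j))
    have h1 := hz.2
    omega
  have hCempty : ∀ (R C : Type) [Fintype R] [Fintype C] (T : R × C → Prop) (r : ℕ),
      Fintype.card C < r → Good m S (sp T r) := by
    intro R C _ _ T r hr
    refine good_false fun K _ z hz => ?_
    have := rank_le_card_width (Matrix.of fun i j => z (i, j))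
    have h1 := hz.2
    omega
  -- full row rank
  have h1 : ∀ (e : ℕ) (R C : Type) [Fintype R] [Fintype C] (T : R × C → Prop),
      Fintype.card C = Fintype.card R + e → Good m S (sp T (Fintype.card R)) := by
    intro e
    induction e with
    | zero => intro R C _ _ T hRC; exact h0 R C T hRC.symm
    | succ e ih =>
      intro R C _ _ T hRC
      refine good_transpose (good_col hS ?_ ?_ ?_)
      · rw [Nat.card_eq_fintype_card]
        omega
      · refine good_transpose ?_
        have := ih (Option R) C (fun v => (tC fun v : C × R => T (v.2, v.1)) (v.2, v.1)) (by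
          rw [Fintype.card_option]
          omega)
        rw [Fintype.card_option] at this
        exact this
      · exact hCempty C R _ _ (Nat.lt_succ_self _)
  have h2 : ∀ (d r : ℕ) (R C : Type) [Fintype R] [Fintype C] (T : R × C → Prop),
      Fintype.card R = r + d → Good m S (sp T r) := by
    intro d
    induction d with
    | zero =>
      intro r R C _ _ T hR
      rw [add_zero] at hR
      subst hR
      rcases le_or_gt (Fintype.card R) (Fintype.card C) with h3 | h3
      · exact h1 (Fintype.card C - Fintype.card R) R C T (by omega)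
      · exact hCempty R C T _ h3
    | succ d ih =>
      intro r R C _ _ T hR
      refine good_col hS ?_ (ih (r + 1) R (Option C) _ (by omega)) (ih (r + 1) R C T (by omega))
      rw [Nat.card_eq_fintype_card]
      omega
  rcases le_or_gt r (Fintype.card R) with h3 | h3
  · exact h2 (Fintype.card R - r) r R C T (by omega)
  · exact hRempty R C T r h3

/-- **Universality of invertible matrices with prescribed zeros.** -/
theorem good_of_inv (hS : Saturated L S)
    (h : ∀ (ν : Type) [Fintype ν] [DecidableEq ν] (T : ν × ν → Prop), Good m S (inv T))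
    (ι : Type) [Finite ι] (φ : Form ι) : Good m S fun K _ x => φ.holds x :=
  good_of_sp hS le_rfl (fun R C _ _ T => good_sp_of_inv hS h R C T 3) ι φ

end Pool.Agent.H504.MC
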