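import Pool.Agent.H504.MC.Sym

/-!
# Universality of symmetric matrices of rank three
-/

set_option autoImplicit false

namespace Pool.Agent.H504.MC

open Matrix Module

section field

variable {K J X Y : Type} [Field K] [Fintype J] [DecidableEq J]

/-- a matrix of rank `#J` is determined by the rows and columns that meet in an invertible diagonal
matrix -/
lemma eq_pivot [Finite X] [Fintype Y] (M : X → Y → K) (f : J → X) (g : J → Y)
    (hd : ∀ i, M (f i) (g i) ≠ 0) (h0 : ∀ i j, i ≠ j → M (f i) (g j) = 0)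
    (hr : (Matrix.of M).rank ≤ Fintype.card J) (x : X) (y : Y) :
    M x y = ∑ i, M x (g i) / M (f i) (g i) * M (f i) y := by
  let d : J → K := fun i => M (f i) (g i)
  have h1 := det_eq_zero_of_rank_lt (Matrix.of M) (n := J ⊕ Unit)
    (Sum.elim f fun _ => x) (Sum.elim g fun _ => y) (by
      rw [Fintype.card_sum, Fintype.card_unit]
      omega)
  have h2 : (Matrix.of M).submatrix (Sum.elim f fun _ : Unit => x)
      (Sum.elim g fun _ : Unit => y) = Matrix.fromBlocks (Matrix.diagonal d)
        (Matrix.of fun i _ => M (f i) y) (Matrix.of fun _ i => M x (g i))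
        (Matrix.of fun _ _ => M x y) := by
    ext a b
    rcases a with i | _ <;> rcases b with j | _
    · rw [fromBlocks_apply₁₁, diagonal_apply]
      by_cases h : i = j
      · rw [if_pos h, ← h]; rfl
      · rw [if_neg h]; exact h0 i j h
    · rfl
    · rfl
    · rfl
  let _ : Invertible (Matrix.diagonal d) := ⟨Matrix.diagonal fun i => (d i)⁻¹, by
      rw [diagonal_mul_diagonal, ← diagonal_one]
      congr 1
      funext i
      exact inv_mul_cancel₀ (hd i), by
      rw [diagonal_mul_diagonal, ← diagonal_one]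
      congr 1
      funext i
      exact mul_inv_cancel₀ (hd i)⟩
  have hi : ⅟(Matrix.diagonal d) = Matrix.diagonal fun i => (d i)⁻¹ := rfl
  rw [h2, det_fromBlocks₁₁, hi, mul_eq_zero, det_diagonal, det_unique] at h1
  have h3 := h1.resolve_left (Finset.prod_ne_zero_iff.2 fun i _ => hd i)
  rw [Matrix.sub_apply, sub_eq_zero, Matrix.mul_apply] at h3
  refine h3.trans (Finset.sum_congr rfl fun i _ => ?_)
  rw [Matrix.mul_diagonal, div_eq_mul_inv]
  rfl

lemma card_le_rank_of_block [Finite X] [Fintype Y] (M : X → Y → K) (f : J → X) (g : J → Y)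
    (hd : ∀ i, M (f i) (g i) ≠ 0) (h0 : ∀ i j, i ≠ j → M (f i) (g j) = 0) :
    Fintype.card J ≤ (Matrix.of M).rank := by
  have h1 : (Matrix.of M).submatrix f g = Matrix.diagonal fun i => M (f i) (g i) := by
    ext i j
    rw [diagonal_apply]
    by_cases h : i = j
    · rw [if_pos h, ← h]; rfl
    · rw [if_neg h]; exact h0 i j h
  have h2 : (Matrix.diagonal fun i => M (f i) (g i)).rank = Fintype.card J := by
    refine rank_of_det_ne_zero ?_
    rw [det_diagonal]
    exact Finset.prod_ne_zero_iff.2 fun i _ => hd i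
  rw [← h2, ← h1]
  exact rank_submatrix_le _ _ _

end field

section sym

variable {K R J C : Type} [Field K] [Fintype J] [DecidableEq J]

/-- the symmetric matrix given by the matrix `A` and the diagonal matrix `t` -/
def symOf (A : (J ⊕ R) × (J ⊕ C) → K) (t : J → K) :
    (J ⊕ R) ⊕ (J ⊕ C) → (J ⊕ R) ⊕ (J ⊕ C) → K
  | .inl u, .inl u' => ∑ i, A (u, .inl i) / A (.inl i, .inl i) *
      (A (u', .inl i) / A (.inl i, .inl i) * t i)
  | .inl u, .inr w => A (u, w)
  | .inr w, .inl u => A (u, w)
  | .inr w, .inr w' => ∑ i, A (.inl i, w) / t i * A (.inl i, w')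

variable [Fintype R] [Fintype C]

/-- a symmetric matrix of rank `#J` with suitable blocks is determined by two of its blocks -/
lemma symOf_of {z : ((J ⊕ R) ⊕ (J ⊕ C)) × ((J ⊕ R) ⊕ (J ⊕ C)) → K}
    (hz : ∀ i j, z (i, j) = z (j, i))
    (hd : ∀ i : J, z (.inl (.inl i), .inr (.inl i)) ≠ 0)
    (h0 : ∀ i j : J, i ≠ j → z (.inl (.inl i), .inr (.inl j)) = 0)
    (h1 : ∀ i j : J, i ≠ j → z (.inl (.inl i), .inl (.inl j)) = 0)
    (hr : (Matrix.of fun i j => z (i, j)).rank = Fintype.card J) :
    (∀ i : J, z (.inl (.inl i), .inl (.inl i)) ≠ 0) ∧ ∀ x y, z (x, y) =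
      symOf (fun v => z (.inl v.1, .inr v.2)) (fun i => z (.inl (.inl i), .inl (.inl i))) x y := by
  have P := eq_pivot (fun i j => z (i, j)) (fun i : J => .inl (.inl i)) (fun i : J => .inr (.inl i))
    hd h0 hr.le
  have P' : ∀ x y, z (x, y) = ∑ i : J, z (x, .inr (.inl i)) / z (.inl (.inl i), .inr (.inl i)) *
      z (.inl (.inl i), y) := P
  have Pa : ∀ x (k : J), z (x, .inl (.inl k)) = z (x, .inr (.inl k)) /
      z (.inl (.inl k), .inr (.inl k)) * z (.inl (.inl k), .inl (.inl k)) := by
    intro x k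
    rw [P' x]
    refine Finset.sum_eq_single k (fun i _ hi => ?_) fun h => (h (Finset.mem_univ k)).elim
    rw [h1 i k hi, mul_zero]
  have ht : ∀ k : J, z (.inl (.inl k), .inl (.inl k)) ≠ 0 := by
    intro k h
    have := Pa (.inr (.inl k)) k
    rw [h, mul_zero, hz] at this
    exact hd k this
  have Pbb : ∀ j k : J, j ≠ k → z (.inr (.inl j), .inr (.inl k)) = 0 := by
    intro j k hjk
    have := Pa (.inr (.inl j)) k
    rw [hz, h0 k j (Ne.symm hjk)] at this
    have h3 := (mul_eq_zero.1 this.symm).resolve_right (ht k)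
    exact (div_eq_zero_iff.1 h3).resolve_right (hd k)
  have Pb : ∀ (w : J ⊕ C) (k : J), z (.inr w, .inr (.inl k)) = z (.inl (.inl k), .inr (.inl k)) /
      z (.inl (.inl k), .inl (.inl k)) * z (.inl (.inl k), .inr w) := by
    intro w k
    have h3 := Pa (.inr (.inl k)) k
    rw [hz (.inr (.inl k)) (.inl (.inl k))] at h3
    have h4 : z (.inr (.inl k), .inr w) = z (.inr (.inl k), .inr (.inl k)) /
        z (.inl (.inl k), .inr (.inl k)) * z (.inl (.inl k), .inr w) := by
      rw [P' (.inr (.inl k))]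
      refine Finset.sum_eq_single k (fun i _ hi => ?_) fun h => (h (Finset.mem_univ k)).elim
      rw [Pbb k i (Ne.symm hi), zero_div, zero_mul]
    rw [hz, h4]
    congr 1
    have := ht k
    have := hd k
    field_simp
    field_simp at h3
    linear_combination -h3
  refine ⟨ht, ?_⟩
  rintro (u | w) (u' | w')
  · rw [P' (.inl u)]
    refine Finset.sum_congr rfl fun i _ => ?_
    congr 1
    rw [hz, Pa (.inl u') i]
  · rfl
  · exact hz _ _
  · rw [P' (.inr w)]
    refine Finset.sum_congr rfl fun i _ => ?_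
    rw [Pb w i]
    have := ht i
    have := hd i
    field_simp

lemma rank_symOf {A : (J ⊕ R) × (J ⊕ C) → K} {t : J → K} (ht : ∀ i, t i ≠ 0)
    (hd : ∀ i : J, A (.inl i, .inl i) ≠ 0) (h0 : ∀ i j : J, i ≠ j → A (.inl i, .inl j) = 0)
    (hr : (Matrix.of fun i j => A (i, j)).rank = Fintype.card J) :
    (Matrix.of (symOf A t)).rank = Fintype.card J := by
  apply le_antisymm
  · have hA := eq_pivot (fun i j => A (i, j)) (Sum.inl : J → J ⊕ R) (Sum.inl : J → J ⊕ C) hd h0 hr.le
    have : Matrix.of (symOf A t) = Matrix.of (fun (x : (J ⊕ R) ⊕ (J ⊕ C)) (i : J) => x.elim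
        (fun u => A (u, .inl i) / A (.inl i, .inl i)) fun w => A (.inl i, w) / t i) *
        Matrix.of (fun (i : J) (x : (J ⊕ R) ⊕ (J ⊕ C)) => x.elim
          (fun u => A (u, .inl i) / A (.inl i, .inl i) * t i) fun w => A (.inl i, w)) := by
      ext x y
      rw [Matrix.mul_apply]
      rcases x with u | w <;> rcases y with u' | w'
      · rfl
      · exact hA u w'
      · refine (hA u' w).trans (Finset.sum_congr rfl fun i _ => ?_)
        change _ = A (.inl i, w) / t i * (A (u', .inl i) / A (.inl i, .inl i) * t i)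
        have := ht i
        have := hd i
        field_simp
      · rfl
    rw [this]
    exact (rank_mul_le_left _ _).trans (rank_le_card_width _)
  · exact card_le_rank_of_block (symOf A t) (fun i : J => .inl (.inl i)) (fun i : J => .inr (.inl i))
      hd h0

end sym

variable {V : Type} [AddCommGroup V] {L : V ≃+ V} {m : Measure V L} {S : AddSubgroup V}

/-- the allowed positions of the symmetric matrix -/
def tY {R J C : Type} (T : (R × J) ⊕ (C × J) → Prop) (N : R → C → Prop) :
    ((J ⊕ R) ⊕ (J ⊕ C)) × ((J ⊕ R) ⊕ (J ⊕ C)) → Prop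
  | (.inl (.inl i), .inl (.inl j)) => i = j
  | (.inl _, .inl _) => True
  | (.inr _, .inr _) => True
  | (.inl u, .inr w) => tR T N (u, w)
  | (.inr w, .inl u) => tR T N (u, w)

lemma tY_lr {R J C : Type} {T : (R × J) ⊕ (C × J) → Prop} {N : R → C → Prop} (u : J ⊕ R)
    (w : J ⊕ C) : tY T N (.inl u, .inr w) ↔ tR T N (u, w) := by
  cases u <;> exact Iff.rfl

lemma good_sym_nz {ν : Type} [Fintype ν] {r : ℕ} (hF : ∀ T : ν × ν → Prop, (∀ i, T (i, i)) →
    Good m S (sym T r)) (s : Finset (ν × ν)) : (∀ v ∈ s, v.1 ≠ v.2) →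
    ∀ T : ν × ν → Prop, (∀ i, T (i, i)) →
      Good m S fun K _ z => sym T r K z ∧ ∀ v ∈ s, z v ≠ 0 := by
  classical
  induction s using Finset.induction_on with
  | empty => exact fun _ T hT => (hF T hT).congr fun K _ z => by simp
  | insert v s hv ih =>
    intro hs T hT
    have hs' : ∀ v ∈ s, v.1 ≠ v.2 := fun w hw => hs w (Finset.mem_insert_of_mem hw)
    have hv' := hs v (Finset.mem_insert_self _ _)
    refine (Good.diff (con_eq (isPoly_var v) isPoly_zero) (ih hs' T hT)
      ((ih hs' (fun w => T w ∧ w ≠ v) fun i => ⟨hT i, fun h => hv' (by rw [← h])⟩).congr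
        fun K _ z => ?_)).congr fun K _ z => ?_
    · constructor
      · rintro ⟨⟨h0, h1, h2⟩, h3⟩
        exact ⟨⟨⟨h0, fun w hw => h1 w fun h => hw h.1, h2⟩, h3⟩, h1 v fun h => h.2 rfl⟩
      · rintro ⟨⟨⟨h0, h1, h2⟩, h3⟩, h4⟩
        refine ⟨⟨h0, fun w hw => ?_, h2⟩, h3⟩
        by_cases h : w = v
        · rw [h]; exact h4
        · exact h1 w fun hT => hw ⟨hT, h⟩
    · simp only [Finset.forall_mem_insert]
      tauto

theorem good_ortho_of_sym (hS : Saturated L S) {R J C : Type} [Fintype J] [DecidableEq J]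
    [Fintype R] [Fintype C]
    (h : ∀ T : ((J ⊕ R) ⊕ (J ⊕ C)) × ((J ⊕ R) ⊕ (J ⊕ C)) → Prop, (∀ i, T (i, i)) →
      Good m S (sym T (Fintype.card J)))
    (T : (R × J) ⊕ (C × J) → Prop) (N : R → C → Prop) : Good m S (ortho T N) := by
  classical
  refine good_ortho_of_bord hS T N ?_
  have cA : IsCon fun K _ (z : (J ⊕ R) × (J ⊕ C) → K) => ((∀ v, ¬ tR T N v → z v = 0) ∧
      (Matrix.of fun i j => z (i, j)).rank = Fintype.card J) ∧ ∀ i : J, z (.inl i, .inl i) ≠ 0 :=
    con_and (con_and (con_zeros _) (con_rank (fun v _ _ z => z v) (fun v => isPoly_var v) _))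
      (con_forall fun i => con_ne (isPoly_var _) isPoly_zero)
  rw [← good_gms hS J cA]
  have hF0 := good_sym_nz h (Finset.univ.image fun i : J =>
    ((.inl (.inl i), .inr (.inl i)) : ((J ⊕ R) ⊕ (J ⊕ C)) × ((J ⊕ R) ⊕ (J ⊕ C)))) (by
      intro v hv
      rw [Finset.mem_image] at hv
      obtain ⟨i, _, rfl⟩ := hv
      simp) (tY T N) (by
      rintro ((i | i) | (i | i))
      · rfl
      · trivial
      · trivial
      · trivial)
  have hF : Good m S fun K _ z => sym (tY T N) (Fintype.card J) K z ∧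
      ∀ i : J, z (.inl (.inl i), .inr (.inl i)) ≠ 0 := by
    refine hF0.congr fun K _ z => and_congr_right fun _ => ?_
    simp only [Finset.forall_mem_image, Finset.mem_univ, true_imp_iff]
  refine (good_bij hF.1 (con_and (con_res cA _) (con_forall fun k => con_ne (isPoly_var _)
    isPoly_zero)) (fun v _ _ z => z (v.elim (fun v => (.inl v.1, .inr v.2))
      fun i => (.inl (.inl i), .inl (.inl i)))) (fun v => isPoly_var _) ?_ ?_ ?_).1 hF
  · rintro K _ z ⟨⟨hz, h1, h2⟩, h3⟩
    have h0 : ∀ i j : J, i ≠ j → z (.inl (.inl i), .inr (.inl j)) = 0 :=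
      fun i j hij => h1 (.inl (.inl i), .inr (.inl j)) hij
    have h4 := symOf_of hz h3 h0 (fun i j hij => h1 (.inl (.inl i), .inl (.inl j)) hij) h2
    refine ⟨⟨⟨fun v hv => h1 (.inl v.1, .inr v.2) fun h => hv ((tY_lr _ _).1 h), ?_⟩, h3⟩, h4.1⟩
    apply le_antisymm
    · rw [← h2]
      exact rank_submatrix_le (Matrix.of fun i j => z (i, j)) Sum.inl Sum.inr
    · exact card_le_rank_of_block (fun i j => z (.inl i, .inr j)) (Sum.inl : J → J ⊕ R)
        (Sum.inl : J → J ⊕ C) h3 h0
  · rintro K _ z z' ⟨⟨hz, h1, h2⟩, h3⟩ ⟨⟨hz', h1', h2'⟩, h3'⟩ heq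
    have h4 := symOf_of hz h3 (fun i j hij => h1 (.inl (.inl i), .inr (.inl j)) hij)
      (fun i j hij => h1 (.inl (.inl i), .inl (.inl j)) hij) h2
    have h4' := symOf_of hz' h3' (fun i j hij => h1' (.inl (.inl i), .inr (.inl j)) hij)
      (fun i j hij => h1' (.inl (.inl i), .inl (.inl j)) hij) h2'
    have e1 : (fun v : (J ⊕ R) × (J ⊕ C) => z (.inl v.1, .inr v.2)) =
        fun v => z' (.inl v.1, .inr v.2) := funext fun v => heq (.inl v)
    have e2 : (fun i : J => z (.inl (.inl i), .inl (.inl i))) =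
        fun i => z' (.inl (.inl i), .inl (.inl i)) := funext fun i => heq (.inr i)
    funext ⟨x, y⟩
    rw [h4.2, h4'.2, e1, e2]
  · rintro K _ y ⟨⟨⟨hy, hr⟩, hd⟩, ht⟩
    have h0 : ∀ i j : J, i ≠ j → y (.inl (.inl i, .inl j)) = 0 := fun i j hij => hy (.inl i, .inl j) hij
    refine ⟨fun v => symOf (fun v => y (.inl v)) (fun i => y (.inr i)) v.1 v.2, ⟨⟨?_, ?_, ?_⟩, ?_⟩, ?_⟩
    · rintro (u | w) (u' | w')
      · refine Finset.sum_congr rfl fun i _ => ?_
        ring
      · rfl
      · rfl
      · refine Finset.sum_congr rfl fun i _ => ?_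
        ring
    · rintro ⟨(i | u) | w, (j | u') | w'⟩ hv
      · change ∑ k, y (.inl (.inl i, .inl k)) / y (.inl (.inl k, .inl k)) *
          (y (.inl (.inl j, .inl k)) / y (.inl (.inl k, .inl k)) * y (.inr k)) = 0
        refine Finset.sum_eq_zero fun k _ => ?_
        by_cases hik : i = k
        · subst hik
          rw [h0 j i (Ne.symm hv), zero_div, zero_mul, mul_zero]
        · rw [h0 i k hik, zero_div, zero_mul]
      · exact (hv trivial).elim
      · exact hy (.inl i, w') hv
      · exact (hv trivial).elim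
      · exact (hv trivial).elim
      · exact hy (.inr u, w') hv
      · exact hy (.inl j, w) hv
      · exact hy (.inr u', w) hv
      · exact (hv trivial).elim
    · exact rank_symOf ht hd h0 hr
    · exact hd
    · rintro (v | i)
      · rfl
      · change ∑ k, y (.inl (.inl i, .inl k)) / y (.inl (.inl k, .inl k)) *
          (y (.inl (.inl i, .inl k)) / y (.inl (.inl k, .inl k)) * y (.inr k)) = y (.inr i)
        rw [Finset.sum_eq_single i (fun k _ hk => by
          rw [h0 i k (Ne.symm hk), zero_div, zero_mul]) fun h => (h (Finset.mem_univ i)).elim]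
        have := hd i
        field_simp

/-- **Universality of symmetric matrices of rank three.** -/
theorem good_of_sym (hS : Saturated L S)
    (h : ∀ (ν : Type) [Fintype ν] (T : ν × ν → Prop), (∀ i, T (i, i)) → Good m S (sym T 3))
    (ι : Type) [Finite ι] (φ : Form ι) : Good m S fun K _ x => φ.holds x := by
  refine good_of_ortho hS (fun R C _ _ T N => ?_) ι φ
  have _ : Fintype R := Fintype.ofFinite R
  have _ : Fintype C := Fintype.ofFinite C
  exact good_ortho_of_sym hS (J := Fin 3) (fun T hT => h _ T hT) T N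

/-- **Universality of invertible symmetric matrices with prescribed zeros outside the diagonal.** -/
theorem good_of_nds (hS : Saturated L S)
    (h : ∀ (ν : Type) [Fintype ν] [DecidableEq ν] (T : ν × ν → Prop), (∀ i, T (i, i)) →
      Good m S (nds T)) (ι : Type) [Finite ι] (φ : Form ι) : Good m S fun K _ x => φ.holds x :=
  good_of_sym hS (fun ν _ T hT => good_sym_of_nds hS h ν T hT 3) ι φ

end Pool.Agent.H504.MC
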