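import Pool.Agent.H504.MC.Ker
import Pool.Agent.H504.MC.Families

/-!
# Vectors in a symplectic space with prescribed orthogonality relations
-/

set_option autoImplicit false

namespace Pool.Agent.H504.MC

open Matrix Module

section field

variable {K D : Type} [Field K] [Fintype D]

/-- the standard symplectic form -/
def om (x y : D ⊕ D → K) : K := ∑ j, (x (.inl j) * y (.inr j) - x (.inr j) * y (.inl j))

/-- the coefficients of the linear form `om x` -/
def tw1 (x : D ⊕ D → K) : D ⊕ D → K := Sum.elim (fun j => -x (.inr j)) fun j => x (.inl j)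

lemma om_eq (x y : D ⊕ D → K) : om x y = ∑ c, tw1 x c * y c := by
  rw [Fintype.sum_sum_type, ← Finset.sum_add_distrib]
  refine Finset.sum_congr rfl fun j _ => ?_
  simp only [tw1, Sum.elim_inl, Sum.elim_inr]
  ring

lemma om_swap (x y : D ⊕ D → K) : om y x = -om x y := by
  rw [om, om, ← Finset.sum_neg_distrib]
  exact Finset.sum_congr rfl fun j _ => by ring

lemma om_swap_zero {x y : D ⊕ D → K} (h : om x y = 0) : om y x = 0 := by
  rw [om_swap, h, neg_zero]

lemma om_self (x : D ⊕ D → K) : om x x = 0 :=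
  Finset.sum_eq_zero fun j _ => by ring

lemma om_sum_right {J : Type} [Fintype J] (x : D ⊕ D → K) (a : J → K) (v : J → D ⊕ D → K) :
    om x (fun c => ∑ k, a k * v k c) = ∑ k, a k * om x (v k) := by
  simp only [om_eq, Finset.mul_sum]
  rw [Finset.sum_comm]
  exact Finset.sum_congr rfl fun k _ => Finset.sum_congr rfl fun c _ => by ring

lemma om_sum_left {J : Type} [Fintype J] (x : D ⊕ D → K) (a : J → K) (v : J → D ⊕ D → K) :
    om (fun c => ∑ k, a k * v k c) x = ∑ k, a k * om (v k) x := by
  rw [om_swap, om_sum_right, ← Finset.sum_neg_distrib]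
  exact Finset.sum_congr rfl fun k _ => by rw [om_swap (v k) x]; ring

lemma om_sub_right (x y z : D ⊕ D → K) : om x (fun c => y c - z c) = om x y - om x z := by
  simp only [om_eq, mul_sub, Finset.sum_sub_distrib]

/-- a partial symplectic basis, up to scalars -/
def IsFr {B : Type} (g : B ⊕ B → D ⊕ D → K) : Prop :=
  (∀ i j, j ≠ i.swap → om (g i) (g j) = 0) ∧ ∀ i : B, om (g (.inl i)) (g (.inr i)) ≠ 0

lemma IsFr.ne {B : Type} {g : B ⊕ B → D ⊕ D → K} (h : IsFr g) (i : B ⊕ B) :
    om (g i) (g i.swap) ≠ 0 := by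
  rcases i with i | i
  · exact h.2 i
  · intro h0
    exact h.2 i (om_swap_zero h0)

lemma IsFr.coeff {B : Type} [Fintype B] {g : B ⊕ B → D ⊕ D → K} (h : IsFr g) (a : B ⊕ B → K)
    (i : B ⊕ B) : om (fun c => ∑ k, a k * g k c) (g i.swap) = a i * om (g i) (g i.swap) := by
  classical
  rw [om_sum_left, Finset.sum_eq_single i]
  · intro k _ hk
    rw [h.1 k i.swap fun he => hk (Sum.swap_leftInverse.injective he).symm, mul_zero]
  · intro hi
    exact (hi (Finset.mem_univ _)).elim

lemma tw1_comb {J : Type} [Fintype J] (a : J → K) (v : J → D ⊕ D → K) (y : D ⊕ D → K) :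
    ∑ c, (∑ k, a k * tw1 (v k) c) * y c = om (fun c => ∑ k, a k * v k c) y := by
  rw [om_sum_left]
  simp only [om_eq, Finset.sum_mul, Finset.mul_sum]
  rw [Finset.sum_comm]
  exact Finset.sum_congr rfl fun k _ => Finset.sum_congr rfl fun c _ => by ring

lemma IsFr.rank {B : Type} [Fintype B] {g : B ⊕ B → D ⊕ D → K} (h : IsFr g) :
    (Matrix.of fun i c => tw1 (g i) c : Matrix (B ⊕ B) (D ⊕ D) K).rank = Fintype.card (B ⊕ B) := by
  have h1 : LinearIndependent K (Matrix.of fun i c => tw1 (g i) c : Matrix (B ⊕ B) (D ⊕ D) K).row := by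
    rw [Fintype.linearIndependent_iff]
    intro a ha i
    have h2 : ∀ c, ∑ k, a k * tw1 (g k) c = 0 := by
      intro c
      have := congrFun ha c
      rw [Finset.sum_apply] at this
      exact this
    have h3 := tw1_comb a g (g i.swap)
    rw [h.coeff a i] at h3
    simp only [h2, zero_mul, Finset.sum_const_zero] at h3
    exact (mul_eq_zero.1 h3.symm).resolve_right (h.ne i)
  exact h1.rank_matrix

lemma tw1_eq_zero {x : D ⊕ D → K} (h : ∀ c, tw1 x c = 0) : x = 0 := by
  funext c
  rcases c with j | j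
  · exact h (.inr j)
  · exact neg_eq_zero.1 (h (.inl j))

lemma IsFr.rank_add {B : Type} [Fintype B] {g : B ⊕ B → D ⊕ D → K} (h : IsFr g)
    {x : D ⊕ D → K} (hx : x ≠ 0) (hg : ∀ i, om (g i) x = 0) :
    (Matrix.of fun i c => tw1 (i.elim x g) c : Matrix (Option (B ⊕ B)) (D ⊕ D) K).rank =
      Fintype.card (B ⊕ B) + 1 := by
  have h1 : LinearIndependent K
      (Matrix.of fun i c => tw1 (i.elim x g) c : Matrix (Option (B ⊕ B)) (D ⊕ D) K).row := by
    rw [Fintype.linearIndependent_iff]
    intro a ha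
    have h2 : ∀ c, a none * tw1 x c + ∑ k, a (some k) * tw1 (g k) c = 0 := by
      intro c
      have := congrFun ha c
      rw [Finset.sum_apply, Fintype.sum_option] at this
      exact this
    have h3 : ∀ i, a (some i) = 0 := by
      intro i
      have h3 := tw1_comb (fun k => a (some k)) g (g i.swap)
      rw [h.coeff (fun k => a (some k)) i] at h3
      have h4 : ∀ c, ∑ k, a (some k) * tw1 (g k) c = -(a none * tw1 x c) := fun c =>
        (neg_eq_of_add_eq_zero_right (h2 c)).symm
      simp only [h4] at h3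
      have h5 : ∑ c, -(a none * tw1 x c) * g i.swap c = -(a none * om x (g i.swap)) := by
        rw [om_eq, Finset.mul_sum, ← Finset.sum_neg_distrib]
        exact Finset.sum_congr rfl fun c _ => by ring
      rw [h5, om_swap_zero (hg i.swap), mul_zero, neg_zero] at h3
      exact (mul_eq_zero.1 h3.symm).resolve_right (h.ne i)
    intro i
    rcases i with _ | i
    · by_contra h0
      refine hx (tw1_eq_zero fun c => ?_)
      have := h2 c
      simp only [h3, zero_mul, Finset.sum_const_zero, add_zero] at this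
      exact (mul_eq_zero.1 this).resolve_left h0
    · exact h3 i
  rw [h1.rank_matrix, Fintype.card_option]

/-- A vector orthogonal to a symplectic basis is zero. -/
lemma IsFr.eq_zero {g : D ⊕ D → D ⊕ D → K} (h : IsFr g) {x : D ⊕ D → K}
    (hx : ∀ i, om (g i) x = 0) : x = 0 := by
  classical
  have h1 := (rank_eq_card_iff (Matrix.of fun i c => tw1 (g i) c : Matrix (D ⊕ D) (D ⊕ D) K)).2
    h.rank
  refine eq_zero_of_mulVec_eq_zero h1 ?_
  funext i
  have := hx i
  rw [om_eq] at this
  exact this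

end field

section con

variable {D ι : Type} [Fintype D]

lemma isPoly_om {u v : D ⊕ D → Fun ι} (hu : ∀ c, IsPoly (u c)) (hv : ∀ c, IsPoly (v c)) :
    IsPoly fun K _ z => om (fun c => u c K z) fun c => v c K z :=
  isPoly_sum _ fun _ => ((hu _).mul (hv _)).sub ((hu _).mul (hv _))

lemma isPoly_tw1 {u : D ⊕ D → Fun ι} (hu : ∀ c, IsPoly (u c)) (c : D ⊕ D) :
    IsPoly fun K _ z => tw1 (fun c => u c K z) c := by
  rcases c with j | j
  · exact (hu _).neg
  · exact hu _

lemma con_isFr {B : Type} [Finite B] {g : B ⊕ B → D ⊕ D → Fun ι} (hg : ∀ i c, IsPoly (g i c)) :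
    IsCon fun K _ z => IsFr fun i c => g i c K z :=
  con_and (con_forall fun i => con_forall fun j => con_imp (con_const _)
    (con_eq (isPoly_om (hg i) (hg j)) isPoly_zero))
    (con_forall fun _ => con_ne (isPoly_om (hg _) (hg _)) isPoly_zero)

end con

variable {V : Type} [AddCommGroup V] {L : V ≃+ V} {m : Measure V L} {S : AddSubgroup V}

/-- points of `X` with a partial symplectic basis -/
def withFr {ι : Type} (D B : Type) [Fintype D] (X : Cond ι) : Cond (ι ⊕ ((B ⊕ B) × (D ⊕ D))) :=
  fun K _ z => (X K fun i => z (.inl i)) ∧ IsFr fun i c => z (.inr (i, c))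

lemma con_withFr {ι D B : Type} [Fintype D] [Finite B] {X : Cond ι} (hX : IsCon X) :
    IsCon (withFr D B X) :=
  con_and (con_res hX _) (con_isFr fun _ _ => isPoly_var _)

lemma good_equiv {ι κ : Type} [Finite ι] [Finite κ] (e : ι ≃ κ) {X : Cond ι} {Y : Cond κ}
    (h : ∀ (K : Type) [Field K] (z : κ → K), Y K z ↔ X K fun i => z (e i)) :
    Good m S X ↔ Good m S Y := by
  constructor
  · intro hX
    refine good_reindex e.symm hX fun K _ z => ?_
    rw [h]
    simp
  · exact fun hY => good_reindex e hY h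

section frames

variable {ι D : Type} [Finite ι] [Fintype D]

/-- splitting off one pair of vectors -/
def eqv (ι B J : Type) : (((ι ⊕ ((B ⊕ B) × J)) ⊕ J) ⊕ J) ≃ (ι ⊕ ((Option B ⊕ Option B) × J)) where
  toFun
    | .inl (.inl (.inl i)) => .inl i
    | .inl (.inl (.inr (.inl b, j))) => .inr (.inl (some b), j)
    | .inl (.inl (.inr (.inr b, j))) => .inr (.inr (some b), j)
    | .inl (.inr j) => .inr (.inl none, j)
    | .inr j => .inr (.inr none, j)
  invFun
    | .inl i => .inl (.inl (.inl i))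
    | .inr (.inl (some b), j) => .inl (.inl (.inr (.inl b, j)))
    | .inr (.inr (some b), j) => .inl (.inl (.inr (.inr b, j)))
    | .inr (.inl none, j) => .inl (.inr j)
    | .inr (.inr none, j) => .inr j
  left_inv := by
    rintro (((i | ⟨b | b, j⟩) | j) | j) <;> rfl
  right_inv := by
    rintro (i | ⟨(_ | b) | (_ | b), j⟩) <;> rfl

/-- the rows of the equations of orthogonality to the frame -/
def e1 (ι B : Type) (D : Type) [Fintype D] : (B ⊕ B) × (D ⊕ D) → Fun (ι ⊕ ((B ⊕ B) × (D ⊕ D))) :=
  fun v _ _ z => tw1 (fun c => z (.inr (v.1, c))) v.2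

/-- the rows of the unit matrix -/
def e0 (ι J : Type) [DecidableEq J] : J × J → Fun ι := fun v _ _ _ => if v.1 = v.2 then 1 else 0

lemma isFr_option {K B : Type} [Field K] (v : Option B ⊕ Option B → D ⊕ D → K) :
    IsFr v ↔ IsFr (fun i : B ⊕ B => v (i.map some some)) ∧
      (∀ i : B ⊕ B, om (v (i.map some some)) (v (.inl none)) = 0) ∧
      (∀ i : B ⊕ B, om (v (i.map some some)) (v (.inr none)) = 0) ∧
      om (v (.inl none)) (v (.inr none)) ≠ 0 := by
  constructor
  · rintro ⟨h1, h2⟩
    refine ⟨⟨fun i j hij => ?_, fun i => ?_⟩, fun i => ?_, fun i => ?_, h2 none⟩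
    · refine h1 (i.map some some) (j.map some some) fun h => hij ?_
      rcases i with i | i <;> rcases j with j | j <;> simp_all
    · exact h2 (some i)
    · refine h1 (i.map some some) (.inl none) fun h => ?_
      rcases i with i | i <;> simp at h
    · refine h1 (i.map some some) (.inr none) fun h => ?_
      rcases i with i | i <;> simp at h
  · rintro ⟨⟨h1, h2⟩, h3, h4, h5⟩
    refine ⟨?_, ?_⟩
    · rintro ((_ | i) | (_ | i)) ((_ | j) | (_ | j)) hij
      · exact om_self _
      · exact om_swap_zero (h3 (.inl j))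
      · exact (hij rfl).elim
      · exact om_swap_zero (h3 (.inr j))
      · exact h3 (.inl i)
      · exact h1 (.inl i) (.inl j) (by simp)
      · exact h4 (.inl i)
      · refine h1 (.inl i) (.inr j) fun h => hij ?_
        simp only [Sum.swap_inl, Sum.inr.injEq] at h
        rw [h]
        rfl
      · exact (hij rfl).elim
      · exact om_swap_zero (h4 (.inl j))
      · exact om_self _
      · exact om_swap_zero (h4 (.inr j))
      · exact h3 (.inr i)
      · refine h1 (.inr i) (.inl j) fun h => hij ?_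
        simp only [Sum.swap_inr, Sum.inl.injEq] at h
        rw [h]
        rfl
      · exact h4 (.inr i)
      · exact h1 (.inr i) (.inr j) (by simp)
    · rintro (_ | i)
      · exact h5
      · exact h2 i

/-- one more vector, not zero and orthogonal to the frame -/
def fr1 (ι D B : Type) [Fintype D] (X : Cond ι) : Cond ((ι ⊕ ((B ⊕ B) × (D ⊕ D))) ⊕ (D ⊕ D)) :=
  fun K _ z => (withFr D B X K fun i => z (.inl i)) ∧
    (∀ i, om (fun c => z (.inl (.inr (i, c)))) (fun c => z (.inr c)) = 0) ∧
    ∃ c, z (.inr c) ≠ 0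

/-- and a second one that is not orthogonal to this one -/
def fr2 (ι D B : Type) [Fintype D] (X : Cond ι) :
    Cond (((ι ⊕ ((B ⊕ B) × (D ⊕ D))) ⊕ (D ⊕ D)) ⊕ (D ⊕ D)) :=
  fun K _ z => (fr1 ι D B X K fun i => z (.inl i)) ∧
    (∀ i, om (fun c => z (.inl (.inl (.inr (i, c))))) (fun c => z (.inr c)) = 0) ∧
    om (fun c => z (.inl (.inr c))) (fun c => z (.inr c)) ≠ 0

lemma con_fr1 {B : Type} [Finite B] {X : Cond ι} (hX : IsCon X) : IsCon (fr1 ι D B X) :=
  con_and (con_res (con_withFr hX) _) (con_and (con_forall fun i => con_eq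
    (isPoly_om (fun c => isPoly_var _) fun c => isPoly_var _) isPoly_zero)
    (con_exists fun c => con_ne (isPoly_var _) isPoly_zero))

lemma good_fr1 (hS : Saturated L S) {B : Type} [Finite B] {X : Cond ι} (hX : IsCon X)
    (hB : Nat.card B < Fintype.card D) :
    Good m S (fr1 ι D B X) ↔ Good m S (withFr D B X) := by
  classical
  have _ : Fintype B := Fintype.ofFinite B
  rw [Nat.card_eq_fintype_card] at hB
  have hP0 := con_withFr (B := B) (D := D) hX
  have h1p : ∀ v, IsPoly (e1 ι B D v) := fun v => isPoly_tw1 (fun c => isPoly_var _) v.2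
  have h0p : ∀ v, IsPoly (e0 (ι ⊕ ((B ⊕ B) × (D ⊕ D))) (D ⊕ D) v) := by
    intro v
    unfold e0
    by_cases hv : v.1 = v.2
    · simpa only [hv, if_true] using isPoly_one
    · simpa only [hv, if_false] using isPoly_zero
  have h3 : ∀ (K : Type) [Field K] (w : ι ⊕ ((B ⊕ B) × (D ⊕ D)) → K) (y : D ⊕ D → K),
      (∀ i : D ⊕ D, ∑ c, e0 (ι ⊕ ((B ⊕ B) × (D ⊕ D))) (D ⊕ D) (i, c) K w * y c = 0) ↔
        ∀ c, y c = 0 := by
    intro K _ w y
    constructor
    · intro h i
      have h4 := h i
      simp only [e0] at h4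
      rw [Finset.sum_eq_single i] at h4
      · rw [if_pos rfl, one_mul] at h4
        exact h4
      · intro b _ hb
        rw [if_neg (Ne.symm hb), zero_mul]
      · intro h4
        exact (h4 (Finset.mem_univ _)).elim
    · intro h i
      exact Finset.sum_eq_zero fun c _ => by rw [h c, mul_zero]
  have step1 := good_ker_diff (m := m) hS (r := Fintype.card (B ⊕ B)) (s := Fintype.card (D ⊕ D))
    (by simp only [Fintype.card_sum]; omega) hP0 (e := e1 ι B D)
    (e' := e0 (ι ⊕ ((B ⊕ B) × (D ⊕ D))) (D ⊕ D)) h1p h0p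
    (fun K _ z hz => hz.2.rank) (fun K _ z hz => by
      have : (Matrix.of fun i c => e0 (ι ⊕ ((B ⊕ B) × (D ⊕ D))) (D ⊕ D) (i, c) K z :
          Matrix (D ⊕ D) (D ⊕ D) K) = 1 := by
        ext i c
        simp only [e0, of_apply, Matrix.one_apply]
      rw [this, rank_one]) (fun K _ z hz => by
      refine ⟨hz.1, fun i => Finset.sum_eq_zero fun c _ => ?_⟩
      rw [(h3 K _ (fun c => z (.inr c))).1 hz.2 c, mul_zero])
  rw [← step1]
  refine good_congr fun K _ z => ?_
  have h4 : (∀ i, ∑ c, e1 ι B D (i, c) K (fun i => z (.inl i)) * z (.inr c) = 0) ↔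
      ∀ i, om (fun c => z (.inl (.inr (i, c)))) (fun c => z (.inr c)) = 0 := by
    refine forall_congr' fun i => ?_
    rw [om_eq]
    rfl
  have h5 := h3 K (fun i => z (.inl i)) fun c => z (.inr c)
  unfold fr1 ker
  rw [h5, h4, ← not_forall_not]
  simp only [not_not]
  tauto

lemma good_fr2 (hS : Saturated L S) {B : Type} [Finite B] {X : Cond ι} (hX : IsCon X) :
    Good m S (fr2 ι D B X) ↔ Good m S (fr1 ι D B X) := by
  classical
  have _ : Fintype B := Fintype.ofFinite B
  let e2 : (B ⊕ B) × (D ⊕ D) → Fun ((ι ⊕ ((B ⊕ B) × (D ⊕ D))) ⊕ (D ⊕ D)) :=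
    fun v K _ z => tw1 (fun c => z (.inl (.inr (v.1, c)))) v.2
  let e3 : Option (B ⊕ B) × (D ⊕ D) → Fun ((ι ⊕ ((B ⊕ B) × (D ⊕ D))) ⊕ (D ⊕ D)) :=
    fun v K _ z => tw1 (v.1.elim (fun c => z (.inr c)) fun i c => z (.inl (.inr (i, c)))) v.2
  have h2p : ∀ v, IsPoly (e2 v) := fun v => isPoly_tw1 (fun c => isPoly_var _) v.2
  have h3p : ∀ v, IsPoly (e3 v) := by
    rintro ⟨_ | i, c⟩
    · exact isPoly_tw1 (fun c => isPoly_var (Sum.inr c)) c
    · exact isPoly_tw1 (fun c => isPoly_var (Sum.inl (Sum.inr (i, c)))) c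
  have step2 := good_ker_diff (m := m) hS (r := Fintype.card (B ⊕ B))
    (s := Fintype.card (B ⊕ B) + 1) (Nat.lt_succ_self _) (con_fr1 hX) h2p h3p
    (fun K _ z hz => hz.1.2.rank)
    (fun K _ z hz => by
      obtain ⟨h4, h5, c, hc⟩ := hz
      exact h4.2.rank_add (x := fun c => z (.inr c)) (fun h => hc (congrFun h c)) h5)
    (fun K _ z hz => ⟨hz.1, fun i => hz.2 (some i)⟩)
  rw [← step2]
  refine good_congr fun K _ z => ?_
  have h4 : (∀ i, ∑ c, e2 (i, c) K (fun i => z (.inl i)) * z (.inr c) = 0) ↔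
      ∀ i, om (fun c => z (.inl (.inl (.inr (i, c))))) (fun c => z (.inr c)) = 0 := by
    refine forall_congr' fun i => ?_
    rw [om_eq]
  have h5 : (∀ i, ∑ c, e3 (i, c) K (fun i => z (.inl i)) * z (.inr c) = 0) ↔
      om (fun c => z (.inl (.inr c))) (fun c => z (.inr c)) = 0 ∧
      ∀ i, om (fun c => z (.inl (.inl (.inr (i, c))))) (fun c => z (.inr c)) = 0 := by
    rw [Option.forall]
    refine and_congr ?_ (forall_congr' fun i => ?_)
    · rw [om_eq]
      exact Iff.rfl
    · rw [om_eq]
      exact Iff.rfl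
  unfold fr2 ker
  rw [h4, h5]
  tauto

lemma good_withFr_step (hS : Saturated L S) {B : Type} [Finite B] {X : Cond ι} (hX : IsCon X)
    (hB : Nat.card B < Fintype.card D) :
    Good m S (withFr D (Option B) X) ↔ Good m S (withFr D B X) := by
  rw [← good_fr1 hS hX hB, ← good_fr2 hS hX]
  refine (good_equiv (eqv ι B (D ⊕ D)) fun K _ z => ?_).symm
  have q6 := isFr_option fun (i : Option B ⊕ Option B) (c : D ⊕ D) => z (.inr (i, c))
  have q0 : ∀ (i : B ⊕ B), (fun c => z (eqv ι B (D ⊕ D) (.inl (.inl (.inr (i, c)))))) =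
      fun (c : D ⊕ D) => z (.inr (i.map some some, c)) := by
    rintro (i | i) <;> rfl
  have q8 : om (fun (c : D ⊕ D) => z (.inr (.inl none, c))) (fun c => z (.inr (.inr none, c))) ≠ 0 →
      ∃ c : D ⊕ D, z (.inr (.inl none, c)) ≠ 0 := by
    intro h
    by_contra h0
    push Not at h0
    refine h ?_
    rw [om_eq]
    refine Finset.sum_eq_zero fun c _ => ?_
    rcases c with c | c <;> simp [tw1, h0]
  have q9 : (fr2 ι D B X K fun i => z (eqv ι B (D ⊕ D) i)) ↔
      (((X K fun i => z (.inl i)) ∧ IsFr fun (i : B ⊕ B) (c : D ⊕ D) => z (.inr (i.map some some, c))) ∧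
      (∀ i : B ⊕ B, om (fun (c : D ⊕ D) => z (.inr (i.map some some, c)))
        (fun c => z (.inr (.inl none, c))) = 0) ∧
      ∃ c : D ⊕ D, z (.inr (.inl none, c)) ≠ 0) ∧
      (∀ i : B ⊕ B, om (fun (c : D ⊕ D) => z (.inr (i.map some some, c)))
        (fun c => z (.inr (.inr none, c))) = 0) ∧
      om (fun (c : D ⊕ D) => z (.inr (.inl none, c))) (fun c => z (.inr (.inr none, c))) ≠ 0 := by
    have q1 : (fun (i : B ⊕ B) (c : D ⊕ D) => z (eqv ι B (D ⊕ D) (.inl (.inl (.inr (i, c)))))) =
        fun i c => z (.inr (i.map some some, c)) := funext q0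
    unfold fr2 fr1 withFr
    simp only [q0, q1]
    exact Iff.rfl
  rw [q9]
  unfold withFr
  rw [q6]
  tauto

theorem good_withFr (hS : Saturated L S) (B : Type) [Finite B] {X : Cond ι} (hX : IsCon X)
    (hB : Nat.card B ≤ Fintype.card D) : Good m S (withFr D B X) ↔ Good m S X := by
  revert hB
  refine Finite.induction_empty_option (P := fun B => ∀ [Finite B], Nat.card B ≤ Fintype.card D →
    (Good m S (withFr D B X) ↔ Good m S X)) ?_ ?_ ?_ B
  · intro B B' e ih _ hB
    have : Finite B := Finite.of_equiv _ e.symm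
    rw [← ih (by rw [Nat.card_congr e]; exact hB)]
    refine good_equiv (Equiv.sumCongr (Equiv.refl ι)
      ((Equiv.sumCongr e.symm e.symm).prodCongr (Equiv.refl (D ⊕ D)))) fun K _ z => ?_
    refine and_congr Iff.rfl ?_
    constructor
    · rintro ⟨h1, h2⟩
      refine ⟨fun i j hij => h1 (Sum.map e.symm e.symm i) (Sum.map e.symm e.symm j) fun h => hij ?_,
        fun i => h2 (e.symm i)⟩
      rcases i with i | i <;> rcases j with j | j <;> simp_all
    · rintro ⟨h1, h2⟩
      refine ⟨fun i j hij => ?_, fun i => ?_⟩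
      · have := h1 (Sum.map e e i) (Sum.map e e j) fun h => hij (by
          rcases i with i | i <;> rcases j with j | j <;> simp_all)
        rcases i with i | i <;> rcases j with j | j <;> simpa using this
      · simpa using h2 (e i)
  · intro _ _
    refine (good_equiv (Equiv.sumEmpty ι _).symm fun K _ z => ?_).symm
    refine ⟨fun h => h.1, fun h => ⟨h, fun i => ?_, fun i => i.elim⟩⟩
    rcases i with i | i <;> exact i.elim
  · intro B _ ih _ hB
    have hc : Nat.card (Option B) = Nat.card B + 1 := Finite.card_option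
    rw [hc] at hB
    rw [good_withFr_step hS hX (by omega), ih (by omega)]

end frames

end Pool.Agent.H504.MC
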