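import Pool.Agent.H504.MC.Symp

/-!
# Universality of orthogonality relations in symplectic spaces
-/

set_option autoImplicit false

namespace Pool.Agent.H504.MC

open Matrix Module

variable {V : Type} [AddCommGroup V] {L : V ≃+ V} {m : Measure V L} {S : AddSubgroup V}

/-- Families of vectors in the symplectic space with prescribed orthogonality relations. -/
def orthE {W D : Type} [Fintype D] (E : W → W → Prop) : Cond (W × (D ⊕ D)) := fun _ _ z =>
  ∀ v w, E v w → om (fun c => z (v, c)) (fun c => z (w, c)) = 0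

section

variable {W D : Type} [Fintype D]

lemma con_om [Finite W] (v w : W) :
    IsCon fun K _ (z : W × (D ⊕ D) → K) => om (fun c => z (v, c)) (fun c => z (w, c)) = 0 :=
  con_eq (isPoly_om (fun _ => isPoly_var _) fun _ => isPoly_var _) isPoly_zero

lemma con_orthE [Finite W] (E : W → W → Prop) : IsCon (orthE (D := D) E) :=
  con_forall fun v => con_forall fun w => con_imp (con_const _) (con_om v w)

lemma good_orthE_nz [Finite W] (hF : ∀ E : W → W → Prop, Good m S (orthE (D := D) E))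
    (s : Finset (W × W)) :
    ∀ E : W → W → Prop, Good m S fun K _ (z : W × (D ⊕ D) → K) => orthE E K z ∧
      ∀ p ∈ s, om (fun c => z (p.1, c)) (fun c => z (p.2, c)) ≠ 0 := by
  classical
  induction s using Finset.induction_on with
  | empty => exact fun E => (hF E).congr fun K _ z => by simp
  | insert p s hp ih =>
    intro E
    refine (Good.diff (con_om p.1 p.2) (ih E)
      ((ih fun v w => E v w ∨ (v = p.1 ∧ w = p.2)).congr fun K _ z => ?_)).congr fun K _ z => ?_
    · constructor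
      · rintro ⟨h1, h2⟩
        exact ⟨⟨fun v w h => h1 v w (.inl h), h2⟩, h1 p.1 p.2 (.inr ⟨rfl, rfl⟩)⟩
      · rintro ⟨⟨h1, h2⟩, h3⟩
        refine ⟨fun v w h => ?_, h2⟩
        rcases h with h | ⟨rfl, rfl⟩
        · exact h1 v w h
        · exact h3
    · simp only [Finset.forall_mem_insert]
      tauto

end

section core

variable {R C D : Type} [Fintype D]

/-- the relations between the vectors of the frame and the other vectors -/
def rel (κ : Fin 3 → D ⊕ D) (T : (R × Fin 3) ⊕ (C × Fin 3) → Prop) (N : R → C → Prop) :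
    (D ⊕ D) ⊕ (R ⊕ C) → (D ⊕ D) ⊕ (R ⊕ C) → Prop
  | .inl i, .inl j => j ≠ i.swap
  | .inr (.inl r), .inl i => ∀ k, T (.inl (r, k)) → i ≠ (κ k).swap
  | .inr (.inr c), .inl i => ∀ k, T (.inr (c, k)) → i ≠ κ k
  | .inr (.inl r), .inr (.inr c) => N r c
  | _, _ => False

section vec

variable {K : Type} [Field K]

/-- the scalars of the frame -/
def lam (κ : Fin 3 → D ⊕ D) (g : D ⊕ D → D ⊕ D → K) (k : Fin 3) : K :=
  om (g (κ k)) (g (κ k).swap)

/-- a vector of the first kind -/
def vR (κ : Fin 3 → D ⊕ D) (g : D ⊕ D → D ⊕ D → K) (a : Fin 3 → K) : D ⊕ D → K :=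
  fun c => ∑ k, a k * g (κ k) c

/-- a vector of the second kind -/
def vC (κ : Fin 3 → D ⊕ D) (g : D ⊕ D → D ⊕ D → K) (b : Fin 3 → K) : D ⊕ D → K :=
  fun c => ∑ k, ((∏ l ∈ Finset.univ.erase k, lam κ g l) * b k) * g (κ k).swap c

variable {κ : Fin 3 → D ⊕ D} {g : D ⊕ D → D ⊕ D → K}

lemma om_vR (hκ : Function.Injective κ) (h : IsFr g) (a : Fin 3 → K) (k : Fin 3) :
    om (vR κ g a) (g (κ k).swap) = a k * lam κ g k := by
  unfold vR
  rw [om_sum_left, Finset.sum_eq_single k]
  · rfl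
  · intro l _ hl
    rw [h.1 _ _ fun he => hl (hκ (Sum.swap_leftInverse.injective he).symm), mul_zero]
  · intro hk
    exact (hk (Finset.mem_univ _)).elim

lemma om_vR_zero (h : IsFr g) (a : Fin 3 → K) {i : D ⊕ D} (hi : ∀ k, a k ≠ 0 → i ≠ (κ k).swap) :
    om (vR κ g a) (g i) = 0 := by
  unfold vR
  rw [om_sum_left]
  refine Finset.sum_eq_zero fun k _ => ?_
  by_cases hk : a k = 0
  · rw [hk, zero_mul]
  · rw [h.1 _ _ (hi k hk), mul_zero]

lemma lam_ne (h : IsFr g) (k : Fin 3) : lam κ g k ≠ 0 := h.ne _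

lemma om_vC (hκ : Function.Injective κ) (h : IsFr g) (b : Fin 3 → K) (k : Fin 3) :
    om (vC κ g b) (g (κ k)) = -((∏ l, lam κ g l) * b k) := by
  unfold vC
  rw [om_sum_left, Finset.sum_eq_single k]
  · rw [om_swap (g (κ k)), ← Finset.mul_prod_erase Finset.univ (lam κ g) (Finset.mem_univ k)]
    rw [show om (g (κ k)) (g (κ k).swap) = lam κ g k from rfl]
    ring
  · intro l _ hl
    rw [h.1 _ _ fun he => hl (hκ (by rw [he, Sum.swap_swap])), mul_zero]
  · intro hk
    exact (hk (Finset.mem_univ _)).elim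

lemma om_vC_zero (h : IsFr g) (b : Fin 3 → K) {i : D ⊕ D} (hi : ∀ k, b k ≠ 0 → i ≠ κ k) :
    om (vC κ g b) (g i) = 0 := by
  unfold vC
  rw [om_sum_left]
  refine Finset.sum_eq_zero fun k _ => ?_
  by_cases hk : b k = 0
  · rw [hk, mul_zero, zero_mul]
  · rw [h.1 _ _ (by rw [Sum.swap_swap]; exact hi k hk), mul_zero]

lemma om_vR_vC (hκ : Function.Injective κ) (h : IsFr g) (a b : Fin 3 → K) :
    om (vR κ g a) (vC κ g b) = (∏ l, lam κ g l) * ∑ k, a k * b k := by
  have e : vC κ g b = fun c => ∑ k, ((∏ l ∈ Finset.univ.erase k, lam κ g l) * b k) *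
      g (κ k).swap c := rfl
  rw [e, om_sum_right, Finset.mul_sum]
  refine Finset.sum_congr rfl fun k _ => ?_
  rw [om_vR hκ h, ← Finset.mul_prod_erase Finset.univ (lam κ g) (Finset.mem_univ k)]
  ring

lemma prod_lam_ne (h : IsFr g) : ∏ l, lam κ g l ≠ 0 :=
  Finset.prod_ne_zero_iff.2 fun k _ => lam_ne h k

/-- A vector orthogonal to the other vectors of the frame is of the first kind. -/
lemma exists_vR (hκ : Function.Injective κ) (h : IsFr g) {x : D ⊕ D → K}
    (hx : ∀ i, (∀ k, i ≠ (κ k).swap) → om x (g i) = 0) :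
    x = vR κ g fun k => om x (g (κ k).swap) / lam κ g k := by
  have h1 : (fun c => x c - vR κ g (fun k => om x (g (κ k).swap) / lam κ g k) c) = 0 := by
    refine h.eq_zero fun i => ?_
    rw [om_sub_right, om_swap x, om_swap (vR κ g _), sub_eq_zero, neg_inj]
    by_cases hi : ∀ k, i ≠ (κ k).swap
    · rw [hx i hi, om_vR_zero h _ fun k _ => hi k]
    · push Not at hi
      obtain ⟨k, rfl⟩ := hi
      rw [om_vR hκ h, div_mul_cancel₀ _ (lam_ne h k)]
  funext c
  exact sub_eq_zero.1 (congrFun h1 c)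

/-- A vector orthogonal to the other vectors of the frame is of the second kind. -/
lemma exists_vC (hκ : Function.Injective κ) (h : IsFr g) {x : D ⊕ D → K}
    (hx : ∀ i, (∀ k, i ≠ κ k) → om x (g i) = 0) :
    x = vC κ g fun k => -om x (g (κ k)) / ∏ l, lam κ g l := by
  have h1 : (fun c => x c - vC κ g (fun k => -om x (g (κ k)) / ∏ l, lam κ g l) c) = 0 := by
    refine h.eq_zero fun i => ?_
    rw [om_sub_right, om_swap x, om_swap (vC κ g _), sub_eq_zero, neg_inj]
    by_cases hi : ∀ k, i ≠ κ k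
    · rw [hx i hi, om_vC_zero h _ fun k _ => hi k]
    · push Not at hi
      obtain ⟨k, rfl⟩ := hi
      rw [om_vC hκ h, mul_div_cancel₀ _ (prod_lam_ne h), neg_neg]
  funext c
  exact sub_eq_zero.1 (congrFun h1 c)

end vec

lemma isPoly_lam {ι : Type} (κ : Fin 3 → D ⊕ D) {g : D ⊕ D → D ⊕ D → Fun ι}
    (hg : ∀ i c, IsPoly (g i c)) (k : Fin 3) :
    IsPoly fun K _ z => lam κ (fun i c => g i c K z) k :=
  isPoly_om (hg _) (hg _)

/-- the vectors with the given coordinates -/
def pts (κ : Fin 3 → D ⊕ D) :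
    ((D ⊕ D) ⊕ (R ⊕ C)) × (D ⊕ D) → Fun (((R × Fin 3) ⊕ (C × Fin 3)) ⊕ ((D ⊕ D) × (D ⊕ D))) :=
  fun v _ _ z => v.1.elim (fun i => z (.inr (i, v.2))) fun o => o.elim
    (fun r => vR κ (fun i c => z (.inr (i, c))) (fun k => z (.inl (.inl (r, k)))) v.2)
    fun c => vC κ (fun i c => z (.inr (i, c))) (fun k => z (.inl (.inr (c, k)))) v.2

section

variable {K : Type} [Field K] (κ : Fin 3 → D ⊕ D)
  (z : ((R × Fin 3) ⊕ (C × Fin 3)) ⊕ ((D ⊕ D) × (D ⊕ D)) → K)

lemma pts_frame (i : D ⊕ D) :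
    (fun c => pts κ (.inl i, c) K z) = fun c => z (.inr (i, c)) := rfl

lemma pts_R (r : R) : (fun c => pts κ (.inr (.inl r), c) K z) =
    vR κ (fun i c => z (.inr (i, c))) fun k => z (.inl (.inl (r, k))) := rfl

lemma pts_C (c : C) : (fun j => pts κ (.inr (.inr c), j) K z) =
    vC κ (fun i c => z (.inr (i, c))) fun k => z (.inl (.inr (c, k))) := rfl

end

lemma isPoly_pts (κ : Fin 3 → D ⊕ D) (v : ((D ⊕ D) ⊕ (R ⊕ C)) × (D ⊕ D)) :
    IsPoly (pts κ v) := by
  obtain ⟨i | (r | c), j⟩ := v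
  · exact isPoly_var (Sum.inr (i, j))
  · have h : IsPoly fun (K : Type) _ (z : ((R × Fin 3) ⊕ (C × Fin 3)) ⊕ ((D ⊕ D) × (D ⊕ D)) → K) =>
        ∑ k, z (.inl (.inl (r, k))) * z (.inr (κ k, j)) :=
      isPoly_sum _ fun k => (isPoly_var _).mul (isPoly_var _)
    exact h
  · have h : IsPoly fun (K : Type) _ (z : ((R × Fin 3) ⊕ (C × Fin 3)) ⊕ ((D ⊕ D) × (D ⊕ D)) → K) =>
        ∑ k, ((∏ l ∈ Finset.univ.erase k, lam κ (fun i c => z (.inr (i, c))) l) *
          z (.inl (.inr (c, k)))) * z (.inr ((κ k).swap, j)) :=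
      isPoly_sum _ fun k => ((isPoly_prod _ fun l => isPoly_lam κ (fun i c =>
        isPoly_var (Sum.inr (i, c))) l).mul (isPoly_var _)).mul (isPoly_var _)
    exact h

theorem good_ortho_of_orthE (hS : Saturated L S) [Finite R] [Finite C] {κ : Fin 3 → D ⊕ D}
    (hκ : Function.Injective κ)
    (hF : ∀ E : (D ⊕ D) ⊕ (R ⊕ C) → (D ⊕ D) ⊕ (R ⊕ C) → Prop, Good m S (orthE (D := D) E))
    (T : (R × Fin 3) ⊕ (C × Fin 3) → Prop) (N : R → C → Prop) : Good m S (ortho T N) := by
  classical
  have _ : Fintype ((D ⊕ D) ⊕ (R ⊕ C)) := Fintype.ofFinite _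
  rw [← good_withFr hS D (con_ortho T N) (by rw [Nat.card_eq_fintype_card])]
  let s : Finset (((D ⊕ D) ⊕ (R ⊕ C)) × ((D ⊕ D) ⊕ (R ⊕ C))) :=
    Finset.univ.filter fun p => ∃ i : D, p = (.inl (.inl i), .inl (.inr i))
  have hs : ∀ i : D, ((.inl (.inl i), .inl (.inr i)) :
      ((D ⊕ D) ⊕ (R ⊕ C)) × ((D ⊕ D) ⊕ (R ⊕ C))) ∈ s := fun i => by
    simp only [s, Finset.mem_filter, Finset.mem_univ, true_and]
    exact ⟨i, rfl⟩
  have hY := good_orthE_nz hF s (rel κ T N)
  refine (good_bij (con_withFr (con_ortho T N)) hY.1 (pts κ) (isPoly_pts κ) ?_ ?_ ?_).2 hY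
  · rintro K _ z ⟨⟨hz1, hz2⟩, hfr⟩
    have hz1R : ∀ r k, z (.inl (.inl (r, k))) ≠ 0 → T (.inl (r, k)) := fun r k h =>
      not_not.1 fun hT => h (hz1 (.inl (r, k)) hT)
    have hz1C : ∀ c k, z (.inl (.inr (c, k))) ≠ 0 → T (.inr (c, k)) := fun c k h =>
      not_not.1 fun hT => h (hz1 (.inr (c, k)) hT)
    refine ⟨?_, ?_⟩
    · rintro (i | (r | c)) (j | (r' | c')) hE
      · change om (fun c => pts κ (.inl i, c) K z) (fun c => pts κ (.inl j, c) K z) = 0
        rw [pts_frame, pts_frame]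
        exact hfr.1 i j hE
      · exact hE.elim
      · exact hE.elim
      · change om (fun c => pts κ (.inr (.inl r), c) K z) (fun c => pts κ (.inl j, c) K z) = 0
        rw [pts_frame, pts_R]
        exact om_vR_zero hfr _ fun k hk => hE k (hz1R r k hk)
      · exact hE.elim
      · change om (fun c => pts κ (.inr (.inl r), c) K z) (fun c => pts κ (.inr (.inr c'), c) K z) = 0
        rw [pts_C, pts_R, om_vR_vC hκ hfr, hz2 r c' hE, mul_zero]
      · change om (fun j => pts κ (.inr (.inr c), j) K z) (fun c => pts κ (.inl j, c) K z) = 0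
        rw [pts_frame, pts_C]
        exact om_vC_zero hfr _ fun k hk => hE k (hz1C c k hk)
      · exact hE.elim
      · exact hE.elim
    · intro p hp
      simp only [s, Finset.mem_filter, Finset.mem_univ, true_and] at hp
      obtain ⟨i, rfl⟩ := hp
      change om (fun c => pts κ (.inl (.inl i), c) K z) (fun c => pts κ (.inl (.inr i), c) K z) ≠ 0
      rw [pts_frame, pts_frame]
      exact hfr.2 i
  · rintro K _ z z' ⟨_, hfr⟩ _ heq
    have hg : (fun (i c : D ⊕ D) => z (.inr (i, c))) = fun i c => z' (.inr (i, c)) := by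
      funext i c
      exact heq (.inl i, c)
    have hR : ∀ r, vR κ (fun i c => z (.inr (i, c))) (fun k => z (.inl (.inl (r, k)))) =
        vR κ (fun i c => z (.inr (i, c))) (fun k => z' (.inl (.inl (r, k)))) := by
      intro r
      have h1 := pts_R κ z r
      have h2 := pts_R κ z' r
      rw [← hg] at h2
      rw [← h1, ← h2]
      exact funext fun c => heq (.inr (.inl r), c)
    have hC : ∀ c, vC κ (fun i c => z (.inr (i, c))) (fun k => z (.inl (.inr (c, k)))) =
        vC κ (fun i c => z (.inr (i, c))) (fun k => z' (.inl (.inr (c, k)))) := by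
      intro r
      have h1 := pts_C κ z r
      have h2 := pts_C κ z' r
      rw [← hg] at h2
      rw [← h1, ← h2]
      exact funext fun c => heq (.inr (.inr r), c)
    funext v
    rcases v with (⟨r, k⟩ | ⟨c, k⟩) | ⟨i, c⟩
    · have h1 := om_vR hκ hfr (fun k => z (.inl (.inl (r, k)))) k
      rw [hR r, om_vR hκ hfr] at h1
      exact (mul_right_cancel₀ (lam_ne hfr k) h1).symm
    · have h1 := om_vC hκ hfr (fun k => z (.inl (.inr (c, k)))) k
      rw [hC c, om_vC hκ hfr] at h1
      exact (mul_left_cancel₀ (prod_lam_ne hfr) (neg_injective h1)).symm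
    · exact congrFun (congrFun hg i) c
  · rintro K _ y ⟨hy1, hy2⟩
    have hfr : IsFr fun (i c : D ⊕ D) => y (.inl i, c) :=
      ⟨fun i j hij => hy1 (.inl i) (.inl j) hij, fun i => hy2 _ (hs i)⟩
    have hR := fun r => exists_vR hκ hfr (x := fun c => y (.inr (.inl r), c)) fun i hi =>
      hy1 (.inr (.inl r)) (.inl i) fun k _ => hi k
    have hC := fun c => exists_vC hκ hfr (x := fun j => y (.inr (.inr c), j)) fun i hi =>
      hy1 (.inr (.inr c)) (.inl i) fun k _ => hi k
    refine ⟨Sum.elim (Sum.elim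
      (fun v => om (fun c => y (.inr (.inl v.1), c)) (fun c => y (.inl (κ v.2).swap, c)) /
        lam κ (fun i c => y (.inl i, c)) v.2)
      fun v => -om (fun c => y (.inr (.inr v.1), c)) (fun c => y (.inl (κ v.2), c)) /
        ∏ l, lam κ (fun i c => y (.inl i, c)) l) fun v => y (.inl v.1, v.2), ⟨⟨?_, ?_⟩, hfr⟩, ?_⟩
    · rintro (⟨r, k⟩ | ⟨c, k⟩) hT
      · have h1 := hy1 (.inr (.inl r)) (.inl (κ k).swap) fun l hl he => hT (by
          rwa [hκ (Sum.swap_leftInverse.injective he)])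
        change om _ _ / _ = 0
        rw [h1, zero_div]
      · have h1 := hy1 (.inr (.inr c)) (.inl (κ k)) fun l hl he => hT (by rwa [hκ he])
        change -om _ _ / _ = 0
        rw [h1, neg_zero, zero_div]
    · intro r c hN
      have h1 := hy1 (.inr (.inl r)) (.inr (.inr c)) hN
      rw [hR r, hC c, om_vR_vC hκ hfr] at h1
      exact (mul_eq_zero.1 h1).resolve_left (prod_lam_ne hfr)
    · rintro ⟨i | (r | c), j⟩
      · rfl
      · exact (congrFun (hR r) j).symm
      · exact (congrFun (hC c) j).symm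

end core

/-- **Universality of orthogonality relations in symplectic spaces of dimension at least four.** -/
theorem good_of_orthE (hS : Saturated L S) {D : Type} [Fintype D] (hD : 2 ≤ Fintype.card D)
    (hF : ∀ (W : Type) [Finite W] (E : W → W → Prop), Good m S (orthE (D := D) E))
    (ι : Type) [Finite ι] (φ : Form ι) : Good m S fun K _ x => φ.holds x := by
  classical
  have h1 : Fintype.card (Fin 3) ≤ Fintype.card (D ⊕ D) := by
    rw [Fintype.card_fin, Fintype.card_sum]
    omega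
  obtain ⟨κ⟩ := Function.Embedding.nonempty_of_card_le h1
  exact good_of_ortho hS (fun R C _ _ T N => good_ortho_of_orthE hS κ.injective (fun E => hF _ E) T N) ι φ

end Pool.Agent.H504.MC
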