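import Pool.Agent.H504.MC.Par

/-!
# Sparse matrices of rank at most two
-/

set_option autoImplicit false

namespace Pool.Agent.H504.MC

open Matrix

lemma con_pattern {ι J : Type} [Finite J] {c : J → Cond ι} (hc : ∀ j, IsCon (c j))
    (F : (J → Prop) → Prop) : IsCon fun K _ z => F fun j => c j K z := by
  refine con_congr (con_exists fun U : Set J => con_and (con_const (F fun j => j ∈ U))
    (con_forall fun j => con_and (con_imp (con_const (j ∈ U)) (hc j))
      (con_imp (hc j) (con_const (j ∈ U))))) fun K _ z => ?_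
  constructor
  · rintro ⟨U, hU, h1⟩
    have : (fun j => c j K z) = fun j => j ∈ U :=
      funext fun j => propext ⟨(h1 j).2, (h1 j).1⟩
    rw [this]
    exact hU
  · intro hF
    exact ⟨{j | c j K z}, hF, fun j => ⟨fun h => h, fun h => h⟩⟩

variable {V : Type} [AddCommGroup V] {L : V ≃+ V} {m : Measure V L} {S : AddSubgroup V}

/-- division by the class of `GL_2` -/
lemma good_gl2 (hS : Saturated L S) {ι : Type} [Finite ι] {X : Cond ι} (hX : IsCon X)
    (h : Good m S fun K _ (z : ι ⊕ (Fin 2 × Fin 2) → K) =>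
      (X K fun i => z (.inl i)) ∧ wz (fun v => z (.inr v)) 0 1 ≠ 0) : Good m S X := by
  let Y1 : Cond (ι ⊕ Fin 2) := fun K _ z => (X K fun i => z (.inl i)) ∧
    ¬ (z (.inr 0) = 0 ∧ z (.inr 1) = 0)
  have c0 : IsCon fun K _ (z : ι ⊕ Fin 2 → K) => z (.inr 0) = 0 ∧ z (.inr 1) = 0 :=
    con_and (con_eq (isPoly_var _) isPoly_zero) (con_eq (isPoly_var _) isPoly_zero)
  have cX1 : IsCon fun K _ (z : ι ⊕ Fin 2 → K) => X K fun i => z (.inl i) := con_res hX _
  have cY1 : IsCon Y1 := con_and cX1 (con_not c0)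
  have v1 : m.val Y1 = (⇑L)^[2] (m.val X) - m.val X := by
    have h1 := m.val_split cX1 c0
    rw [m.val_aff (Fin 2) hX] at h1
    have h2 : m.val (fun K _ (z : ι ⊕ Fin 2 → K) => (X K fun i => z (.inl i)) ∧
        (z (.inr 0) = 0 ∧ z (.inr 1) = 0)) = m.val X := by
      refine m.val_bij (con_and cX1 c0) hX (fun i _ _ z => z (.inl i)) (fun i => isPoly_var _)
        (fun K _ z hz => hz.1) ?_ ?_
      · rintro K _ z z' ⟨_, hz⟩ ⟨_, hz'⟩ heq
        funext v
        rcases v with i | k
        · exact heq i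
        · fin_cases k
          · exact hz.1.trans hz'.1.symm
          · exact hz.2.trans hz'.2.symm
      · intro K _ y hy
        exact ⟨Sum.elim y fun _ => 0, ⟨hy, rfl, rfl⟩, fun i => rfl⟩
    rw [h2, Nat.card_eq_fintype_card, Fintype.card_fin] at h1
    rw [h1]
    change m.val Y1 = m.val X + m.val Y1 - m.val X
    abel
  -- the second vector
  let w : Cond ((ι ⊕ Fin 2) ⊕ Fin 2) := fun _ _ z =>
    z (.inl (.inr 0)) * z (.inr 1) - z (.inl (.inr 1)) * z (.inr 0) = 0
  have cw : IsCon w := con_eq (((isPoly_var _).mul (isPoly_var _)).sub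
    ((isPoly_var _).mul (isPoly_var _))) isPoly_zero
  have cY1' : IsCon fun K _ (z : (ι ⊕ Fin 2) ⊕ Fin 2 → K) => Y1 K fun i => z (.inl i) :=
    con_res cY1 _
  have v2 : m.val (fun K _ (z : (ι ⊕ Fin 2) ⊕ Fin 2 → K) => (Y1 K fun i => z (.inl i)) ∧
      ¬ w K z) = (⇑L)^[2] (m.val Y1) - L (m.val Y1) := by
    have h1 := m.val_split cY1' cw
    rw [m.val_aff (Fin 2) cY1] at h1
    have h2 : m.val (fun K _ (z : (ι ⊕ Fin 2) ⊕ Fin 2 → K) => (Y1 K fun i => z (.inl i)) ∧
        w K z) = L (m.val Y1) := by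
      rw [← m.val_line cY1]
      refine (m.val_bij (con_res cY1 _) (con_and cY1' cw) (fun v _ _ x => v.elim
        (fun i => x (some i)) fun k => x none * x (some (.inr k))) ?_ ?_ ?_ ?_).symm
      · rintro (i | k)
        · exact isPoly_var _
        · exact (isPoly_var _).mul (isPoly_var _)
      · intro K _ x hx
        refine ⟨hx, ?_⟩
        change x (some (.inr 0)) * (x none * x (some (.inr 1))) -
          x (some (.inr 1)) * (x none * x (some (.inr 0))) = 0
        ring
      · rintro K _ x x' hx hx' heq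
        have e1 : ∀ i, x (some i) = x' (some i) := fun i => heq (.inl i)
        funext o
        rcases o with _ | i
        · by_cases h0 : x (some (.inr 0)) = 0
          · have h3 : x (some (.inr 1)) ≠ 0 := fun h3 => hx.2 ⟨h0, h3⟩
            have h4 : x none * x (some (.inr 1)) = x' none * x' (some (.inr 1)) := heq (.inr 1)
            rw [← e1] at h4
            exact mul_right_cancel₀ h3 h4
          · have h4 : x none * x (some (.inr 0)) = x' none * x' (some (.inr 0)) := heq (.inr 0)
            rw [← e1] at h4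
            exact mul_right_cancel₀ h0 h4
        · exact e1 i
      · rintro K _ y ⟨hy, hw⟩
        obtain ⟨l, hl⟩ := exists_smul (A := Fin 2) (a := 1) (b := 0)
          (z := fun v => if v.1 = 0 then y (.inl (.inr v.2)) else y (.inr v.2))
          (fun h => hy.2 ⟨h.1, h.2⟩) (by
            unfold wz
            change y (.inr 0) * y (.inl (.inr 1)) - y (.inr 1) * y (.inl (.inr 0)) = 0
            change y (.inl (.inr 0)) * y (.inr 1) - y (.inl (.inr 1)) * y (.inr 0) = 0 at hw
            linear_combination -hw)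
        refine ⟨fun o => o.elim l fun i => y (.inl i), hy, ?_⟩
        rintro (i | k)
        · rfl
        · exact (hl k).symm
    rw [h2, Nat.card_eq_fintype_card, Fintype.card_fin] at h1
    rw [h1]
    abel
  have h3 : Good m S fun K _ (z : (ι ⊕ Fin 2) ⊕ Fin 2 → K) => (Y1 K fun i => z (.inl i)) ∧
      ¬ w K z := by
    refine (good_bij h.1 (con_and cY1' (con_not cw)) (fun v _ _ z => v.elim (fun v => v.elim
      (fun i => z (.inl i)) fun k => z (.inr (0, k))) fun k => z (.inr (1, k))) ?_ ?_ ?_ ?_).1 h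
    · rintro ((i | k) | k) <;> exact isPoly_var _
    · rintro K _ z ⟨hz, hw⟩
      refine ⟨⟨hz, fun h0 => hw ?_⟩, fun h0 => hw h0⟩
      have h4 : z (.inr (0, 0)) = 0 := h0.1
      have h5 : z (.inr (0, 1)) = 0 := h0.2
      change z (.inr (0, 0)) * z (.inr (1, 1)) - z (.inr (0, 1)) * z (.inr (1, 0)) = 0
      rw [h4, h5]
      ring
    · rintro K _ z z' _ _ heq
      funext v
      rcases v with i | ⟨a, k⟩
      · exact heq (.inl (.inl i))
      · fin_cases a
        · exact heq (.inl (.inr k))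
        · exact heq (.inr k)
    · rintro K _ y ⟨hy, hw⟩
      refine ⟨Sum.elim (fun i => y (.inl (.inl i))) fun v => if v.1 = 0 then y (.inl (.inr v.2))
        else y (.inr v.2), ⟨hy.1, fun h0 => hw h0⟩, ?_⟩
      rintro ((i | k) | k)
      · rfl
      · rfl
      · rfl
  have h4 := h3.2
  rw [v2] at h4
  have h5 : L (L (m.val Y1) - m.val Y1) ∈ S := by
    rw [map_sub]
    exact h4
  rw [hS.line, sat_gm hS, v1] at h5
  exact ⟨hX, hS.pow 1 _ h5⟩

/-- a minor of size two -/
def mn {K R C : Type} [Field K] (z : R × C → K) (a : (Fin 2 → R) × (Fin 2 → C)) : K :=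
  z (a.1 0, a.2 0) * z (a.1 1, a.2 1) - z (a.1 0, a.2 1) * z (a.1 1, a.2 0)

/-- the condition that an entry or a minor of size two is zero -/
def matCond {R C : Type} (j : (R × C) ⊕ ((Fin 2 → R) × (Fin 2 → C))) : Cond (R × C) :=
  fun _ _ z => j.elim (fun v => z v = 0) fun a => mn z a = 0

lemma con_matCond {R C : Type} (j : (R × C) ⊕ ((Fin 2 → R) × (Fin 2 → C))) :
    IsCon (matCond j) := by
  rcases j with v | a
  · exact con_eq (isPoly_var v) isPoly_zero
  · exact con_eq (((isPoly_var _).mul (isPoly_var _)).sub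
      ((isPoly_var _).mul (isPoly_var _))) isPoly_zero

section field

variable {K R C : Type} [Field K]

/-- the matrix of the determinants of pairs of vectors -/
def prodMat (z : (R ⊕ C) × Fin 2 → K) : R × C → K := fun v => wz z (.inl v.1) (.inr v.2)

lemma mn_prodMat (z : (R ⊕ C) × Fin 2 → K) (a : (Fin 2 → R) × (Fin 2 → C)) :
    mn (prodMat z) a = wz z (.inl (a.1 0)) (.inl (a.1 1)) * wz z (.inr (a.2 0)) (.inr (a.2 1)) := by
  unfold mn prodMat wz
  ring

lemma two_le_rank [Finite R] [Fintype C] {z : R × C → K} {a : (Fin 2 → R) × (Fin 2 → C)}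
    (h : mn z a ≠ 0) : 2 ≤ (Matrix.of fun i j => z (i, j)).rank := by
  rw [le_rank_iff]
  refine ⟨a.1, a.2, ?_⟩
  rw [det_fin_two]
  exact h

lemma exists_mn [Finite R] [Fintype C] {z : R × C → K}
    (h : 2 ≤ (Matrix.of fun i j => z (i, j)).rank) : ∃ a, mn z a ≠ 0 := by
  rw [le_rank_iff] at h
  obtain ⟨f, g, h⟩ := h
  rw [det_fin_two] at h
  exact ⟨(f, g), h⟩

lemma rank_prodMat [Finite R] [Fintype C] {z : (R ⊕ C) × Fin 2 → K}
    {a : (Fin 2 → R) × (Fin 2 → C)} (h : mn (prodMat z) a ≠ 0) :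
    (Matrix.of fun i j => prodMat z (i, j)).rank = 2 := by
  refine le_antisymm ?_ (two_le_rank h)
  have : (Matrix.of fun i j => prodMat z (i, j)) =
      Matrix.of (fun (i : R) (k : Fin 2) => z (.inl i, k)) *
        Matrix.of fun (k : Fin 2) (j : C) => if k = 0 then z (.inr j, 1) else - z (.inr j, 0) := by
    ext i j
    rw [Matrix.mul_apply, Fin.sum_univ_two]
    simp only [prodMat, wz, Matrix.of_apply, if_true]
    rw [if_neg (by decide)]
    ring
  rw [this]
  exact (rank_mul_le_left _ _).trans ((rank_le_card_width _).trans (Fintype.card_fin 2).le)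

lemma entry_eq [Finite R] [Fintype C] {A : R × C → K} {a : (Fin 2 → R) × (Fin 2 → C)}
    (hr : (Matrix.of fun i j => A (i, j)).rank = 2) (i : R) (j : C) :
    A (i, j) * mn A a = (A (i, a.2 0) * A (a.1 1, a.2 1) - A (i, a.2 1) * A (a.1 1, a.2 0)) *
        A (a.1 0, j) + (A (a.1 0, a.2 0) * A (i, a.2 1) - A (a.1 0, a.2 1) * A (i, a.2 0)) *
        A (a.1 1, j) := by
  have h := det_eq_zero_of_rank_lt (Matrix.of fun i j => A (i, j)) (n := Fin 3)
    ![a.1 0, a.1 1, i] ![a.2 0, a.2 1, j] (by rw [hr, Fintype.card_fin]; decide)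
  rw [det_fin_three] at h
  simp only [submatrix_apply, Matrix.of_apply, Matrix.cons_val_zero, Matrix.cons_val_one,
    Matrix.cons_val] at h
  unfold mn
  linear_combination h

end field

/-- rank two matrices with a nonzero minor and prescribed vanishing of entries and minors -/
lemma good_minor (hS : Saturated L S) (hpt : Good m S pt) {R C : Type} [Finite R] [Fintype C]
    (a : (Fin 2 → R) × (Fin 2 → C)) (F : ((R × C) ⊕ ((Fin 2 → R) × (Fin 2 → C)) → Prop) → Prop) :
    Good m S fun K _ (z : R × C → K) => ((Matrix.of fun i j => z (i, j)).rank = 2 ∧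
      F fun j => matCond j K z) ∧ mn z a ≠ 0 := by
  have h1 := good_parBool hS hpt (A := R ⊕ C) fun U =>
    ¬ U (.inr (.inl (a.1 0), .inl (a.1 1))) ∧ ¬ U (.inr (.inr (a.2 0), .inr (a.2 1))) ∧
      F fun j => j.elim (fun v => U (.inr (.inl v.1, .inr v.2)))
        fun b => U (.inr (.inl (b.1 0), .inl (b.1 1))) ∨ U (.inr (.inr (b.2 0), .inr (b.2 1)))
  have hpat : ∀ (K : Type) [Field K] (z : (R ⊕ C) × Fin 2 → K),
      (fun j : (R × C) ⊕ ((Fin 2 → R) × (Fin 2 → C)) => j.elim
        (fun v => parCond (.inr (.inl v.1, .inr v.2)) K z)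
        fun b => parCond (.inr (.inl (b.1 0), .inl (b.1 1))) K z ∨
          parCond (.inr (.inr (b.2 0), .inr (b.2 1))) K z) = fun j => matCond j K (prodMat z) := by
    intro K _ z
    funext j
    rcases j with v | b
    · rfl
    · refine propext ?_
      change (wz z _ _ = 0 ∨ wz z _ _ = 0) ↔ mn (prodMat z) b = 0
      rw [mn_prodMat, mul_eq_zero]
  have cY : IsCon fun K _ (z : R × C → K) => ((Matrix.of fun i j => z (i, j)).rank = 2 ∧
      F fun j => matCond j K z) ∧ mn z a ≠ 0 :=
    con_and (con_and (con_rank (fun v _ _ z => z v) (fun v => isPoly_var v) 2)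
      (con_pattern con_matCond F)) (con_not (con_matCond (.inr a)))
  refine good_gl2 hS cY ?_
  refine (good_bij h1.1 (con_and (con_res cY _) (con_ne (isPoly_wz _ _ _) isPoly_zero))
    (fun v _ _ z => v.elim (fun v => prodMat z v) fun v => z (.inl (a.1 v.1), v.2))
    ?_ ?_ ?_ ?_).1 h1
  · rintro (v | v)
    · exact isPoly_wz id _ _
    · exact isPoly_var _
  · rintro K _ z ⟨hz1, hz2, hF⟩
    rw [hpat] at hF
    have h2 : mn (prodMat z) a ≠ 0 := by
      rw [mn_prodMat]
      exact mul_ne_zero hz1 hz2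
    exact ⟨⟨⟨rank_prodMat h2, hF⟩, h2⟩, hz1⟩
  · rintro K _ z z' ⟨hz1, hz2, hF⟩ ⟨hz1', hz2', hF'⟩ heq
    have e1 : ∀ i j, wz z (.inl i) (.inr j) = wz z' (.inl i) (.inr j) := fun i j => heq (.inl (i, j))
    have e2 : ∀ k l, z (.inl (a.1 k), l) = z' (.inl (a.1 k), l) := fun k l => heq (.inr (k, l))
    have e3 : ∀ j l, z (.inr j, l) = z' (.inr j, l) := by
      intro j l
      have i1 : wz z (.inl (a.1 0)) (.inl (a.1 1)) * z (.inr j, l) =
          wz z (.inl (a.1 0)) (.inr j) * z (.inl (a.1 1), l) -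
            wz z (.inl (a.1 1)) (.inr j) * z (.inl (a.1 0), l) := by
        unfold wz
        fin_cases l
        · change _ * z (.inr j, 0) = _ * z (.inl (a.1 1), 0) - _ * z (.inl (a.1 0), 0)
          ring
        · change _ * z (.inr j, 1) = _ * z (.inl (a.1 1), 1) - _ * z (.inl (a.1 0), 1)
          ring
      have i2 : wz z' (.inl (a.1 0)) (.inl (a.1 1)) * z' (.inr j, l) =
          wz z' (.inl (a.1 0)) (.inr j) * z' (.inl (a.1 1), l) -
            wz z' (.inl (a.1 1)) (.inr j) * z' (.inl (a.1 0), l) := by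
        unfold wz
        fin_cases l
        · change _ * z' (.inr j, 0) = _ * z' (.inl (a.1 1), 0) - _ * z' (.inl (a.1 0), 0)
          ring
        · change _ * z' (.inr j, 1) = _ * z' (.inl (a.1 1), 1) - _ * z' (.inl (a.1 0), 1)
          ring
      have i3 : wz z (.inl (a.1 0)) (.inl (a.1 1)) = wz z' (.inl (a.1 0)) (.inl (a.1 1)) := by
        unfold wz
        rw [e2, e2, e2, e2]
      rw [e1, e1, e2, e2, ← i2, i3] at i1
      exact mul_left_cancel₀ hz1' i1
    funext v
    rcases v with ⟨i | j, l⟩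
    · have i1 : wz z (.inr (a.2 0)) (.inr (a.2 1)) * z (.inl i, l) =
          wz z (.inl i) (.inr (a.2 1)) * z (.inr (a.2 0), l) -
            wz z (.inl i) (.inr (a.2 0)) * z (.inr (a.2 1), l) := by
        unfold wz
        fin_cases l
        · change _ * z (.inl i, 0) = _ * z (.inr (a.2 0), 0) - _ * z (.inr (a.2 1), 0)
          ring
        · change _ * z (.inl i, 1) = _ * z (.inr (a.2 0), 1) - _ * z (.inr (a.2 1), 1)
          ring
      have i2 : wz z' (.inr (a.2 0)) (.inr (a.2 1)) * z' (.inl i, l) =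
          wz z' (.inl i) (.inr (a.2 1)) * z' (.inr (a.2 0), l) -
            wz z' (.inl i) (.inr (a.2 0)) * z' (.inr (a.2 1), l) := by
        unfold wz
        fin_cases l
        · change _ * z' (.inl i, 0) = _ * z' (.inr (a.2 0), 0) - _ * z' (.inr (a.2 1), 0)
          ring
        · change _ * z' (.inl i, 1) = _ * z' (.inr (a.2 0), 1) - _ * z' (.inr (a.2 1), 1)
          ring
      have i3 : wz z (.inr (a.2 0)) (.inr (a.2 1)) = wz z' (.inr (a.2 0)) (.inr (a.2 1)) := by
        unfold wz
        rw [e3, e3, e3, e3]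
      rw [e1, e1, e3, e3, ← i2, i3] at i1
      exact mul_left_cancel₀ hz2' i1
    · exact e3 j l
  · rintro K _ y ⟨⟨⟨hr, hF⟩, hM⟩, hd⟩
    let A : R × C → K := fun v => y (.inl v)
    let d : K := wz (fun v => y (.inr v)) (0 : Fin 2) 1
    let M : K := mn A a
    have hd0 : d ≠ 0 := hd
    have hM0 : M ≠ 0 := hM
    let z : (R ⊕ C) × Fin 2 → K := fun v => v.1.elim
      (fun i => (A (i, a.2 0) * A (a.1 1, a.2 1) - A (i, a.2 1) * A (a.1 1, a.2 0)) / M *
        y (.inr (0, v.2)) + (A (a.1 0, a.2 0) * A (i, a.2 1) - A (a.1 0, a.2 1) * A (i, a.2 0)) / M *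
        y (.inr (1, v.2)))
      fun j => (A (a.1 0, j) * y (.inr (1, v.2)) - A (a.1 1, j) * y (.inr (0, v.2))) / d
    have hMd : M = A (a.1 0, a.2 0) * A (a.1 1, a.2 1) - A (a.1 0, a.2 1) * A (a.1 1, a.2 0) := rfl
    have hdd : d = y (.inr (0, 0)) * y (.inr (1, 1)) - y (.inr (0, 1)) * y (.inr (1, 0)) := rfl
    have zl : ∀ i l, z (.inl i, l) = (A (i, a.2 0) * A (a.1 1, a.2 1) -
        A (i, a.2 1) * A (a.1 1, a.2 0)) / M * y (.inr (0, l)) + (A (a.1 0, a.2 0) * A (i, a.2 1) -
        A (a.1 0, a.2 1) * A (i, a.2 0)) / M * y (.inr (1, l)) := fun i l => rfl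
    have zr : ∀ j l, z (.inr j, l) =
      (A (a.1 0, j) * y (.inr (1, l)) - A (a.1 1, j) * y (.inr (0, l))) / d := fun j l => rfl
    have hA : ∀ i j, wz z (.inl i) (.inr j) = A (i, j) := by
      intro i j
      have h3 := entry_eq (A := A) (a := a) hr i j
      have h4 : wz z (.inl i) (.inr j) * (M * d) = A (i, j) * (M * d) := by
        unfold wz
        rw [zl, zl, zr, zr]
        field_simp
        rw [hdd]
        change A (i, j) * M = _ at h3
        linear_combination (-(y (.inr (0, 0)) * y (.inr (1, 1)) -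
          y (.inr (0, 1)) * y (.inr (1, 0)))) * h3
      exact mul_right_cancel₀ (mul_ne_zero hM0 hd0) h4
    have hprod : prodMat z = A := by
      funext ⟨i, j⟩
      exact hA i j
    have hu : ∀ k l, z (.inl (a.1 k), l) = y (.inr (k, l)) := by
      intro k l
      rw [zl]
      fin_cases k
      · change (A (a.1 0, a.2 0) * A (a.1 1, a.2 1) - A (a.1 0, a.2 1) * A (a.1 1, a.2 0)) / M *
          y (.inr (0, l)) + (A (a.1 0, a.2 0) * A (a.1 0, a.2 1) -
          A (a.1 0, a.2 1) * A (a.1 0, a.2 0)) / M * y (.inr (1, l)) = y (.inr (0, l))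
        rw [← hMd]
        field_simp
        ring
      · change (A (a.1 1, a.2 0) * A (a.1 1, a.2 1) - A (a.1 1, a.2 1) * A (a.1 1, a.2 0)) / M *
          y (.inr (0, l)) + (A (a.1 0, a.2 0) * A (a.1 1, a.2 1) -
          A (a.1 0, a.2 1) * A (a.1 1, a.2 0)) / M * y (.inr (1, l)) = y (.inr (1, l))
        rw [← hMd]
        field_simp
        ring
    have hz1 : wz z (.inl (a.1 0)) (.inl (a.1 1)) ≠ 0 := by
      have : wz z (.inl (a.1 0)) (.inl (a.1 1)) = d := by
        unfold wz
        rw [hu, hu, hu, hu, hdd]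
      rw [this]
      exact hd0
    have hz2 : wz z (.inr (a.2 0)) (.inr (a.2 1)) ≠ 0 := by
      have h3 := mn_prodMat z a
      rw [hprod] at h3
      intro h4
      rw [h4, mul_zero] at h3
      exact hM0 h3
    refine ⟨z, ⟨hz1, hz2, ?_⟩, ?_⟩
    · rw [hpat, hprod]
      exact hF
    · rintro (v | v)
      · exact congrFun hprod v
      · exact hu v.1 v.2

/-- all conditions on rank two matrices -/
lemma good_sp_two (hS : Saturated L S) (hpt : Good m S pt) {R C : Type} [Finite R] [Fintype C]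
    (T : R × C → Prop) : Good m S (sp T 2) := by
  classical
  have key : ∀ s : Finset ((Fin 2 → R) × (Fin 2 → C)),
      ∀ F : ((R × C) ⊕ ((Fin 2 → R) × (Fin 2 → C)) → Prop) → Prop,
      (∀ U, F U → ∃ a ∈ s, ¬ U (.inr a)) → Good m S fun K _ (z : R × C → K) =>
        (Matrix.of fun i j => z (i, j)).rank = 2 ∧ F fun j => matCond j K z := by
    intro s
    induction s using Finset.induction_on with
    | empty =>
      intro F h
      exact good_false fun K _ z hz => by simpa using h _ hz.2
    | insert a s ha ih =>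
      intro F h
      refine Good.glue (con_and (con_rank (fun v _ _ z => z v) (fun v => isPoly_var v) 2)
        (con_pattern con_matCond F)) (con_matCond (.inr a)) ?_ (good_minor hS hpt a F)
      refine (ih (fun U => F U ∧ U (.inr a)) fun U hU => ?_).congr fun K _ z => ?_
      · obtain ⟨b, hb, hb'⟩ := h U hU.1
        rcases Finset.mem_insert.1 hb with rfl | hb
        · exact (hb' hU.2).elim
        · exact ⟨b, hb, hb'⟩
      · tauto
  have _ : Fintype ((Fin 2 → R) × (Fin 2 → C)) := Fintype.ofFinite _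
  refine (key Finset.univ (fun U => (∀ v, ¬ T v → U (.inl v)) ∧ ∃ a, ¬ U (.inr a)) fun U hU =>
    ?_).congr fun K _ z => ?_
  · obtain ⟨a, ha⟩ := hU.2
    exact ⟨a, Finset.mem_univ _, ha⟩
  · constructor
    · rintro ⟨h1, h2, _⟩
      exact ⟨h2, h1⟩
    · rintro ⟨h1, h2⟩
      exact ⟨h2, h1, exists_mn h2.ge⟩

/-- from rank `r + 1` to rank `r` -/
lemma good_sp_pred (hS : Saturated L S) {r : ℕ}
    (h : ∀ (R C : Type) [Fintype R] [Fintype C] (T : R × C → Prop), Good m S (sp T (r + 1)))
    (R C : Type) [Fintype R] [Fintype C] (T : R × C → Prop) : Good m S (sp T r) := by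
  classical
  let T' : (R ⊕ Fin (r + 1)) × C → Prop := fun v => v.1.elim (fun i => T (i, v.2)) fun _ => False
  have h1 : Good m S (sp T' r) := good_col hS (by
    rw [Nat.card_eq_fintype_card, Fintype.card_sum, Fintype.card_fin]
    omega) (h _ _ _) (h _ _ _)
  have hrk : ∀ (K : Type) [Field K] (z : (R ⊕ Fin (r + 1)) × C → K), (∀ v, ¬ T' v → z v = 0) →
      (Matrix.of fun i j => z (i, j)).rank = (Matrix.of fun i j => z (.inl i, j)).rank := by
    intro K _ z hz
    apply le_antisymm
    · have : (Matrix.of fun i j => z (i, j)) = Matrix.of (fun (a : R ⊕ Fin (r + 1)) (i : R) =>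
          if a = .inl i then (1 : K) else 0) * Matrix.of fun i j => z (.inl i, j) := by
        ext a j
        rw [Matrix.mul_apply]
        rcases a with i | k
        · simp
        · simp only [Matrix.of_apply]
          rw [hz (.inr k, j) fun h => h]
          simp
      rw [this]
      exact rank_mul_le_right _ _
    · exact rank_submatrix_le (Matrix.of fun i j => z (i, j)) Sum.inl id
  refine (good_bij h1.1 (con_sp T r) (fun v _ _ z => z (.inl v.1, v.2)) (fun v => isPoly_var _)
    ?_ ?_ ?_).1 h1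
  · rintro K _ z ⟨hz, hr⟩
    exact ⟨fun v hv => hz (.inl v.1, v.2) hv, (hrk K z hz).symm.trans hr⟩
  · rintro K _ z z' ⟨hz, _⟩ ⟨hz', _⟩ heq
    funext v
    rcases v with ⟨i | k, j⟩
    · exact heq (i, j)
    · rw [hz (.inr k, j) fun h => h, hz' (.inr k, j) fun h => h]
  · rintro K _ y ⟨hy, hr⟩
    let z : (R ⊕ Fin (r + 1)) × C → K := fun v => v.1.elim (fun i => y (i, v.2)) fun _ => 0
    have hz : ∀ v, ¬ T' v → z v = 0 := by
      rintro ⟨i | k, j⟩ hv
      · exact hy (i, j) hv
      · rfl
    refine ⟨z, ⟨hz, ?_⟩, fun v => rfl⟩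
    rw [hrk K z hz]
    exact hr

/-- sparse matrices of rank at most two -/
theorem good_spLe_two (hS : Saturated L S) (hpt : Good m S pt) {r : ℕ} (hr : r ≤ 2)
    {R C : Type} [Fintype R] [Fintype C] (T : R × C → Prop) : Good m S (spLe T r) := by
  have h2 : ∀ (R C : Type) [Fintype R] [Fintype C] (T : R × C → Prop), Good m S (sp T 2) :=
    fun R C _ _ T => good_sp_two hS hpt T
  have h1 := good_sp_pred hS h2
  have h0 := good_sp_pred hS h1
  have step : ∀ r, Good m S (spLe T r) → Good m S (sp T (r + 1)) → Good m S (spLe T (r + 1)) := by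
    intro r a b
    refine Good.glue (con_spLe T _) (con_spLe T r) (a.congr fun K _ z => ?_)
      (b.congr fun K _ z => ?_)
    · unfold spLe
      constructor
      · rintro ⟨h3, h4⟩
        exact ⟨⟨h3, by omega⟩, h3, h4⟩
      · rintro ⟨_, h3⟩
        exact h3
    · unfold spLe sp
      constructor
      · rintro ⟨h3, h4⟩
        refine ⟨⟨h3, by omega⟩, fun h5 => ?_⟩
        have := h5.2
        omega
      · rintro ⟨⟨h3, h4⟩, h5⟩
        refine ⟨h3, ?_⟩
        have : ¬ (Matrix.of fun i j => z (i, j)).rank ≤ r := fun h => h5 ⟨h3, h⟩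
        omega
  have g0 : Good m S (spLe T 0) := (h0 R C T).congr fun K _ z => by
    unfold spLe sp
    rw [Nat.le_zero]
  have g1 := step 0 g0 (h1 R C T)
  have g2 := step 1 g1 (h2 R C T)
  interval_cases r
  · exact g0
  · exact g1
  · exact g2

/-- sparse matrices of rank `r ≤ 2` -/
theorem good_sp_le_two (hS : Saturated L S) (hpt : Good m S pt) {r : ℕ} (hr : r ≤ 2)
    {R C : Type} [Fintype R] [Fintype C] (T : R × C → Prop) : Good m S (sp T r) := by
  have h2 : ∀ (R C : Type) [Fintype R] [Fintype C] (T : R × C → Prop), Good m S (sp T 2) :=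
    fun R C _ _ T => good_sp_two hS hpt T
  have h1 := good_sp_pred hS h2
  have h0 := good_sp_pred hS h1
  interval_cases r
  · exact h0 R C T
  · exact h1 R C T
  · exact h2 R C T

end Pool.Agent.H504.MC
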